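import Pool.Agent.ESAs.Stmts

open Finset

namespace ESAs

namespace BC

lemma card_Tk (M Q u : ℕ) (hM : 0 < M) (hu : 0 < u) (k : ℕ) (T : Finset ℕ)
    (hT : ∀ n ∈ T, M * n / Q = k ∧ (M * n % Q) * u < Q) : (#T : ℝ) ≤ (Q : ℝ) / (u * M) + 1 := by
  rcases T.eq_empty_or_nonempty with h | h
  · subst h
    simp only [card_empty, Nat.cast_zero]
    positivity
  · have h0 := T.min'_mem h
    set n0 := T.min' h
    have hsub : T ⊆ Icc n0 (n0 + Q / (u * M)) := by
      intro n hn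
      have h1 : n0 ≤ n := T.min'_le n hn
      obtain ⟨h2, h3⟩ := hT n hn
      obtain ⟨h4, h5⟩ := hT n0 h0
      rw [mem_Icc]
      refine ⟨h1, ?_⟩
      have e1 := Nat.div_add_mod (M * n) Q
      have e2 := Nat.div_add_mod (M * n0) Q
      rw [h2] at e1
      rw [h4] at e2
      obtain ⟨d, rfl⟩ := Nat.exists_eq_add_of_le h1
      have e3 : M * d ≤ M * (n0 + d) % Q := by
        have : M * (n0 + d) = M * n0 + M * d := by ring
        omega
      have e4 : d * (u * M) ≤ Q := by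
        calc d * (u * M) = (M * d) * u := by ring
          _ ≤ (M * (n0 + d) % Q) * u := Nat.mul_le_mul_right _ e3
          _ ≤ Q := h3.le
      have e5 : d ≤ Q / (u * M) := (Nat.le_div_iff_mul_le (Nat.mul_pos hu hM)).2 e4
      omega
    have h1 := card_le_card hsub
    rw [Nat.card_Icc] at h1
    have h2 : #T ≤ Q / (u * M) + 1 := by
      generalize Q / (u * M) = D at h1 ⊢
      omega
    have h3 : (#T : ℝ) ≤ ((Q / (u * M) : ℕ) : ℝ) + 1 := by exact_mod_cast h2
    have h4 : ((Q / (u * M) : ℕ) : ℝ) ≤ (Q : ℝ) / ((u * M : ℕ) : ℝ) := Nat.cast_div_le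
    push_cast at h4
    linarith

/-- the integers with a small residue at the level `Λ` -/
lemma card_S3 (M Q u X : ℕ) (hM : 0 < M) (hu : 0 < u) (hQ : 0 < Q) (hMX : M * X ≤ 2 * u * Q) :
    (#{n ∈ Icc 1 X | Q ≤ M * n ∧ (M * n % Q) * u < Q} : ℝ) ≤ (X : ℝ) / u + 2 * u := by
  classical
  set S := {n ∈ Icc 1 X | Q ≤ M * n ∧ (M * n % Q) * u < Q} with hS
  set K := M * X / Q with hK
  have hmap : ∀ n ∈ S, M * n / Q ∈ Icc 1 K := by
    intro n hn
    rw [hS, mem_filter, mem_Icc] at hn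
    rw [mem_Icc]
    refine ⟨(Nat.le_div_iff_mul_le hQ).2 (by omega), ?_⟩
    exact Nat.div_le_div_right (Nat.mul_le_mul_left _ hn.1.2)
  have h1 := card_eq_sum_card_fiberwise (f := fun n => M * n / Q) (s := S) (t := Icc 1 K)
    (fun n hn => hmap n hn)
  have h2 : ∀ k ∈ Icc 1 K, (#{n ∈ S | M * n / Q = k} : ℝ) ≤ (Q : ℝ) / (u * M) + 1 := by
    intro k _
    apply card_Tk M Q u hM hu k
    intro n hn
    rw [mem_filter, hS, mem_filter] at hn
    exact ⟨hn.2, hn.1.2.2⟩
  have h3 : (#S : ℝ) ≤ (K : ℝ) * ((Q : ℝ) / (u * M) + 1) := by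
    rw [h1]
    push_cast
    refine (sum_le_sum h2).trans ?_
    rw [sum_const, Nat.card_Icc, nsmul_eq_mul]
    simp
  have hKle : (K : ℝ) ≤ (M : ℝ) * X / Q := by
    have := Nat.cast_div_le (α := ℝ) (m := M * X) (n := Q)
    push_cast at this
    exact this
  have hK2 : (K : ℝ) ≤ 2 * u := by
    refine hKle.trans ?_
    rw [div_le_iff₀ (by exact_mod_cast hQ)]
    exact_mod_cast hMX
  have hMr : (0 : ℝ) < M := by exact_mod_cast hM
  have hur : (0 : ℝ) < u := by exact_mod_cast hu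
  have hQr : (0 : ℝ) < Q := by exact_mod_cast hQ
  calc (#S : ℝ) ≤ (K : ℝ) * ((Q : ℝ) / (u * M) + 1) := h3
    _ = (K : ℝ) * ((Q : ℝ) / (u * M)) + K := by ring
    _ ≤ ((M : ℝ) * X / Q) * ((Q : ℝ) / (u * M)) + 2 * u := by gcongr
    _ = (X : ℝ) / u + 2 * u := by field_simp

end BC

theorem tBC (hparF : St_parF) (hBCbox : St_BCbox) : St_BC := by
  obtain ⟨C, hC, hbox⟩ := hBCbox
  refine ⟨C + 4, by linarith, ?_⟩
  intro b q M N X L Rr η hP
  classical
  obtain ⟨-, -, huN, hM1, -, hqu, hBX, -, -⟩ := hparF b q M N X L Rr η hP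
  have hb := hP.hb
  have hq0 : 0 < q := hP.hq.pos
  set u := uu b Rr with hu
  have hub : b ≤ u := by
    rw [hu, uu]
    exact Nat.le_self_pow (by positivity) b
  have hu2 : 2 ≤ u := hb.trans hub
  have hu0 : 0 < u := by omega
  set Q := q ^ (L + Rr + 1) with hQ
  have hQ0 : 0 < Q := pow_pos hq0 _
  have hNX : N * X * u ≤ Q := hP.h3
  have hMX : M * X ≤ 2 * u * Q := by
    calc M * X ≤ (2 * u ^ 2 * N) * X := Nat.mul_le_mul_right _ hP.h4'
      _ = 2 * u * (N * X * u) := by ring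
      _ ≤ 2 * u * Q := Nat.mul_le_mul_left _ hNX
  have hq2u : 2 * u < q := by
    have h1 : u < u ^ 4 := by
      calc u = u ^ 1 := (pow_one u).symm
        _ < u ^ 4 := Nat.pow_lt_pow_right (by omega) (by norm_num)
    have h2 : 2 * u ^ 4 ≤ q := hP.h1
    omega
  have hqL : 0 < q ^ L := pow_pos hq0 _
  set B0 := q ^ L * (X / q ^ L) with hB0
  set S1 := {n ∈ range B0 | ∀ J, 0 < J → J ≤ N → J < M → ¬ Dom q J M (L + Rr) n} with hS1
  set S3 := {n ∈ Icc 1 X | Q ≤ M * n ∧ (M * n % Q) * u < Q} with hS3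
  have hsub : {n ∈ Icc 1 X | ∀ J, 0 < J → J < M →
      ∃ i, (M * n) % q ^ (i + 1) < (J * n) % q ^ (i + 1)} ⊆ (S1 ∪ Icc B0 X) ∪ S3 := by
    intro n hn
    rw [mem_filter, mem_Icc] at hn
    obtain ⟨⟨hn1, hnX⟩, hn2⟩ := hn
    rw [mem_union, mem_union]
    by_cases h1 : B0 ≤ n
    · left; right
      rw [mem_Icc]; exact ⟨h1, hnX⟩
    · by_cases h2 : n ∈ S1
      · left; left; exact h2
      · right
        rw [hS1, mem_filter, mem_range] at h2
        push Not at h2
        obtain ⟨J, hJ0, hJN, hJM, hD⟩ := h2 (not_le.1 h1)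
        obtain ⟨i, hi⟩ := hn2 J hJ0 hJM
        have hJn : J * n * u ≤ Q := by
          calc J * n * u ≤ N * X * u := by gcongr
            _ ≤ Q := hNX
        have hJnM : J * n < M * n := Nat.mul_lt_mul_of_pos_right hJM (by omega)
        rcases lt_trichotomy i (L + Rr) with h3 | h3 | h3
        · exact absurd hi (not_lt.2 (hD i h3))
        · subst h3
          change (M * n) % Q < (J * n) % Q at hi
          have hJQ : J * n < Q := by
            have : J * n * 2 ≤ Q := le_trans (Nat.mul_le_mul_left _ hu2) hJn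
            have : 0 < J * n := Nat.mul_pos hJ0 (by omega)
            omega
          rw [Nat.mod_eq_of_lt hJQ] at hi
          rw [hS3, mem_filter, mem_Icc]
          refine ⟨⟨hn1, hnX⟩, ?_, ?_⟩
          · by_contra h4
            rw [Nat.mod_eq_of_lt (not_le.1 h4)] at hi
            omega
          · exact lt_of_lt_of_le (Nat.mul_lt_mul_of_pos_right hi hu0) hJn
        · exfalso
          have h4 : q * Q ≤ q ^ (i + 1) := by
            rw [hQ, ← pow_succ']
            exact Nat.pow_le_pow_right hq0 (by omega)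
          have h5 : M * n < q ^ (i + 1) := by
            calc M * n ≤ M * X := Nat.mul_le_mul_left _ hnX
              _ ≤ 2 * u * Q := hMX
              _ < q * Q := Nat.mul_lt_mul_of_pos_right hq2u hQ0
              _ ≤ _ := h4
          rw [Nat.mod_eq_of_lt h5, Nat.mod_eq_of_lt (by omega)] at hi
          omega
  have hcard := card_le_card hsub
  have h1 := card_union_le (S1 ∪ Icc B0 X) S3
  have h2 := card_union_le S1 (Icc B0 X)
  have h3 : #(Icc B0 X) ≤ q ^ L := by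
    rw [Nat.card_Icc]
    have e1 := Nat.div_add_mod X (q ^ L)
    have e2 := Nat.mod_lt X hqL
    have e3 : B0 + X % q ^ L = X := e1
    omega
  have h4 := BC.card_S3 M Q u X (by omega) hu0 hQ0 hMX
  have h5 := hbox b q M N X L Rr η hP
  have hbr : (0 : ℝ) < b := by exact_mod_cast (by omega : 0 < b)
  have hur : (0 : ℝ) < u := by exact_mod_cast hu0
  have hXn : (0 : ℝ) ≤ X := Nat.cast_nonneg _
  have h6 : (q : ℝ) ^ L ≤ X / b := by
    rw [le_div_iff₀ hbr]
    have : q ^ L * b ≤ X := by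
      calc q ^ L * b ≤ q ^ L * (q * u) := by
            apply Nat.mul_le_mul_left
            calc b ≤ u := hub
              _ ≤ q * u := Nat.le_mul_of_pos_left _ hq0
        _ ≤ q ^ L * (X / q ^ L) := Nat.mul_le_mul_left _ hqu
        _ ≤ X := hBX
    exact_mod_cast this
  have h7 : (X : ℝ) / u ≤ X / b := by
    apply div_le_div_of_nonneg_left hXn hbr
    exact_mod_cast hub
  have h8 : 2 * (u : ℝ) ≤ X / b := by
    rw [le_div_iff₀ hbr]
    have : 2 * u * b ≤ X := by
      calc 2 * u * b ≤ q * u := by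
            calc 2 * u * b ≤ 2 * u * u := Nat.mul_le_mul_left _ hub
              _ ≤ q * u := Nat.mul_le_mul_right _ hq2u.le
        _ ≤ X / q ^ L := hqu
        _ ≤ X := Nat.div_le_self _ _
    exact_mod_cast this
  have hΛ : (1 : ℝ) ≤ (L : ℝ) + Rr := by
    have : 1 ≤ Rr := hP.hRr
    have h : (1 : ℝ) ≤ Rr := by exact_mod_cast this
    have : (0 : ℝ) ≤ L := Nat.cast_nonneg _
    linarith
  have h9 : (X : ℝ) / b ≤ X * (((L : ℝ) + Rr) / b) := by
    have : (X : ℝ) / b = X * (1 / b) := by ring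
    rw [this]
    gcongr
  have h10 : (0 : ℝ) < Real.exp (-(η ^ 2 / 4 * ((L : ℝ) + Rr))) := Real.exp_pos _
  have hfin : (#{n ∈ Icc 1 X | ∀ J, 0 < J → J < M →
      ∃ i, (M * n) % q ^ (i + 1) < (J * n) % q ^ (i + 1)} : ℝ) ≤ (#S1 : ℝ) + q ^ L + #S3 := by
    have : #{n ∈ Icc 1 X | ∀ J, 0 < J → J < M →
      ∃ i, (M * n) % q ^ (i + 1) < (J * n) % q ^ (i + 1)} ≤ #S1 + q ^ L + #S3 := by omega
    exact_mod_cast this
  refine hfin.trans ?_
  have h11 : (#S1 : ℝ) + q ^ L + #S3 ≤ C * X * (((L : ℝ) + Rr) / b +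
      Real.exp (-(η ^ 2 / 4 * ((L : ℝ) + Rr)))) + 3 * (X / b) := by
    linarith
  refine h11.trans ?_
  have h12 : 0 ≤ (X : ℝ) * Real.exp (-(η ^ 2 / 4 * ((L : ℝ) + Rr))) := by positivity
  have h13 : 0 ≤ (X : ℝ) * (((L : ℝ) + Rr) / b) := by positivity
  nlinarith

end ESAs
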