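import Pool.Agent.ESAs.Stmts

open Finset

namespace ESAs

namespace BCbox

/-- the fractional parts -/
noncomputable def yy (q M i n : ℕ) : ℝ := ((M * n % q ^ (i + 1) : ℕ) : ℝ) / (q : ℝ) ^ (i + 1)

/-- the weight of `J` -/
noncomputable def W (b q M Λ J n : ℕ) : ℝ := ∏ i ∈ range Λ, gF (1 / b) (pt q ![J, M] i n)

lemma gF_val {q : ℕ} (hq : 0 < q) (M J : ℕ) (κ : ℝ) (i n : ℕ) :
    gF κ (pt q ![J, M] i n) =
      if yy q J i n ≤ yy q M i n ∧ κ ≤ yy q M i n then 1 / yy q M i n else 0 := by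
  unfold gF
  rw [fract_pt q hq, fract_pt q hq]
  rfl

lemma gS_val {q : ℕ} (hq : 0 < q) (M J J' : ℕ) (κ : ℝ) (i n : ℕ) :
    gS κ (pt q ![J, J', M] i n) =
      if yy q J i n ≤ yy q M i n ∧ yy q J' i n ≤ yy q M i n ∧ κ ≤ yy q M i n then
        (1 / yy q M i n) ^ 2 else 0 := by
  unfold gS
  rw [fract_pt q hq, fract_pt q hq, fract_pt q hq]
  rfl

lemma gF_le {q : ℕ} (hq : 0 < q) (M J : ℕ) {κ : ℝ} (hκ : 0 < κ) (i n : ℕ) :
    gF κ (pt q ![J, M] i n) ≤ (max (yy q M i n) κ)⁻¹ := by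
  rw [gF_val hq]
  have h0 : 0 < max (yy q M i n) κ := lt_max_of_lt_right hκ
  split_ifs with h
  · rw [max_eq_left h.2, one_div]
  · exact inv_nonneg.2 h0.le

lemma W_nonneg (b q M Λ J n : ℕ) : 0 ≤ W b q M Λ J n := prod_nonneg fun _ _ => gF_nonneg _ _

lemma W_mul {q : ℕ} (hq : 0 < q) (b M Λ J J' n : ℕ) :
    W b q M Λ J n * W b q M Λ J' n = ∏ i ∈ range Λ, gS (1 / b) (pt q ![J, J', M] i n) := by
  unfold W
  rw [← prod_mul_distrib]
  refine prod_congr rfl fun i _ => ?_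
  rw [gF_val hq, gF_val hq, gS_val hq]
  by_cases h1 : yy q J i n ≤ yy q M i n <;> by_cases h2 : yy q J' i n ≤ yy q M i n <;>
    by_cases h3 : (1 / (b : ℝ)) ≤ yy q M i n
  · rw [if_pos ⟨h1, h3⟩, if_pos ⟨h2, h3⟩, if_pos ⟨h1, h2, h3⟩, sq]
  all_goals simp only [h1, h2, h3, and_true, and_false, false_and, and_self,
    if_false, if_true, zero_mul, mul_zero]

lemma W_dom {q : ℕ} (hq : 0 < q) {b M Λ J n : ℕ} (h : W b q M Λ J n ≠ 0) : Dom q J M Λ n := by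
  intro i hi
  have h1 := prod_ne_zero_iff.1 h i (mem_range.2 hi)
  rw [gF_val hq] at h1
  by_cases h2 : yy q J i n ≤ yy q M i n
  · unfold yy at h2
    have hq0 : (0 : ℝ) < (q : ℝ) ^ (i + 1) := by
      have : (0 : ℝ) < q := by exact_mod_cast hq
      positivity
    have h3 := (div_le_div_iff_of_pos_right hq0).1 h2
    exact_mod_cast h3
  · exact absurd (if_neg fun h3 => h2 h3.1) h1

/-- typical integers -/
def typ (b q M Λ : ℕ) (η : ℝ) (n : ℕ) : Prop :=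
  Real.exp (-((1 + η) * Λ)) ≤ ∏ i ∈ range Λ, max (yy q M i n) (1 / b)

lemma W_le {q : ℕ} (hq : 0 < q) {b M Λ J n : ℕ} {η : ℝ} (hb : 0 < b)
    (h : typ b q M Λ η n) : W b q M Λ J n ≤ Real.exp ((1 + η) * Λ) := by
  have hκ : (0 : ℝ) < 1 / b := by
    have : (0 : ℝ) < b := by exact_mod_cast hb
    positivity
  have h1 : W b q M Λ J n ≤ ∏ i ∈ range Λ, (max (yy q M i n) (1 / (b : ℝ)))⁻¹ :=
    prod_le_prod (fun i _ => gF_nonneg _ _) fun i _ => gF_le hq M J hκ i n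
  refine h1.trans ?_
  rw [prod_inv_distrib]
  have h2 : Real.exp ((1 + η) * Λ) = (Real.exp (-((1 + η) * Λ)))⁻¹ := by
    rw [← Real.exp_neg, neg_neg]
  rw [h2]
  exact inv_anti₀ (Real.exp_pos _) h

/-- Cauchy-Schwarz -/
lemma cs (S : Finset ℕ) (Z : ℕ → ℝ) [DecidablePred fun n => Z n ≠ 0] :
    (∑ n ∈ S, Z n) ^ 2 ≤ (#{n ∈ S | Z n ≠ 0} : ℝ) * ∑ n ∈ S, Z n ^ 2 := by
  have h1 : ∑ n ∈ S, Z n = ∑ n ∈ S with Z n ≠ 0, Z n := by
    rw [sum_filter]
    refine sum_congr rfl fun n _ => ?_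
    split_ifs with h
    · rfl
    · exact not_not.1 h
  rw [h1]
  refine (sq_sum_le_card_mul_sum_sq).trans ?_
  apply mul_le_mul_of_nonneg_left _ (Nat.cast_nonneg _)
  exact sum_le_sum_of_subset_of_nonneg (filter_subset _ _) fun _ _ _ => sq_nonneg _

/-- the final inequality -/
lemma final {B A N Z1 Z2 τ C5 C6 : ℝ} (hB : 0 < B) (hN : 0 < N) (hA : 0 ≤ A) (hτ : 0 ≤ τ)
    (hC5 : 0 ≤ C5) (hC6 : 0 ≤ C6) (h1 : Z1 ^ 2 ≤ A * Z2) (h2 : N * B * (1 - C6 * τ) ≤ Z1)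
    (h3 : Z2 ≤ N ^ 2 * B * (1 + C5 * τ)) : B - A ≤ (2 * C6 + C5 + C6) * τ * B := by
  by_cases h4 : 1 ≤ C6 * τ
  · have h5 : B ≤ C6 * τ * B := by nlinarith
    have h6 : 0 ≤ (2 * C6 + C5) * τ * B := by positivity
    nlinarith
  · push Not at h4
    have h5 : 0 ≤ N * B * (1 - C6 * τ) := by
      have : 0 ≤ 1 - C6 * τ := by linarith
      positivity
    have h6 : (N * B * (1 - C6 * τ)) ^ 2 ≤ Z1 ^ 2 := pow_le_pow_left₀ h5 h2 2
    have h7 : (N * B * (1 - C6 * τ)) ^ 2 ≤ A * (N ^ 2 * B * (1 + C5 * τ)) :=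
      h6.trans (h1.trans (mul_le_mul_of_nonneg_left h3 hA))
    have h8 : B * (1 - C6 * τ) ^ 2 ≤ A * (1 + C5 * τ) := by
      have e1 : (N ^ 2 * B) * (B * (1 - C6 * τ) ^ 2) ≤ (N ^ 2 * B) * (A * (1 + C5 * τ)) := by
        nlinarith
      exact le_of_mul_le_mul_left e1 (by positivity)
    have h9 : B * (1 - 2 * C6 * τ) ≤ A * (1 + C5 * τ) := by
      have : B * (1 - 2 * C6 * τ) ≤ B * (1 - C6 * τ) ^ 2 := by
        apply mul_le_mul_of_nonneg_left _ hB.le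
        nlinarith [sq_nonneg (C6 * τ)]
      linarith
    have h10 : 0 ≤ C6 * τ * B := by positivity
    have h11 : 0 ≤ C5 * τ := by positivity
    have h12 : 0 ≤ C6 * τ := by positivity
    by_contra h13
    push Not at h13
    have h14 : A < B * (1 - (2 * C6 + C5) * τ) := by nlinarith
    have h15 : A * (1 + C5 * τ) < B * (1 - (2 * C6 + C5) * τ) * (1 + C5 * τ) :=
      mul_lt_mul_of_pos_right h14 (by linarith)
    have h16 : B * (1 - (2 * C6 + C5) * τ) * (1 + C5 * τ) ≤ B * (1 - 2 * C6 * τ) := by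
      rw [mul_assoc]
      apply mul_le_mul_of_nonneg_left _ hB.le
      nlinarith [mul_nonneg h11 h11, mul_nonneg h12 h11]
    linarith

end BCbox

open BCbox in
theorem tBCbox (hparF : St_parF) (hFM : St_FM) (hLM : St_LM) (hSM : St_SM) (hSM2 : St_SM2) (hcntJ : St_cntJ) (hcntP : St_cntP) (hcntD : St_cntD) : St_BCbox := by
  classical
  obtain ⟨C1, hC1, hFM⟩ := hFM
  obtain ⟨C2, hC2, hLM⟩ := hLM
  obtain ⟨C3, hC3, hSM⟩ := hSM
  obtain ⟨C4, hC4, hSM2⟩ := hSM2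
  set C6 : ℝ := 1 + (C1 + C2) with hC6
  set C5 : ℝ := C3 + C4 + (1 + C1) with hC5
  refine ⟨2 * C6 + C5 + C6, by positivity, ?_⟩
  intro b q M N X L Rr η hP
  obtain ⟨-, -, huN, hM1, -, hqu, hBX, -, -, -, -, -, hΛb⟩ := hparF b q M N X L Rr η hP
  have hb := hP.hb
  have hq0 : 0 < q := hP.hq.pos
  have hb0 : 0 < b := by omega
  have hbr : (0 : ℝ) < b := by exact_mod_cast hb0
  have hb1 : (1 : ℝ) ≤ b := by exact_mod_cast hb0
  have hu0 : 0 < uu b Rr := by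
    unfold uu
    positivity
  have hN0 : 0 < N := lt_of_lt_of_le hu0 huN
  have hNr : (0 : ℝ) < N := by exact_mod_cast hN0
  have hRr := hP.hRr
  set Hh : ℕ := X / q ^ L with hHh
  have hHh0 : 0 < Hh := lt_of_lt_of_le (Nat.mul_pos hq0 hu0) hqu
  set B0 : ℕ := q ^ L * Hh with hB0
  have hB00 : 0 < B0 := Nat.mul_pos (pow_pos hq0 _) hHh0
  have hBr : (0 : ℝ) < B0 := by exact_mod_cast hB00
  have hBcast : (q : ℝ) ^ L * (Hh : ℝ) = B0 := by rw [hB0]; push_cast; ring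
  set Λ : ℕ := L + Rr with hΛ
  have hΛ1 : 1 ≤ Λ := by omega
  have hΛcast : (L : ℝ) + Rr = (Λ : ℝ) := by rw [hΛ]; push_cast; ring
  have hΛr : (1 : ℝ) ≤ Λ := by exact_mod_cast hΛ1
  have hΛbr : (Λ : ℝ) / b ≤ 1 := by
    rw [div_le_one hbr]
    exact_mod_cast hΛb
  have hΛ0 : 0 ≤ (Λ : ℝ) / b := by positivity
  have h1b : 1 / (b : ℝ) ≤ (Λ : ℝ) / b := by gcongr
  set ex : ℝ := Real.exp (-(η ^ 2 / 4 * Λ)) with hex
  have hex0 : 0 < ex := Real.exp_pos _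
  set τ : ℝ := (Λ : ℝ) / b + ex with hτ
  have hτ0 : 0 ≤ τ := by positivity
  -- the good `J`
  set G : Finset ℕ := {J ∈ Icc 1 N | ¬ (Deep q (HH b) 0 ![J, M] ∨
      ¬ TopGen q (HH b) Rr (xi b q X L Rr) ![J, M])} with hG
  have hG1 : ∀ J ∈ G, ¬ Deep q (HH b) 0 ![J, M] ∧
      TopGen q (HH b) Rr (xi b q X L Rr) ![J, M] := by
    intro J hJ
    rw [hG, mem_filter, not_or, not_not] at hJ
    exact hJ.2
  have hGN : (#G : ℝ) ≤ N := by
    have : #G ≤ #(Icc 1 N) := card_filter_le _ _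
    rw [Nat.card_Icc] at this
    have h : #G ≤ N := by omega
    exact_mod_cast h
  have hpow1 : (b : ℝ) ≤ (b : ℝ) ^ (100 * (Rr + 1)) := le_self_pow₀ hb1 (by omega)
  have hGcard : (N : ℝ) * (1 - 1 / b) ≤ #G := by
    have h1 := card_filter_add_card_filter_not (s := Icc 1 N)
      (fun J => Deep q (HH b) 0 ![J, M] ∨ ¬ TopGen q (HH b) Rr (xi b q X L Rr) ![J, M])
    rw [Nat.card_Icc, Nat.add_sub_cancel] at h1
    have h2 : (#{J ∈ Icc 1 N | Deep q (HH b) 0 ![J, M] ∨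
      ¬ TopGen q (HH b) Rr (xi b q X L Rr) ![J, M]} : ℝ) + #G = N := by exact_mod_cast h1
    have h3 := hcntJ b q M N X L Rr η hP
    have h4 : (N : ℝ) / (b : ℝ) ^ (100 * (Rr + 1)) ≤ N * (1 / b) := by
      rw [mul_one_div]
      gcongr
    linarith
  -- typical integers
  set T : Finset ℕ := {n ∈ range B0 | typ b q M Λ η n} with hT
  set Z : ℕ → ℝ := fun n => if typ b q M Λ η n then ∑ J ∈ G, W b q M Λ J n else 0 with hZ
  -- the bad set
  have hbad : {n ∈ range B0 | ∀ J, 0 < J → J ≤ N → J < M → ¬ Dom q J M Λ n} ⊆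
      {n ∈ range B0 | ¬ Z n ≠ 0} := by
    intro n hn
    rw [mem_filter] at hn ⊢
    refine ⟨hn.1, fun hZn => ?_⟩
    rw [hZ] at hZn
    simp only at hZn
    by_cases h1 : typ b q M Λ η n
    · rw [if_pos h1] at hZn
      obtain ⟨J, hJ, hJW⟩ := exists_ne_zero_of_sum_ne_zero hZn
      obtain ⟨hJ1, -⟩ := hG1 J hJ
      rw [hG, mem_filter, mem_Icc] at hJ
      have hJM : J ≠ M := by
        rintro rfl
        apply hJ1
        refine ⟨fun _ => ![1, -1], fun t => ?_, ?_, ?_⟩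
        · rw [mem_box]
          have hH : 1 ≤ HH b := by
            unfold HH
            exact Nat.one_le_pow _ _ hb0
          intro j
          fin_cases j
          · simp; omega
          · simp; omega
        · intro h
          have := congrFun h 0
          simp at this
        · rw [show (0 + 1 : ℕ) = 1 from rfl, sum_range_one, ip_two]
          simp
      have hle : J ≤ M := hJ.1.2.trans hP.h4
      exact hn.2 J hJ.1.1 hJ.1.2 (by omega) (W_dom hq0 hJW)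
    · rw [if_neg h1] at hZn
      exact hZn rfl
  -- first moment
  have hFMJ : ∀ J ∈ G, (B0 : ℝ) * (1 - (C1 + C2) * τ) ≤ ∑ n ∈ T, W b q M Λ J n := by
    intro J hJ
    obtain ⟨hJ1, hJ2⟩ := hG1 J hJ
    have h1 := (hFM b q M N X L Rr η hP J hJ1 hJ2).1
    have h2 := hLM b q M N X L Rr η hP J hJ1 hJ2
    rw [hΛcast, hBcast] at h1 h2
    have h3 := sum_filter_add_sum_filter_not (range B0) (fun n => typ b q M Λ η n)
      (fun n => W b q M Λ J n)
    have h4 : ∑ n ∈ range B0 with ¬ typ b q M Λ η n, W b q M Λ J n ≤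
        (B0 : ℝ) * (C2 * ex) := by
      refine le_trans (le_of_eq ?_) h2
      apply sum_congr
      · apply filter_congr
        intro n _
        unfold typ yy
        rw [not_le]
      · intro n _
        rfl
    have h5 : (B0 : ℝ) * (1 - C1 * Λ / b) ≤ ∑ n ∈ range B0, W b q M Λ J n := h1
    have h6 : (B0 : ℝ) * (1 - (C1 + C2) * τ) ≤ (B0 : ℝ) * (1 - C1 * Λ / b) - B0 * (C2 * ex) := by
      rw [← mul_sub]
      apply mul_le_mul_of_nonneg_left _ hBr.le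
      have e1 : C1 * Λ / b = C1 * ((Λ : ℝ) / b) := by ring
      rw [e1, hτ]
      have e2 : 0 ≤ C1 * ex := by positivity
      have e3 : 0 ≤ C2 * ((Λ : ℝ) / b) := by positivity
      nlinarith
    rw [← h3] at h5
    linarith
  have hZ1 : (N : ℝ) * B0 * (1 - C6 * τ) ≤ ∑ n ∈ range B0, Z n := by
    have e1 : ∑ n ∈ range B0, Z n = ∑ J ∈ G, ∑ n ∈ T, W b q M Λ J n := by
      rw [sum_comm, hT, sum_filter]
    rw [e1]
    by_cases h0 : 0 ≤ 1 - (C1 + C2) * τ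
    · have e2 : (#G : ℝ) * ((B0 : ℝ) * (1 - (C1 + C2) * τ)) ≤
          ∑ J ∈ G, ∑ n ∈ T, W b q M Λ J n := by
        rw [← nsmul_eq_mul]
        exact card_nsmul_le_sum _ _ _ hFMJ
      refine le_trans ?_ e2
      have e3 : (N : ℝ) * (1 - 1 / b) * ((B0 : ℝ) * (1 - (C1 + C2) * τ)) ≤
          (#G : ℝ) * ((B0 : ℝ) * (1 - (C1 + C2) * τ)) := by
        apply mul_le_mul_of_nonneg_right hGcard
        positivity
      refine le_trans ?_ e3
      have e4 : (N : ℝ) * (1 - 1 / b) * ((B0 : ℝ) * (1 - (C1 + C2) * τ)) =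
        N * B0 * ((1 - 1 / b) * (1 - (C1 + C2) * τ)) := by ring
      rw [e4]
      apply mul_le_mul_of_nonneg_left _ (by positivity)
      have e5 : 1 / (b : ℝ) ≤ τ := by linarith
      have e6 : 0 ≤ 1 / (b : ℝ) * ((C1 + C2) * τ) := by positivity
      rw [hC6]
      nlinarith
    · have e2 : 0 ≤ ∑ J ∈ G, ∑ n ∈ T, W b q M Λ J n :=
        sum_nonneg fun J _ => sum_nonneg fun n _ => W_nonneg _ _ _ _ _ _
      refine le_trans ?_ e2
      have e3 : 1 - C6 * τ ≤ 0 := by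
        rw [hC6]
        nlinarith
      have : 0 ≤ (N : ℝ) * B0 := by positivity
      nlinarith
  -- second moment
  set P2 : Finset (ℕ × ℕ) := {p ∈ Icc 1 N ×ˢ Icc 1 N | Deep q (HH b) 0 ![p.1, p.2, M] ∨
      ¬ TopGen q (HH b) Rr (xi b q X L Rr) ![p.1, p.2, M]} with hP2
  set P3 : Finset (ℕ × ℕ) := {p ∈ Icc 1 N ×ˢ Icc 1 N | Deep q (HH b) Rr ![p.1, p.2, M]} with hP3
  set E1 : ℝ := B0 * (1 + C3 * ((Λ : ℝ) / b)) with hE1
  set E2 : ℝ := B0 * (C4 * (b : ℝ) ^ (40 * Rr)) with hE2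
  set E3 : ℝ := (N : ℝ) / uu b Rr * (B0 * (1 + C1)) with hE3
  have hur : (0 : ℝ) < uu b Rr := by exact_mod_cast hu0
  have hE10 : 0 ≤ E1 := by positivity
  have hE20 : 0 ≤ E2 := by positivity
  have hE30 : 0 ≤ E3 := by positivity
  have hTsub : T ⊆ range B0 := filter_subset _ _
  have hpair : ∀ p ∈ G ×ˢ G, ∑ n ∈ T, W b q M Λ p.1 n * W b q M Λ p.2 n ≤
      E1 + (if p ∈ P2 then E2 else 0) + (if p ∈ P3 then E3 else 0) := by
    intro p hp
    rw [mem_product] at hp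
    have hp1 : p ∈ Icc 1 N ×ˢ Icc 1 N := by
      rw [mem_product]
      exact ⟨(mem_filter.1 hp.1).1, (mem_filter.1 hp.2).1⟩
    have hgS : ∑ n ∈ T, W b q M Λ p.1 n * W b q M Λ p.2 n ≤
        ∑ n ∈ range B0, ∏ i ∈ range Λ, gS (1 / b) (pt q ![p.1, p.2, M] i n) := by
      refine le_trans (le_of_eq ?_) (sum_le_sum_of_subset_of_nonneg hTsub
        fun n _ _ => prod_nonneg fun i _ => gS_nonneg _ _)
      exact sum_congr rfl fun n _ => W_mul hq0 b M Λ p.1 p.2 n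
    by_cases h3 : p ∈ P3
    · rw [if_pos h3]
      have e1 : ∑ n ∈ T, W b q M Λ p.1 n * W b q M Λ p.2 n ≤
          ∑ n ∈ T, W b q M Λ p.1 n * Real.exp ((1 + η) * Λ) := by
        apply sum_le_sum
        intro n hn
        apply mul_le_mul_of_nonneg_left _ (W_nonneg _ _ _ _ _ _)
        exact W_le hq0 hb0 (mem_filter.1 hn).2
      rw [← sum_mul] at e1
      obtain ⟨hJ1, hJ2⟩ := hG1 p.1 hp.1
      have e2 := (hFM b q M N X L Rr η hP p.1 hJ1 hJ2).2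
      rw [hΛcast, hBcast] at e2
      have e3 : ∑ n ∈ T, W b q M Λ p.1 n ≤ B0 * (1 + C1) := by
        refine (sum_le_sum_of_subset_of_nonneg hTsub fun n _ _ => W_nonneg _ _ _ _ _ _).trans
          (le_trans e2 ?_)
        apply mul_le_mul_of_nonneg_left _ hBr.le
        have : C1 * Λ / b = C1 * ((Λ : ℝ) / b) := by ring
        rw [this]
        nlinarith
      have e4 : Real.exp ((1 + η) * Λ) ≤ (N : ℝ) / uu b Rr := by
        rw [le_div_iff₀ hur, mul_comm]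
        have := hP.h5
        rwa [hΛcast] at this
      have e5 : (∑ n ∈ T, W b q M Λ p.1 n) * Real.exp ((1 + η) * Λ) ≤ E3 := by
        rw [hE3, mul_comm ((N : ℝ) / uu b Rr)]
        apply mul_le_mul e3 e4 (Real.exp_pos _).le (by positivity)
      have e6 : 0 ≤ (if p ∈ P2 then E2 else 0) := by split_ifs <;> positivity
      linarith
    · rw [if_neg h3, add_zero]
      by_cases h2 : p ∈ P2
      · rw [if_pos h2]
        have e1 : ¬ Deep q (HH b) Rr ![p.1, p.2, M] := fun h => h3 (by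
          rw [hP3, mem_filter]; exact ⟨hp1, h⟩)
        have e2 := hSM2 b q M N X L Rr η hP p.1 p.2 e1
        rw [hBcast] at e2
        have e3 : ∑ n ∈ T, W b q M Λ p.1 n * W b q M Λ p.2 n ≤ E2 := hgS.trans e2
        linarith
      · rw [if_neg h2, add_zero]
        have e1 : ¬ (Deep q (HH b) 0 ![p.1, p.2, M] ∨
            ¬ TopGen q (HH b) Rr (xi b q X L Rr) ![p.1, p.2, M]) := fun h => h2 (by
          rw [hP2, mem_filter]; exact ⟨hp1, h⟩)
        rw [not_or, not_not] at e1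
        have e2 := hSM b q M N X L Rr η hP p.1 p.2 e1.1 e1.2
        rw [hBcast, hΛcast] at e2
        have e3 : (B0 : ℝ) * (1 + C3 * Λ / b) = E1 := by
          rw [hE1]; ring
        rw [e3] at e2
        exact hgS.trans e2
  have hZ2 : ∑ n ∈ range B0, Z n ^ 2 ≤ (N : ℝ) ^ 2 * B0 * (1 + C5 * τ) := by
    have e1 : ∑ n ∈ range B0, Z n ^ 2 =
        ∑ p ∈ G ×ˢ G, ∑ n ∈ T, W b q M Λ p.1 n * W b q M Λ p.2 n := by
      rw [sum_comm, hT, sum_filter]
      refine sum_congr rfl fun n _ => ?_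
      rw [hZ]
      simp only
      split_ifs with h
      · rw [sq, sum_mul_sum, ← sum_product']
      · norm_num
    rw [e1]
    have e2 : ∑ p ∈ G ×ˢ G, (E1 + (if p ∈ P2 then E2 else 0) + (if p ∈ P3 then E3 else 0)) ≤
        (N : ℝ) ^ 2 * E1 + #P2 * E2 + #P3 * E3 := by
      rw [sum_add_distrib, sum_add_distrib, sum_ite_mem, sum_ite_mem, sum_const, sum_const,
        sum_const, nsmul_eq_mul, nsmul_eq_mul, nsmul_eq_mul, card_product]
      have i1 : ((#G * #G : ℕ) : ℝ) ≤ (N : ℝ) ^ 2 := by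
        push_cast
        nlinarith [(Nat.cast_nonneg (#G) : (0 : ℝ) ≤ #G)]
      have i2 : (#((G ×ˢ G) ∩ P2) : ℝ) ≤ #P2 := by exact_mod_cast card_le_card inter_subset_right
      have i3 : (#((G ×ˢ G) ∩ P3) : ℝ) ≤ #P3 := by exact_mod_cast card_le_card inter_subset_right
      gcongr
    refine (sum_le_sum hpair).trans (e2.trans ?_)
    have e3 := hcntP b q M N X L Rr η hP
    have e4 := hcntD b q M N X L Rr η hP
    have e5 : (#P2 : ℝ) * E2 ≤ (N : ℝ) ^ 2 * B0 * (C4 * ((Λ : ℝ) / b)) := by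
      have i1 : (#P2 : ℝ) * E2 ≤ (N : ℝ) ^ 2 / (b : ℝ) ^ (100 * (Rr + 1)) * E2 :=
        mul_le_mul_of_nonneg_right e3 hE20
      refine i1.trans ?_
      have i2 : (N : ℝ) ^ 2 / (b : ℝ) ^ (100 * (Rr + 1)) * E2 =
          (N : ℝ) ^ 2 * B0 * (C4 * ((b : ℝ) ^ (40 * Rr) / (b : ℝ) ^ (100 * (Rr + 1)))) := by
        rw [hE2]; ring
      rw [i2]
      have i3 : (b : ℝ) ^ (40 * Rr) / (b : ℝ) ^ (100 * (Rr + 1)) ≤ (Λ : ℝ) / b := by
        refine le_trans ?_ h1b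
        rw [div_le_div_iff₀ (by positivity) hbr, one_mul]
        calc (b : ℝ) ^ (40 * Rr) * b = (b : ℝ) ^ (40 * Rr + 1) := (pow_succ _ _).symm
          _ ≤ (b : ℝ) ^ (100 * (Rr + 1)) := pow_le_pow_right₀ hb1 (by omega)
      gcongr
    have e6 : (#P3 : ℝ) * E3 ≤ (N : ℝ) ^ 2 * B0 * ((1 + C1) * ((Λ : ℝ) / b)) := by
      have i1 : (#P3 : ℝ) * E3 ≤ (N : ℝ) * (b : ℝ) ^ (50 * (Rr + 1)) * E3 :=
        mul_le_mul_of_nonneg_right e4 hE30
      refine i1.trans ?_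
      have i2 : (N : ℝ) * (b : ℝ) ^ (50 * (Rr + 1)) * E3 =
          (N : ℝ) ^ 2 * B0 * ((1 + C1) * ((b : ℝ) ^ (50 * (Rr + 1)) / uu b Rr)) := by
        rw [hE3]; ring
      rw [i2]
      have i3 : (b : ℝ) ^ (50 * (Rr + 1)) / uu b Rr ≤ (Λ : ℝ) / b := by
        refine le_trans ?_ h1b
        rw [div_le_div_iff₀ hur hbr, one_mul]
        unfold uu
        push_cast
        calc (b : ℝ) ^ (50 * (Rr + 1)) * b = (b : ℝ) ^ (50 * (Rr + 1) + 1) := (pow_succ _ _).symm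
          _ ≤ (b : ℝ) ^ (300 * (Rr + 1)) := pow_le_pow_right₀ hb1 (by omega)
      gcongr
    have e7 : (N : ℝ) ^ 2 * E1 + #P2 * E2 + #P3 * E3 ≤
        (N : ℝ) ^ 2 * B0 * (1 + C5 * ((Λ : ℝ) / b)) := by
      have : (N : ℝ) ^ 2 * B0 * (1 + C5 * ((Λ : ℝ) / b)) = (N : ℝ) ^ 2 * E1 +
        (N : ℝ) ^ 2 * B0 * (C4 * ((Λ : ℝ) / b)) +
        (N : ℝ) ^ 2 * B0 * ((1 + C1) * ((Λ : ℝ) / b)) := by
        rw [hE1, hC5]; ring
      rw [this]
      linarith
    refine e7.trans ?_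
    have e8 : (Λ : ℝ) / b ≤ τ := by rw [hτ]; linarith
    gcongr
  -- conclusion
  have hcs := cs (range B0) Z
  have hfin := final hBr hNr (Nat.cast_nonneg _) hτ0 (by positivity : 0 ≤ C5)
    (by positivity : 0 ≤ C6) hcs hZ1 hZ2
  have hcount := card_filter_add_card_filter_not (s := range B0) (fun n => Z n ≠ 0)
  rw [card_range] at hcount
  have hcount' : (#{n ∈ range B0 | Z n ≠ 0} : ℝ) + #{n ∈ range B0 | ¬ Z n ≠ 0} = B0 := by
    exact_mod_cast hcount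
  have hb2 : (#{n ∈ range B0 | ∀ J, 0 < J → J ≤ N → J < M → ¬ Dom q J M Λ n} : ℝ) ≤
      #{n ∈ range B0 | ¬ Z n ≠ 0} := by exact_mod_cast card_le_card hbad
  have hBX' : (B0 : ℝ) ≤ X := by exact_mod_cast hBX
  rw [hΛcast]
  calc (#{n ∈ range B0 | ∀ J, 0 < J → J ≤ N → J < M → ¬ Dom q J M Λ n} : ℝ)
      ≤ (2 * C6 + C5 + C6) * τ * B0 := by linarith
    _ ≤ (2 * C6 + C5 + C6) * τ * X := by gcongr
    _ = (2 * C6 + C5 + C6) * X * τ := by ring

end ESAs
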