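import Pool.Agent.ESAs.Stmts

open Finset

namespace ESAs

namespace BH

lemma floor_bd {y : ℝ} (hy : 2 ≤ Real.exp y) :
    2 ≤ ⌊Real.exp y⌋₊ ∧ (⌊Real.exp y⌋₊ : ℝ) ≤ Real.exp y ∧
      Real.exp y ≤ 2 * (⌊Real.exp y⌋₊ : ℝ) := by
  have h0 : 0 ≤ Real.exp y := (Real.exp_pos _).le
  have h1 : 2 ≤ ⌊Real.exp y⌋₊ := Nat.le_floor (by exact_mod_cast hy)
  refine ⟨h1, Nat.floor_le h0, ?_⟩
  have h2 := (Nat.lt_floor_add_one (Real.exp y))
  have h3 : (2 : ℝ) ≤ (⌊Real.exp y⌋₊ : ℝ) := by exact_mod_cast h1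
  linarith

lemma uu_le (b Rr : ℕ) (y : ℝ) (hb : (b : ℝ) ≤ Real.exp y) :
    (uu b Rr : ℝ) ≤ Real.exp (300 * ((Rr : ℝ) + 1) * y) := by
  unfold uu
  push_cast
  calc (b : ℝ) ^ (300 * (Rr + 1)) ≤ (Real.exp y) ^ (300 * (Rr + 1)) := by gcongr
    _ = Real.exp (300 * ((Rr : ℝ) + 1) * y) := by
      rw [← Real.exp_nat_mul]; push_cast; ring_nf

lemma exists_theta (K δ ε : ℝ) (R : ℕ) (hK : 1 ≤ K) (hδ : 0 < δ) (hδ1 : δ ≤ 1) (hε : 0 < ε)
    (hε1 : ε ≤ 1) : ∃ θ : ℝ, 0 < θ ∧ 1200 * ((R : ℝ) + 1) * θ ≤ δ / 6 ∧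
      900 * ((R : ℝ) + 1) * θ ≤ ε / (8 * K) ∧ 20 * R * θ ≤ 1 / (4 * K) ∧ θ ≤ δ ∧
      θ ≤ ε ^ 2 / (16 * K) ∧ θ ≤ 1 / (4 * K) ∧ θ ≤ ε / (2 * K) := by
  have hK0 : 0 < K := by linarith
  obtain ⟨w, hw⟩ : ∃ w : ℝ, w = δ * ε ^ 2 / (7200 * K) := ⟨_, rfl⟩
  have hR : (0 : ℝ) ≤ R := by positivity
  have hw0 : 0 < w := by rw [hw]; positivity
  have e1 : ε ^ 2 ≤ ε := by nlinarith
  have g1 : w ≤ ε ^ 2 / (7200 * K) := by
    rw [hw]; gcongr; nlinarith [sq_nonneg ε]
  have g2 : ε ^ 2 / (7200 * K) ≤ ε / (7200 * K) := by gcongr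
  have g3 : ε / (7200 * K) ≤ 1 / (7200 * K) := by gcongr
  have g4 : w ≤ δ / 7200 := by
    have : w = δ / 7200 * (ε ^ 2 / K) := by rw [hw]; field_simp
    rw [this]
    have h : ε ^ 2 / K ≤ 1 := by rw [div_le_one hK0]; linarith
    have := mul_le_mul_of_nonneg_left h (by positivity : 0 ≤ δ / 7200)
    linarith
  have f1 : ε ^ 2 / (7200 * K) = ε ^ 2 / K / 7200 := by field_simp
  have f2 : ε / (7200 * K) = ε / K / 7200 := by field_simp
  have f3 : 1 / (7200 * K) = 1 / K / 7200 := by field_simp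
  have f4 : ε / (8 * K) = ε / K / 8 := by field_simp
  have f5 : 1 / (4 * K) = 1 / K / 4 := by field_simp
  have f6 : ε ^ 2 / (16 * K) = ε ^ 2 / K / 16 := by field_simp
  have f7 : ε / (2 * K) = ε / K / 2 := by field_simp
  have p1 : 0 < ε ^ 2 / K := by positivity
  have p2 : 0 < ε / K := by positivity
  have p3 : 0 < 1 / K := by positivity
  refine ⟨w / (R + 1), by positivity, ?_⟩
  have h1 : ((R : ℝ) + 1) * (w / (R + 1)) = w := by field_simp
  have h2 : w / (R + 1) ≤ w := div_le_self hw0.le (by linarith)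
  have h3 : (R : ℝ) * (w / (R + 1)) ≤ w := by
    have : 0 < w / (R + 1) := by positivity
    linarith
  rw [f1] at g1 g2
  rw [f2] at g2 g3
  rw [f3] at g3
  rw [f4, f5, f6, f7]
  refine ⟨?_, ?_, ?_, ?_, ?_, ?_, ?_⟩
  · linarith
  · linarith
  · linarith
  · linarith
  · linarith
  · linarith
  · linarith

end BH

open scoped Classical

theorem tBH (hBC : St_BC) (hSel : St_Sel) (hExcTop : St_ExcTop) (hExcSum : St_ExcSum) (hsolB : St_solB) : St_BH := by
  obtain ⟨C, hC, hbc⟩ := hBC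
  intro K δ ε hK hδ hδ1 hε hε1
  have hK0 : 0 < K := by linarith
  obtain ⟨Rr, hRr⟩ : ∃ Rr : ℕ, Rr = ⌈K / δ⌉₊ := ⟨_, rfl⟩
  have hRK : K / δ ≤ Rr := by rw [hRr]; exact Nat.le_ceil _
  have hRK' : K ≤ δ * Rr := by rwa [div_le_iff₀' hδ] at hRK
  have hR1 : 1 ≤ Rr := by
    rw [hRr, Nat.one_le_ceil_iff]; positivity
  obtain ⟨θ, hθ, t1, t2, t3, t4, t5, t6, t7⟩ := BH.exists_theta K δ ε Rr hK hδ hδ1 hε hε1
  refine ⟨θ / 8, 4 / θ + K * (2 * Rr + 3) + 12 / (θ ^ 3 * δ ^ 2) + 2 * C / (θ / 8) +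
    96 * K / θ ^ 2, fun x q M => Exc q ⌊Real.exp (θ * √(Real.log x))⌋₊ Rr M, by positivity,
    by positivity, ?_⟩
  intro x s hs hx q hq hq1 hq2
  have u1 : 4 / θ ≤ s := by
    have h1 : 0 ≤ K * (2 * Rr + 3) := by positivity
    have h2 : 0 ≤ 12 / (θ ^ 3 * δ ^ 2) := by positivity
    have h3 : 0 ≤ 2 * C / (θ / 8) := by positivity
    have h4 : 0 ≤ 96 * K / θ ^ 2 := by positivity
    linarith
  have u2 : K * (2 * Rr + 3) ≤ s := by
    have h1 : 0 ≤ 4 / θ := by positivity
    have h2 : 0 ≤ 12 / (θ ^ 3 * δ ^ 2) := by positivity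
    have h3 : 0 ≤ 2 * C / (θ / 8) := by positivity
    have h4 : 0 ≤ 96 * K / θ ^ 2 := by positivity
    linarith
  have u3 : 12 / (θ ^ 3 * δ ^ 2) ≤ s := by
    have h1 : 0 ≤ 4 / θ := by positivity
    have h2 : 0 ≤ K * (2 * Rr + 3) := by positivity
    have h3 : 0 ≤ 2 * C / (θ / 8) := by positivity
    have h4 : 0 ≤ 96 * K / θ ^ 2 := by positivity
    linarith
  have u4 : 2 * C / (θ / 8) ≤ s := by
    have h1 : 0 ≤ 4 / θ := by positivity
    have h2 : 0 ≤ K * (2 * Rr + 3) := by positivity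
    have h3 : 0 ≤ 12 / (θ ^ 3 * δ ^ 2) := by positivity
    have h4 : 0 ≤ 96 * K / θ ^ 2 := by positivity
    linarith
  have u5 : 96 * K / θ ^ 2 ≤ s := by
    have h1 : 0 ≤ 4 / θ := by positivity
    have h2 : 0 ≤ K * (2 * Rr + 3) := by positivity
    have h3 : 0 ≤ 12 / (θ ^ 3 * δ ^ 2) := by positivity
    have h4 : 0 ≤ 2 * C / (θ / 8) := by positivity
    linarith
  clear hs
  have hRr0 : (0 : ℝ) ≤ Rr := by positivity
  have hRr1 : (1 : ℝ) ≤ Rr := by exact_mod_cast hR1
  have v1 : 4 ≤ θ * s := by rwa [div_le_iff₀' hθ] at u1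
  have hs0 : 0 < s := by
    have : 0 < 4 / θ := by positivity
    linarith
  have v2 : 5 * K ≤ s := by nlinarith
  have hs1 : 1 ≤ s := by linarith
  have hsq : √(Real.log x) = s := by rw [hx]; exact Real.sqrt_sq hs0.le
  have hx1 : (0 : ℝ) < x := by
    rcases Nat.eq_zero_or_pos x with h | h
    · subst h; simp at hx; nlinarith
    · exact_mod_cast h
  have hxe : (x : ℝ) = Real.exp (s ^ 2) := by rw [← hx, Real.exp_log hx1]
  have he2 : 2 ≤ Real.exp (θ * s) := by
    have := Real.add_one_le_exp (θ * s)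
    linarith
  have he3 : 2 ≤ Real.exp (θ * s / 2) := by
    have := Real.add_one_le_exp (θ * s / 2)
    linarith
  obtain ⟨b, hb⟩ : ∃ b : ℕ, b = ⌊Real.exp (θ * s)⌋₊ := ⟨_, rfl⟩
  obtain ⟨b1, b2, b3⟩ := BH.floor_bd he2
  rw [← hb] at b1 b2 b3
  simp only [hsq, ← hb]
  have hb1 : (1 : ℝ) ≤ b := by exact_mod_cast (by omega : 1 ≤ b)
  have hb0 : (0 : ℝ) < b := by linarith
  have hq0 : (0 : ℝ) < q := by exact_mod_cast hq.pos
  have hq1' : (1 : ℝ) < q := by exact_mod_cast hq.one_lt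
  have hlq1 : δ * s ≤ Real.log q := by
    rw [Real.le_log_iff_exp_le hq0]; exact hq1.le
  have hlq2 : Real.log q ≤ K * s := by
    rw [Real.log_le_iff_le_exp hq0]; exact hq2
  have hδs : 0 < δ * s := by positivity
  have hlq0 : 0 < Real.log q := by linarith
  have huu := BH.uu_le b Rr (θ * s) b2
  have huu0 : (0 : ℝ) ≤ uu b Rr := by positivity
  -- 2 uu^4 ≤ q
  have w1 : 2 * uu b Rr ^ 4 ≤ q := by
    have h1 : (uu b Rr : ℝ) ^ 4 ≤ Real.exp (δ * s / 6) := by
      calc (uu b Rr : ℝ) ^ 4 ≤ (Real.exp (300 * ((Rr : ℝ) + 1) * (θ * s))) ^ 4 := by gcongr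
        _ = Real.exp (1200 * ((Rr : ℝ) + 1) * θ * s) := by
          rw [← Real.exp_nat_mul]; congr 1; push_cast; ring
        _ ≤ Real.exp (δ / 6 * s) := by
          apply Real.exp_le_exp.2
          exact mul_le_mul_of_nonneg_right t1 hs0.le
        _ = Real.exp (δ * s / 6) := by congr 1; ring
    have h2 : 2 ≤ Real.exp (5 * (δ * s) / 6) := by
      have := Real.add_one_le_exp (5 * (δ * s) / 6)
      have h3 : θ * s ≤ δ * s := mul_le_mul_of_nonneg_right t4 hs0.le
      linarith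
    have h3 : Real.exp (δ * s) = Real.exp (5 * (δ * s) / 6) * Real.exp (δ * s / 6) := by
      rw [← Real.exp_add]; congr 1; ring
    have h4 : (2 : ℝ) * (uu b Rr : ℝ) ^ 4 ≤ q := by
      calc (2 : ℝ) * (uu b Rr : ℝ) ^ 4 ≤ Real.exp (5 * (δ * s) / 6) * Real.exp (δ * s / 6) := by
            gcongr
        _ = Real.exp (δ * s) := h3.symm
        _ ≤ q := hq1.le
    exact_mod_cast h4
  -- e^{Ks} ≤ q^Rr
  have w2 : Real.exp (K * s) ≤ (q : ℝ) ^ Rr := by
    calc Real.exp (K * s) ≤ Real.exp (Rr * (δ * s)) := by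
          apply Real.exp_le_exp.2
          have := mul_le_mul_of_nonneg_right hRK' hs0.le
          linarith
      _ = (Real.exp (δ * s)) ^ Rr := by rw [← Real.exp_nat_mul]
      _ ≤ (q : ℝ) ^ Rr := by gcongr
  -- s^2 / δ^2 ≤ b
  have w3 : (s / δ) ^ 2 ≤ b := by
    have h1 := Real.pow_div_factorial_le_exp (θ * s) (by positivity) 3
    have h2 : (Nat.factorial 3 : ℝ) = 6 := by norm_num [Nat.factorial]
    rw [h2] at h1
    have h3 : 12 ≤ s * (θ ^ 3 * δ ^ 2) := by
      rwa [div_le_iff₀ (by positivity)] at u3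
    have h4 : (s / δ) ^ 2 ≤ (θ * s) ^ 3 / 12 := by
      rw [div_pow, div_le_div_iff₀ (by positivity) (by norm_num)]
      have h5 : s ^ 2 * 12 ≤ s ^ 2 * (s * (θ ^ 3 * δ ^ 2)) :=
        mul_le_mul_of_nonneg_left h3 (by positivity)
      have h6 : s ^ 2 * (s * (θ ^ 3 * δ ^ 2)) = (θ * s) ^ 3 * δ ^ 2 := by ring
      linarith
    linarith
  constructor
  · -- first part
    intro M hqM hM hlog hE
    have hM0 : M ≠ 0 := by rintro rfl; exact hqM (dvd_zero _)
    have hM1 : 1 ≤ M := by omega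
    have hMr : (1 : ℝ) ≤ M := by exact_mod_cast hM1
    have hMr0 : (0 : ℝ) < M := by linarith
    have hqMr : (0 : ℝ) < q * M := by positivity
    have hqM0 : 0 < q * M := by have := hq.pos; positivity
    obtain ⟨X, hX⟩ : ∃ X : ℕ, X = x / (q * M) := ⟨_, rfl⟩
    rw [← hX]
    have a1 : q * M ≤ q ^ Rr := by
      have : (q : ℝ) * M ≤ (q : ℝ) ^ Rr := hM.trans w2
      exact_mod_cast this
    have a2 : q ^ (2 * Rr + 2) ≤ X := by
      rw [hX, Nat.le_div_iff_mul_le hqM0]
      have h1 : (q : ℝ) ^ (2 * Rr + 2) * (q * M) ≤ x := by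
        calc (q : ℝ) ^ (2 * Rr + 2) * (q * M) ≤
              (Real.exp (K * s)) ^ (2 * Rr + 2) * Real.exp (K * s) := by gcongr
          _ = Real.exp (s * (K * (2 * Rr + 3))) := by
              rw [← Real.exp_nat_mul, ← Real.exp_add]; congr 1; push_cast; ring
          _ ≤ Real.exp (s * s) := by
              apply Real.exp_le_exp.2
              exact mul_le_mul_of_nonneg_left u2 hs0.le
          _ = x := by rw [hxe]; congr 1; ring
      exact_mod_cast h1
    have hX1 : 1 ≤ X := le_trans (Nat.one_le_pow _ _ hq.pos) a2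
    have hXr : (1 : ℝ) ≤ X := by exact_mod_cast hX1
    have hXle : (X : ℝ) ≤ x / (q * M) := by
      rw [hX]
      have := @Nat.cast_div_le ℝ _ _ _ x (q * M)
      push_cast at this
      exact this
    have hMX : (M : ℝ) * X ≤ x := by
      have h1 : (X : ℝ) * (q * M) ≤ x := by rwa [le_div_iff₀ hqMr] at hXle
      have h2 : (M : ℝ) * X * 1 ≤ (M : ℝ) * X * q := by gcongr
      linarith
    have hlMX : Real.log (M * X) ≤ s ^ 2 := by
      rw [← hx]; exact Real.log_le_log (by positivity) hMX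
    have hlMX0 : 0 ≤ Real.log (M * X) := Real.log_nonneg (by nlinarith)
    have a3 : (Real.log (M * X) / Real.log q) ^ 2 ≤ b := by
      refine le_trans ?_ w3
      have : Real.log (M * X) / Real.log q ≤ s / δ := by
        rw [div_le_div_iff₀ hlq0 hδ]
        calc Real.log (M * X) * δ ≤ s ^ 2 * δ := by gcongr
          _ = s * (δ * s) := by ring
          _ ≤ s * Real.log q := by gcongr
      gcongr
    have a4 : 2 * (uu b Rr : ℝ) ^ 3 *
        Real.exp ((1 + ε / 2) * (Real.log (M * X) / Real.log q)) ≤ M := by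
      have h1 : (uu b Rr : ℝ) ^ 3 ≤ Real.exp (ε * s / (8 * K)) := by
        calc (uu b Rr : ℝ) ^ 3 ≤ (Real.exp (300 * ((Rr : ℝ) + 1) * (θ * s))) ^ 3 := by gcongr
          _ = Real.exp (900 * ((Rr : ℝ) + 1) * θ * s) := by
            rw [← Real.exp_nat_mul]; congr 1; push_cast; ring
          _ ≤ Real.exp (ε / (8 * K) * s) := by
            apply Real.exp_le_exp.2
            exact mul_le_mul_of_nonneg_right t2 hs0.le
          _ = Real.exp (ε * s / (8 * K)) := by congr 1; ring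
      have h2 : 2 ≤ Real.exp (ε * s / (8 * K)) := by
        have h3 := Real.add_one_le_exp (ε * s / (8 * K))
        have h4 : θ * s ≤ ε / (2 * K) * s := mul_le_mul_of_nonneg_right t7 hs0.le
        have h5 : ε / (2 * K) * s = 4 * (ε * s / (8 * K)) := by field_simp; ring
        linarith
      obtain ⟨z, hz⟩ : ∃ z : ℝ, z = s ^ 2 / Real.log q := ⟨_, rfl⟩
      have hz1 : s / K ≤ z := by
        rw [hz, div_le_div_iff₀ hK0 hlq0]
        calc s * Real.log q ≤ s * (K * s) := by gcongr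
          _ = s ^ 2 * K := by ring
      have h3 : Real.log (M * X) / Real.log q ≤ z := by rw [hz]; gcongr
      have h4 : (1 + ε) * z ≤ Real.log M := by
        rw [hz, ← mul_div_assoc, div_le_iff₀ hlq0]; linarith
      have h5 : Real.exp ((1 + ε) * z) ≤ M := by
        rw [← Real.le_log_iff_exp_le hMr0]; exact h4
      refine le_trans ?_ h5
      calc 2 * (uu b Rr : ℝ) ^ 3 * Real.exp ((1 + ε / 2) * (Real.log (M * X) / Real.log q)) ≤
            Real.exp (ε * s / (8 * K)) * Real.exp (ε * s / (8 * K)) *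
              Real.exp ((1 + ε / 2) * z) := by gcongr
        _ = Real.exp (ε * s / (8 * K) + ε * s / (8 * K) + (1 + ε / 2) * z) := by
            rw [Real.exp_add, Real.exp_add]
        _ ≤ Real.exp ((1 + ε) * z) := by
            apply Real.exp_le_exp.2
            have h6 : ε * s / (8 * K) = ε / 8 * (s / K) := by ring
            have h7 : ε / 8 * (s / K) ≤ ε / 8 * z := by gcongr
            have h8 : 0 ≤ ε * z := by
              have : 0 ≤ s / K := by positivity
              have : 0 ≤ z := by linarith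
              positivity
            rw [h6]
            linarith
    have a5 := hExcTop b q M X Rr b1 hq.two_le hR1 hM1 a1 hE
    obtain ⟨N, L, hP⟩ := hSel b q M X Rr (ε / 2) hq b1 (by linarith) (by linarith) hR1 w1 a1 hqM
      a2 a3 a4 a5
    have hfin := hbc b q M N X L Rr (ε / 2) hP
    obtain ⟨Λ, hΛ⟩ : ∃ Λ : ℝ, Λ = (L : ℝ) + Rr := ⟨_, rfl⟩
    rw [← hΛ] at hfin
    have hΛ0 : 0 ≤ Λ := by rw [hΛ]; positivity
    -- first term
    have c1 : Λ / b ≤ Real.exp (-(θ * s / 4)) := by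
      have h1 : Λ ^ 2 ≤ b := by
        have := hP.h9
        rw [hΛ]; exact_mod_cast this
      have h2 : (Λ / b) ^ 2 ≤ 1 / b := by
        rw [div_pow, div_le_div_iff₀ (by positivity) hb0]
        nlinarith
      have h3 : 1 / (b : ℝ) ≤ (Real.exp (-(θ * s / 4))) ^ 2 := by
        have h4 : (Real.exp (-(θ * s / 4))) ^ 2 = 1 / Real.exp (θ * s / 2) := by
          rw [← Real.exp_nat_mul, one_div, ← Real.exp_neg]; congr 1; push_cast; ring
        rw [h4]
        apply one_div_le_one_div_of_le (Real.exp_pos _)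
        have h5 : Real.exp (θ * s) = Real.exp (θ * s / 2) * Real.exp (θ * s / 2) := by
          rw [← Real.exp_add]; congr 1; ring
        have h6 : 0 < Real.exp (θ * s / 2) := Real.exp_pos _
        nlinarith
      exact le_of_sq_le_sq (h2.trans h3) (Real.exp_pos _).le
    -- second term
    have c2 : Real.exp (-((ε / 2) ^ 2 / 4 * Λ)) ≤ Real.exp (-(θ * s / 4)) := by
      apply Real.exp_le_exp.2
      have h1 : (X : ℝ) ≤ (q : ℝ) ^ (L + Rr + 1) := by
        have h2 := hP.h3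
        have h3 : 1 ≤ uu b Rr := Nat.one_le_pow _ _ (by omega)
        have h4 : 1 ≤ N := by
          by_contra hN
          have hN0 : N = 0 := by omega
          have h5 := hP.h5
          rw [hN0] at h5
          have h6 : (1 : ℝ) ≤ uu b Rr := by exact_mod_cast h3
          have h7 := Real.exp_pos ((1 + ε / 2) * ((L : ℝ) + Rr))
          push_cast at h5
          nlinarith
        have h5 : X ≤ N * X * uu b Rr := by
          calc X = 1 * X * 1 := by ring
            _ ≤ N * X * uu b Rr := by gcongr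
        exact_mod_cast h5.trans h2
      have h2 : Real.log X ≤ (Λ + 1) * (K * s) := by
        calc Real.log X ≤ Real.log ((q : ℝ) ^ (L + Rr + 1)) :=
              Real.log_le_log (by linarith) h1
          _ = (Λ + 1) * Real.log q := by rw [Real.log_pow, hΛ]; push_cast; ring
          _ ≤ (Λ + 1) * (K * s) := by gcongr
      have h3 : s ^ 2 - K * s - 1 ≤ Real.log X := by
        rw [Real.le_log_iff_exp_le (by linarith)]
        have h4 : (x : ℝ) < (q * M) * (X + 1) := by
          have := Nat.lt_mul_div_succ x hqM0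
          rw [← hX] at this
          exact_mod_cast this
        have h5 : Real.exp (s ^ 2 - K * s) ≤ 2 * X := by
          rw [Real.exp_sub, div_le_iff₀ (Real.exp_pos _), ← hxe]
          calc (x : ℝ) ≤ (q * M) * (X + 1) := h4.le
            _ ≤ Real.exp (K * s) * (X + X) := by gcongr
            _ = 2 * X * Real.exp (K * s) := by ring
        have h6 : 2 ≤ Real.exp 1 := by
          have := Real.add_one_le_exp (1 : ℝ)
          linarith
        have h7 : Real.exp (s ^ 2 - K * s - 1) = Real.exp (s ^ 2 - K * s) / Real.exp 1 := by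
          rw [Real.exp_sub (s ^ 2 - K * s) 1]
        rw [h7, div_le_iff₀ (Real.exp_pos _)]
        nlinarith
      have h4 : s ^ 2 / 2 ≤ (Λ + 1) * (K * s) := by
        have : 5 * K * s ≤ s * s := mul_le_mul_of_nonneg_right v2 hs0.le
        have h5 : 1 ≤ K * s := by nlinarith
        nlinarith
      have h5 : s / 2 ≤ (Λ + 1) * K := by
        by_contra hcon
        push Not at hcon
        have := mul_lt_mul_of_pos_right hcon hs0
        nlinarith
      have h6 : s / 4 ≤ Λ * K := by linarith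
      have h7 : θ * s / 4 ≤ θ * (Λ * K) := by
        have := mul_le_mul_of_nonneg_left h6 hθ.le
        linarith
      have h8 : θ * (Λ * K) ≤ ε ^ 2 / (16 * K) * (Λ * K) :=
        mul_le_mul_of_nonneg_right t5 (by positivity)
      have h9 : ε ^ 2 / (16 * K) * (Λ * K) = (ε / 2) ^ 2 / 4 * Λ := by field_simp; ring
      linarith
    have c3 : 2 * C * Real.exp (-(θ * s / 4)) ≤ Real.exp (-(θ / 8 * s)) := by
      have h1 : 2 * C ≤ Real.exp (θ / 8 * s) := by
        have h2 := Real.add_one_le_exp (θ / 8 * s)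
        rw [div_le_iff₀ (by positivity)] at u4
        linarith
      have h2 : Real.exp (-(θ / 8 * s)) = Real.exp (θ / 8 * s) * Real.exp (-(θ * s / 4)) := by
        rw [← Real.exp_add]; congr 1; ring
      rw [h2]
      gcongr
    calc (#{P ∈ Icc 1 X | P.Prime ∧ q * M < P ∧ ESGcd.IsSolution (q * M * P)} : ℝ) ≤
          (#{n ∈ Icc 1 X | ∀ J, 0 < J → J < M →
            ∃ i, (M * n) % q ^ (i + 1) < (J * n) % q ^ (i + 1)} : ℝ) := by
          refine Nat.cast_le.2 (card_le_card ?_)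
          intro P hPm
          rw [mem_filter] at hPm ⊢
          obtain ⟨p1, p2, p3, p4⟩ := hPm
          exact ⟨p1, hsolB q M P hq p2 hqM p3 p4⟩
      _ ≤ C * X * (Λ / b + Real.exp (-((ε / 2) ^ 2 / 4 * Λ))) := hfin
      _ ≤ C * X * (Real.exp (-(θ * s / 4)) + Real.exp (-(θ * s / 4))) := by
          apply mul_le_mul_of_nonneg_left (add_le_add c1 c2) (by positivity)
      _ = 2 * C * Real.exp (-(θ * s / 4)) * X := by ring
      _ ≤ Real.exp (-(θ / 8 * s)) * X := by gcongr
      _ ≤ Real.exp (-(θ / 8 * s)) * (x / (q * M)) := by gcongr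
  · -- second part
    obtain ⟨Y0, hY0⟩ : ∃ Y0 : ℕ, Y0 = ⌈Real.exp (s / K)⌉₊ := ⟨_, rfl⟩
    obtain ⟨Y1, hY1⟩ : ∃ Y1 : ℕ, Y1 = ⌊Real.exp (K * s)⌋₊ := ⟨_, rfl⟩
    rw [← hY1]
    have hY01 : 1 ≤ Y0 := by
      rw [hY0, Nat.one_le_ceil_iff]; exact Real.exp_pos _
    have hY0r : Real.exp (s / K) ≤ Y0 := by rw [hY0]; exact Nat.le_ceil _
    have hY1r : (Y1 : ℝ) ≤ Real.exp (K * s) := by
      rw [hY1]; exact Nat.floor_le (Real.exp_pos _).le
    have hsub : ({M ∈ Icc 1 Y1 | Real.exp (s / K) ≤ ((M : ℕ) : ℝ) ∧ Exc q b Rr M} : Finset ℕ) ⊆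
        {M ∈ Icc Y0 Y1 | Exc q b Rr M} := by
      intro M hM
      rw [mem_filter, mem_Icc] at hM ⊢
      obtain ⟨⟨m1, m2⟩, m3, m4⟩ := hM
      refine ⟨⟨?_, m2⟩, m4⟩
      rw [hY0]; exact Nat.ceil_le.2 m3
    refine (sum_le_sum_of_subset_of_nonneg hsub fun _ _ _ => by positivity).trans ?_
    rcases Nat.lt_or_ge Y1 Y0 with hlt | hge
    · rw [Icc_eq_empty (by omega)]
      simp only [filter_empty, sum_empty]
      exact (Real.exp_pos _).le
    · have hYq : Y1 ≤ q ^ Rr := by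
        have := hY1r.trans w2
        exact_mod_cast this
      refine (hExcSum q b Rr Y0 Y1 b1 hR1 w1 hY01 hge hYq).trans ?_
      have d1 : (Nat.log 2 Y1 : ℝ) + 1 ≤ 3 * (K * s) := by
        have h1 : 2 ^ Nat.log 2 Y1 ≤ Y1 := Nat.pow_log_le_self 2 (by omega)
        have h2 : (2 : ℝ) ^ Nat.log 2 Y1 ≤ Real.exp (K * s) := by
          refine le_trans ?_ hY1r
          exact_mod_cast h1
        have h3 : (Nat.log 2 Y1 : ℝ) * Real.log 2 ≤ K * s := by
          rw [← Real.log_pow]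
          rw [Real.log_le_iff_le_exp (by positivity)]
          exact h2
        have h4 : (1 : ℝ) / 2 < Real.log 2 := by linarith [Real.log_two_gt_d9]
        have h5 : (Nat.log 2 Y1 : ℝ) * (1 / 2) ≤ (Nat.log 2 Y1 : ℝ) * Real.log 2 := by gcongr
        have h6 : 1 ≤ K * s := by nlinarith
        linarith
      have d2 : (b : ℝ) ^ (20 * Rr) * (1 / (b : ℝ) ^ (100 * (Rr + 1))) ≤
          2 * Real.exp (-(θ * s)) := by
        have h1 : (b : ℝ) ^ (20 * Rr) * b ≤ (b : ℝ) ^ (100 * (Rr + 1)) := by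
          rw [← pow_succ]
          exact pow_le_pow_right₀ hb1 (by omega)
        have h2 : (b : ℝ) ^ (20 * Rr) * (1 / (b : ℝ) ^ (100 * (Rr + 1))) ≤ 1 / b := by
          rw [mul_one_div, div_le_div_iff₀ (by positivity) hb0]
          linarith
        have h3 : 1 / (b : ℝ) ≤ 2 * Real.exp (-(θ * s)) := by
          rw [Real.exp_neg, div_le_iff₀ hb0]
          have h4 := Real.exp_pos (θ * s)
          have h5 : 2 * (Real.exp (θ * s))⁻¹ * b = 2 * b / Real.exp (θ * s) := by ring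
          rw [h5, le_div_iff₀ h4]
          linarith
        exact h2.trans h3
      have d3 : (b : ℝ) ^ (20 * Rr) * (2 / (Y0 : ℝ)) ≤ 2 * Real.exp (-(θ * s)) := by
        have h1 : (b : ℝ) ^ (20 * Rr) ≤ Real.exp (1 / (4 * K) * s) := by
          calc (b : ℝ) ^ (20 * Rr) ≤ (Real.exp (θ * s)) ^ (20 * Rr) := by gcongr
            _ = Real.exp (20 * Rr * θ * s) := by
              rw [← Real.exp_nat_mul]; congr 1; push_cast; ring
            _ ≤ Real.exp (1 / (4 * K) * s) := by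
              apply Real.exp_le_exp.2
              exact mul_le_mul_of_nonneg_right t3 hs0.le
        have h2 : 2 / (Y0 : ℝ) ≤ 2 / Real.exp (s / K) := by
          apply div_le_div_of_nonneg_left (by norm_num) (Real.exp_pos _) hY0r
        calc (b : ℝ) ^ (20 * Rr) * (2 / (Y0 : ℝ)) ≤
              Real.exp (1 / (4 * K) * s) * (2 / Real.exp (s / K)) := by gcongr
          _ = 2 * Real.exp (1 / (4 * K) * s - s / K) := by
              rw [Real.exp_sub]; ring
          _ ≤ 2 * Real.exp (-(θ * s)) := by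
              have h3 : 1 / (4 * K) * s - s / K ≤ -(θ * s) := by
                have h4 := mul_le_mul_of_nonneg_right t6 hs0.le
                have h5 : s / K = 4 * (1 / (4 * K) * s) := by field_simp
                have h6 : 0 < 1 / (4 * K) * s := by positivity
                linarith
              gcongr
      have d4 : 12 * (K * s) * Real.exp (-(θ * s)) ≤ Real.exp (-(θ / 8 * s)) := by
        have h1 := Real.pow_div_factorial_le_exp (θ * s / 2) (by positivity) 2
        have h2 : (Nat.factorial 2 : ℝ) = 2 := by norm_num [Nat.factorial]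
        rw [h2] at h1
        have h3 : 96 * K ≤ s * θ ^ 2 := by rwa [div_le_iff₀ (by positivity)] at u5
        have h4 : 12 * (K * s) ≤ Real.exp (θ * s / 2) := by
          refine le_trans ?_ h1
          have h5 := mul_le_mul_of_nonneg_right h3 hs0.le
          have h6 : (θ * s / 2) ^ 2 / 2 = s * θ ^ 2 * s / 8 := by ring
          rw [h6]
          linarith
        have h5 : Real.exp (-(θ / 8 * s)) = Real.exp (θ * s - θ / 8 * s) * Real.exp (-(θ * s)) := by
          rw [← Real.exp_add]; congr 1; ring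
        rw [h5]
        have h6 : Real.exp (θ * s / 2) ≤ Real.exp (θ * s - θ / 8 * s) := by
          apply Real.exp_le_exp.2
          have : 0 < θ * s := by positivity
          linarith
        gcongr
        exact h4.trans h6
      have hL0 : (0 : ℝ) ≤ (Nat.log 2 Y1 : ℝ) + 1 := by positivity
      calc ((Nat.log 2 Y1 : ℝ) + 1) * (b : ℝ) ^ (20 * Rr) *
            (1 / (b : ℝ) ^ (100 * (Rr + 1)) + 2 / Y0) =
            ((Nat.log 2 Y1 : ℝ) + 1) * ((b : ℝ) ^ (20 * Rr) * (1 / (b : ℝ) ^ (100 * (Rr + 1))) +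
              (b : ℝ) ^ (20 * Rr) * (2 / (Y0 : ℝ))) := by ring
        _ ≤ (3 * (K * s)) * (2 * Real.exp (-(θ * s)) + 2 * Real.exp (-(θ * s))) := by
            apply mul_le_mul d1 (add_le_add d2 d3) (by positivity) (by positivity)
        _ = 12 * (K * s) * Real.exp (-(θ * s)) := by ring
        _ ≤ _ := d4

end ESAs
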