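import Pool.Agent.ESAs.Stmts

open Finset

namespace ESAs

open scoped Classical

namespace Bad

lemma harm (t : ℝ) (ht : 0 ≤ t) (S : Finset ℕ)
    (hS : ∀ m ∈ S, 1 ≤ m ∧ (m : ℝ) ≤ Real.exp t) : ∑ m ∈ S, (1 : ℝ) / m ≤ t + 1 := by
  have h1 : S ⊆ Icc 1 ⌊Real.exp t⌋₊ := by
    intro m hm
    obtain ⟨h1, h2⟩ := hS m hm
    exact mem_Icc.2 ⟨h1, Nat.le_floor h2⟩
  have h2 : ∑ m ∈ S, (1 : ℝ) / m ≤ ∑ m ∈ Icc 1 ⌊Real.exp t⌋₊, (1 : ℝ) / m :=
    sum_le_sum_of_subset_of_nonneg h1 (fun m _ _ => by positivity)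
  have h3 := harmonic_floor_le_one_add_log (Real.exp t) (Real.one_le_exp ht)
  rw [Real.log_exp, harmonic_eq_sum_Icc] at h3
  push_cast at h3
  simp only [← one_div] at h3
  linarith

lemma str {n : ℕ} (hn : 2 ≤ n) (hm : 2 ≤ n / ESGcd.maxPrime n) :
    (ESGcd.maxPrime n).Prime ∧ (secPrime n).Prime ∧
      secPrime n * cofac n = n / ESGcd.maxPrime n ∧
      secPrime n * cofac n * ESGcd.maxPrime n = n := by
  obtain ⟨h1, h2⟩ := ESGcd.maxPrime_spec hn
  obtain ⟨h3, h4⟩ := ESGcd.maxPrime_spec hm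
  have h5 : secPrime n * cofac n = n / ESGcd.maxPrime n := Nat.mul_div_cancel' h4
  refine ⟨h1, h3, h5, ?_⟩
  rw [h5]; exact Nat.div_mul_cancel h2

lemma secPrime_congr {n n' : ℕ} (h : n / ESGcd.maxPrime n = n' / ESGcd.maxPrime n') :
    secPrime n = secPrime n' ∧ cofac n = cofac n' := by
  unfold cofac secPrime
  rw [h]; exact ⟨rfl, rfl⟩

/-- the conditions on `n` -/
def Cond (K δ ε s : ℝ) (n : ℕ) : Prop := 2 ≤ n / ESGcd.maxPrime n ∧
      ((n / ESGcd.maxPrime n : ℕ) : ℝ) ≤ Real.exp (K * s) ∧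
      n / ESGcd.maxPrime n < ESGcd.maxPrime n ∧
      (∀ r : ℕ, r.Prime → r ^ 2 ∣ n / ESGcd.maxPrime n → (r : ℝ) ≤ Real.exp (δ * s)) ∧
      Real.exp (δ * s) < secPrime n ∧
      (1 + ε) * s ^ 2 ≤ Real.log (secPrime n) * Real.log (cofac n) ∧
      ESGcd.IsSolution n

lemma facts {K δ ε s : ℝ} {n : ℕ} (hK : 1 ≤ K) (hε : 0 < ε) (hs : 1 ≤ s) (hn : 2 ≤ n)
    (h : Cond K δ ε s n) :
    (ESGcd.maxPrime n).Prime ∧ (secPrime n).Prime ∧
      secPrime n * cofac n = n / ESGcd.maxPrime n ∧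
      secPrime n * cofac n * ESGcd.maxPrime n = n ∧
      1 ≤ cofac n ∧ ¬ secPrime n ∣ cofac n ∧
      (secPrime n : ℝ) * cofac n ≤ Real.exp (K * s) ∧
      (secPrime n : ℝ) ≤ Real.exp (K * s) ∧ (cofac n : ℝ) ≤ Real.exp (K * s) ∧
      Real.exp (s / K) ≤ cofac n := by
  obtain ⟨h2, h3, h4, h5, h6, h7, h8⟩ := h
  obtain ⟨a1, a2, a3, a4⟩ := str hn h2
  have hM : 1 ≤ cofac n := by
    rcases Nat.eq_zero_or_pos (cofac n) with h0 | h0
    · rw [h0, mul_zero] at a3; omega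
    · exact h0
  have hMR : (1 : ℝ) ≤ cofac n := by exact_mod_cast hM
  have hqR : (1 : ℝ) ≤ secPrime n := by exact_mod_cast a2.one_lt.le
  have hprod : (secPrime n : ℝ) * cofac n ≤ Real.exp (K * s) := by
    have : ((secPrime n * cofac n : ℕ) : ℝ) ≤ Real.exp (K * s) := by rw [a3]; exact h3
    exact_mod_cast this
  have hq : (secPrime n : ℝ) ≤ Real.exp (K * s) := by nlinarith
  have hMK : (cofac n : ℝ) ≤ Real.exp (K * s) := by nlinarith
  refine ⟨a1, a2, a3, a4, hM, ?_, hprod, hq, hMK, ?_⟩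
  · intro hd
    have : secPrime n ^ 2 ∣ n / ESGcd.maxPrime n := by
      rw [← a3, sq]; exact Nat.mul_dvd_mul_left _ hd
    have := h5 _ a2 this
    linarith
  · have hMpos : (0 : ℝ) < cofac n := by linarith
    rw [← Real.le_log_iff_exp_le hMpos]
    have hlq : Real.log (secPrime n) ≤ K * s := by
      have := Real.log_le_log (by linarith) hq
      rwa [Real.log_exp] at this
    have hlM : 0 ≤ Real.log (cofac n) := Real.log_nonneg hMR
    have h9 : (1 + ε) * s ^ 2 ≤ K * s * Real.log (cofac n) :=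
      h7.trans (mul_le_mul_of_nonneg_right hlq hlM)
    rw [div_le_iff₀ (by linarith)]
    have h10 : s * s ≤ s * (K * Real.log (cofac n)) := by nlinarith [sq_nonneg s]
    have h11 := le_of_mul_le_mul_left h10 (by linarith)
    linarith

lemma partOne {K δ ε s c : ℝ} {x : ℕ} (E : ℕ → ℕ → ℕ → Prop) (hK : 1 ≤ K) (hε : 0 < ε)
    (hs : 1 ≤ s)
    (hBH : ∀ q : ℕ, q.Prime →
      Real.exp (δ * s) < q → (q : ℝ) ≤ Real.exp (K * s) →
      (∀ M : ℕ, ¬ q ∣ M → (q : ℝ) * M ≤ Real.exp (K * s) →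
        (1 + ε) * s ^ 2 ≤ Real.log q * Real.log M → ¬ E x q M →
        (#{P ∈ Icc 1 (x / (q * M)) | P.Prime ∧ q * M < P ∧
          ESGcd.IsSolution (q * M * P)} : ℝ) ≤ Real.exp (-(c * s)) * ((x : ℝ) / (q * M)))) :
    (((Icc 2 x).filter (fun n => Cond K δ ε s n ∧ ¬ E x (secPrime n) (cofac n))).card : ℝ) ≤
      Real.exp (-(c * s)) * x * (K * s + 1) := by
  set A := (Icc 2 x).filter (fun n => Cond K δ ε s n ∧ ¬ E x (secPrime n) (cofac n)) with hA
  have hcard := card_eq_sum_card_image (fun n => n / ESGcd.maxPrime n) A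
  have h1 : (A.card : ℝ) = ∑ m ∈ A.image (fun n => n / ESGcd.maxPrime n),
      ((A.filter (fun n => n / ESGcd.maxPrime n = m)).card : ℝ) := by
    exact_mod_cast hcard
  rw [h1]
  have h2 : ∀ m ∈ A.image (fun n => n / ESGcd.maxPrime n),
      ((A.filter (fun n => n / ESGcd.maxPrime n = m)).card : ℝ) ≤
        Real.exp (-(c * s)) * x * (1 / m) := by
    intro m hm
    obtain ⟨n0, hn0, hm0⟩ := mem_image.1 hm
    rw [hA, mem_filter, mem_Icc] at hn0
    obtain ⟨⟨hn2, hnx⟩, hC, hE⟩ := hn0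
    obtain ⟨a1, a2, a3, a4, a5, a6, a7, a8, a9, a10⟩ := facts hK hε hs hn2 hC
    have hb := hBH _ a2 hC.2.2.2.2.1 a8 _ a6 a7 hC.2.2.2.2.2.1 hE
    have h3 : (A.filter (fun n => n / ESGcd.maxPrime n = m)).card ≤
        #{P ∈ Icc 1 (x / (secPrime n0 * cofac n0)) | P.Prime ∧ secPrime n0 * cofac n0 < P ∧
          ESGcd.IsSolution (secPrime n0 * cofac n0 * P)} := by
      apply card_le_card_of_injOn (fun n => ESGcd.maxPrime n)
      · intro n hn
        simp only [coe_filter, Set.mem_ofPred_eq] at hn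
        obtain ⟨hnA, hnm⟩ := hn
        rw [hA, mem_filter, mem_Icc] at hnA
        obtain ⟨⟨hn2', hnx'⟩, hC', hE'⟩ := hnA
        obtain ⟨b1, b2, b3, b4, b5, b6, b7, b8, b9, b10⟩ := facts hK hε hs hn2' hC'
        obtain ⟨e1, e2⟩ := secPrime_congr (hm0.trans hnm.symm)
        simp only [coe_filter, Set.mem_ofPred_eq, mem_Icc]
        rw [e1, e2]
        refine ⟨⟨b1.one_lt.le, ?_⟩, b1, ?_, ?_⟩
        · rw [Nat.le_div_iff_mul_le (Nat.mul_pos b2.pos b5), mul_comm, b4]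
          exact hnx'
        · rw [b3]; exact hC'.2.2.1
        · rw [b4]; exact hC'.2.2.2.2.2.2
      · intro n hn n' hn' hnn
        simp only [coe_filter, Set.mem_ofPred_eq] at hn hn'
        obtain ⟨hnA, hnm⟩ := hn
        obtain ⟨hnA', hnm'⟩ := hn'
        rw [hA, mem_filter, mem_Icc] at hnA hnA'
        obtain ⟨b1, b2, b3, b4, _⟩ := facts hK hε hs hnA.1.1 hnA.2.1
        obtain ⟨b1', b2', b3', b4', _⟩ := facts hK hε hs hnA'.1.1 hnA'.2.1
        rw [← b4, ← b4', b3, b3', hnm, hnm']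
        simp only at hnn
        rw [hnn]
    have h4 : ((A.filter (fun n => n / ESGcd.maxPrime n = m)).card : ℝ) ≤
        ((#{P ∈ Icc 1 (x / (secPrime n0 * cofac n0)) | P.Prime ∧ secPrime n0 * cofac n0 < P ∧
          ESGcd.IsSolution (secPrime n0 * cofac n0 * P)} : ℕ) : ℝ) := by exact_mod_cast h3
    refine (h4.trans hb).trans (le_of_eq ?_)
    have h5 : (secPrime n0 : ℝ) * cofac n0 = m := by
      rw [← hm0, ← a3]; push_cast; rfl
    rw [h5]; ring
  refine (sum_le_sum h2).trans ?_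
  rw [← mul_sum]
  apply mul_le_mul_of_nonneg_left _ (by positivity)
  apply harm _ (by positivity)
  intro m hm
  obtain ⟨n0, hn0, hm0⟩ := mem_image.1 hm
  rw [hA, mem_filter, mem_Icc] at hn0
  rw [← hm0]
  exact ⟨by have := hn0.2.1.1; omega, hn0.2.1.2.1⟩

lemma partTwo {K δ ε s c : ℝ} {x : ℕ} (E : ℕ → ℕ → ℕ → Prop) (hK : 1 ≤ K) (hε : 0 < ε)
    (hs : 1 ≤ s)
    (hBH : ∀ q : ℕ, q.Prime →
      Real.exp (δ * s) < q → (q : ℝ) ≤ Real.exp (K * s) →
      ∑ M ∈ Icc 1 ⌊Real.exp (K * s)⌋₊ with Real.exp (s / K) ≤ ((M : ℕ) : ℝ) ∧ E x q M, (1 : ℝ) / M ≤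
        Real.exp (-(c * s))) :
    ∑ m ∈ ((Icc 2 x).filter (fun n => Cond K δ ε s n ∧ E x (secPrime n) (cofac n))).image
      (fun n => n / ESGcd.maxPrime n), (1 : ℝ) / m ≤
      Real.exp (-(c * s)) * (K * s + 1) := by
  set S := ((Icc 2 x).filter (fun n => Cond K δ ε s n ∧ E x (secPrime n) (cofac n))).image
      (fun n => n / ESGcd.maxPrime n) with hS
  have hmem : ∀ m ∈ S, ∃ q M : ℕ, q = ESGcd.maxPrime m ∧ M = m / q ∧ q * M = m ∧ q.Prime ∧
      Real.exp (δ * s) < q ∧ (q : ℝ) ≤ Real.exp (K * s) ∧ 1 ≤ M ∧ (M : ℝ) ≤ Real.exp (K * s) ∧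
      Real.exp (s / K) ≤ M ∧ E x q M := by
    intro m hm
    obtain ⟨n0, hn0, hm0⟩ := mem_image.1 hm
    rw [mem_filter, mem_Icc] at hn0
    obtain ⟨⟨hn2, hnx⟩, hC, hE⟩ := hn0
    obtain ⟨a1, a2, a3, a4, a5, a6, a7, a8, a9, a10⟩ := facts hK hε hs hn2 hC
    refine ⟨secPrime n0, cofac n0, ?_, ?_, ?_, a2, hC.2.2.2.2.1, a8, a5, a9, a10, hE⟩
    · unfold secPrime; rw [hm0]
    · unfold cofac; rw [hm0]
    · rw [a3, hm0]
  have h1 : ∑ m ∈ S, (1 : ℝ) / m = ∑ q ∈ S.image ESGcd.maxPrime,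
      ∑ m ∈ S.filter (fun m => ESGcd.maxPrime m = q), (1 : ℝ) / m :=
    (sum_fiberwise_of_maps_to (fun m hm => mem_image_of_mem _ hm) _).symm
  rw [h1]
  have h2 : ∀ q ∈ S.image ESGcd.maxPrime,
      ∑ m ∈ S.filter (fun m => ESGcd.maxPrime m = q), (1 : ℝ) / m ≤
        Real.exp (-(c * s)) * (1 / q) := by
    intro q hq
    obtain ⟨m0, hm0, hq0⟩ := mem_image.1 hq
    obtain ⟨q', M', e1, e2, e3, e4, e5, e6, e7, e8, e9, e10⟩ := hmem m0 hm0
    rw [hq0] at e1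
    subst e1
    have hqpos : (0 : ℝ) < q' := by exact_mod_cast e4.pos
    have h3 : ∑ m ∈ S.filter (fun m => ESGcd.maxPrime m = q'), (1 : ℝ) / m =
        (1 / q') * ∑ M ∈ (S.filter (fun m => ESGcd.maxPrime m = q')).image (fun m => m / q'),
          (1 : ℝ) / M := by
      rw [sum_image, mul_sum]
      · apply sum_congr rfl
        intro m hm
        rw [mem_filter] at hm
        obtain ⟨q, M, f1, f2, f3, f4, f5, f6, f7, f8, f9, f10⟩ := hmem m hm.1
        rw [hm.2] at f1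
        subst f1
        rw [← f2]
        have : (m : ℝ) = q * M := by rw [← f3]; push_cast; rfl
        rw [this]
        have : (0 : ℝ) < M := by exact_mod_cast f7
        field_simp
      · intro m hm m' hm' hmm
        simp only [coe_filter, Set.mem_ofPred_eq] at hm hm'
        obtain ⟨q, M, f1, f2, f3, _⟩ := hmem m hm.1
        obtain ⟨p, N, g1, g2, g3, _⟩ := hmem m' hm'.1
        rw [hm.2] at f1
        rw [hm'.2] at g1
        subst f1
        subst g1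
        simp only at hmm
        rw [← f3, ← g3, f2, g2, hmm]
    rw [h3, mul_comm]
    apply mul_le_mul_of_nonneg_right _ (by positivity)
    refine le_trans ?_ (hBH q' e4 e5 e6)
    apply sum_le_sum_of_subset_of_nonneg
    · intro M hM
      obtain ⟨m, hm, hmM⟩ := mem_image.1 hM
      rw [mem_filter] at hm
      obtain ⟨q, M1, f1, f2, f3, f4, f5, f6, f7, f8, f9, f10⟩ := hmem m hm.1
      rw [hm.2] at f1
      subst f1
      have : M = M1 := by rw [f2, ← hmM]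
      subst this
      rw [mem_filter, mem_Icc]
      exact ⟨⟨f7, Nat.le_floor f8⟩, f9, f10⟩
    · intro M _ _; positivity
  refine (sum_le_sum h2).trans ?_
  rw [← mul_sum]
  apply mul_le_mul_of_nonneg_left _ (by positivity)
  apply harm _ (by positivity)
  intro q hq
  obtain ⟨m0, hm0, hq0⟩ := mem_image.1 hq
  obtain ⟨q', M', e1, e2, e3, e4, e5, e6, e7, e8, e9, e10⟩ := hmem m0 hm0
  rw [hq0] at e1
  subst e1
  exact ⟨e4.one_lt.le, e6⟩

end Bad

theorem tBad (hBH : St_BH) (hpair : St_pair) : St_bad := by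
  intro K δ ε hK hδ hδ1 hε hε1
  obtain ⟨c, s0, E, hc, hs0, hB⟩ := hBH K δ ε hK hδ hδ1 hε hε1
  obtain ⟨C, hC, hP⟩ := hpair
  obtain ⟨s1, hP1⟩ := hP K hK
  refine ⟨c / 2, max (max s0 s1) (max 1 (8 * (K + 1) * (1 + C) / c ^ 2)), by positivity,
    by positivity, ?_⟩
  intro x s hs hx
  have g1 : s0 ≤ s := (le_max_left _ _).trans ((le_max_left _ _).trans hs)
  have g2 : s1 ≤ s := (le_max_right _ _).trans ((le_max_left _ _).trans hs)
  have g3 : 1 ≤ s := (le_max_left _ _).trans ((le_max_right _ _).trans hs)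
  have g4 : 8 * (K + 1) * (1 + C) / c ^ 2 ≤ s :=
    (le_max_right _ _).trans ((le_max_right _ _).trans hs)
  have hB' := hB x s g1 hx
  have p1 := Bad.partOne (K := K) (δ := δ) (ε := ε) (s := s) (c := c) (x := x) E hK hε g3
    (fun q hq h1 h2 => (hB' q hq h1 h2).1)
  have p2 := Bad.partTwo (K := K) (δ := δ) (ε := ε) (s := s) (c := c) (x := x) E hK hε g3
    (fun q hq h1 h2 => (hB' q hq h1 h2).2)
  set S := ((Icc 2 x).filter (fun n => Bad.Cond K δ ε s n ∧ E x (secPrime n) (cofac n))).image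
      (fun n => n / ESGcd.maxPrime n) with hS
  have p3 := hP1 x s g2 hx S (by
    intro m hm
    obtain ⟨n0, hn0, hm0⟩ := mem_image.1 hm
    rw [mem_filter, mem_Icc] at hn0
    rw [← hm0]
    exact ⟨by have := hn0.2.1.1; omega, hn0.2.1.2.1⟩)
  have hx0 : (0 : ℝ) ≤ x := Nat.cast_nonneg _
  have hcov : (#{n ∈ Icc 2 x | 2 ≤ n / ESGcd.maxPrime n ∧
      ((n / ESGcd.maxPrime n : ℕ) : ℝ) ≤ Real.exp (K * s) ∧
      n / ESGcd.maxPrime n < ESGcd.maxPrime n ∧
      (∀ r : ℕ, r.Prime → r ^ 2 ∣ n / ESGcd.maxPrime n → (r : ℝ) ≤ Real.exp (δ * s)) ∧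
      Real.exp (δ * s) < secPrime n ∧
      (1 + ε) * s ^ 2 ≤ Real.log (secPrime n) * Real.log (cofac n) ∧
      ESGcd.IsSolution n} : ℝ) ≤
      (((Icc 2 x).filter (fun n => Bad.Cond K δ ε s n ∧
        ¬ E x (secPrime n) (cofac n))).card : ℝ) +
      (#{n ∈ Icc 2 x | n / ESGcd.maxPrime n ∈ S} : ℝ) := by
    have hsub : {n ∈ Icc 2 x | 2 ≤ n / ESGcd.maxPrime n ∧
      ((n / ESGcd.maxPrime n : ℕ) : ℝ) ≤ Real.exp (K * s) ∧
      n / ESGcd.maxPrime n < ESGcd.maxPrime n ∧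
      (∀ r : ℕ, r.Prime → r ^ 2 ∣ n / ESGcd.maxPrime n → (r : ℝ) ≤ Real.exp (δ * s)) ∧
      Real.exp (δ * s) < secPrime n ∧
      (1 + ε) * s ^ 2 ≤ Real.log (secPrime n) * Real.log (cofac n) ∧
      ESGcd.IsSolution n} ⊆ ((Icc 2 x).filter (fun n => Bad.Cond K δ ε s n ∧
        ¬ E x (secPrime n) (cofac n))) ∪ {n ∈ Icc 2 x | n / ESGcd.maxPrime n ∈ S} := by
      intro n hn
      rw [mem_filter] at hn
      have hCn : Bad.Cond K δ ε s n := hn.2
      by_cases hE : E x (secPrime n) (cofac n)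
      · rw [mem_union]; right
        rw [mem_filter]
        exact ⟨hn.1, mem_image.2 ⟨n, mem_filter.2 ⟨hn.1, hCn, hE⟩, rfl⟩⟩
      · rw [mem_union]; left
        exact mem_filter.2 ⟨hn.1, hCn, hE⟩
    exact_mod_cast (card_le_card hsub).trans (card_union_le _ _)
  refine hcov.trans ?_
  have p4 : (#{n ∈ Icc 2 x | n / ESGcd.maxPrime n ∈ S} : ℝ) ≤
      C * x * (Real.exp (-(c * s)) * (K * s + 1)) := by
    refine p3.trans ?_
    have h1 : C * (x / s ^ 2) ≤ C * x := by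
      apply mul_le_mul_of_nonneg_left _ hC.le
      apply div_le_self hx0
      nlinarith
    have h2 : 0 ≤ ∑ m ∈ S, (1 : ℝ) / m := sum_nonneg fun m _ => by positivity
    exact mul_le_mul h1 p2 h2 (by positivity)
  have hquad : (K + 1) * (1 + C) * s ≤ Real.exp (c / 2 * s) := by
    have h1 := Real.quadratic_le_exp_of_nonneg (x := c / 2 * s) (by positivity)
    rw [div_le_iff₀ (by positivity)] at g4
    have h2 : (c / 2 * s) ^ 2 / 2 = (s * c ^ 2) * s / 8 := by ring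
    have h3 : 8 * (K + 1) * (1 + C) * s ≤ (s * c ^ 2) * s :=
      mul_le_mul_of_nonneg_right g4 (by linarith)
    have h4 : 0 ≤ c / 2 * s := by positivity
    linarith
  have hexp : Real.exp (-(c * s)) = Real.exp (-(c / 2 * s)) * Real.exp (-(c / 2 * s)) := by
    rw [← Real.exp_add]; congr 1; ring
  have hone : Real.exp (-(c / 2 * s)) * Real.exp (c / 2 * s) = 1 := by
    rw [← Real.exp_add]; simp
  have hKs : K * s + 1 ≤ (K + 1) * s := by nlinarith
  calc _ ≤ Real.exp (-(c * s)) * x * (K * s + 1) +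
        C * x * (Real.exp (-(c * s)) * (K * s + 1)) := add_le_add p1 p4
    _ = Real.exp (-(c * s)) * x * ((1 + C) * (K * s + 1)) := by ring
    _ ≤ Real.exp (-(c * s)) * x * (Real.exp (c / 2 * s)) := by
        apply mul_le_mul_of_nonneg_left _ (by positivity)
        refine le_trans ?_ hquad
        have := mul_le_mul_of_nonneg_left hKs (by positivity : (0 : ℝ) ≤ 1 + C)
        linarith
    _ = Real.exp (-(c / 2 * s)) * x * (Real.exp (-(c / 2 * s)) * Real.exp (c / 2 * s)) := by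
        rw [hexp]; ring
    _ = _ := by rw [hone, mul_one]

end ESAs
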