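import Pool.Agent.ESAs.Defs
import Pool.Agent.ESGcd.LS2

/-!
# Basic lemmas
-/

namespace ESAs

open Finset

lemma ec_eq (θ : ℝ) : ec θ = ESGcd.ee θ := by
  unfold ec ESGcd.ee; push_cast; ring_nf

lemma ec_zero : ec 0 = 1 := by simp [ec]

lemma ec_add (a b : ℝ) : ec (a + b) = ec a * ec b := by
  rw [ec_eq, ec_eq, ec_eq, ESGcd.ee_add]

lemma ec_int (k : ℤ) : ec k = 1 := by rw [ec_eq, ESGcd.ee_int]

lemma ec_nat (k : ℕ) : ec k = 1 := by
  have := ec_int k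
  simpa using this

lemma ec_add_int (a : ℝ) (k : ℤ) : ec (a + k) = ec a := by rw [ec_add, ec_int, mul_one]

lemma norm_ec (θ : ℝ) : ‖ec θ‖ = 1 := by rw [ec_eq, ESGcd.norm_ee]

lemma ec_nat_mul (n : ℕ) (θ : ℝ) : ec (n * θ) = ec θ ^ n := by
  rw [ec_eq, ec_eq, ESGcd.ee_nat_mul]

lemma ec_fract (θ : ℝ) : ec (Int.fract θ) = ec θ := by
  conv_rhs => rw [← Int.fract_add_floor θ]
  rw [ec_add_int]

lemma ec_congr {a b : ℝ} {k : ℤ} (h : a = b + k) : ec a = ec b := by rw [h, ec_add_int]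

/-- orthogonality modulo `q` -/
lemma sum_ec_range (q : ℕ) (hq : 0 < q) (a : ℤ) :
    ∑ d ∈ range q, ec ((a : ℝ) * d / q) = if (q : ℤ) ∣ a then (q : ℂ) else 0 := by
  have hq0 : (q : ℝ) ≠ 0 := by exact_mod_cast hq.ne'
  have h1 : ∀ d : ℕ, ec ((a : ℝ) * d / q) = ec ((a : ℝ) / q) ^ d := by
    intro d
    rw [← ec_nat_mul]
    congr 1; ring
  simp_rw [h1]
  split_ifs with h
  · obtain ⟨k, rfl⟩ := h
    have : ec (((q * k : ℤ) : ℝ) / q) = 1 := by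
      have e : ((q * k : ℤ) : ℝ) / q = (k : ℤ) := by push_cast; field_simp
      rw [e, ec_int]
    rw [sum_congr rfl fun d _ => by rw [this]]
    simp
  · have h2 : ec ((a : ℝ) / q) ≠ 1 := by
      intro hc
      apply h
      rw [ec_eq, ESGcd.ee, Complex.exp_eq_one_iff] at hc
      obtain ⟨n, hn⟩ := hc
      have hpi : (Real.pi : ℂ) ≠ 0 := by exact_mod_cast Real.pi_ne_zero
      have h3 : ((a : ℝ) / q : ℂ) = n := by
        have h4 : (2 * Real.pi * Complex.I : ℂ) ≠ 0 := by simp [hpi]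
        have h5 : (2 * Real.pi * Complex.I : ℂ) * ((a : ℝ) / q) = (2 * Real.pi * Complex.I) * n := by
          push_cast at hn ⊢
          rw [mul_comm (2 * Real.pi * Complex.I : ℂ) (n : ℂ), ← hn]; ring
        exact mul_left_cancel₀ h4 h5
      have h4 : ((a : ℝ) / q) = n := by exact_mod_cast h3
      rw [div_eq_iff hq0] at h4
      refine ⟨n, ?_⟩
      have : (a : ℝ) = ((q * n : ℤ) : ℝ) := by rw [h4]; push_cast; ring
      exact_mod_cast this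
    rw [geom_sum_eq h2, ← ec_nat_mul]
    have h3 : ec ((q : ℝ) * ((a : ℝ) / q)) = 1 := by
      have e : (q : ℝ) * ((a : ℝ) / q) = (a : ℤ) := by field_simp
      rw [e, ec_int]
    rw [h3]; simp

lemma mem_box {k H : ℕ} {a : Fin k → ℤ} : a ∈ box k H ↔ ∀ j, -(H : ℤ) ≤ a j ∧ a j ≤ H := by
  simp [box, Fintype.mem_piFinset]

lemma zero_mem_box (k H : ℕ) : (0 : Fin k → ℤ) ∈ box k H := by
  rw [mem_box]; intro j; simp

lemma card_box (k H : ℕ) : #(box k H) = (2 * H + 1) ^ k := by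
  unfold box
  rw [Fintype.card_piFinset]
  simp only [Int.card_Icc, prod_const, card_univ, Fintype.card_fin]
  congr 1
  omega

lemma ip_zero {k : ℕ} (J : Fin k → ℕ) : ip 0 J = 0 := by simp [ip]

lemma ip_add {k : ℕ} (a b : Fin k → ℤ) (J : Fin k → ℕ) : ip (a + b) J = ip a J + ip b J := by
  simp [ip, add_mul, sum_add_distrib]

lemma ip_two (a : Fin 2 → ℤ) (J M : ℕ) : ip a ![J, M] = a 0 * J + a 1 * M := by
  simp [ip, Fin.sum_univ_two]

lemma ip_three (a : Fin 3 → ℤ) (J J' M : ℕ) :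
    ip a ![J, J', M] = a 0 * J + a 1 * J' + a 2 * M := by
  simp [ip, Fin.sum_univ_three]

lemma ip_one (a : Fin 1 → ℤ) (M : ℕ) : ip a ![M] = a 0 * M := by
  simp [ip]

lemma sum_pt {k : ℕ} (q : ℕ) (J : Fin k → ℕ) (i n : ℕ) (a : Fin k → ℤ) :
    ∑ j, (a j : ℝ) * pt q J i n j = (ip a J : ℝ) * n / (q : ℝ) ^ (i + 1) := by
  unfold pt ip
  push_cast
  rw [sum_mul, sum_div]
  refine sum_congr rfl fun j _ => ?_
  ring

lemma tp_pt {k : ℕ} (q H : ℕ) (c : (Fin k → ℤ) → ℂ) (J : Fin k → ℕ) (i n : ℕ) :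
    tp H c (pt q J i n) = ∑ a ∈ box k H, c a * ec ((ip a J : ℝ) * n / (q : ℝ) ^ (i + 1)) := by
  unfold tp
  refine sum_congr rfl fun a _ => ?_
  rw [sum_pt]

/-- `tp H c (pt q J i n)` only depends on `n` modulo `q^(i+1)` -/
lemma tp_pt_add {k : ℕ} (q H : ℕ) (hq : 0 < q) (c : (Fin k → ℤ) → ℂ) (J : Fin k → ℕ)
    (i n d : ℕ) : tp H c (pt q J i (n + q ^ (i + 1) * d)) = tp H c (pt q J i n) := by
  rw [tp_pt, tp_pt]
  refine sum_congr rfl fun a _ => ?_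
  congr 1
  have hq0 : (q : ℝ) ≠ 0 := by exact_mod_cast hq.ne'
  apply ec_congr (k := ip a J * d)
  push_cast
  field_simp

/-- fractional parts of the coordinates of `pt` -/
lemma fract_pt {k : ℕ} (q : ℕ) (hq : 0 < q) (J : Fin k → ℕ) (i n : ℕ) (j : Fin k) :
    Int.fract (pt q J i n j) = ((J j * n % q ^ (i + 1) : ℕ) : ℝ) / (q : ℝ) ^ (i + 1) := by
  have hq0 : (0 : ℝ) < (q : ℝ) ^ (i + 1) := by positivity
  have hQ : 0 < q ^ (i + 1) := by positivity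
  unfold pt
  have h1 : (J j : ℝ) * n / (q : ℝ) ^ (i + 1) =
      ((J j * n % q ^ (i + 1) : ℕ) : ℝ) / (q : ℝ) ^ (i + 1) +
        ((J j * n / q ^ (i + 1) : ℕ) : ℤ) := by
    have h2 : ((J j * n : ℕ) : ℝ) =
        ((J j * n % q ^ (i + 1) : ℕ) : ℝ) + ((q : ℝ) ^ (i + 1)) * ((J j * n / q ^ (i + 1) : ℕ) : ℝ) := by
      have := Nat.mod_add_div (J j * n) (q ^ (i + 1))
      exact_mod_cast this.symm
    have h3 : (J j : ℝ) * n = ((J j * n : ℕ) : ℝ) := by push_cast; ring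
    rw [h3, h2, Int.cast_natCast]
    field_simp
  rw [h1, Int.fract_add_intCast, Int.fract_eq_self]
  constructor
  · positivity
  · rw [div_lt_one hq0]
    exact_mod_cast Nat.mod_lt _ hQ

lemma norm_tp_le {k H : ℕ} (c : (Fin k → ℤ) → ℂ) (A : ℝ) (hA : ∀ a, ‖c a‖ ≤ A) (t : Fin k → ℝ) :
    ‖tp H c t‖ ≤ (2 * H + 1) ^ k * A := by
  unfold tp
  refine (norm_sum_le _ _).trans ?_
  have : ∀ a ∈ box k H, ‖c a * ec (∑ j, (a j : ℝ) * t j)‖ ≤ A := by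
    intro a _
    rw [norm_mul, norm_ec, mul_one]; exact hA a
  refine (sum_le_sum this).trans ?_
  rw [sum_const, card_box, nsmul_eq_mul]
  push_cast; rfl

lemma dn_nonneg (θ : ℝ) : 0 ≤ dn θ := abs_nonneg _

lemma dn_le_half (θ : ℝ) : dn θ ≤ 1 / 2 := abs_sub_round θ

lemma dn_le (θ : ℝ) (k : ℤ) : dn θ ≤ |θ - k| := round_le θ k

lemma dn_add_int (θ : ℝ) (k : ℤ) : dn (θ + k) = dn θ := by
  unfold dn
  rw [round_add_intCast]; push_cast; ring_nf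

lemma Maj.tp_eq {k H : ℕ} {g : (Fin k → ℝ) → ℝ} {c : (Fin k → ℤ) → ℂ} {μ A : ℝ}
    (h : Maj k H g c μ A) (t : Fin k → ℝ) : tp H c t = ((tp H c t).re : ℂ) := by
  apply Complex.ext
  · simp
  · simp [h.real t]

lemma Maj.re_nonneg {k H : ℕ} {g : (Fin k → ℝ) → ℝ} {c : (Fin k → ℤ) → ℂ} {μ A : ℝ}
    (h : Maj k H g c μ A) (hg : ∀ t, 0 ≤ g t) (t : Fin k → ℝ) : 0 ≤ (tp H c t).re :=
  (hg t).trans (h.ge t)

lemma gG_nonneg {κ : ℝ} (hκ : 0 < κ) (t : Fin 2 → ℝ) : 0 ≤ gG κ t := by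
  unfold gG; split_ifs
  · have : 0 < max (Int.fract (t 1)) κ := lt_max_of_lt_right hκ
    positivity
  · exact le_rfl

lemma gF_nonneg (κ : ℝ) (t : Fin 2 → ℝ) : 0 ≤ gF κ t := by
  unfold gF; split_ifs
  · have := Int.fract_nonneg (t 1)
    positivity
  · exact le_rfl

lemma gL_nonneg (κ l : ℝ) (t : Fin 2 → ℝ) : 0 ≤ gL κ l t := by
  unfold gL; split_ifs
  · have := Int.fract_nonneg (t 1)
    positivity
  · exact le_rfl

lemma gS_nonneg (κ : ℝ) (t : Fin 3 → ℝ) : 0 ≤ gS κ t := by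
  unfold gS; split_ifs
  · positivity
  · exact le_rfl

end ESAs
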