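import Pool.Agent.ESAs.Stmts

open Finset

namespace ESAs

open scoped Classical

namespace Bdr

lemma harm (t : ℝ) (ht : 0 ≤ t) (S : Finset ℕ)
    (hS : ∀ m ∈ S, 1 ≤ m ∧ (m : ℝ) ≤ Real.exp t) : ∑ m ∈ S, (1 : ℝ) / m ≤ t + 1 := by
  have h1 : S ⊆ Icc 1 ⌊Real.exp t⌋₊ := by
    intro m hm
    obtain ⟨h1, h2⟩ := hS m hm
    exact mem_Icc.2 ⟨h1, Nat.le_floor h2⟩
  have h2 : ∑ m ∈ S, (1 : ℝ) / m ≤ ∑ m ∈ Icc 1 ⌊Real.exp t⌋₊, (1 : ℝ) / m :=
    sum_le_sum_of_subset_of_nonneg h1 (fun m _ _ => by positivity)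
  have h3 := harmonic_floor_le_one_add_log (Real.exp t) (Real.one_le_exp ht)
  rw [Real.log_exp, harmonic_eq_sum_Icc] at h3
  push_cast at h3
  simp only [← one_div] at h3
  linarith

/-- the primes in the window -/
lemma window {C : ℝ} (hC : 0 ≤ C) (hM2 : ∀ a b : ℝ, 2 ≤ a → a ≤ b →
    ∑ p ∈ (Pool.Agent.CoprimeSieve.pr b).filter (fun p : ℕ => a < (p:ℝ)), (1:ℝ) / p
      ≤ Real.log (Real.log b / Real.log a) + C / Real.log a)
    {δ ε s A : ℝ} (hs : 1 ≤ δ * s) (hA : 0 < A) (hε : 0 < ε) (hε4 : ε ≤ 1 / 4)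
    (T : Finset ℕ) (hT : ∀ q ∈ T, q.Prime ∧ (1 - ε) * A < Real.log q ∧
      Real.log q < (1 + ε) * A ∧ δ * s < Real.log q) :
    ∑ q ∈ T, (1 : ℝ) / q ≤ 8 / 3 * ε + C / (δ * s) := by
  rcases T.eq_empty_or_nonempty with h0 | ⟨q0, hq0⟩
  · rw [h0, sum_empty]
    have : 0 < δ * s := by linarith
    positivity
  set α := max ((1 - ε) * A) (δ * s) with hα
  have hα1 : 1 ≤ α := hs.trans (le_max_right _ _)
  have hα0 : 0 < α := by linarith
  have h1 : ∀ q ∈ T, q.Prime ∧ α < Real.log q ∧ Real.log q < (1 + ε) * A := by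
    intro q hq
    obtain ⟨a1, a2, a3, a4⟩ := hT q hq
    exact ⟨a1, max_lt a2 a4, a3⟩
  have hab : α ≤ (1 + ε) * A := ((h1 q0 hq0).2.1.trans (h1 q0 hq0).2.2).le
  have h2 := hM2 (Real.exp α) (Real.exp ((1 + ε) * A)) (by
    have := Real.add_one_le_exp α
    linarith) (Real.exp_le_exp.2 hab)
  rw [Real.log_exp, Real.log_exp] at h2
  have h3 : T ⊆ (Pool.Agent.CoprimeSieve.pr (Real.exp ((1 + ε) * A))).filter
      (fun p : ℕ => Real.exp α < (p:ℝ)) := by
    intro q hq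
    obtain ⟨a1, a2, a3⟩ := h1 q hq
    have hq0 : (0 : ℝ) < q := by exact_mod_cast a1.pos
    rw [mem_filter, Pool.Agent.CoprimeSieve.mem_pr]
    refine ⟨⟨a1, ?_⟩, ?_⟩
    · rw [← Real.exp_log hq0]; exact Real.exp_le_exp.2 a3.le
    · rw [← Real.exp_log hq0]; exact Real.exp_lt_exp.2 a2
  have h4 : ∑ q ∈ T, (1 : ℝ) / q ≤ ∑ p ∈ (Pool.Agent.CoprimeSieve.pr
      (Real.exp ((1 + ε) * A))).filter (fun p : ℕ => Real.exp α < (p:ℝ)), (1:ℝ) / p :=
    sum_le_sum_of_subset_of_nonneg h3 (fun q _ _ => by positivity)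
  refine (h4.trans h2).trans ?_
  have h5 : Real.log ((1 + ε) * A / α) ≤ 8 / 3 * ε := by
    have h6 : 0 < (1 + ε) * A / α := by positivity
    refine (Real.log_le_sub_one_of_pos h6).trans ?_
    have h7 : (1 + ε) * A / α ≤ (1 + ε) * A / ((1 - ε) * A) := by
      apply div_le_div_of_nonneg_left (by positivity)
      · have : 0 < 1 - ε := by linarith
        positivity
      · exact le_max_left _ _
    have h8 : (1 + ε) * A / ((1 - ε) * A) = (1 + ε) / (1 - ε) :=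
      mul_div_mul_right _ _ hA.ne'
    have h9 : (1 + ε) / (1 - ε) ≤ 1 + 8 / 3 * ε := by
      rw [div_le_iff₀ (by linarith)]
      nlinarith
    linarith
  have h6 : C / α ≤ C / (δ * s) :=
    div_le_div_of_nonneg_left hC (by linarith) (le_max_right _ _)
  linarith

end Bdr

theorem tBdr : St_bdr := by
  intro K δ ε hK hδ hε hε4
  obtain ⟨C, hC, hM2⟩ := Pool.Agent.CoprimeSieve.mertens_second_upper
  refine ⟨max (max (1 / δ) 1) (3 * C / (4 * δ * ε)), ?_⟩
  intro s hs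
  have g1 : 1 / δ ≤ s := (le_max_left _ _).trans ((le_max_left _ _).trans hs)
  have g2 : 1 ≤ s := (le_max_right _ _).trans ((le_max_left _ _).trans hs)
  have g3 : 3 * C / (4 * δ * ε) ≤ s := (le_max_right _ _).trans hs
  have hδs : 1 ≤ δ * s := by
    rw [div_le_iff₀ hδ] at g1; linarith
  set F := {m ∈ Icc 1 ⌊Real.exp (K * s)⌋₊ | Real.exp (δ * s) < ESGcd.maxPrime m ∧
      (1 - ε) * s ^ 2 < Real.log (ESGcd.maxPrime m) *
        Real.log ((m / ESGcd.maxPrime m : ℕ) : ℝ) ∧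
      Real.log (ESGcd.maxPrime m) * Real.log ((m / ESGcd.maxPrime m : ℕ) : ℝ) <
        (1 + ε) * s ^ 2} with hF
  have hmem : ∀ m ∈ F, (ESGcd.maxPrime m).Prime ∧ ESGcd.maxPrime m * (m / ESGcd.maxPrime m) = m ∧
      1 ≤ m / ESGcd.maxPrime m ∧ ((m / ESGcd.maxPrime m : ℕ) : ℝ) ≤ Real.exp (K * s) ∧
      δ * s < Real.log (ESGcd.maxPrime m) ∧
      (1 - ε) * s ^ 2 < Real.log (ESGcd.maxPrime m) *
        Real.log ((m / ESGcd.maxPrime m : ℕ) : ℝ) ∧
      Real.log (ESGcd.maxPrime m) * Real.log ((m / ESGcd.maxPrime m : ℕ) : ℝ) <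
        (1 + ε) * s ^ 2 ∧ 0 < Real.log ((m / ESGcd.maxPrime m : ℕ) : ℝ) := by
    intro m hm
    rw [hF, mem_filter, mem_Icc] at hm
    obtain ⟨⟨h1, h2⟩, h3, h4, h5⟩ := hm
    have hm2 : 2 ≤ m := by
      by_contra hc
      have : m = 1 := by omega
      subst this
      have h6 : ESGcd.maxPrime 1 = 0 := by simp [ESGcd.maxPrime]
      rw [h6] at h3
      have := Real.exp_pos (δ * s)
      simp only [Nat.cast_zero] at h3
      linarith
    obtain ⟨h6, h7⟩ := ESGcd.maxPrime_spec hm2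
    have h8 : ESGcd.maxPrime m * (m / ESGcd.maxPrime m) = m := Nat.mul_div_cancel' h7
    have h9 : 1 ≤ m / ESGcd.maxPrime m := Nat.div_pos (Nat.le_of_dvd (by omega) h7) h6.pos
    have hq0 : (0 : ℝ) < ESGcd.maxPrime m := by exact_mod_cast h6.pos
    have h10 : δ * s < Real.log (ESGcd.maxPrime m) := by
      rw [Real.lt_log_iff_exp_lt hq0]; exact h3
    refine ⟨h6, h8, h9, ?_, h10, h4, h5, ?_⟩
    · have h11 : ((m / ESGcd.maxPrime m : ℕ) : ℝ) ≤ m := by
        exact_mod_cast Nat.div_le_self _ _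
      have h12 : (m : ℝ) ≤ Real.exp (K * s) := (Nat.le_floor_iff (Real.exp_pos _).le).1 h2
      linarith
    · have h11 : 0 < (1 - ε) * s ^ 2 := by
        have : 0 < 1 - ε := by linarith
        positivity
      have h12 : 0 < Real.log (ESGcd.maxPrime m) := by linarith
      exact (mul_pos_iff_of_pos_left h12).1 (h11.trans h4)
  set f : ℕ → ℕ := fun m => m / ESGcd.maxPrime m with hf
  have h1 : ∑ m ∈ F, (1 : ℝ) / m =
      ∑ M ∈ F.image f, ∑ m ∈ F.filter (fun m => f m = M), (1 : ℝ) / m :=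
    (sum_fiberwise_of_maps_to (fun m hm => mem_image_of_mem _ hm) _).symm
  have h2 : ∀ M ∈ F.image f, ∑ m ∈ F.filter (fun m => f m = M), (1 : ℝ) / m ≤
      (8 / 3 * ε + C / (δ * s)) * (1 / M) := by
    intro M hM
    obtain ⟨m0, hm0, hmM⟩ := mem_image.1 hM
    obtain ⟨a1, a2, a3, a4, a5, a6, a7, a8⟩ := hmem m0 hm0
    have hMe : m0 / ESGcd.maxPrime m0 = M := hmM
    rw [hMe] at a2 a3 a4 a6 a7 a8
    have hMpos : (0 : ℝ) < M := by exact_mod_cast a3
    have h3 : ∑ m ∈ F.filter (fun m => f m = M), (1 : ℝ) / m =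
        (∑ q ∈ (F.filter (fun m => f m = M)).image ESGcd.maxPrime, (1 : ℝ) / q) * (1 / M) := by
      rw [sum_image, sum_mul]
      · apply sum_congr rfl
        intro m hm
        rw [mem_filter] at hm
        obtain ⟨b1, b2, _⟩ := hmem m hm.1
        have hfm : m / ESGcd.maxPrime m = M := hm.2
        rw [hfm] at b2
        have hmm : (m : ℝ) = ESGcd.maxPrime m * M := by
          rw [← Nat.cast_mul, b2]
        conv_lhs => rw [hmm]
        have : (0 : ℝ) < ESGcd.maxPrime m := by exact_mod_cast b1.pos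
        field_simp
      · intro m hm m' hm' hmm
        simp only [coe_filter, Set.mem_ofPred_eq] at hm hm'
        obtain ⟨b1, b2, _⟩ := hmem m hm.1
        obtain ⟨c1, c2, _⟩ := hmem m' hm'.1
        have e1 : m / ESGcd.maxPrime m = M := hm.2
        have e2 : m' / ESGcd.maxPrime m' = M := hm'.2
        rw [← b2, ← c2, e1, e2, hmm]
    rw [h3]
    apply mul_le_mul_of_nonneg_right _ (by positivity)
    apply Bdr.window hC hM2 hδs (A := s ^ 2 / Real.log M) (by positivity) hε hε4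
    intro q hq
    obtain ⟨m, hm, hmq⟩ := mem_image.1 hq
    rw [mem_filter] at hm
    obtain ⟨b1, b2, b3, b4, b5, b6, b7, b8⟩ := hmem m hm.1
    have hfm : m / ESGcd.maxPrime m = M := hm.2
    rw [hfm] at b6 b7
    rw [← hmq]
    refine ⟨b1, ?_, ?_, b5⟩
    · rw [← mul_div_assoc, div_lt_iff₀ a8]; exact b6
    · rw [← mul_div_assoc, lt_div_iff₀ a8]; exact b7
  rw [h1]
  refine (sum_le_sum h2).trans ?_
  rw [← mul_sum]
  have h3 : ∑ M ∈ F.image f, (1 : ℝ) / M ≤ K * s + 1 := by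
    apply Bdr.harm _ (by positivity)
    intro M hM
    obtain ⟨m0, hm0, hmM⟩ := mem_image.1 hM
    obtain ⟨a1, a2, a3, a4, _⟩ := hmem m0 hm0
    rw [← hmM]
    exact ⟨a3, a4⟩
  have h4 : 0 ≤ 8 / 3 * ε + C / (δ * s) := by positivity
  refine (mul_le_mul_of_nonneg_left h3 h4).trans ?_
  have h5 : K * s + 1 ≤ 2 * (K * s) := by nlinarith
  refine (mul_le_mul_of_nonneg_left h5 h4).trans ?_
  have h6 : C / (δ * s) * (2 * (K * s)) ≤ 8 / 3 * ε * (K * s) := by
    have e : C / (δ * s) * (2 * (K * s)) = 2 * K * (C / δ) := by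
      field_simp
    rw [e]
    rw [div_le_iff₀ (by positivity)] at g3
    have h7 : C / δ ≤ 4 / 3 * ε * s := by
      rw [div_le_iff₀ hδ]; linarith
    have := mul_le_mul_of_nonneg_left h7 (by linarith : (0 : ℝ) ≤ 2 * K)
    linarith
  have h8 : 0 ≤ ε * K * s := by positivity
  linarith

end ESAs
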