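import Pool.Agent.ESAs.Stmts

open Finset

namespace ESAs

namespace Bmaj

/-- real trigonometric polynomial in two variables with given mean and coefficient bound -/
def Q (H : ℕ) (f : (Fin 2 → ℝ) → ℝ) (μ A : ℝ) : Prop :=
  ∃ c : (Fin 2 → ℤ) → ℂ, (∀ t, tp H c t = (f t : ℂ)) ∧ c 0 = (μ : ℂ) ∧ ∀ a, ‖c a‖ ≤ A

lemma Q.zero (H : ℕ) : Q H (fun _ => 0) 0 0 :=
  ⟨fun _ => 0, fun t => by simp [tp], by simp, fun a => by simp⟩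

lemma Q.add {H : ℕ} {f g : (Fin 2 → ℝ) → ℝ} {μ ν A B : ℝ} (hf : Q H f μ A) (hg : Q H g ν B) :
    Q H (fun t => f t + g t) (μ + ν) (A + B) := by
  obtain ⟨c, hc1, hc2, hc3⟩ := hf
  obtain ⟨d, hd1, hd2, hd3⟩ := hg
  refine ⟨fun a => c a + d a, fun t => ?_, ?_, fun a => ?_⟩
  · have : tp H (fun a => c a + d a) t = tp H c t + tp H d t := by
      simp only [tp, add_mul, sum_add_distrib]
    rw [this, hc1, hd1]; push_cast; ring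
  · simp only [hc2, hd2]; push_cast; ring
  · exact (norm_add_le _ _).trans (add_le_add (hc3 a) (hd3 a))

lemma Q.smul {H : ℕ} {f : (Fin 2 → ℝ) → ℝ} {μ A : ℝ} (w : ℝ) (hw : 0 ≤ w) (hf : Q H f μ A) :
    Q H (fun t => w * f t) (w * μ) (w * A) := by
  obtain ⟨c, hc1, hc2, hc3⟩ := hf
  refine ⟨fun a => w * c a, fun t => ?_, ?_, fun a => ?_⟩
  · have : tp H (fun a => (w : ℂ) * c a) t = w * tp H c t := by
      simp only [tp, mul_sum, mul_assoc]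
    rw [this, hc1]; push_cast; ring
  · simp only [hc2]; push_cast; ring
  · rw [norm_mul, Complex.norm_real, Real.norm_of_nonneg hw]
    exact mul_le_mul_of_nonneg_left (hc3 a) hw

lemma Q.sum {ι : Type*} {H : ℕ} (s : Finset ι) (f : ι → (Fin 2 → ℝ) → ℝ) (μ A : ι → ℝ)
    (h : ∀ i ∈ s, Q H (f i) (μ i) (A i)) :
    Q H (fun t => ∑ i ∈ s, f i t) (∑ i ∈ s, μ i) (∑ i ∈ s, A i) := by
  classical
  induction s using Finset.induction_on with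
  | empty => simpa using Q.zero H
  | insert a s ha ih =>
    have h1 := (h a (mem_insert_self a s)).add (ih fun i hi => h i (mem_insert_of_mem hi))
    simpa [sum_insert ha] using h1

lemma Q.prod {H : ℕ} (hprd : St_prd) {c1 c2 : ℤ → ℂ} {f1 f2 : ℝ → ℝ} {μ1 μ2 A1 A2 : ℝ}
    (h1 : ∀ x, t1 H c1 x = (f1 x : ℂ)) (h2 : ∀ x, t1 H c2 x = (f2 x : ℂ))
    (h3 : c1 0 = (μ1 : ℂ)) (h4 : c2 0 = (μ2 : ℂ)) (h5 : ∀ k, ‖c1 k‖ ≤ A1) (h6 : ∀ k, ‖c2 k‖ ≤ A2) :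
    Q H (fun t => f1 (t 0) * f2 (t 1)) (μ1 * μ2) (A1 * A2) := by
  refine ⟨fun a => ∏ j, (![c1, c2] : Fin 2 → ℤ → ℂ) j (a j), fun t => ?_, ?_, fun a => ?_⟩
  · rw [hprd 2 H ![c1, c2] t, Fin.prod_univ_two]
    simp [h1, h2]
  · dsimp only
    rw [Fin.prod_univ_two]
    simp [h3, h4]
  · dsimp only
    rw [Fin.prod_univ_two, norm_mul]
    have h7 := h5 (a 0)
    have h8 := h6 (a 1)
    have h9 : 0 ≤ A1 := (norm_nonneg _).trans h7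
    exact mul_le_mul h7 h8 (norm_nonneg _) h9

/-- the data provided by `St_fej` -/
structure D1 (H : ℕ) (δ α β : ℝ) (F E : ℝ → ℝ) (μ ε : ℝ) : Prop where
  cF : ∃ c : ℤ → ℂ, (∀ x, t1 H c x = (F x : ℂ)) ∧ c 0 = (μ : ℂ) ∧ ∀ k, ‖c k‖ ≤ 2
  cE : ∃ c : ℤ → ℂ, (∀ x, t1 H c x = (E x : ℂ)) ∧ c 0 = (ε : ℂ) ∧ ∀ k, ‖c k‖ ≤ 20
  F0 : ∀ x, 0 ≤ F x
  F2 : ∀ x, F x ≤ 2
  F1 : ∀ x, α ≤ Int.fract x → Int.fract x ≤ β → 1 ≤ F x
  E0 : ∀ x, 0 ≤ E x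
  E20 : ∀ x, E x ≤ 20
  FE : ∀ x, (α ≤ Int.fract x ∧ Int.fract x < β) ∨ F x ≤ E x
  FE1 : ∀ x, F x ≤ E x + 1
  μl : β - α ≤ μ
  μu : μ ≤ β - α + δ
  ε0 : 0 ≤ ε
  εu : ε ≤ δ

lemma exists_D1 {C : ℝ} {H : ℕ} {α β : ℝ} (h : ∃ (c c' : ℤ → ℂ) (μ μ' : ℝ),
    (∀ x, (t1 H c x).im = 0 ∧ 0 ≤ (t1 H c x).re ∧ (t1 H c x).re ≤ 2 ∧
      (α ≤ Int.fract x → Int.fract x ≤ β → 1 ≤ (t1 H c x).re)) ∧
    c 0 = (μ : ℂ) ∧ β - α ≤ μ ∧ μ ≤ β - α + C / √H ∧ (∀ k, ‖c k‖ ≤ 2) ∧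
    (∀ x, (t1 H c' x).im = 0 ∧ 0 ≤ (t1 H c' x).re ∧ (t1 H c' x).re ≤ 20 ∧
      (t1 H c x).re ≤ (t1 H c' x).re + (if α ≤ Int.fract x ∧ Int.fract x < β then 1 else 0)) ∧
    c' 0 = (μ' : ℂ) ∧ 0 ≤ μ' ∧ μ' ≤ C / √H ∧ (∀ k, ‖c' k‖ ≤ 20)) :
    ∃ (F E : ℝ → ℝ) (μ ε : ℝ), D1 H (C / √H) α β F E μ ε := by
  obtain ⟨c, c', μ, μ', h1, h2, h3, h4, h5, h6, h7, h8, h9, h10⟩ := h
  refine ⟨fun x => (t1 H c x).re, fun x => (t1 H c' x).re, μ, μ', ⟨c, fun x => ?_, h2, h5⟩,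
    ⟨c', fun x => ?_, h7, h10⟩, fun x => (h1 x).2.1, fun x => (h1 x).2.2.1, fun x => (h1 x).2.2.2,
    fun x => (h6 x).2.1, fun x => (h6 x).2.2.1, fun x => ?_, fun x => ?_, h3, h4, h8, h9⟩
  · apply Complex.ext
    · simp
    · simp [(h1 x).1]
  · apply Complex.ext
    · simp
    · simp [(h6 x).1]
  · have := (h6 x).2.2.2
    by_cases h : α ≤ Int.fract x ∧ Int.fract x < β
    · exact Or.inl h
    · right
      rw [if_neg h] at this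
      simpa using this
  · have := (h6 x).2.2.2
    split_ifs at this
    · exact this
    · linarith

lemma Q_of (hprd : St_prd) {H : ℕ} {f1 f2 : ℝ → ℝ} {μ1 μ2 A1 A2 : ℝ}
    (h1 : ∃ c : ℤ → ℂ, (∀ x, t1 H c x = (f1 x : ℂ)) ∧ c 0 = (μ1 : ℂ) ∧ ∀ k, ‖c k‖ ≤ A1)
    (h2 : ∃ c : ℤ → ℂ, (∀ x, t1 H c x = (f2 x : ℂ)) ∧ c 0 = (μ2 : ℂ) ∧ ∀ k, ‖c k‖ ≤ A2) :
    Q H (fun t => f1 (t 0) * f2 (t 1)) (μ1 * μ2) (A1 * A2) := by
  obtain ⟨c1, h3, h4, h5⟩ := h1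
  obtain ⟨c2, h6, h7, h8⟩ := h2
  exact Q.prod hprd h3 h6 h4 h7 h5 h8

lemma sqrt_HH (b : ℕ) : √((HH b : ℕ) : ℝ) = (b : ℝ) ^ 7 := by
  unfold HH
  push_cast
  rw [Real.sqrt_eq_iff_mul_self_eq (by positivity) (by positivity)]
  ring

/-- weights -/
lemma wt (b j : ℕ) (hb : 2 ≤ b) (hj : j ∈ Ico b (b ^ 2)) :
    0 < (j : ℝ) ∧ (b : ℝ) ≤ j ∧ (j : ℝ) + 1 ≤ (b : ℝ) ^ 2 ∧ (b : ℝ) ^ 2 / j ≤ b ∧
      (b : ℝ) ^ 2 / (j : ℝ) ^ 2 ≤ 1 ∧ 0 < (b : ℝ) ^ 2 / j ∧ 0 < (b : ℝ) ^ 2 / (j : ℝ) ^ 2 := by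
  rw [mem_Ico] at hj
  have hb0 : (0 : ℝ) < b := by exact_mod_cast (by omega : 0 < b)
  have h1 : (b : ℝ) ≤ j := by exact_mod_cast hj.1
  have h0 : (0 : ℝ) < j := lt_of_lt_of_le hb0 h1
  have h2 : (j : ℝ) + 1 ≤ (b : ℝ) ^ 2 := by exact_mod_cast hj.2
  refine ⟨h0, h1, h2, ?_, ?_, by positivity, by positivity⟩
  · rw [div_le_iff₀ h0]; nlinarith
  · rw [div_le_one (by positivity)]; gcongr

lemma cell (b : ℕ) (hb : 2 ≤ b) (y : ℝ) (h0 : 1 / (b : ℝ) ≤ y) (h1 : y < 1) :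
    ∃ j ∈ Ico b (b ^ 2), (j : ℝ) / (b : ℝ) ^ 2 ≤ y ∧ y < ((j : ℝ) + 1) / (b : ℝ) ^ 2 := by
  have hb0 : (0 : ℝ) < b := by exact_mod_cast (by omega : 0 < b)
  have hy : 0 < y := lt_of_lt_of_le (by positivity) h0
  have h2 : (b : ℝ) ≤ (b : ℝ) ^ 2 * y := by
    rw [div_le_iff₀ hb0] at h0
    nlinarith
  refine ⟨⌊(b : ℝ) ^ 2 * y⌋₊, ?_, ?_, ?_⟩
  · rw [mem_Ico]
    constructor
    · exact Nat.le_floor h2
    · rw [Nat.floor_lt (by positivity)]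
      push_cast
      have : 0 < (b : ℝ) ^ 2 := by positivity
      nlinarith
  · rw [div_le_iff₀ (by positivity), mul_comm]
    exact Nat.floor_le (by positivity)
  · rw [lt_div_iff₀ (by positivity), mul_comm]
    exact Nat.lt_floor_add_one _

lemma gF_eq (κ : ℝ) (t : Fin 2 → ℝ) (h1 : Int.fract (t 0) ≤ Int.fract (t 1))
    (h2 : κ ≤ Int.fract (t 1)) : gF κ t = 1 / Int.fract (t 1) := by
  unfold gF; rw [if_pos ⟨h1, h2⟩]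

/-- the term at the cell of `y` -/
lemma term_le {b j : ℕ} (hb : 2 ≤ b) (hj : j ∈ Ico b (b ^ 2)) {δ μ1 ε1 μ2 ε2 : ℝ}
    {F1 E1 F2 E2 : ℝ → ℝ}
    (h1 : D1 (HH b) δ 0 (((j : ℝ) + 1) / (b : ℝ) ^ 2) F1 E1 μ1 ε1)
    (h2 : D1 (HH b) δ ((j : ℝ) / (b : ℝ) ^ 2) (((j : ℝ) + 1) / (b : ℝ) ^ 2) F2 E2 μ2 ε2)
    (t : Fin 2 → ℝ) (hc1 : (j : ℝ) / (b : ℝ) ^ 2 ≤ Int.fract (t 1))
    (hc2 : Int.fract (t 1) < ((j : ℝ) + 1) / (b : ℝ) ^ 2) (hκ : 1 / (b : ℝ) ≤ Int.fract (t 1)) :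
    (b : ℝ) ^ 2 / j * (F1 (t 0) * F2 (t 1)) -
      ((b : ℝ) ^ 2 / j * (E1 (t 0) * F2 (t 1)) + (b : ℝ) ^ 2 / j * (F1 (t 0) * E2 (t 1)) +
        ((b : ℝ) ^ 2 / (j : ℝ) ^ 2 * (F1 (t 0) * F2 (t 1)) +
        (b : ℝ) ^ 2 / j * (F2 (t 0) * F2 (t 1)))) ≤ gF (1 / b) t := by
  obtain ⟨hj0, hbj, hj1, hw1, hw2, hw, hw'⟩ := wt b j hb hj
  have hb0 : (0 : ℝ) < b := by exact_mod_cast (by omega : 0 < b)
  have hg := gF_nonneg (1 / (b : ℝ)) t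
  set w : ℝ := (b : ℝ) ^ 2 / j with hwd
  set w' : ℝ := (b : ℝ) ^ 2 / (j : ℝ) ^ 2 with hwd'
  have x0 := Int.fract_nonneg (t 0)
  have a1 := h1.F0 (t 0)
  have a2 := h2.F0 (t 1)
  have a3 := h1.E0 (t 0)
  have a4 := h2.E0 (t 1)
  have a5 := h2.F0 (t 0)
  have p1 : 0 ≤ w * (E1 (t 0) * F2 (t 1)) := by positivity
  have p2 : 0 ≤ w * (F1 (t 0) * E2 (t 1)) := by positivity
  have p3 : 0 ≤ w' * (F1 (t 0) * F2 (t 1)) := by positivity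
  have p4 : 0 ≤ w * (F2 (t 0) * F2 (t 1)) := by positivity
  have hF2 : 1 ≤ F2 (t 1) := h2.F1 _ hc1 hc2.le
  rcases lt_or_ge (Int.fract (t 0)) (((j : ℝ) + 1) / (b : ℝ) ^ 2) with hx | hx
  · have hF1 : 1 ≤ F1 (t 0) := h1.F1 _ x0 hx.le
    have b1 := h1.FE1 (t 0)
    have b2 := h2.FE1 (t 1)
    have b3 : F1 (t 0) * F2 (t 1) ≤ E1 (t 0) * F2 (t 1) + F1 (t 0) * E2 (t 1) + 1 := by
      have c1 : F1 (t 0) * F2 (t 1) ≤ (E1 (t 0) + 1) * F2 (t 1) :=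
        mul_le_mul_of_nonneg_right b1 a2
      have c2 : 1 * E2 (t 1) ≤ F1 (t 0) * E2 (t 1) := mul_le_mul_of_nonneg_right hF1 a4
      linarith
    have b4 : w * (F1 (t 0) * F2 (t 1)) ≤
        w * (E1 (t 0) * F2 (t 1)) + w * (F1 (t 0) * E2 (t 1)) + w := by
      have := mul_le_mul_of_nonneg_left b3 hw.le
      linarith
    rcases le_or_gt (Int.fract (t 0)) (Int.fract (t 1)) with hxy | hxy
    · rw [gF_eq _ _ hxy hκ]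
      have hy0 : 0 < Int.fract (t 1) := lt_of_lt_of_le (by positivity) hκ
      have c1 : (b : ℝ) ^ 2 / ((j : ℝ) + 1) ≤ 1 / Int.fract (t 1) := by
        rw [div_le_div_iff₀ (by positivity) hy0, one_mul]
        rw [lt_div_iff₀ (by positivity)] at hc2
        linarith
      have c2 : w ≤ (b : ℝ) ^ 2 / ((j : ℝ) + 1) + w' := by
        rw [hwd, hwd']
        have e : (b : ℝ) ^ 2 / ((j : ℝ) + 1) + (b : ℝ) ^ 2 / (j : ℝ) ^ 2 - (b : ℝ) ^ 2 / j =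
            (b : ℝ) ^ 2 / ((j : ℝ) ^ 2 * ((j : ℝ) + 1)) := by
          field_simp
          ring
        have : 0 ≤ (b : ℝ) ^ 2 / ((j : ℝ) ^ 2 * ((j : ℝ) + 1)) := by positivity
        linarith
      have c3 : w' * 1 ≤ w' * (F1 (t 0) * F2 (t 1)) := by
        apply mul_le_mul_of_nonneg_left _ hw'.le
        nlinarith
      linarith
    · have c1 : 1 ≤ F2 (t 0) := h2.F1 _ (hc1.trans hxy.le) hx.le
      have c3 : w * 1 ≤ w * (F2 (t 0) * F2 (t 1)) := by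
        apply mul_le_mul_of_nonneg_left _ hw.le
        nlinarith
      linarith
  · have b1 : F1 (t 0) ≤ E1 (t 0) := by
      rcases h1.FE (t 0) with h | h
      · linarith [h.2]
      · exact h
    have b2 : w * (F1 (t 0) * F2 (t 1)) ≤ w * (E1 (t 0) * F2 (t 1)) := by gcongr
    linarith

/-- the terms at the other cells -/
lemma term_le' {b j : ℕ} (hb : 2 ≤ b) (hj : j ∈ Ico b (b ^ 2)) {δ μ1 ε1 μ2 ε2 : ℝ}
    {F1 E1 F2 E2 : ℝ → ℝ}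
    (h1 : D1 (HH b) δ 0 (((j : ℝ) + 1) / (b : ℝ) ^ 2) F1 E1 μ1 ε1)
    (h2 : D1 (HH b) δ ((j : ℝ) / (b : ℝ) ^ 2) (((j : ℝ) + 1) / (b : ℝ) ^ 2) F2 E2 μ2 ε2)
    (t : Fin 2 → ℝ) (hc : ¬ ((j : ℝ) / (b : ℝ) ^ 2 ≤ Int.fract (t 1) ∧
      Int.fract (t 1) < ((j : ℝ) + 1) / (b : ℝ) ^ 2)) :
    (b : ℝ) ^ 2 / j * (F1 (t 0) * F2 (t 1)) -
      ((b : ℝ) ^ 2 / j * (E1 (t 0) * F2 (t 1)) + (b : ℝ) ^ 2 / j * (F1 (t 0) * E2 (t 1)) +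
        ((b : ℝ) ^ 2 / (j : ℝ) ^ 2 * (F1 (t 0) * F2 (t 1)) +
        (b : ℝ) ^ 2 / j * (F2 (t 0) * F2 (t 1)))) ≤ 0 := by
  obtain ⟨hj0, hbj, hj1, hw1, hw2, hw, hw'⟩ := wt b j hb hj
  set w : ℝ := (b : ℝ) ^ 2 / j with hwd
  set w' : ℝ := (b : ℝ) ^ 2 / (j : ℝ) ^ 2 with hwd'
  have a1 := h1.F0 (t 0)
  have a2 := h2.F0 (t 1)
  have a3 := h1.E0 (t 0)
  have a4 := h2.E0 (t 1)
  have a5 := h2.F0 (t 0)
  have p1 : 0 ≤ w * (E1 (t 0) * F2 (t 1)) := by positivity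
  have p3 : 0 ≤ w' * (F1 (t 0) * F2 (t 1)) := by positivity
  have p4 : 0 ≤ w * (F2 (t 0) * F2 (t 1)) := by positivity
  have b1 : F2 (t 1) ≤ E2 (t 1) := by
    rcases h2.FE (t 1) with h | h
    · exact absurd h hc
    · exact h
  have b2 : w * (F1 (t 0) * F2 (t 1)) ≤ w * (F1 (t 0) * E2 (t 1)) := by gcongr
  linarith

lemma cell_unique {b j j' : ℕ} (hb : 2 ≤ b) {y : ℝ} (h1 : (j : ℝ) / (b : ℝ) ^ 2 ≤ y)
    (h2 : y < ((j : ℝ) + 1) / (b : ℝ) ^ 2) (h3 : (j' : ℝ) / (b : ℝ) ^ 2 ≤ y)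
    (h4 : y < ((j' : ℝ) + 1) / (b : ℝ) ^ 2) : j = j' := by
  have hb0 : (0 : ℝ) < b := by exact_mod_cast (by omega : 0 < b)
  have hB : (0 : ℝ) < (b : ℝ) ^ 2 := by positivity
  rw [div_le_iff₀ hB] at h1 h3
  rw [lt_div_iff₀ hB] at h2 h4
  have h5 : (j : ℝ) < j' + 1 := by linarith
  have h6 : (j' : ℝ) < j + 1 := by linarith
  have h7 : j < j' + 1 := by exact_mod_cast h5
  have h8 : j' < j + 1 := by exact_mod_cast h6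
  omega

/-- bounds for the parameters -/
lemma par {b : ℕ} (hb : 2 ≤ b) {C δ : ℝ} (hC : 0 < C) (hδ : δ = C / (b : ℝ) ^ 7) :
    δ ≤ C * (1 / b) ∧ (b : ℝ) * δ ≤ C * (1 / b) ∧ (b : ℝ) ^ 2 * δ ≤ C * (1 / b) ∧
      (b : ℝ) ^ 3 * δ ≤ C * (1 / b) ∧ δ ≤ C ∧ (b : ℝ) ^ 2 * δ ≤ C := by
  have hb0 : (0 : ℝ) < b := by exact_mod_cast (by omega : 0 < b)
  have hb1 : (1 : ℝ) ≤ b := by exact_mod_cast (by omega : 1 ≤ b)
  have hδ0 : 0 ≤ δ := by rw [hδ]; positivity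
  have h3 : (b : ℝ) ^ 3 * δ ≤ C * (1 / b) := by
    have e : (b : ℝ) ^ 3 * δ = C * (1 / b) * (1 / (b : ℝ) ^ 3) := by
      rw [hδ]; field_simp
    rw [e]
    have : 1 / (b : ℝ) ^ 3 ≤ 1 := by
      rw [div_le_one (by positivity)]
      exact one_le_pow₀ hb1
    calc C * (1 / b) * (1 / (b : ℝ) ^ 3) ≤ C * (1 / b) * 1 := by gcongr
      _ = _ := mul_one _
  have h2 : (b : ℝ) ^ 2 * δ ≤ (b : ℝ) ^ 3 * δ := by
    have : (b : ℝ) ^ 2 ≤ (b : ℝ) ^ 3 := pow_le_pow_right₀ hb1 (by norm_num)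
    gcongr
  have h1 : (b : ℝ) * δ ≤ (b : ℝ) ^ 2 * δ := by
    have : (b : ℝ) ≤ (b : ℝ) ^ 2 := by nlinarith
    gcongr
  have h0 : δ ≤ (b : ℝ) * δ := by nlinarith
  have h4 : C * (1 / (b : ℝ)) ≤ C := by
    have : 1 / (b : ℝ) ≤ 1 := by rw [div_le_one hb0]; exact hb1
    nlinarith
  refine ⟨by linarith, by linarith, by linarith, h3, by linarith, by linarith⟩

end Bmaj

open Bmaj in
theorem tBmaj (hfej : St_fej) (hprd : St_prd) : St_bmaj := by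
  classical
  obtain ⟨C, hC, hfej⟩ := hfej
  refine ⟨10 * (1 + C) ^ 2, by positivity, fun b hb => ?_⟩
  have hb0 : (0 : ℝ) < b := by exact_mod_cast (by omega : 0 < b)
  have hb2 : (2 : ℝ) ≤ b := by exact_mod_cast hb
  have hH1 : 1 ≤ HH b := by
    unfold HH
    exact Nat.one_le_pow _ _ (by omega)
  set δ : ℝ := C / √((HH b : ℕ) : ℝ) with hδ
  have hδ' : δ = C / (b : ℝ) ^ 7 := by rw [hδ, sqrt_HH]
  have hδ0 : 0 ≤ δ := by rw [hδ']; positivity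
  have hL : ∀ j : ℕ, j < b ^ 2 → ∃ (F E : ℝ → ℝ) (μ ε : ℝ),
      D1 (HH b) δ 0 (((j : ℝ) + 1) / (b : ℝ) ^ 2) F E μ ε := by
    intro j hj
    have h1 : (j : ℝ) + 1 ≤ (b : ℝ) ^ 2 := by exact_mod_cast hj
    apply exists_D1
    have := hfej (HH b) 0 (((j : ℝ) + 1) / (b : ℝ) ^ 2) hH1 le_rfl (by positivity)
      ((div_le_one (by positivity)).2 h1)
    convert this
  have hR : ∀ j : ℕ, j < b ^ 2 → ∃ (F E : ℝ → ℝ) (μ ε : ℝ),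
      D1 (HH b) δ ((j : ℝ) / (b : ℝ) ^ 2) (((j : ℝ) + 1) / (b : ℝ) ^ 2) F E μ ε := by
    intro j hj
    have h1 : (j : ℝ) + 1 ≤ (b : ℝ) ^ 2 := by exact_mod_cast hj
    apply exists_D1
    have := hfej (HH b) ((j : ℝ) / (b : ℝ) ^ 2) (((j : ℝ) + 1) / (b : ℝ) ^ 2) hH1 (by positivity)
      (by gcongr; linarith) ((div_le_one (by positivity)).2 h1)
    convert this
  choose! F1 E1 μ1 ε1 h1 using hL
  choose! F2 E2 μ2 ε2 h2 using hR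
  have hlt : ∀ j ∈ Ico b (b ^ 2), j < b ^ 2 := fun j hj => (mem_Ico.1 hj).2
  -- the majorant
  have QF : Q (HH b) (fun t => ∑ j ∈ Ico b (b ^ 2), (b : ℝ) ^ 2 / j * (F1 j (t 0) * F2 j (t 1)))
      (∑ j ∈ Ico b (b ^ 2), (b : ℝ) ^ 2 / j * (μ1 j * μ2 j))
      (∑ j ∈ Ico b (b ^ 2), (b : ℝ) ^ 2 / j * (2 * 2)) := by
    refine Q.sum _ _ _ _ fun j hj => ?_
    obtain ⟨-, -, -, -, -, hw, -⟩ := wt b j hb hj
    exact (Q_of hprd (h1 j (hlt j hj)).cF (h2 j (hlt j hj)).cF).smul _ hw.le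
  have QD : Q (HH b) (fun t => ∑ j ∈ Ico b (b ^ 2),
      ((b : ℝ) ^ 2 / j * (E1 j (t 0) * F2 j (t 1)) + (b : ℝ) ^ 2 / j * (F1 j (t 0) * E2 j (t 1)) +
        ((b : ℝ) ^ 2 / (j : ℝ) ^ 2 * (F1 j (t 0) * F2 j (t 1)) +
        (b : ℝ) ^ 2 / j * (F2 j (t 0) * F2 j (t 1)))))
      (∑ j ∈ Ico b (b ^ 2),
      ((b : ℝ) ^ 2 / j * (ε1 j * μ2 j) + (b : ℝ) ^ 2 / j * (μ1 j * ε2 j) +
        ((b : ℝ) ^ 2 / (j : ℝ) ^ 2 * (μ1 j * μ2 j) +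
        (b : ℝ) ^ 2 / j * (μ2 j * μ2 j))))
      (∑ j ∈ Ico b (b ^ 2),
      ((b : ℝ) ^ 2 / j * (20 * 2) + (b : ℝ) ^ 2 / j * (2 * 20) +
        ((b : ℝ) ^ 2 / (j : ℝ) ^ 2 * (2 * 2) +
        (b : ℝ) ^ 2 / j * (2 * 2)))) := by
    refine Q.sum _ _ _ _ fun j hj => ?_
    obtain ⟨-, -, -, -, -, hw, hw2⟩ := wt b j hb hj
    have a1 := h1 j (hlt j hj)
    have a2 := h2 j (hlt j hj)
    exact (((Q_of hprd a1.cE a2.cF).smul _ hw.le).add ((Q_of hprd a1.cF a2.cE).smul _ hw.le)).add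
      (((Q_of hprd a1.cF a2.cF).smul _ hw2.le).add ((Q_of hprd a2.cF a2.cF).smul _ hw.le))
  obtain ⟨c, hc1, hc2, hc3⟩ := QF
  obtain ⟨d, hd1, hd2, hd3⟩ := QD
  set e : ℝ := 1 / (b : ℝ) with he
  have he0 : 0 < e := by positivity
  have he1 : e ≤ 1 := by rw [he, div_le_one hb0]; linarith
  obtain ⟨k0, k1, k2, k3, k4, k5⟩ := par hb hC hδ'
  have hcard : (#(Ico b (b ^ 2)) : ℝ) = (b : ℝ) ^ 2 - b := by
    rw [Nat.card_Ico]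
    have : b ≤ b ^ 2 := by nlinarith
    rw [Nat.cast_sub this]
    push_cast; rfl
  have hcard' : (#(Ico b (b ^ 2)) : ℝ) ≤ (b : ℝ) ^ 2 := by rw [hcard]; linarith
  have hsum : ∀ (f : ℕ → ℝ) (K : ℝ), 0 ≤ K → (∀ j ∈ Ico b (b ^ 2), f j ≤ K) →
      ∑ j ∈ Ico b (b ^ 2), f j ≤ (b : ℝ) ^ 2 * K := by
    intro f K hK hf
    refine (sum_le_card_nsmul _ _ _ hf).trans ?_
    rw [nsmul_eq_mul]
    gcongr
  -- sizes
  have hA1 : ∑ j ∈ Ico b (b ^ 2), (b : ℝ) ^ 2 / j * (2 * 2) ≤ (b : ℝ) ^ 20 := by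
    refine (hsum _ (b * 4) (by positivity) fun j hj => ?_).trans ?_
    · obtain ⟨hj0, hbj, hj1, hw1, hw2, hw, hw'⟩ := wt b j hb hj
      linarith
    · calc (b : ℝ) ^ 2 * (b * 4) = (b : ℝ) ^ 3 * 2 ^ 2 := by ring
        _ ≤ (b : ℝ) ^ 3 * (b : ℝ) ^ 2 := by gcongr
        _ = (b : ℝ) ^ 5 := by ring
        _ ≤ (b : ℝ) ^ 20 := pow_le_pow_right₀ (by linarith) (by norm_num)
  have hA2 : ∑ j ∈ Ico b (b ^ 2),
      ((b : ℝ) ^ 2 / j * (20 * 2) + (b : ℝ) ^ 2 / j * (2 * 20) +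
        ((b : ℝ) ^ 2 / (j : ℝ) ^ 2 * (2 * 2) +
        (b : ℝ) ^ 2 / j * (2 * 2))) ≤ (b : ℝ) ^ 20 := by
    refine (hsum _ (b * 88) (by positivity) fun j hj => ?_).trans ?_
    · obtain ⟨hj0, hbj, hj1, hw1, hw2, hw, hw'⟩ := wt b j hb hj
      linarith
    · calc (b : ℝ) ^ 2 * (b * 88) ≤ (b : ℝ) ^ 3 * 2 ^ 7 := by nlinarith [pow_pos hb0 3]
        _ ≤ (b : ℝ) ^ 3 * (b : ℝ) ^ 7 := by gcongr
        _ = (b : ℝ) ^ 10 := by ring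
        _ ≤ (b : ℝ) ^ 20 := pow_le_pow_right₀ (by linarith) (by norm_num)
  have hge1 : ∀ t : Fin 2 → ℝ, gF (1 / b) t ≤
      ∑ j ∈ Ico b (b ^ 2), (b : ℝ) ^ 2 / j * (F1 j (t 0) * F2 j (t 1)) := by
    intro t
    have hnn : ∀ j ∈ Ico b (b ^ 2), 0 ≤ (b : ℝ) ^ 2 / j * (F1 j (t 0) * F2 j (t 1)) := by
      intro j hj
      obtain ⟨hj0, hbj, hj1, hw1, hw2, hw, hw'⟩ := wt b j hb hj
      have a1 := (h1 j (hlt j hj)).F0 (t 0)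
      have a2 := (h2 j (hlt j hj)).F0 (t 1)
      positivity
    by_cases h : Int.fract (t 0) ≤ Int.fract (t 1) ∧ 1 / (b : ℝ) ≤ Int.fract (t 1)
    · rw [gF_eq _ _ h.1 h.2]
      obtain ⟨j, hj, hc1, hc2⟩ := cell b hb (Int.fract (t 1)) h.2 (Int.fract_lt_one _)
      refine le_trans ?_ (single_le_sum hnn hj)
      obtain ⟨hj0, hbj, hj1, hw1, hw2, hw, hw'⟩ := wt b j hb hj
      have a1 : 1 ≤ F1 j (t 0) :=
        (h1 j (hlt j hj)).F1 _ (Int.fract_nonneg _) (h.1.trans hc2.le)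
      have a2 : 1 ≤ F2 j (t 1) := (h2 j (hlt j hj)).F1 _ hc1 hc2.le
      have hy0 : 0 < Int.fract (t 1) := lt_of_lt_of_le (by positivity) h.2
      have a3 : 1 / Int.fract (t 1) ≤ (b : ℝ) ^ 2 / j := by
        rw [div_le_div_iff₀ hy0 hj0]
        rw [div_le_iff₀ (by positivity)] at hc1
        linarith
      have a4 : (b : ℝ) ^ 2 / j * 1 ≤ (b : ℝ) ^ 2 / j * (F1 j (t 0) * F2 j (t 1)) := by
        apply mul_le_mul_of_nonneg_left _ hw.le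
        nlinarith
      linarith
    · have : gF (1 / b) t = 0 := by unfold gF; rw [if_neg h]
      rw [this]
      exact sum_nonneg hnn
  have hge2 : ∀ t : Fin 2 → ℝ,
      ∑ j ∈ Ico b (b ^ 2), (b : ℝ) ^ 2 / j * (F1 j (t 0) * F2 j (t 1)) - gF (1 / b) t ≤
      ∑ j ∈ Ico b (b ^ 2), ((b : ℝ) ^ 2 / j * (E1 j (t 0) * F2 j (t 1)) +
        (b : ℝ) ^ 2 / j * (F1 j (t 0) * E2 j (t 1)) +
        ((b : ℝ) ^ 2 / (j : ℝ) ^ 2 * (F1 j (t 0) * F2 j (t 1)) +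
        (b : ℝ) ^ 2 / j * (F2 j (t 0) * F2 j (t 1)))) := by
    intro t
    rw [sub_le_iff_le_add, ← sub_le_iff_le_add', ← sum_sub_distrib]
    by_cases h : 1 / (b : ℝ) ≤ Int.fract (t 1)
    · obtain ⟨j, hj, hc1, hc2⟩ := cell b hb (Int.fract (t 1)) h (Int.fract_lt_one _)
      rw [← add_sum_erase _ _ hj]
      have a1 := term_le hb hj (h1 j (hlt j hj)) (h2 j (hlt j hj)) t hc1 hc2 h
      have a2 : ∑ j' ∈ (Ico b (b ^ 2)).erase j,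
          ((b : ℝ) ^ 2 / j' * (F1 j' (t 0) * F2 j' (t 1)) -
          ((b : ℝ) ^ 2 / j' * (E1 j' (t 0) * F2 j' (t 1)) +
          (b : ℝ) ^ 2 / j' * (F1 j' (t 0) * E2 j' (t 1)) +
          ((b : ℝ) ^ 2 / (j' : ℝ) ^ 2 * (F1 j' (t 0) * F2 j' (t 1)) +
          (b : ℝ) ^ 2 / j' * (F2 j' (t 0) * F2 j' (t 1))))) ≤ 0 := by
        apply sum_nonpos
        intro j' hj'
        have hj'' := mem_of_mem_erase hj'
        apply term_le' hb hj'' (h1 j' (hlt j' hj'')) (h2 j' (hlt j' hj'')) t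
        rintro ⟨h3, h4⟩
        exact (ne_of_mem_erase hj') (cell_unique hb h3 h4 hc1 hc2)
      linarith
    · refine le_trans ?_ (gF_nonneg _ t)
      apply sum_nonpos
      intro j hj
      apply term_le' hb hj (h1 j (hlt j hj)) (h2 j (hlt j hj)) t
      rintro ⟨h3, -⟩
      apply h
      refine le_trans ?_ h3
      obtain ⟨hj0, hbj, hj1, hw1, hw2, hw, hw'⟩ := wt b j hb hj
      rw [div_le_div_iff₀ hb0 (by positivity)]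
      nlinarith
  have hval1 : ∀ t : Fin 2 → ℝ, ∑ j ∈ Ico b (b ^ 2), (b : ℝ) ^ 2 / j * (F1 j (t 0) * F2 j (t 1)) ≤
      ∑ j ∈ Ico b (b ^ 2), (b : ℝ) ^ 2 / j * (2 * 2) := by
    intro t
    refine sum_le_sum fun j hj => ?_
    obtain ⟨hj0, hbj, hj1, hw1, hw2, hw, hw'⟩ := wt b j hb hj
    have a1 := (h1 j (hlt j hj)).F2 (t 0)
    have a2 := (h2 j (hlt j hj)).F2 (t 1)
    have a3 := (h2 j (hlt j hj)).F0 (t 1)
    gcongr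
  have hval2 : ∀ t : Fin 2 → ℝ,
      ∑ j ∈ Ico b (b ^ 2), ((b : ℝ) ^ 2 / j * (E1 j (t 0) * F2 j (t 1)) +
        (b : ℝ) ^ 2 / j * (F1 j (t 0) * E2 j (t 1)) +
        ((b : ℝ) ^ 2 / (j : ℝ) ^ 2 * (F1 j (t 0) * F2 j (t 1)) +
        (b : ℝ) ^ 2 / j * (F2 j (t 0) * F2 j (t 1)))) ≤
      ∑ j ∈ Ico b (b ^ 2), ((b : ℝ) ^ 2 / j * (20 * 2) + (b : ℝ) ^ 2 / j * (2 * 20) +
        ((b : ℝ) ^ 2 / (j : ℝ) ^ 2 * (2 * 2) +
        (b : ℝ) ^ 2 / j * (2 * 2))) := by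
    intro t
    refine sum_le_sum fun j hj => ?_
    obtain ⟨hj0, hbj, hj1, hw1, hw2, hw, hw'⟩ := wt b j hb hj
    have a1 := (h1 j (hlt j hj)).F2 (t 0)
    have a2 := (h2 j (hlt j hj)).F2 (t 1)
    have a3 := (h2 j (hlt j hj)).F0 (t 1)
    have a4 := (h1 j (hlt j hj)).E20 (t 0)
    have a5 := (h2 j (hlt j hj)).E20 (t 1)
    have a6 := (h2 j (hlt j hj)).E0 (t 1)
    have a7 := (h2 j (hlt j hj)).F2 (t 0)
    gcongr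
  -- means
  have hm0 : ∀ j ∈ Ico b (b ^ 2), 0 ≤ μ1 j ∧ 0 ≤ μ2 j := by
    intro j hj
    have a1 := (h1 j (hlt j hj)).μl
    have a2 := (h2 j (hlt j hj)).μl
    have a3 : 0 ≤ ((j : ℝ) + 1) / (b : ℝ) ^ 2 := by positivity
    have a4 : (j : ℝ) / (b : ℝ) ^ 2 ≤ ((j : ℝ) + 1) / (b : ℝ) ^ 2 := by gcongr; linarith
    constructor <;> linarith
  have hm1 : 1 - e ≤ ∑ j ∈ Ico b (b ^ 2), (b : ℝ) ^ 2 / j * (μ1 j * μ2 j) := by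
    have h3 : ∀ j ∈ Ico b (b ^ 2), 1 / (b : ℝ) ^ 2 ≤ (b : ℝ) ^ 2 / j * (μ1 j * μ2 j) := by
      intro j hj
      obtain ⟨hj0, hbj, hj1, hw1, hw2, hw, hw'⟩ := wt b j hb hj
      have a1 := (h1 j (hlt j hj)).μl
      have a2 := (h2 j (hlt j hj)).μl
      have a3 : ((j : ℝ) + 1) / (b : ℝ) ^ 2 ≤ μ1 j := by linarith
      have a4 : 1 / (b : ℝ) ^ 2 ≤ μ2 j := by
        have : ((j : ℝ) + 1) / (b : ℝ) ^ 2 - (j : ℝ) / (b : ℝ) ^ 2 = 1 / (b : ℝ) ^ 2 := by ring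
        linarith
      calc 1 / (b : ℝ) ^ 2 ≤ 1 / (b : ℝ) ^ 2 + 1 / (b : ℝ) ^ 2 / j := by
            have : 0 ≤ 1 / (b : ℝ) ^ 2 / j := by positivity
            linarith
        _ = (b : ℝ) ^ 2 / j * ((((j : ℝ) + 1) / (b : ℝ) ^ 2) * (1 / (b : ℝ) ^ 2)) := by
            field_simp
        _ ≤ _ := by
          have := (hm0 j hj).1
          gcongr
    have h4 := card_nsmul_le_sum _ _ _ h3
    rw [nsmul_eq_mul, hcard] at h4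
    have h5 : ((b : ℝ) ^ 2 - b) * (1 / (b : ℝ) ^ 2) = 1 - e := by
      rw [he]; field_simp
    linarith
  have hμ2 : ∀ j ∈ Ico b (b ^ 2), μ2 j ≤ 1 / (b : ℝ) ^ 2 + δ := by
    intro j hj
    have a2 := (h2 j (hlt j hj)).μu
    have : ((j : ℝ) + 1) / (b : ℝ) ^ 2 - (j : ℝ) / (b : ℝ) ^ 2 = 1 / (b : ℝ) ^ 2 := by ring
    linarith
  have hμ1 : ∀ j ∈ Ico b (b ^ 2), μ1 j ≤ ((j : ℝ) + 1) / (b : ℝ) ^ 2 + δ := by
    intro j hj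
    have a2 := (h1 j (hlt j hj)).μu
    linarith
  have hi1 : 1 / (b : ℝ) ^ 2 ≤ 1 := by
    rw [div_le_one (by positivity)]
    nlinarith
  have hbi : (b : ℝ) ^ 2 * (1 / (b : ℝ) ^ 2 + δ) = 1 + (b : ℝ) ^ 2 * δ := by
    field_simp
  have hm2 : ∑ j ∈ Ico b (b ^ 2), (b : ℝ) ^ 2 / j * (μ1 j * μ2 j) ≤
      1 + 10 * (1 + C) ^ 2 * e := by
    refine (hsum _ ((1 + e + C * e) * (1 / (b : ℝ) ^ 2 + δ)) (by positivity)
      fun j hj => ?_).trans ?_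
    · obtain ⟨hj0, hbj, hj1, hw1, hw2, hw, hw'⟩ := wt b j hb hj
      obtain ⟨m1, m2⟩ := hm0 j hj
      have a1 : (b : ℝ) ^ 2 / j * μ1 j ≤ 1 + e + C * e := by
        calc (b : ℝ) ^ 2 / j * μ1 j ≤ (b : ℝ) ^ 2 / j * (((j : ℝ) + 1) / (b : ℝ) ^ 2 + δ) := by
              gcongr; exact hμ1 j hj
          _ = 1 + 1 / j + (b : ℝ) ^ 2 / j * δ := by field_simp
          _ ≤ 1 + 1 / b + b * δ := by gcongr
          _ ≤ _ := by rw [← he]; linarith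
      calc (b : ℝ) ^ 2 / j * (μ1 j * μ2 j) = ((b : ℝ) ^ 2 / j * μ1 j) * μ2 j := by ring
        _ ≤ _ := by
          gcongr
          exact hμ2 j hj
    · calc (b : ℝ) ^ 2 * ((1 + e + C * e) * (1 / (b : ℝ) ^ 2 + δ)) =
          (1 + e + C * e) * ((b : ℝ) ^ 2 * (1 / (b : ℝ) ^ 2 + δ)) := by ring
        _ = (1 + e + C * e) * (1 + (b : ℝ) ^ 2 * δ) := by rw [hbi]
        _ ≤ (1 + e + C * e) * (1 + C * e) := by gcongr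
        _ ≤ 1 + 10 * (1 + C) ^ 2 * e := by
          have h3 : e * e ≤ e := by nlinarith
          have h4 : (C + C ^ 2) * (e * e) ≤ (C + C ^ 2) * e := by gcongr
          have h5 : (0 : ℝ) ≤ (9 + 17 * C + 9 * C ^ 2) * e := by positivity
          nlinarith
  have hm3 : ∑ j ∈ Ico b (b ^ 2),
      ((b : ℝ) ^ 2 / j * (ε1 j * μ2 j) + (b : ℝ) ^ 2 / j * (μ1 j * ε2 j) +
        ((b : ℝ) ^ 2 / (j : ℝ) ^ 2 * (μ1 j * μ2 j) +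
        (b : ℝ) ^ 2 / j * (μ2 j * μ2 j))) ≤ 10 * (1 + C) ^ 2 * e := by
    set i := 1 / (b : ℝ) ^ 2 with hi
    have hi0 : 0 < i := by positivity
    refine (hsum _ (2 * (b * δ * (1 + δ)) + ((2 * e + δ) * (i + δ) + b * ((i + δ) * (i + δ))))
      (by positivity) fun j hj => ?_).trans ?_
    · obtain ⟨hj0, hbj, hj1, hw1, hw2, hw, hw'⟩ := wt b j hb hj
      obtain ⟨m1, m2⟩ := hm0 j hj
      have n1 := (h1 j (hlt j hj)).ε0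
      have n2 := (h2 j (hlt j hj)).ε0
      have n3 := (h1 j (hlt j hj)).εu
      have n4 := (h2 j (hlt j hj)).εu
      have n5 := hμ1 j hj
      have n6 := hμ2 j hj
      have n7 : μ1 j ≤ 1 + δ := by
        have : ((j : ℝ) + 1) / (b : ℝ) ^ 2 ≤ 1 := by
          rw [div_le_one (by positivity)]; exact hj1
        linarith
      have n8 : μ2 j ≤ 1 + δ := by linarith
      have q1 : (b : ℝ) ^ 2 / j * (ε1 j * μ2 j) ≤ b * (δ * (1 + δ)) := by gcongr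
      have q2 : (b : ℝ) ^ 2 / j * (μ1 j * ε2 j) ≤ b * ((1 + δ) * δ) := by gcongr
      have q4 : (b : ℝ) ^ 2 / j * (μ2 j * μ2 j) ≤ b * ((i + δ) * (i + δ)) := by gcongr
      have q3 : (b : ℝ) ^ 2 / (j : ℝ) ^ 2 * (μ1 j * μ2 j) ≤ (2 * e + δ) * (i + δ) := by
        have a1 : (b : ℝ) ^ 2 / (j : ℝ) ^ 2 * μ1 j ≤ 2 * e + δ := by
          calc (b : ℝ) ^ 2 / (j : ℝ) ^ 2 * μ1 j ≤
              (b : ℝ) ^ 2 / (j : ℝ) ^ 2 * (((j : ℝ) + 1) / (b : ℝ) ^ 2 + δ) := by gcongr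
            _ = ((j : ℝ) + 1) / (j : ℝ) ^ 2 + (b : ℝ) ^ 2 / (j : ℝ) ^ 2 * δ := by field_simp
            _ ≤ 2 * e + 1 * δ := by
              have : ((j : ℝ) + 1) / (j : ℝ) ^ 2 ≤ 2 * e := by
                rw [he, mul_one_div, div_le_div_iff₀ (by positivity) hb0]
                nlinarith
              gcongr
            _ = _ := by ring
        calc (b : ℝ) ^ 2 / (j : ℝ) ^ 2 * (μ1 j * μ2 j) =
            ((b : ℝ) ^ 2 / (j : ℝ) ^ 2 * μ1 j) * μ2 j := by ring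
          _ ≤ _ := by gcongr
      linarith
    · have e1 : (b : ℝ) ^ 2 * (2 * (b * δ * (1 + δ)) +
          ((2 * e + δ) * (i + δ) + b * ((i + δ) * (i + δ)))) =
          2 * ((b : ℝ) ^ 3 * δ) * (1 + δ) + (2 * e + δ) * ((b : ℝ) ^ 2 * (i + δ)) +
          e * ((b : ℝ) ^ 2 * (i + δ)) ^ 2 := by
        rw [he]; field_simp; ring
      rw [e1, hbi]
      have e2 : 2 * ((b : ℝ) ^ 3 * δ) * (1 + δ) ≤ 2 * (C * e) * (1 + C) := by gcongr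
      have e3 : (2 * e + δ) * (1 + (b : ℝ) ^ 2 * δ) ≤ (2 * e + C * e) * (1 + C) := by gcongr
      have e4 : e * (1 + (b : ℝ) ^ 2 * δ) ^ 2 ≤ e * (1 + C) ^ 2 := by gcongr
      have h5 : (0 : ℝ) ≤ (7 + 13 * C + 6 * C ^ 2) * e := by positivity
      nlinarith
  have hC0 : 10 * (1 + C) ^ 2 / (b : ℝ) = 10 * (1 + C) ^ 2 * e := by rw [he]; ring
  have hcr : ∀ t, (tp (HH b) c t).re =
      ∑ j ∈ Ico b (b ^ 2), (b : ℝ) ^ 2 / j * (F1 j (t 0) * F2 j (t 1)) := by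
    intro t; rw [hc1, Complex.ofReal_re]
  refine ⟨c, d, _, _, ⟨fun t => ?_, fun t => ?_, hc2, ?_, fun t => ?_, fun a => ?_⟩, ?_, ?_,
    ⟨fun t => ?_, fun t => ?_, hd2, ?_, fun t => ?_, fun a => ?_⟩, ?_⟩
  · rw [hc1, Complex.ofReal_im]
  · rw [hcr]; exact hge1 t
  · refine sum_nonneg fun j hj => ?_
    obtain ⟨hj0, hbj, hj1, hw1, hw2, hw, hw'⟩ := wt b j hb hj
    obtain ⟨m1, m2⟩ := hm0 j hj
    positivity
  · rw [hcr]; exact (hval1 t).trans hA1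
  · exact (hc3 a).trans hA1
  · rw [hC0]
    have : e ≤ 10 * (1 + C) ^ 2 * e := by nlinarith [mul_pos hC he0, mul_pos (mul_pos hC hC) he0]
    linarith
  · rw [hC0]; exact hm2
  · rw [hd1, Complex.ofReal_im]
  · rw [hd1, Complex.ofReal_re, hcr]; exact hge2 t
  · refine sum_nonneg fun j hj => ?_
    obtain ⟨hj0, hbj, hj1, hw1, hw2, hw, hw'⟩ := wt b j hb hj
    obtain ⟨m1, m2⟩ := hm0 j hj
    have n1 := (h1 j (hlt j hj)).ε0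
    have n2 := (h2 j (hlt j hj)).ε0
    positivity
  · rw [hd1, Complex.ofReal_re]; exact (hval2 t).trans hA2
  · exact (hd3 a).trans hA2
  · rw [hC0]; exact hm3

end ESAs
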