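import Pool.Agent.ESAs.Stmts

namespace ESAs

open Finset
open scoped Classical

namespace Cnt

lemma cardZ (S : Finset ℤ) (l : ℝ) (hl : 0 ≤ l) (h : ∀ a ∈ S, ∀ b ∈ S, (b : ℝ) - a ≤ l) :
    (#S : ℝ) ≤ l + 1 := by
  rcases S.eq_empty_or_nonempty with rfl | hS
  · simp; linarith
  · have h1 : S ⊆ Icc (S.min' hS) (S.max' hS) := fun a ha =>
      mem_Icc.2 ⟨S.min'_le a ha, S.le_max' a ha⟩
    have h2 := card_le_card h1
    rw [Int.card_Icc] at h2
    have h3 : S.min' hS ≤ S.max' hS := S.min'_le _ (S.max'_mem hS)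
    have h4 : ((#S : ℕ) : ℤ) ≤ S.max' hS + 1 - S.min' hS := by omega
    have h5 : (#S : ℝ) ≤ (S.max' hS : ℝ) + 1 - S.min' hS := by exact_mod_cast h4
    have h6 := h _ (S.min'_mem hS) _ (S.max'_mem hS)
    linarith

lemma cardN (S : Finset ℕ) (l : ℝ) (hl : 0 ≤ l) (h : ∀ a ∈ S, ∀ b ∈ S, (b : ℝ) - a ≤ l) :
    (#S : ℝ) ≤ l + 1 := by
  have h1 := cardZ (S.map Nat.castEmbedding) l hl (by
    intro a ha b hb
    rw [mem_map] at ha hb
    obtain ⟨a', ha', rfl⟩ := ha
    obtain ⟨b', hb', rfl⟩ := hb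
    simpa using h a' ha' b' hb')
  rwa [card_map] at h1

end Cnt

theorem tCnt : St_cnt := by
  intro v c ξ Y0 Y hv hξ
  set S := {M ∈ Ico Y0 (Y0 + Y) | dn (((M : ℕ) : ℝ) * v + c) < ξ} with hS
  have hSY : (#S : ℝ) ≤ Y := by
    have h1 : #S ≤ #(Ico Y0 (Y0 + Y)) := card_filter_le _ _
    rw [Nat.card_Ico, Nat.add_sub_cancel_left] at h1
    exact_mod_cast h1
  have hY0 : (0 : ℝ) ≤ Y := Nat.cast_nonneg _
  rcases lt_or_ge (1 / 2) ξ with h2 | h2
  · have h3 : (v * Y + 2) * (2 * ξ / v + 1) = 2 * ξ * Y + v * Y + 4 * ξ / v + 2 := by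
      field_simp; ring
    rw [h3]
    have h4 : 0 < 4 * ξ / v := by positivity
    have h5 : 0 ≤ v * Y := by positivity
    nlinarith
  · rcases Nat.eq_zero_or_pos Y with rfl | hY
    · have : (#S : ℝ) ≤ 0 := by simpa using hSY
      refine this.trans ?_
      positivity
    · let f : ℕ → ℤ := fun M => round ((M : ℝ) * v + c)
      have hf : ∀ M ∈ S, |(M : ℝ) * v + c - f M| < ξ := fun M hM => (mem_filter.1 hM).2
      have hfib : ∀ k ∈ S.image f, #{x ∈ S | f x = k} ≤ ⌊2 * ξ / v + 1⌋₊ := by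
        intro k _
        apply Nat.le_floor
        apply Cnt.cardN _ _ (by positivity)
        intro a ha b hb
        rw [mem_filter] at ha hb
        have h3 := hf a ha.1
        have h4 := hf b hb.1
        rw [ha.2] at h3
        rw [hb.2] at h4
        rw [abs_lt] at h3 h4
        rw [le_div_iff₀ hv]
        nlinarith [h3.1, h3.2, h4.1, h4.2]
      have h3 := card_le_mul_card_image S _ hfib
      have h4 : (#(S.image f) : ℝ) ≤ v * Y + 2 := by
        have h5 := Cnt.cardZ (S.image f) (v * Y + 1) (by positivity) (by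
          intro a ha b hb
          rw [mem_image] at ha hb
          obtain ⟨a', ha', rfl⟩ := ha
          obtain ⟨b', hb', rfl⟩ := hb
          have h6 := hf a' ha'
          have h7 := hf b' hb'
          rw [abs_lt] at h6 h7
          have h8 := (mem_filter.1 ha').1
          have h9 := (mem_filter.1 hb').1
          rw [mem_Ico] at h8 h9
          have h10 : (b' : ℝ) - a' ≤ Y := by
            have : b' ≤ a' + Y := by omega
            have : (b' : ℝ) ≤ a' + Y := by exact_mod_cast this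
            linarith
          nlinarith [h6.1, h6.2, h7.1, h7.2, mul_le_mul_of_nonneg_right h10 hv.le])
        linarith
      have h5 : (⌊2 * ξ / v + 1⌋₊ : ℝ) ≤ 2 * ξ / v + 1 := Nat.floor_le (by positivity)
      calc (#S : ℝ) ≤ ((⌊2 * ξ / v + 1⌋₊ * #(S.image f) : ℕ) : ℝ) := by exact_mod_cast h3
        _ = (⌊2 * ξ / v + 1⌋₊ : ℝ) * #(S.image f) := by push_cast; ring
        _ ≤ (2 * ξ / v + 1) * (v * Y + 2) := by
            apply mul_le_mul h5 h4 (Nat.cast_nonneg _) (by positivity)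
        _ = (v * Y + 2) * (2 * ξ / v + 1) := by ring

end ESAs
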