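import Pool.Agent.ESAs.Stmts

open Finset

namespace ESAs

namespace CntD

/-- `A_j = ∑_{t ≤ R} w_{t,j} q^t` -/
def A (q R : ℕ) (w : ℕ → Fin 3 → ℤ) (j : Fin 3) : ℤ := ∑ t ∈ range (R + 1), w t j * (q : ℤ) ^ t

lemma sum_eq (q R : ℕ) (w : ℕ → Fin 3 → ℤ) (J J' M : ℕ) :
    ∑ t ∈ range (R + 1), ip (w t) ![J, J', M] * (q : ℤ) ^ t =
      A q R w 0 * J + A q R w 1 * J' + A q R w 2 * M := by
  unfold A
  simp_rw [ip_three, sum_mul]
  rw [← sum_add_distrib, ← sum_add_distrib]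
  refine sum_congr rfl fun t _ => ?_
  ring

lemma A_mod (q R : ℕ) (w : ℕ → Fin 3 → ℤ) (j : Fin 3) : ∃ z : ℤ, A q R w j = w 0 j + q * z := by
  unfold A
  rw [sum_range_succ']
  refine ⟨∑ t ∈ range R, w (t + 1) j * (q : ℤ) ^ t, ?_⟩
  rw [mul_sum, add_comm]
  congr 1
  · simp
  · refine sum_congr rfl fun t _ => ?_
    ring

lemma not_dvd_of_small {q H : ℕ} (hH : H < q) {a : ℤ} (h1 : -(H : ℤ) ≤ a) (h2 : a ≤ H)
    (ha : a ≠ 0) : ¬ (q : ℤ) ∣ a := by
  intro hd
  have h3 := Int.le_of_dvd (abs_pos.mpr ha) ((dvd_abs _ _).mpr hd)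
  have h4 : |a| ≤ H := abs_le.mpr ⟨by linarith, h2⟩
  have h5 : (H : ℤ) < q := by exact_mod_cast hH
  linarith

lemma cop {q R H : ℕ} (hq : q.Prime) (hH : H < q) {w : ℕ → Fin 3 → ℤ} {j : Fin 3}
    (h1 : -(H : ℤ) ≤ w 0 j) (h2 : w 0 j ≤ H) (h0 : w 0 j ≠ 0) :
    IsCoprime ((q : ℤ) ^ (R + 1)) (A q R w j) := by
  apply IsCoprime.pow_left
  rw [Prime.coprime_iff_not_dvd (Nat.prime_iff_prime_int.mp hq)]
  intro hd
  obtain ⟨z, hz⟩ := A_mod q R w j
  rw [hz] at hd
  exact not_dvd_of_small hH h1 h2 h0 ((dvd_add_left (dvd_mul_right _ _)).mp hd)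

lemma A_congr {q R : ℕ} {w w' : ℕ → Fin 3 → ℤ} (h : ∀ t < R + 1, w t = w' t) (j : Fin 3) :
    A q R w j = A q R w' j := by
  unfold A
  refine sum_congr rfl fun t ht => ?_
  rw [h t (mem_range.mp ht)]

/-- uniqueness -/
lemma eq_of {Q : ℤ} {a : ℤ} {x y : ℕ} {r : ℤ} (hc : IsCoprime Q a) (h1 : Q ∣ a * x + r)
    (h2 : Q ∣ a * y + r) (hx : (x : ℤ) ≤ Q) (hy : (y : ℤ) ≤ Q) (hx1 : 1 ≤ x) (hy1 : 1 ≤ y) :
    x = y := by
  have h3 : Q ∣ a * ((x : ℤ) - y) := by
    have := dvd_sub h1 h2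
    have e : a * (x : ℤ) + r - (a * y + r) = a * ((x : ℤ) - y) := by ring
    rwa [e] at this
  have h4 : Q ∣ (x : ℤ) - y := hc.dvd_of_dvd_mul_left h3
  by_contra hne
  have h5 : (x : ℤ) - y ≠ 0 := by
    intro h; apply hne; omega
  have h6 := Int.le_of_dvd (abs_pos.mpr h5) ((dvd_abs _ _).mpr h4)
  have h7 : |(x : ℤ) - y| < Q := by
    rw [abs_lt]; constructor <;> omega
  linarith

end CntD

open CntD in
theorem tCntD (hparF : St_parF) : St_cntD := by
  classical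
  intro b q M N X L Rr η hP
  obtain ⟨f1, f2, f3, f4, f5, f6, f7, f8, f9, f10, f11, f12, f13⟩ := hparF b q M N X L Rr η hP
  have hq := hP.hq
  have hb := hP.hb
  have hqM := hP.h7
  have hHq : HH b < q := by omega
  have hNq : N ≤ q ^ (Rr + 1) := by
    have h1 : N * q ≤ q ^ Rr := f5
    have h2 : q ^ Rr ≤ q ^ (Rr + 1) := Nat.pow_le_pow_right hq.pos (by omega)
    have h3 : N ≤ N * q := Nat.le_mul_of_pos_right _ hq.pos
    omega
  set W : Finset (Fin (Rr + 1) → Fin 3 → ℤ) :=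
    Fintype.piFinset (fun _ : Fin (Rr + 1) => box 3 (HH b)) with hW
  have hWc : #W = ((2 * HH b + 1) ^ 3) ^ (Rr + 1) := by
    rw [hW, Fintype.card_piFinset]
    simp [card_box]
  -- the two parts
  let P0 : ℕ × ℕ → (ℕ → Fin 3 → ℤ) → Prop := fun p w =>
    (∀ t, w t ∈ box 3 (HH b)) ∧
      (q : ℤ) ^ (Rr + 1) ∣ ∑ t ∈ range (Rr + 1), ip (w t) ![p.1, p.2, M] * (q : ℤ) ^ t
  set S1 : Finset (ℕ × ℕ) := {p ∈ Icc 1 N ×ˢ Icc 1 N | ∃ w, P0 p w ∧ w 0 0 ≠ 0} with hS1
  set S2 : Finset (ℕ × ℕ) := {p ∈ Icc 1 N ×ˢ Icc 1 N | ∃ w, P0 p w ∧ w 0 1 ≠ 0} with hS2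
  have hsub : {p ∈ Icc 1 N ×ˢ Icc 1 N | Deep q (HH b) Rr ![p.1, p.2, M]} ⊆ S1 ∪ S2 := by
    intro p hp
    rw [mem_filter] at hp
    obtain ⟨hp1, w, hw, hw0, hd⟩ := hp
    rw [mem_union, hS1, hS2, mem_filter, mem_filter]
    by_cases h0 : w 0 0 = 0
    · by_cases h1 : w 0 1 = 0
      · exfalso
        rw [sum_eq] at hd
        have hqd : (q : ℤ) ∣ A q Rr w 0 * p.1 + A q Rr w 1 * p.2 + A q Rr w 2 * M :=
          dvd_trans (dvd_pow_self _ (by omega)) hd
        obtain ⟨z0, hz0⟩ := A_mod q Rr w 0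
        obtain ⟨z1, hz1⟩ := A_mod q Rr w 1
        obtain ⟨z2, hz2⟩ := A_mod q Rr w 2
        rw [hz0, hz1, hz2, h0, h1] at hqd
        have h2 : w 0 2 ≠ 0 := by
          intro h2
          apply hw0
          funext j
          fin_cases j <;> simp [h0, h1, h2]
        have e : (0 + (q : ℤ) * z0) * p.1 + (0 + (q : ℤ) * z1) * p.2 + (w 0 2 + q * z2) * M =
          w 0 2 * M + q * (z0 * p.1 + z1 * p.2 + z2 * M) := by ring
        rw [e] at hqd
        have h3 : (q : ℤ) ∣ w 0 2 * M := (dvd_add_left (dvd_mul_right _ _)).mp hqd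
        have hpr := Nat.prime_iff_prime_int.mp hq
        rcases hpr.dvd_or_dvd h3 with h4 | h4
        · have hb2 := mem_box.mp (hw 0) 2
          exact not_dvd_of_small hHq hb2.1 hb2.2 h2 h4
        · exact hqM (by exact_mod_cast h4)
      · right
        exact ⟨hp1, w, ⟨hw, hd⟩, h1⟩
    · left
      exact ⟨hp1, w, ⟨hw, hd⟩, h0⟩
  have hc1 : #S1 ≤ N * #W := by
    have hch : ∀ p : ℕ × ℕ, ∃ w : ℕ → Fin 3 → ℤ, p ∈ S1 → P0 p w ∧ w 0 0 ≠ 0 := by
      intro p
      by_cases hp : p ∈ S1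
      · obtain ⟨w, hw⟩ := (mem_filter.mp hp).2
        exact ⟨w, fun _ => hw⟩
      · exact ⟨0, fun h => absurd h hp⟩
    choose w hw using hch
    have key : #S1 ≤ #(Icc 1 N ×ˢ W) := by
      apply card_le_card_of_injOn (fun p => (p.2, fun t : Fin (Rr + 1) => w p t))
      · intro p hp
        have hp' : p ∈ S1 := hp
        simp only [coe_product, Set.mem_prod, mem_coe]
        refine ⟨(mem_product.mp (mem_filter.mp hp').1).2, ?_⟩
        rw [hW, Fintype.mem_piFinset]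
        intro t
        exact (hw p hp').1.1 t
      · intro p hp p' hp' heq
        have hpS : p ∈ S1 := hp
        have hpS' : p' ∈ S1 := hp'
        simp only [Prod.mk.injEq] at heq
        obtain ⟨h2, h3⟩ := heq
        have h4 : ∀ t < Rr + 1, w p t = w p' t := fun t ht => congrFun h3 ⟨t, ht⟩
        obtain ⟨⟨a1, a2⟩, a3⟩ := hw p hpS
        obtain ⟨⟨b1, b2⟩, b3⟩ := hw p' hpS'
        rw [sum_eq] at a2 b2
        rw [← A_congr h4 0, ← A_congr h4 1, ← A_congr h4 2, ← h2] at b2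
        have hb0 := mem_box.mp (a1 0) 0
        have m1 := mem_product.mp (mem_filter.mp hpS).1
        have m2 := mem_product.mp (mem_filter.mp hpS').1
        rw [mem_Icc, mem_Icc] at m1 m2
        have h5 : p.1 = p'.1 := by
          refine eq_of (Q := (q : ℤ) ^ (Rr + 1)) (a := A q Rr (w p) 0)
            (r := A q Rr (w p) 1 * p.2 + A q Rr (w p) 2 * M)
            (cop hq hHq hb0.1 hb0.2 a3) ?_ ?_ ?_ ?_ m1.1.1 m2.1.1
          · rwa [← add_assoc]
          · rwa [← add_assoc]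
          · have := m1.1.2.trans hNq
            exact_mod_cast this
          · have := m2.1.2.trans hNq
            exact_mod_cast this
        exact Prod.ext h5 h2
    refine key.trans (le_of_eq ?_)
    rw [card_product, Nat.card_Icc]; simp
  have hc2 : #S2 ≤ N * #W := by
    have hch : ∀ p : ℕ × ℕ, ∃ w : ℕ → Fin 3 → ℤ, p ∈ S2 → P0 p w ∧ w 0 1 ≠ 0 := by
      intro p
      by_cases hp : p ∈ S2
      · obtain ⟨w, hw⟩ := (mem_filter.mp hp).2
        exact ⟨w, fun _ => hw⟩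
      · exact ⟨0, fun h => absurd h hp⟩
    choose w hw using hch
    have key : #S2 ≤ #(Icc 1 N ×ˢ W) := by
      apply card_le_card_of_injOn (fun p => (p.1, fun t : Fin (Rr + 1) => w p t))
      · intro p hp
        have hp' : p ∈ S2 := hp
        simp only [coe_product, Set.mem_prod, mem_coe]
        refine ⟨(mem_product.mp (mem_filter.mp hp').1).1, ?_⟩
        rw [hW, Fintype.mem_piFinset]
        intro t
        exact (hw p hp').1.1 t
      · intro p hp p' hp' heq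
        have hpS : p ∈ S2 := hp
        have hpS' : p' ∈ S2 := hp'
        simp only [Prod.mk.injEq] at heq
        obtain ⟨h2, h3⟩ := heq
        have h4 : ∀ t < Rr + 1, w p t = w p' t := fun t ht => congrFun h3 ⟨t, ht⟩
        obtain ⟨⟨a1, a2⟩, a3⟩ := hw p hpS
        obtain ⟨⟨b1, b2⟩, b3⟩ := hw p' hpS'
        rw [sum_eq] at a2 b2
        rw [← A_congr h4 0, ← A_congr h4 1, ← A_congr h4 2, ← h2] at b2
        have hb0 := mem_box.mp (a1 0) 1
        have m1 := mem_product.mp (mem_filter.mp hpS).1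
        have m2 := mem_product.mp (mem_filter.mp hpS').1
        rw [mem_Icc, mem_Icc] at m1 m2
        have h5 : p.2 = p'.2 := by
          refine eq_of (Q := (q : ℤ) ^ (Rr + 1)) (a := A q Rr (w p) 1)
            (r := A q Rr (w p) 0 * p.1 + A q Rr (w p) 2 * M)
            (cop hq hHq hb0.1 hb0.2 a3) ?_ ?_ ?_ ?_ m1.2.1 m2.2.1
          · have e : A q Rr (w p) 1 * (p.2 : ℤ) + (A q Rr (w p) 0 * p.1 + A q Rr (w p) 2 * M) =
              A q Rr (w p) 0 * p.1 + A q Rr (w p) 1 * p.2 + A q Rr (w p) 2 * M := by ring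
            rwa [e]
          · have e : A q Rr (w p) 1 * (p'.2 : ℤ) + (A q Rr (w p) 0 * p.1 + A q Rr (w p) 2 * M) =
              A q Rr (w p) 0 * p.1 + A q Rr (w p) 1 * p'.2 + A q Rr (w p) 2 * M := by ring
            rwa [e]
          · have := m1.2.2.trans hNq
            exact_mod_cast this
          · have := m2.2.2.trans hNq
            exact_mod_cast this
        exact Prod.ext h2 h5
    refine key.trans (le_of_eq ?_)
    rw [card_product, Nat.card_Icc]; simp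
  have hWle : #W ≤ b ^ (48 * (Rr + 1)) := by
    rw [hWc]
    calc ((2 * HH b + 1) ^ 3) ^ (Rr + 1) ≤ ((b ^ 16) ^ 3) ^ (Rr + 1) := by gcongr
      _ = b ^ (48 * (Rr + 1)) := by rw [← pow_mul, ← pow_mul]; congr 1; ring
  have hfin : #{p ∈ Icc 1 N ×ˢ Icc 1 N | Deep q (HH b) Rr ![p.1, p.2, M]} ≤
      N * b ^ (50 * (Rr + 1)) := by
    calc #{p ∈ Icc 1 N ×ˢ Icc 1 N | Deep q (HH b) Rr ![p.1, p.2, M]} ≤ #(S1 ∪ S2) :=
          card_le_card hsub
      _ ≤ #S1 + #S2 := card_union_le _ _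
      _ ≤ N * #W + N * #W := by omega
      _ = N * (2 * #W) := by ring
      _ ≤ N * (b * b ^ (48 * (Rr + 1))) := by gcongr
      _ = N * b ^ (48 * (Rr + 1) + 1) := by rw [pow_succ]; ring
      _ ≤ N * b ^ (50 * (Rr + 1)) := by
          gcongr
          · omega
          · omega
  exact_mod_cast hfin

end ESAs
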