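import Pool.Agent.ESAs.Stmts

open Finset

namespace ESAs

open scoped Classical

namespace CntJ

lemma card_filter_exists_le {α ι : Type*} (S : Finset α) (I : Finset ι) (P : ι → α → Prop)
    {_ : DecidablePred (fun x => ∃ i ∈ I, P i x)} (B : ℝ) (h : ∀ i ∈ I, ((S.filter (P i)).card : ℝ) ≤ B) :
    ((S.filter (fun x => ∃ i ∈ I, P i x)).card : ℝ) ≤ I.card * B := by
  have h1 : S.filter (fun x => ∃ i ∈ I, P i x) ⊆ I.biUnion (fun i => S.filter (P i)) := by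
    intro x hx
    simp only [mem_filter, mem_biUnion] at hx ⊢
    obtain ⟨hx, i, hi, hp⟩ := hx
    exact ⟨i, hi, hx, hp⟩
  have h2 : ((S.filter (fun x => ∃ i ∈ I, P i x)).card : ℝ) ≤
      ∑ i ∈ I, ((S.filter (P i)).card : ℝ) := by
    have := (card_le_card h1).trans card_biUnion_le
    exact_mod_cast this
  refine h2.trans ?_
  rw [← nsmul_eq_mul]
  exact sum_le_card_nsmul _ _ _ h

lemma card_filter_le_of_not {α : Type*} (S : Finset α) (P : α → Prop) {_ : DecidablePred P}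
    {B : ℝ} (hB : 0 ≤ B) (h : ∀ x ∈ S, ¬ P x) : ((S.filter P).card : ℝ) ≤ B := by
  rw [filter_eq_empty_iff.2 (fun {x} hx => h x hx), card_empty]
  simpa using hB

lemma card_filter_le_of_imp {α : Type*} (S : Finset α) (P Q : α → Prop) {_ : DecidablePred P}
    {_ : DecidablePred Q} {B : ℝ} (hB : ((S.filter Q).card : ℝ) ≤ B) (h : ∀ x ∈ S, P x → Q x) :
    ((S.filter P).card : ℝ) ≤ B := by
  refine le_trans ?_ hB
  have : S.filter P ⊆ S.filter Q := by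
    intro x hx
    rw [mem_filter] at hx ⊢
    exact ⟨hx.1, h x hx.1 hx.2⟩
  exact_mod_cast card_le_card this

lemma dn_neg (θ : ℝ) : dn (-θ) = dn θ := by
  have key : ∀ x : ℝ, dn (-x) ≤ dn x := by
    intro x
    have := dn_le (-x) (-(round x))
    refine this.trans (le_of_eq ?_)
    unfold dn
    push_cast
    rw [show -x - -(round x : ℝ) = -(x - round x) by ring, abs_neg]
  apply le_antisymm (key θ)
  have := key (-θ)
  rwa [neg_neg] at this

lemma cnt_bd (hcnt : St_cnt) (V c ξ D U : ℝ) (Y0 Y : ℕ) (hξ : 0 < ξ) (hD : 0 < D)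
    (h1 : 1 / D ≤ |V|) (h2 : |V| ≤ U) :
    (#{M ∈ Ico Y0 (Y0 + Y) | dn (((M : ℕ) : ℝ) * V + c) < ξ} : ℝ) ≤
      2 * ξ * Y + U * Y + 4 * ξ * D + 2 := by
  have hV : 0 < |V| := lt_of_lt_of_le (by positivity) h1
  have hb : (#{M ∈ Ico Y0 (Y0 + Y) | dn (((M : ℕ) : ℝ) * V + c) < ξ} : ℝ) ≤
      (|V| * Y + 2) * (2 * ξ / |V| + 1) := by
    rcases lt_or_ge V 0 with hneg | hpos
    · have := hcnt |V| (-c) ξ Y0 Y hV hξ
      have e : ∀ M : ℕ, dn ((M : ℝ) * V + c) = dn ((M : ℝ) * |V| + -c) := by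
        intro M
        rw [abs_of_neg hneg, ← dn_neg]
        congr 1; ring
      simp_rw [e]
      exact this
    · have hV' : |V| = V := abs_of_nonneg hpos
      rw [hV'] at hV ⊢
      exact hcnt V c ξ Y0 Y hV hξ
  refine hb.trans ?_
  have hinv : 1 / |V| ≤ D := by
    rw [div_le_iff₀ hV]
    rw [div_le_iff₀ hD] at h1
    linarith
  have e : (|V| * Y + 2) * (2 * ξ / |V| + 1) = 2 * ξ * Y + |V| * Y + 4 * ξ * (1 / |V|) + 2 := by
    field_simp
    ring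
  rw [e]
  have hY : (0 : ℝ) ≤ Y := Nat.cast_nonneg _
  have := mul_le_mul_of_nonneg_right h2 hY
  have := mul_le_mul_of_nonneg_left hinv (by positivity : (0:ℝ) ≤ 4 * ξ)
  linarith

noncomputable def ext {k Rr : ℕ} (v : Fin Rr → Fin k → ℤ) : ℕ → Fin k → ℤ :=
  fun t => if h : t < Rr then v ⟨t, h⟩ else 0

lemma ext_apply {k Rr : ℕ} (v : Fin Rr → Fin k → ℤ) {t : ℕ} (h : t < Rr) :
    ext v t = v ⟨t, h⟩ := by simp [ext, h]

noncomputable def Words (k H Rr : ℕ) : Finset (Fin Rr → Fin k → ℤ) :=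
  Fintype.piFinset (fun _ => box k H)

lemma card_words (k H Rr : ℕ) : (Words k H Rr).card = ((2 * H + 1) ^ k) ^ Rr := by
  unfold Words
  rw [Fintype.card_piFinset]
  simp [card_box]

lemma ext_mem {k H Rr : ℕ} {v : Fin Rr → Fin k → ℤ} (hv : v ∈ Words k H Rr) (t : ℕ) :
    ext v t ∈ box k H := by
  unfold ext
  split_ifs with h
  · exact (Fintype.mem_piFinset.1 hv) _
  · exact zero_mem_box k H

lemma tfr_ext {k : ℕ} (q Rr : ℕ) (J : Fin k → ℕ) (w : ℕ → Fin k → ℤ) :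
    tfr q Rr J (ext (fun i : Fin Rr => w i)) = tfr q Rr J w := by
  unfold tfr
  refine sum_congr rfl fun t ht => ?_
  rw [ext_apply _ (mem_range.1 ht)]

lemma not_topGen {k : ℕ} {q H Rr : ℕ} {ξ : ℝ} {J : Fin k → ℕ} (h : ¬ TopGen q H Rr ξ J) :
    ∃ v ∈ Words k H Rr, (∃ t < Rr, ext v t ≠ 0) ∧ dn (tfr q Rr J (ext v)) < ξ := by
  unfold TopGen at h
  push Not at h
  obtain ⟨w, hw, ⟨t, ht, hne⟩, hlt⟩ := h
  refine ⟨fun i : Fin Rr => w i, ?_, ⟨t, ht, ?_⟩, ?_⟩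
  · exact Fintype.mem_piFinset.2 fun i => hw i
  · rw [ext_apply _ ht]; exact hne
  · rw [tfr_ext]; exact hlt

lemma tfr_two (q Rr J M : ℕ) (w : ℕ → Fin 2 → ℤ) :
    tfr q Rr ![J, M] w = (J : ℝ) * (∑ t ∈ range Rr, (w t 0 : ℝ) / (q : ℝ) ^ (t + 1)) +
      (M : ℝ) * (∑ t ∈ range Rr, (w t 1 : ℝ) / (q : ℝ) ^ (t + 1)) := by
  unfold tfr
  rw [mul_sum, mul_sum, ← sum_add_distrib]
  refine sum_congr rfl fun t _ => ?_
  rw [ip_two]; push_cast; ring

lemma tfr_one (q Rr M : ℕ) (w : ℕ → Fin 1 → ℤ) :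
    tfr q Rr ![M] w = (M : ℝ) * (∑ t ∈ range Rr, (w t 0 : ℝ) / (q : ℝ) ^ (t + 1)) := by
  unfold tfr
  rw [mul_sum]
  refine sum_congr rfl fun t _ => ?_
  rw [ip_one]; push_cast; ring

/-- a set of integers in `[1, N]` in one residue class -/
lemma card_class (q N : ℕ) (S : Finset ℕ) (hS : ∀ x ∈ S, x ≤ N)
    (h : ∀ x ∈ S, ∀ y ∈ S, x % q = y % q) : (S.card : ℝ) ≤ N / q + 1 := by
  have h1 : S.card ≤ (range (N / q + 1)).card := by
    apply card_le_card_of_injOn (fun x => x / q)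
    · intro x hx
      simp only [coe_range, Set.mem_Iio]
      have := Nat.div_le_div_right (c := q) (hS x hx)
      omega
    · intro x hx y hy hxy
      simp only at hxy
      have := h x hx y hy
      rw [← Nat.div_add_mod x q, ← Nat.div_add_mod y q, hxy, this]
  rw [card_range] at h1
  have h2 : (S.card : ℝ) ≤ ((N / q : ℕ) : ℝ) + 1 := by exact_mod_cast h1
  have h3 : ((N / q : ℕ) : ℝ) ≤ (N : ℝ) / q := Nat.cast_div_le
  linarith

lemma card_lin (q N : ℕ) (hq : q.Prime) (a c : ℤ) (ha : ¬ (q : ℤ) ∣ a) :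
    (((Icc 1 N).filter (fun J : ℕ => (q : ℤ) ∣ a * (J : ℤ) + c)).card : ℝ) ≤ N / q + 1 := by
  apply card_class q N
  · intro x hx
    exact (mem_Icc.1 (mem_filter.1 hx).1).2
  · intro x hx y hy
    have h1 := (mem_filter.1 hx).2
    have h2 := (mem_filter.1 hy).2
    have h3 : (q : ℤ) ∣ a * ((x : ℤ) - y) := by
      have := dvd_sub h1 h2
      have e : a * (x : ℤ) + c - (a * (y : ℤ) + c) = a * ((x : ℤ) - y) := by ring
      rwa [e] at this
    have hp : Prime (q : ℤ) := Nat.prime_iff_prime_int.1 hq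
    rcases hp.dvd_or_dvd h3 with h | h
    · exact absurd h ha
    · have h6 : (x : ℤ) % q = (y : ℤ) % q := 
        Int.emod_eq_emod_iff_emod_sub_eq_zero.2 (Int.emod_eq_zero_of_dvd h)
      exact_mod_cast h6

/-- the number of `J` in the generic class -/
lemma word_bd (hcnt : St_cnt) (hvb : St_vb) (q H Rr N M : ℕ) (ξ : ℝ) (hξ : 0 < ξ)
    (hHq : 2 * H + 2 ≤ q) (h8 : TopGen q H Rr ξ ![M]) (w : ℕ → Fin 2 → ℤ)
    (hw : ∀ t, w t ∈ box 2 H) (hne : ∃ t < Rr, w t ≠ 0) :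
    (((Icc 1 N).filter (fun J : ℕ => dn (tfr q Rr ![J, M] w) < ξ)).card : ℝ) ≤
      2 * ξ * N + 2 * H / q * N + 8 * ξ * (q : ℝ) ^ Rr + 2 := by
  have hq0 : (0 : ℝ) < q := by
    have : 0 < q := by omega
    exact_mod_cast this
  by_cases h0 : ∃ t < Rr, w t 0 ≠ 0
  · have hw0 : ∀ t, |w t 0| ≤ (H : ℤ) := fun t => by
      have := mem_box.1 (hw t) 0
      exact abs_le.2 this
    obtain ⟨h1, h2⟩ := hvb q H Rr (fun t => w t 0) hHq hw0 h0
    set V := ∑ t ∈ range Rr, (w t 0 : ℝ) / (q : ℝ) ^ (t + 1) with hV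
    have := cnt_bd hcnt V ((M : ℝ) * (∑ t ∈ range Rr, (w t 1 : ℝ) / (q : ℝ) ^ (t + 1))) ξ
      (2 * (q : ℝ) ^ Rr) (2 * H / q) 1 N hξ (by positivity) h1 h2
    have e : ((Icc 1 N).filter (fun J : ℕ => dn (tfr q Rr ![J, M] w) < ξ)) =
        {J ∈ Ico 1 (1 + N) | dn (((J : ℕ) : ℝ) * V +
          ((M : ℝ) * (∑ t ∈ range Rr, (w t 1 : ℝ) / (q : ℝ) ^ (t + 1)))) < ξ} := by
      ext J
      simp only [mem_filter, mem_Icc, mem_Ico, tfr_two, ← hV]
      constructor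
      · rintro ⟨⟨ha, hb⟩, hc⟩; exact ⟨⟨ha, by omega⟩, hc⟩
      · rintro ⟨⟨ha, hb⟩, hc⟩; exact ⟨⟨ha, by omega⟩, hc⟩
    rw [e]
    refine this.trans (le_of_eq ?_)
    ring
  · push Not at h0
    have hempty : ((Icc 1 N).filter (fun J : ℕ => dn (tfr q Rr ![J, M] w) < ξ)) = ∅ := by
      rw [filter_eq_empty_iff]
      intro J _ hlt
      rw [tfr_two] at hlt
      have hV0 : ∑ t ∈ range Rr, (w t 0 : ℝ) / (q : ℝ) ^ (t + 1) = 0 := by
        apply sum_eq_zero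
        intro t ht
        rw [h0 t (mem_range.1 ht)]; simp
      rw [hV0, mul_zero, zero_add] at hlt
      have := h8 (fun t => ![w t 1]) (fun t => by
        rw [mem_box]; intro j; fin_cases j; exact mem_box.1 (hw t) 1) (by
        obtain ⟨t, ht, hne⟩ := hne
        refine ⟨t, ht, fun hc => hne ?_⟩
        have hc0 := congrFun hc 0
        simp only [Matrix.cons_val_zero, Pi.zero_apply] at hc0
        funext j
        fin_cases j
        · exact h0 t ht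
        · exact hc0)
      rw [tfr_one] at this
      simp only [Matrix.cons_val_zero] at this
      linarith
    rw [hempty, card_empty]
    push_cast
    positivity

/-- the arithmetic at the end -/
lemma arith (b Rr q N : ℕ) (h : ℝ) (ξ : ℝ) (hb : 2 ≤ b) (hRr : 1 ≤ Rr) (hh : 0 ≤ h)
    (hH : 2 * h + 1 ≤ (b : ℝ) ^ 16) (hq : 2 * ((b : ℝ) ^ (300 * (Rr + 1))) ^ 4 ≤ q)
    (hN : (b : ℝ) ^ (300 * (Rr + 1)) ≤ N)
    (hξ1 : ξ * ((q : ℝ) * (b : ℝ) ^ (300 * (Rr + 1))) ≤ (b : ℝ) ^ (100 * (Rr + 1)))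
    (hξ2 : ξ * (q : ℝ) ^ Rr * (b : ℝ) ^ (300 * (Rr + 1)) ≤ 2 * (b : ℝ) ^ (100 * (Rr + 1)) * N)
    (hξ : 0 < ξ) :
    (2 * h + 1) ^ 2 * ((N : ℝ) / q + 1) +
      ((2 * h + 1) ^ 2) ^ Rr * (2 * ξ * N + 2 * h / q * N + 8 * ξ * (q : ℝ) ^ Rr + 2) ≤
      N / (b : ℝ) ^ (100 * (Rr + 1)) := by
  have hb' : (2 : ℝ) ≤ b := by exact_mod_cast hb
  set β : ℝ := (b : ℝ) ^ (Rr + 1) with hβ
  have hβ4 : 4 ≤ β := by
    have h1 : (2 : ℝ) ^ 2 ≤ (b : ℝ) ^ 2 := pow_le_pow_left₀ (by norm_num) hb' 2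
    have h2 : (b : ℝ) ^ 2 ≤ (b : ℝ) ^ (Rr + 1) := pow_le_pow_right₀ (by linarith) (by omega)
    rw [hβ]; linarith
  have hβ1 : 1 ≤ β := by linarith
  have e1 : (b : ℝ) ^ (100 * (Rr + 1)) = β ^ 100 := by rw [hβ, ← pow_mul, mul_comm]
  have e3 : (b : ℝ) ^ (300 * (Rr + 1)) = β ^ 300 := by rw [hβ, ← pow_mul, mul_comm]
  rw [e3] at hq hN hξ1 hξ2
  rw [e1] at hξ1 hξ2 ⊢
  have hN0 : (0 : ℝ) < N := lt_of_lt_of_le (by positivity) hN
  have hq0 : (0 : ℝ) < q := lt_of_lt_of_le (by positivity) hq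
  have hh1 : (2 * h + 1) ^ 2 ≤ β ^ 16 := by
    have h1 : (2 * h + 1) ^ 2 ≤ ((b : ℝ) ^ 16) ^ 2 := pow_le_pow_left₀ (by linarith) hH 2
    have h2 : ((b : ℝ) ^ 16) ^ 2 ≤ β ^ 16 := by
      rw [hβ, ← pow_mul, ← pow_mul]
      exact pow_le_pow_right₀ (by linarith) (by omega)
    linarith
  have hh2 : ((2 * h + 1) ^ 2) ^ Rr ≤ β ^ 32 := by
    have h1 : ((2 * h + 1) ^ 2) ^ Rr ≤ (((b : ℝ) ^ 16) ^ 2) ^ Rr :=
      pow_le_pow_left₀ (by positivity) (pow_le_pow_left₀ (by linarith) hH 2) Rr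
    have h2 : (((b : ℝ) ^ 16) ^ 2) ^ Rr ≤ β ^ 32 := by
      rw [hβ, ← pow_mul, ← pow_mul, ← pow_mul]
      exact pow_le_pow_right₀ (by linarith) (by omega)
    linarith
  have hh3 : 2 * h ≤ β ^ 8 := by
    have h2 : (b : ℝ) ^ 16 ≤ β ^ 8 := by
      rw [hβ, ← pow_mul]
      exact pow_le_pow_right₀ (by linarith) (by omega)
    linarith
  -- all the terms in units of `N / β ^ 300`
  set E : ℝ := (N : ℝ) / β ^ 300 with hE
  have hβ300 : 0 < β ^ 300 := by positivity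
  have hE0 : 0 < E := by rw [hE]; positivity
  have hE1 : 1 ≤ E := by rw [hE, le_div_iff₀ hβ300]; linarith
  have hqN : (N : ℝ) / q ≤ E := by
    have h2 : β ^ 300 ≤ (q : ℝ) := by
      have h1 : β ^ 300 ≤ (β ^ 300) ^ 4 := le_self_pow₀ (one_le_pow₀ hβ1) (by norm_num)
      have : 0 < (β ^ 300) ^ 4 := by positivity
      linarith
    rw [hE]
    exact div_le_div_of_nonneg_left hN0.le hβ300 h2
  have hξN : 2 * ξ * N ≤ 2 * β ^ 100 * E := by
    have h1 : ξ * (q * β ^ 300) * (N / β ^ 300) ≤ β ^ 100 * (N / β ^ 300) :=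
      mul_le_mul_of_nonneg_right hξ1 hE0.le
    have h2 : ξ * (q * β ^ 300) * (N / β ^ 300) = ξ * q * N := by field_simp
    have h3 : ξ * N ≤ ξ * q * N := by
      have hq1 : (1 : ℝ) ≤ q := by
        have : (1 : ℝ) ≤ (β ^ 300) ^ 4 := one_le_pow₀ (one_le_pow₀ hβ1)
        linarith
      have : ξ * N * 1 ≤ ξ * N * q := mul_le_mul_of_nonneg_left hq1 (by positivity)
      linarith
    rw [h2] at h1
    rw [hE]; linarith
  have hHN : 2 * h / q * N ≤ β ^ 8 * E := by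
    have e : 2 * h / q * N = 2 * h * (N / q) := by ring
    rw [e]
    exact mul_le_mul hh3 hqN (by positivity) (by positivity)
  have hξq : 8 * ξ * (q : ℝ) ^ Rr ≤ 16 * β ^ 100 * E := by
    rw [hE, ← mul_div_assoc, le_div_iff₀ hβ300]
    linarith
  have hsum : 2 * ξ * N + 2 * h / q * N + 8 * ξ * (q : ℝ) ^ Rr + 2 ≤ 21 * β ^ 100 * E := by
    have h8 : β ^ 8 * E ≤ β ^ 100 * E :=
      mul_le_mul_of_nonneg_right (pow_le_pow_right₀ hβ1 (by norm_num)) hE0.le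
    have h1 : 1 ≤ β ^ 100 * E := by
      have : (1 : ℝ) ≤ β ^ 100 := one_le_pow₀ hβ1
      nlinarith
    linarith
  have hA : (2 * h + 1) ^ 2 * ((N : ℝ) / q + 1) ≤ β ^ 16 * (2 * E) :=
    mul_le_mul hh1 (by linarith) (by positivity) (by positivity)
  have hB : ((2 * h + 1) ^ 2) ^ Rr *
      (2 * ξ * N + 2 * h / q * N + 8 * ξ * (q : ℝ) ^ Rr + 2) ≤ β ^ 32 * (21 * β ^ 100 * E) :=
    mul_le_mul hh2 hsum (by positivity) (by positivity)
  have hC : β ^ 16 * (2 * E) ≤ 2 * β ^ 132 * E := by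
    have : β ^ 16 ≤ β ^ 132 := pow_le_pow_right₀ hβ1 (by norm_num)
    nlinarith
  have hD : β ^ 32 * (21 * β ^ 100 * E) = 21 * β ^ 132 * E := by ring
  have hF : 23 * β ^ 132 * E ≤ N / β ^ 100 := by
    rw [hE, ← mul_div_assoc, div_le_div_iff₀ hβ300 (by positivity)]
    have h3 : (23 : ℝ) ≤ β ^ 68 := by
      have : (4 : ℝ) ^ 68 ≤ β ^ 68 := pow_le_pow_left₀ (by norm_num) hβ4 68
      have h4 : (23 : ℝ) ≤ 4 ^ 68 := by norm_num
      linarith
    have h5 : 23 * (N * β ^ 232) ≤ β ^ 68 * (N * β ^ 232) :=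
      mul_le_mul_of_nonneg_right h3 (by positivity)
    have e1 : 23 * β ^ 132 * N * β ^ 100 = 23 * (N * β ^ 232) := by ring
    have e2 : (N : ℝ) * β ^ 300 = β ^ 68 * (N * β ^ 232) := by ring
    rw [e1, e2]; exact h5
  linarith

end CntJ

theorem tCntJ (hcnt : St_cnt) (hvb : St_vb) (hparF : St_parF) : St_cntJ := by
  intro b q M N X L Rr η hP
  obtain ⟨f1, f2, f3, f4, f5, f6, f7, f8, f9, f10, f11, f12, f13⟩ := hparF b q M N X L Rr η hP
  have h8 := hP.h8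
  set H := HH b with hH
  set ξ := xi b q X L Rr with hξ
  clear_value H ξ
  have hqp := hP.hq
  -- the deep part
  have hdeep : (#{J ∈ Icc 1 N | Deep q H 0 ![J, M]} : ℝ) ≤
      ((2 * (H : ℝ) + 1) ^ 2) * ((N : ℝ) / q + 1) := by
    have h1 : (#{J ∈ Icc 1 N | Deep q H 0 ![J, M]} : ℝ) ≤
        (((Icc 1 N).filter (fun J : ℕ => ∃ a ∈ box 2 H, (a ≠ 0 ∧
          (q : ℤ) ∣ a 0 * (J : ℤ) + a 1 * M))).card : ℝ) := by
      have : {J ∈ Icc 1 N | Deep q H 0 ![J, M]} ⊆ ((Icc 1 N).filter (fun J : ℕ => ∃ a ∈ box 2 H,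
          (a ≠ 0 ∧ (q : ℤ) ∣ a 0 * (J : ℤ) + a 1 * M))) := by
        intro J hJ
        rw [mem_filter] at hJ ⊢
        refine ⟨hJ.1, ?_⟩
        obtain ⟨w, hw, hne, hdvd⟩ := hJ.2
        refine ⟨w 0, hw 0, hne, ?_⟩
        simpa [ip_two] using hdvd
      exact_mod_cast card_le_card this
    refine h1.trans ?_
    refine le_trans (CntJ.card_filter_exists_le (Icc 1 N) (box 2 H) (fun (a : Fin 2 → ℤ) (J : ℕ) =>
      (a ≠ 0 ∧ (q : ℤ) ∣ a 0 * (J : ℤ) + a 1 * M)) ((N : ℝ) / q + 1) (by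
        intro a ha
        have hb0 := mem_box.1 ha
        have hB : 0 ≤ (N : ℝ) / q + 1 := by positivity
        by_cases ha0 : a = 0
        · apply CntJ.card_filter_le_of_not _ _ hB
          intro J _ hc
          exact hc.1 ha0
        · have hsmall : ∀ j, (q : ℤ) ∣ a j → a j = 0 := by
            intro j hd
            by_contra hne
            have := Int.le_of_dvd (abs_pos.2 hne) ((dvd_abs _ _).2 hd)
            have h3 := abs_le.2 (hb0 j)
            have : (2 * (H : ℤ) + 2) ≤ q := by exact_mod_cast f2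
            have : (0 : ℤ) ≤ H := Int.natCast_nonneg _
            omega
          by_cases h0 : (q : ℤ) ∣ a 0
          · have h00 := hsmall 0 h0
            apply CntJ.card_filter_le_of_not _ _ hB
            intro J _ hc
            have h4 := hc.2
            rw [h00, zero_mul, zero_add] at h4
            have hp : Prime (q : ℤ) := Nat.prime_iff_prime_int.1 hqp
            rcases hp.dvd_or_dvd h4 with h5 | h5
            · have h11 := hsmall 1 h5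
              apply ha0
              funext j
              fin_cases j
              · exact h00
              · exact h11
            · exact hP.h7 (by exact_mod_cast h5)
          · have h6 := CntJ.card_lin q N hqp (a 0) (a 1 * M) h0
            exact CntJ.card_filter_le_of_imp _ _ _ h6 (fun J _ hJ => hJ.2))) (le_of_eq ?_)
    rw [card_box]; push_cast; ring
  -- the top part
  have htop : (#{J ∈ Icc 1 N | ¬ TopGen q H Rr ξ ![J, M]} : ℝ) ≤
      (((2 * (H : ℝ) + 1) ^ 2) ^ Rr) *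
        (2 * ξ * N + 2 * H / q * N + 8 * ξ * (q : ℝ) ^ Rr + 2) := by
    have h1 : (#{J ∈ Icc 1 N | ¬ TopGen q H Rr ξ ![J, M]} : ℝ) ≤
        (((Icc 1 N).filter (fun J : ℕ => ∃ v ∈ CntJ.Words 2 H Rr,
          ((∃ t < Rr, CntJ.ext v t ≠ 0) ∧ dn (tfr q Rr ![J, M] (CntJ.ext v)) < ξ))).card : ℝ) := by
      have : {J ∈ Icc 1 N | ¬ TopGen q H Rr ξ ![J, M]} ⊆
          ((Icc 1 N).filter (fun J : ℕ => ∃ v ∈ CntJ.Words 2 H Rr,
          ((∃ t < Rr, CntJ.ext v t ≠ 0) ∧ dn (tfr q Rr ![J, M] (CntJ.ext v)) < ξ))) := by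
        intro J hJ
        rw [mem_filter] at hJ ⊢
        exact ⟨hJ.1, CntJ.not_topGen hJ.2⟩
      exact_mod_cast card_le_card this
    refine h1.trans ?_
    refine le_trans (CntJ.card_filter_exists_le (Icc 1 N) (CntJ.Words 2 H Rr)
      (fun v (J : ℕ) => ((∃ t < Rr, CntJ.ext v t ≠ 0) ∧
        dn (tfr q Rr ![J, M] (CntJ.ext v)) < ξ))
      (2 * ξ * N + 2 * H / q * N + 8 * ξ * (q : ℝ) ^ Rr + 2) (by
        intro v hv
        by_cases hne : ∃ t < Rr, CntJ.ext v t ≠ 0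
        · have h3 := CntJ.word_bd hcnt hvb q H Rr N M ξ f9 f2 h8 (CntJ.ext v)
            (CntJ.ext_mem hv) hne
          exact CntJ.card_filter_le_of_imp _ _ _ h3 (fun J _ hJ => hJ.2)
        · exact CntJ.card_filter_le_of_not _ _ (by positivity) (fun J _ hc => hne hc.1)))
      (le_of_eq ?_)
    rw [CntJ.card_words]; push_cast; ring
  have hunion : (#{J ∈ Icc 1 N | Deep q H 0 ![J, M] ∨ ¬ TopGen q H Rr ξ ![J, M]} : ℝ) ≤
      (#{J ∈ Icc 1 N | Deep q H 0 ![J, M]} : ℝ) +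
        (#{J ∈ Icc 1 N | ¬ TopGen q H Rr ξ ![J, M]} : ℝ) := by
    rw [filter_or]
    exact_mod_cast card_union_le _ _
  refine hunion.trans ?_
  refine (add_le_add hdeep htop).trans ?_
  have hu : ((uu b Rr : ℕ) : ℝ) = (b : ℝ) ^ (300 * (Rr + 1)) := by simp [uu]
  have e16 : 2 * (H : ℝ) + 1 ≤ (b : ℝ) ^ 16 := by exact_mod_cast f1
  apply CntJ.arith b Rr q N H ξ hP.hb hP.hRr (Nat.cast_nonneg _) e16
  · have := hP.h1
    rw [← hu]; exact_mod_cast this
  · rw [← hu]; exact_mod_cast f3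
  · rw [← hu]; exact f10
  · rw [← hu]; exact f11
  · exact f9

end ESAs
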