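import Pool.Agent.ESAs.Stmts

open Finset

namespace ESAs

namespace Comb

theorem sum_blocks (f : ℕ → ℝ) (Q N : ℕ) :
    ∑ n ∈ range (Q * N), f n = ∑ n0 ∈ range Q, ∑ h ∈ range N, f (n0 + Q * h) := by
  rw [Finset.sum_comm]
  induction N with
  | zero => simp
  | succ N ih =>
    rw [Finset.sum_range_succ, ← ih, Nat.mul_succ, Finset.sum_range_add]
    congr 1
    exact Finset.sum_congr rfl fun n _ => by rw [add_comm]

end Comb

open Comb in
theorem tComb (hdep : St_dep) (htop : St_top) : St_comb := by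
  intro k q H J g c μ L Rr N ξ A hq hξ hA hM hg hD hT
  have hμ : ∀ i, c i 0 = (μ i : ℂ) := fun i => (hM i).mean
  have hμ0 : ∀ i, 0 ≤ μ i := fun i => (hM i).nonneg
  set low : ℕ → ℝ := fun n => ∏ i ∈ range L, (tp H (c i) (pt q J i n)).re with hlow
  set top : ℕ → ℝ := fun n => ∏ t ∈ range Rr, (tp H (c (L + t)) (pt q J (L + t) n)).re with htp
  have hlow0 : ∀ n, 0 ≤ low n := fun n =>
    Finset.prod_nonneg fun i _ => (hM i).re_nonneg (hg i) _
  -- the low sum
  have h1 : ∑ n ∈ range (q ^ L), low n = (q : ℝ) ^ L * ∏ i ∈ range L, μ i := by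
    have h2 := hdep k q H 0 J c L hq (Nat.zero_le _) hD
    have h3 : lowS q H J c 0 0 = 1 := by
      simp [lowS, ec_zero]
    have h4 : lowS q H J c L 0 = ((∑ n ∈ range (q ^ L), low n : ℝ) : ℂ) := by
      unfold lowS
      rw [Complex.ofReal_sum]
      refine Finset.sum_congr rfl fun n _ => ?_
      have : ec ((((0 : ℤ) : ℝ)) * n / (q : ℝ) ^ L) = 1 := by
        have e : (((0 : ℤ) : ℝ)) * n / (q : ℝ) ^ L = 0 := by simp
        rw [e, ec_zero]
      rw [this, one_mul, hlow, Complex.ofReal_prod]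
      exact Finset.prod_congr rfl fun i _ => (hM i).tp_eq _
    rw [h3, h4, Nat.sub_zero, mul_one] at h2
    have h5 : ((∑ n ∈ range (q ^ L), low n : ℝ) : ℂ) =
        (((q : ℝ) ^ L * ∏ i ∈ range L, μ i : ℝ) : ℂ) := by
      rw [h2, ← Finset.range_eq_Ico]
      push_cast
      rw [mul_comm]
      congr 1
      exact Finset.prod_congr rfl fun i _ => hμ i
    exact_mod_cast h5
  -- the top sum
  have h2 : ∀ n0, |(∑ h ∈ range N, top (n0 + q ^ L * h)) - N * ∏ t ∈ range Rr, μ (L + t)| ≤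
      ((((2 * H + 1) ^ k : ℕ) : ℝ) * A) ^ Rr / (2 * ξ) := by
    intro n0
    have h3 := htop k q H J c L Rr N n0 ξ A hq hξ hA (fun i a => (hM i).cf a) hT
    have h4 : (∑ h ∈ range N, ∏ t ∈ range Rr,
        tp H (c (L + t)) (pt q J (L + t) (n0 + q ^ L * h))) - N * ∏ t ∈ range Rr, c (L + t) 0 =
        (((∑ h ∈ range N, top (n0 + q ^ L * h)) - N * ∏ t ∈ range Rr, μ (L + t) : ℝ) : ℂ) := by
      push_cast
      congr 1
      · refine Finset.sum_congr rfl fun h _ => ?_
        rw [htp, Complex.ofReal_prod]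
        exact Finset.prod_congr rfl fun t _ => (hM _).tp_eq _
      · congr 1
        exact Finset.prod_congr rfl fun t _ => hμ _
    rw [h4, Complex.norm_real, Real.norm_eq_abs] at h3
    exact h3
  -- low factors are periodic
  have h3 : ∀ n0 h, low (n0 + q ^ L * h) = low n0 := by
    intro n0 h
    rw [hlow]
    refine Finset.prod_congr rfl fun i hi => ?_
    have hi' := mem_range.1 hi
    have e : q ^ L * h = q ^ (i + 1) * (q ^ (L - (i + 1)) * h) := by
      rw [← mul_assoc, ← pow_add]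
      congr 2
      omega
    rw [e, tp_pt_add q H hq]
  have h4 : ∑ n ∈ range (q ^ L * N), ∏ i ∈ range (L + Rr), (tp H (c i) (pt q J i n)).re =
      ∑ n0 ∈ range (q ^ L), low n0 * ∑ h ∈ range N, top (n0 + q ^ L * h) := by
    rw [sum_blocks]
    refine Finset.sum_congr rfl fun n0 _ => ?_
    rw [Finset.mul_sum]
    refine Finset.sum_congr rfl fun h _ => ?_
    rw [Finset.prod_range_add, ← h3 n0 h]
  have h5 : (q : ℝ) ^ L * N * ∏ i ∈ range (L + Rr), μ i =
      ∑ n0 ∈ range (q ^ L), low n0 * (N * ∏ t ∈ range Rr, μ (L + t)) := by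
    rw [← Finset.sum_mul, h1, Finset.prod_range_add]
    ring
  rw [h4, h5, ← Finset.sum_sub_distrib]
  calc |∑ n0 ∈ range (q ^ L), (low n0 * ∑ h ∈ range N, top (n0 + q ^ L * h) -
        low n0 * (N * ∏ t ∈ range Rr, μ (L + t)))|
      ≤ ∑ n0 ∈ range (q ^ L), |low n0 * ∑ h ∈ range N, top (n0 + q ^ L * h) -
        low n0 * (N * ∏ t ∈ range Rr, μ (L + t))| := Finset.abs_sum_le_sum_abs _ _
    _ ≤ ∑ n0 ∈ range (q ^ L), low n0 * (((((2 * H + 1) ^ k : ℕ) : ℝ) * A) ^ Rr / (2 * ξ)) := by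
        refine Finset.sum_le_sum fun n0 _ => ?_
        rw [← mul_sub, abs_mul, abs_of_nonneg (hlow0 n0)]
        exact mul_le_mul_of_nonneg_left (h2 n0) (hlow0 n0)
    _ = (q : ℝ) ^ L * (∏ i ∈ range L, μ i) *
          (((((2 * H + 1) ^ k : ℕ) : ℝ) * A) ^ Rr / (2 * ξ)) := by
        rw [← Finset.sum_mul, h1]

end ESAs
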