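import Pool.Agent.ESAs.Stmts

open Finset

namespace ESAs

namespace Crude

lemma card_inst (s : Finset ℕ) (p : ℕ → Prop) (i1 i2 : DecidablePred p) :
    (@Finset.filter ℕ p i1 s).card = (@Finset.filter ℕ p i2 s).card := by
  rw [Subsingleton.elim i1 i2]

/-- the sum of the fractional parts -/
noncomputable def XX (q s L n : ℕ) : ℝ :=
  ∑ i ∈ range L, ((s * n % q ^ (i + 1) : ℕ) : ℝ) / (q : ℝ) ^ (i + 1)

lemma dsum_mod {q : ℕ} (L u : ℕ) : dsum q L (u % q ^ L) = dsum q L u := by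
  unfold dsum
  refine sum_congr rfl fun i hi => ?_
  rw [mem_range] at hi
  have h1 : q ^ L = q ^ i * q ^ (L - i) := by rw [← pow_add]; congr 1; omega
  rw [h1, Nat.mod_mul_right_div_self]
  exact Nat.mod_mod_of_dvd _ (dvd_pow_self q (by omega))

lemma XX_mul {q : ℕ} (hq : 0 < q) (v s L n : ℕ) (hv : v ≤ L) :
    XX q (q ^ v * s) L n = XX q s (L - v) n := by
  have hq0 : (q : ℝ) ≠ 0 := by exact_mod_cast hq.ne'
  obtain ⟨K, rfl⟩ : ∃ K, L = v + K := ⟨L - v, by omega⟩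
  have e : v + K - v = K := by omega
  rw [e]
  unfold XX
  rw [sum_range_add]
  have h1 : ∑ i ∈ range v, ((q ^ v * s * n % q ^ (i + 1) : ℕ) : ℝ) / (q : ℝ) ^ (i + 1) = 0 := by
    apply sum_eq_zero
    intro i hi
    rw [mem_range] at hi
    have h2 : q ^ v * s * n % q ^ (i + 1) = 0 := by
      apply Nat.mod_eq_zero_of_dvd
      rw [mul_assoc]
      exact Dvd.dvd.mul_right (pow_dvd_pow q (by omega)) _
    rw [h2]; simp
  rw [h1, zero_add]
  refine sum_congr rfl fun i _ => ?_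
  have h3 : q ^ v * s * n % q ^ (v + i + 1) = q ^ v * (s * n % q ^ (i + 1)) := by
    have h4 : q ^ (v + i + 1) = q ^ v * q ^ (i + 1) := by rw [add_assoc, pow_add]
    rw [h4, mul_assoc, Nat.mul_mod_mul_left]
  rw [h3]
  have h5 : (q : ℝ) ^ (v + i + 1) = (q : ℝ) ^ v * (q : ℝ) ^ (i + 1) := by
    rw [add_assoc, pow_add]
  rw [h5]
  push_cast
  rw [mul_div_mul_left _ _ (pow_ne_zero v hq0)]

lemma XX_eq (hdigf : St_digf) {q : ℕ} (hq : 2 ≤ q) (s L n : ℕ) :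
    ((q : ℝ) - 1) * XX q s L n ≤ dsum q L ((s * n) % q ^ L) ∧
      (dsum q L ((s * n) % q ^ L) : ℝ) ≤ ((q : ℝ) - 1) * XX q s L n + 1 := by
  have h1 : (0 : ℝ) < (q : ℝ) - 1 := by
    have : (2 : ℝ) ≤ q := by exact_mod_cast hq
    linarith
  have hQ : 0 < q ^ L := by positivity
  have hQ' : (0 : ℝ) < (q : ℝ) ^ L := by positivity
  have h2 := hdigf q L (s * n) hq
  have h3 : XX q s L n = ((dsum q L (s * n) : ℝ) - ((s * n % q ^ L : ℕ) : ℝ) / (q : ℝ) ^ L) /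
      ((q : ℝ) - 1) := h2
  have h4 : ((q : ℝ) - 1) * XX q s L n =
      (dsum q L (s * n) : ℝ) - ((s * n % q ^ L : ℕ) : ℝ) / (q : ℝ) ^ L := by
    rw [h3]; field_simp
  have h5 : 0 ≤ ((s * n % q ^ L : ℕ) : ℝ) / (q : ℝ) ^ L := by positivity
  have h6 : ((s * n % q ^ L : ℕ) : ℝ) / (q : ℝ) ^ L ≤ 1 := by
    rw [div_le_one hQ']
    exact_mod_cast (Nat.mod_lt _ hQ).le
  rw [dsum_mod]
  constructor <;> linarith

lemma exp_bd {L v : ℕ} (hv : 20 * v ≤ L) :
    Real.exp (-(2 * (3 / 25 : ℝ) ^ 2 * ((L - v : ℕ) : ℝ))) ≤ Real.exp (-((L : ℝ) / 100)) := by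
  rw [Real.exp_le_exp]
  have h1 : ((L - v : ℕ) : ℝ) = (L : ℝ) - v := by rw [Nat.cast_sub (by omega)]
  have h2 : 20 * (v : ℝ) ≤ L := by exact_mod_cast hv
  rw [h1]
  norm_num
  linarith

lemma tails (hhoef : St_hoef) (hdigf : St_digf) (hunif : St_unif) {q s L σ : ℕ} (hq : q.Prime)
    (hs : ¬ q ^ (σ + 1) ∣ s) (hσ : 20 * (σ + 1) ≤ L) (hL : 400 ≤ L) [DecidablePred fun n =>
      XX q s L n ≤ (7 / 20) * (L : ℝ)] [DecidablePred fun n => (13 / 20) * (L : ℝ) ≤ XX q s L n] :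
    (#{n ∈ range (q ^ L) | XX q s L n ≤ (7 / 20) * (L : ℝ)} : ℝ) ≤
      (q : ℝ) ^ L * Real.exp (-((L : ℝ) / 100)) ∧
    (#{n ∈ range (q ^ L) | (13 / 20) * (L : ℝ) ≤ XX q s L n} : ℝ) ≤
      (q : ℝ) ^ L * Real.exp (-((L : ℝ) / 100)) := by
  classical
  have hs0 : s ≠ 0 := by rintro rfl; exact hs (dvd_zero _)
  obtain ⟨v, s', hs', rfl⟩ := Nat.exists_eq_pow_mul_and_not_dvd hs0 q hq.ne_one
  have hv : v ≤ σ := by
    by_contra hcon
    exact hs (Dvd.dvd.mul_right (pow_dvd_pow q (by omega)) _)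
  have hvL : v ≤ L := by omega
  have h20 : 20 * v ≤ L := by omega
  have hq2 := hq.two_le
  have h1 : (1 : ℝ) ≤ (q : ℝ) - 1 := by
    have : (2 : ℝ) ≤ q := by exact_mod_cast hq2
    linarith
  have hLR : (400 : ℝ) ≤ L := by exact_mod_cast hL
  have h20R : 20 * (v : ℝ) ≤ L := by exact_mod_cast h20
  have hsub : ((L - v : ℕ) : ℝ) = (L : ℝ) - v := by rw [Nat.cast_sub hvL]
  have hpow : (q : ℝ) ^ v * (q : ℝ) ^ (L - v) = (q : ℝ) ^ L := by
    rw [← pow_add]; congr 1; omega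
  obtain ⟨hup, hlo⟩ := hhoef q (L - v) (3 / 25) hq2 (by norm_num)
  have key : ∀ (F : ℕ → Prop) (G : ℕ → Prop) [DecidablePred F] [DecidablePred G],
      (∀ n, F n → G ((s' * n) % q ^ (L - v))) →
      ((#{u ∈ range (q ^ (L - v)) | G u} : ℕ) : ℝ) ≤
        (q : ℝ) ^ (L - v) * Real.exp (-(2 * (3 / 25 : ℝ) ^ 2 * ((L - v : ℕ) : ℝ))) →
      ((#{n ∈ range (q ^ L) | F n} : ℕ) : ℝ) ≤ (q : ℝ) ^ L * Real.exp (-((L : ℝ) / 100)) := by
    intro F G _ _ hFG hG
    have h2 := hunif q L v s' G hq hs' hvL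
    have h3 : #{n ∈ range (q ^ L) | F n} ≤ #{n ∈ range (q ^ L) | G ((s' * n) % q ^ (L - v))} := by
      apply card_le_card
      intro n hn
      rw [mem_filter] at hn ⊢
      exact ⟨hn.1, hFG n hn.2⟩
    have h4 : #{n ∈ range (q ^ L) | G ((s' * n) % q ^ (L - v))} =
        q ^ v * #{u ∈ range (q ^ (L - v)) | G u} := by
      refine (card_inst _ _ _ _).trans (h2.trans ?_)
      exact congrArg (fun z => q ^ v * z) (card_inst _ _ _ _)
    calc ((#{n ∈ range (q ^ L) | F n} : ℕ) : ℝ)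
        ≤ ((q ^ v * #{u ∈ range (q ^ (L - v)) | G u} : ℕ) : ℝ) := by
          rw [← h4]; exact_mod_cast h3
      _ = (q : ℝ) ^ v * ((#{u ∈ range (q ^ (L - v)) | G u} : ℕ) : ℝ) := by push_cast; rfl
      _ ≤ (q : ℝ) ^ v * ((q : ℝ) ^ (L - v) *
            Real.exp (-(2 * (3 / 25 : ℝ) ^ 2 * ((L - v : ℕ) : ℝ)))) :=
          mul_le_mul_of_nonneg_left hG (by positivity)
      _ = (q : ℝ) ^ L * Real.exp (-(2 * (3 / 25 : ℝ) ^ 2 * ((L - v : ℕ) : ℝ))) := by
          rw [← mul_assoc, hpow]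
      _ ≤ _ := mul_le_mul_of_nonneg_left (exp_bd h20) (by positivity)
  constructor
  · apply key _ (fun u => (dsum q (L - v) u : ℝ) ≤
      ((q : ℝ) - 1) * ((1 / 2 - 3 / 25) * ((L - v : ℕ) : ℝ))) _ _
    · intro n hn
      rw [XX_mul hq.pos v s' L n hvL] at hn
      have h2 := (XX_eq hdigf hq2 s' (L - v) n).2
      refine h2.trans ?_
      rw [hsub]
      have h3 : XX q s' (L - v) n + 1 ≤ (1 / 2 - 3 / 25) * ((L : ℝ) - v) := by
        norm_num; linarith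
      nlinarith
    · refine le_trans (le_of_eq ?_) hlo
      exact congrArg (fun z : ℕ => (z : ℝ)) (card_inst _ _ _ _)
  · apply key _ (fun u => ((q : ℝ) - 1) * ((1 / 2 + 3 / 25) * ((L - v : ℕ) : ℝ)) ≤
      (dsum q (L - v) u : ℝ)) _ _
    · intro n hn
      rw [XX_mul hq.pos v s' L n hvL] at hn
      have h2 := (XX_eq hdigf hq2 s' (L - v) n).1
      refine le_trans ?_ h2
      rw [hsub]
      have h3 : (1 / 2 + 3 / 25) * ((L : ℝ) - v) ≤ XX q s' (L - v) n := by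
        have : (0 : ℝ) ≤ v := by positivity
        norm_num; linarith
      exact mul_le_mul_of_nonneg_left h3 (by linarith)
    · refine le_trans (le_of_eq ?_) hup
      exact congrArg (fun z : ℕ => (z : ℝ)) (card_inst _ _ _ _)

lemma level {Q a b c : ℕ} (hQ : 0 < Q) (h : a + b = c) :
    ((a % Q : ℕ) : ℝ) / Q + ((b % Q : ℕ) : ℝ) / Q - ((c % Q : ℕ) : ℝ) / Q =
      if Q ≤ a % Q + b % Q then 1 else 0 := by
  have hQ0 : (Q : ℝ) ≠ 0 := by exact_mod_cast hQ.ne'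
  have h1 : c % Q = (a % Q + b % Q) % Q := by rw [← h, Nat.add_mod]
  have ha := Nat.mod_lt a hQ
  have hb := Nat.mod_lt b hQ
  split_ifs with hc
  · have h2 : c % Q + Q = a % Q + b % Q := by
      rw [h1, Nat.mod_eq_sub_mod hc, Nat.mod_eq_of_lt (by omega)]
      omega
    have h3 : ((c % Q : ℕ) : ℝ) + Q = ((a % Q : ℕ) : ℝ) + ((b % Q : ℕ) : ℝ) := by
      exact_mod_cast h2
    field_simp
    linarith
  · have h2 : c % Q = a % Q + b % Q := by
      rw [h1, Nat.mod_eq_of_lt (by omega)]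
    rw [h2]
    push_cast
    ring

lemma carr_XX {q m j : ℕ} (hq : 0 < q) (hjm : j < m) (L n : ℕ) :
    (carr q m j L n : ℝ) = XX q j L n + XX q (m - j) L n - XX q m L n := by
  unfold carr XX
  rw [card_filter, ← sum_add_distrib, ← sum_sub_distrib]
  push_cast
  refine sum_congr rfl fun i _ => ?_
  have hQ : 0 < q ^ (i + 1) := by positivity
  have h1 : j * n + (m - j) * n = m * n := by
    rw [← add_mul]; congr 1; omega
  have h2 := level hQ h1
  push_cast at h2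
  rw [h2]

end Crude

theorem tCrude (hhoef : St_hoef) (hdigf : St_digf) (hunif : St_unif) : St_crude := by
  intro q m j L a σ hq hj0 hjm h1 h2 h3 hL1 hL2
  classical
  have hσ : 20 * (σ + 1) ≤ L := by omega
  have t1 := (Crude.tails hhoef hdigf hunif hq h1 hσ hL2).1
  have t2 := (Crude.tails hhoef hdigf hunif hq h2 hσ hL2).1
  have t3 := (Crude.tails hhoef hdigf hunif hq h3 hσ hL2).2
  have hsub : ({n ∈ range (q ^ L) | carr q m j L n ≤ a} : Finset ℕ) ⊆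
      {n ∈ range (q ^ L) | Crude.XX q j L n ≤ (7 / 20) * (L : ℝ)} ∪
      {n ∈ range (q ^ L) | Crude.XX q (m - j) L n ≤ (7 / 20) * (L : ℝ)} ∪
      {n ∈ range (q ^ L) | (13 / 20) * (L : ℝ) ≤ Crude.XX q m L n} := by
    intro n hn
    rw [mem_filter] at hn
    obtain ⟨hnr, hca⟩ := hn
    simp only [mem_union, mem_filter]
    by_contra hcon
    push Not at hcon
    obtain ⟨⟨c1, c2⟩, c3⟩ := hcon
    have d1 := c1 hnr
    have d2 := c2 hnr
    have d3 := c3 hnr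
    have e := Crude.carr_XX hq.pos hjm L n
    have f1 : (carr q m j L n : ℝ) ≤ a := by exact_mod_cast hca
    have f2 : 20 * ((σ : ℝ) + a + 1) ≤ L := by exact_mod_cast hL1
    have f3 : (0 : ℝ) ≤ σ := by positivity
    linarith
  have hcard := (card_le_card hsub).trans ((card_union_le _ _).trans
    (Nat.add_le_add_right (card_union_le _ _) _))
  have hcard' : ((#{n ∈ range (q ^ L) | carr q m j L n ≤ a} : ℕ) : ℝ) ≤
      (#{n ∈ range (q ^ L) | Crude.XX q j L n ≤ (7 / 20) * (L : ℝ)} : ℝ) +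
      (#{n ∈ range (q ^ L) | Crude.XX q (m - j) L n ≤ (7 / 20) * (L : ℝ)} : ℝ) +
      (#{n ∈ range (q ^ L) | (13 / 20) * (L : ℝ) ≤ Crude.XX q m L n} : ℝ) := by
    exact_mod_cast hcard
  have h5 : ((#{n ∈ range (q ^ L) | carr q m j L n ≤ a} : ℕ) : ℝ) ≤
      3 * (q : ℝ) ^ L * Real.exp (-((L : ℝ) / 100)) := by
    refine hcard'.trans ?_
    linarith
  refine le_trans (le_of_eq ?_) h5
  exact congrArg (fun z : ℕ => (z : ℝ)) (Crude.card_inst _ _ _ _)

end ESAs
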