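import Pool.Agent.ESAs.Stmts

open Finset

namespace ESAs

namespace DeepC

theorem card_box (k H : ℕ) : #(box k H) = (2 * H + 1) ^ k := by
  unfold box
  rw [Fintype.card_piFinset]
  simp only [Int.card_Icc, Finset.prod_const, Finset.card_univ, Fintype.card_fin]
  congr 1
  omega

theorem mem_box_abs {k H : ℕ} {a : Fin k → ℤ} (h : a ∈ box k H) (j : Fin k) : |a j| ≤ H := by
  unfold box at h
  rw [Fintype.mem_piFinset] at h
  have := h j
  rw [mem_Icc] at this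
  exact abs_le.2 this

theorem not_dvd_small {q H : ℕ} (hH : H < q) {a : ℤ} (ha : |a| ≤ H) (h : (q : ℤ) ∣ a) : a = 0 := by
  by_contra hne
  have h1 := Int.le_of_dvd (abs_pos.2 hne) ((dvd_abs _ _).2 h)
  have : (q : ℤ) ≤ H := h1.trans ha
  omega

theorem sum_split (q R : ℕ) (w : ℕ → Fin 2 → ℤ) (J M : ℕ) :
    ∑ t ∈ range (R + 1), ip (w t) ![J, M] * (q : ℤ) ^ t =
      (∑ t ∈ range (R + 1), w t 0 * (q : ℤ) ^ t) * J +
        (∑ t ∈ range (R + 1), w t 1 * (q : ℤ) ^ t) * M := by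
  rw [Finset.sum_mul, Finset.sum_mul, ← Finset.sum_add_distrib]
  refine Finset.sum_congr rfl fun t _ => ?_
  simp [ip, Fin.sum_univ_two]
  ring

theorem dvd_head {q R : ℕ} (c : ℕ → ℤ) (h : (q : ℤ) ∣ ∑ t ∈ range (R + 1), c t * (q : ℤ) ^ t) :
    (q : ℤ) ∣ c 0 := by
  rw [Finset.sum_range_succ'] at h
  have h1 : (q : ℤ) ∣ ∑ t ∈ range R, c (t + 1) * (q : ℤ) ^ (t + 1) := by
    refine Finset.dvd_sum fun t _ => ?_
    rw [pow_succ]
    exact Dvd.intro_left (c (t + 1) * (q : ℤ) ^ t) (by ring)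
  have h2 := (dvd_add_right h1).1 h
  simpa using h2

end DeepC

open DeepC in
theorem tDeepC : St_deep2 := by
  intro q H R M hq hH hM hMR
  classical
  have hq' : Prime (q : ℤ) := Nat.prime_iff_prime_int.1 hq
  set S := {J ∈ range M | Deep q H R ![J, M]} with hS
  have hd : ∀ J ∈ S, Deep q H R ![J, M] := fun J hJ => (mem_filter.1 hJ).2
  have hw : ∀ J : ℕ, ∃ w : ℕ → Fin 2 → ℤ, J ∈ S → ((∀ t, w t ∈ box 2 H) ∧ w 0 ≠ 0 ∧
      (q : ℤ) ^ (R + 1) ∣ ∑ t ∈ range (R + 1), ip (w t) ![J, M] * (q : ℤ) ^ t) := by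
    intro J
    by_cases hJ : J ∈ S
    · obtain ⟨w, hw⟩ := hd J hJ
      exact ⟨w, fun _ => hw⟩
    · exact ⟨0, fun h => absurd h hJ⟩
  choose w hw using hw
  let F : ℕ → (Fin (R + 1) → Fin 2 → ℤ) := fun J t => w J t
  have hmaps : ∀ J ∈ S, F J ∈ Fintype.piFinset fun _ : Fin (R + 1) => box 2 H := by
    intro J hJ
    rw [Fintype.mem_piFinset]
    exact fun t => (hw J hJ).1 t
  have hinj : Set.InjOn F S := by
    intro J hJ J' hJ' hFF
    have hJ1 : J ∈ S := hJ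
    have hJ2 : J' ∈ S := hJ'
    obtain ⟨h1, h2, h3⟩ := hw J hJ1
    obtain ⟨h1', h2', h3'⟩ := hw J' hJ2
    have heq : ∀ t < R + 1, w J' t = w J t := fun t ht => (congrFun hFF ⟨t, ht⟩).symm
    have h4 : (q : ℤ) ^ (R + 1) ∣ ∑ t ∈ range (R + 1), ip (w J t) ![J', M] * (q : ℤ) ^ t := by
      have : ∑ t ∈ range (R + 1), ip (w J t) ![J', M] * (q : ℤ) ^ t =
          ∑ t ∈ range (R + 1), ip (w J' t) ![J', M] * (q : ℤ) ^ t :=
        Finset.sum_congr rfl fun t ht => by rw [heq t (mem_range.1 ht)]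
      rw [this]
      exact h3'
    rw [sum_split] at h3 h4
    have h5 := dvd_sub h3 h4
    have h6 : (∑ t ∈ range (R + 1), w J t 0 * (q : ℤ) ^ t) * J +
        (∑ t ∈ range (R + 1), w J t 1 * (q : ℤ) ^ t) * M -
        ((∑ t ∈ range (R + 1), w J t 0 * (q : ℤ) ^ t) * J' +
        (∑ t ∈ range (R + 1), w J t 1 * (q : ℤ) ^ t) * M) =
        (∑ t ∈ range (R + 1), w J t 0 * (q : ℤ) ^ t) * ((J : ℤ) - J') := by ring
    rw [h6] at h5
    have h7 : ¬ (q : ℤ) ∣ ∑ t ∈ range (R + 1), w J t 0 * (q : ℤ) ^ t := by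
      intro h
      have h8 := dvd_head (fun t => w J t 0) h
      have h9 : w J 0 0 = 0 := not_dvd_small hH (mem_box_abs (h1 0) 0) h8
      -- then `q ∣ b M`
      have h10 : (q : ℤ) ∣ (∑ t ∈ range (R + 1), w J t 1 * (q : ℤ) ^ t) * M := by
        have h11 : (q : ℤ) ∣ (∑ t ∈ range (R + 1), w J t 0 * (q : ℤ) ^ t) * J +
            (∑ t ∈ range (R + 1), w J t 1 * (q : ℤ) ^ t) * M :=
          (dvd_pow_self _ (Nat.succ_ne_zero R)).trans h3
        exact (dvd_add_right (h.mul_right _)).1 h11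
      have h12 : ¬ (q : ℤ) ∣ (M : ℤ) := by
        intro h'
        exact hM (Int.natCast_dvd_natCast.1 h')
      have h13 : (q : ℤ) ∣ ∑ t ∈ range (R + 1), w J t 1 * (q : ℤ) ^ t :=
        (hq'.dvd_or_dvd h10).resolve_right h12
      have h14 := dvd_head (fun t => w J t 1) h13
      have h15 : w J 0 1 = 0 := not_dvd_small hH (mem_box_abs (h1 0) 1) h14
      apply h2
      funext j
      fin_cases j
      · exact h9
      · exact h15
    have h8 : IsCoprime ((q : ℤ) ^ (R + 1)) (∑ t ∈ range (R + 1), w J t 0 * (q : ℤ) ^ t) :=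
      IsCoprime.pow_left ((Prime.coprime_iff_not_dvd hq').2 h7)
    have h9 : (q : ℤ) ^ (R + 1) ∣ (J : ℤ) - J' := h8.dvd_of_dvd_mul_left h5
    have hJM := mem_range.1 (mem_filter.1 hJ1).1
    have hJM' := mem_range.1 (mem_filter.1 hJ2).1
    have h10 : |(J : ℤ) - J'| < (q : ℤ) ^ (R + 1) := by
      have : (M : ℤ) ≤ (q : ℤ) ^ (R + 1) := by exact_mod_cast hMR
      rw [abs_lt]
      constructor <;> omega
    have h11 := Int.eq_zero_of_abs_lt_dvd h9 h10
    omega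
  calc #S ≤ #(Fintype.piFinset fun _ : Fin (R + 1) => box 2 H) :=
        Finset.card_le_card_of_injOn F hmaps hinj
    _ = (2 * H + 1) ^ (2 * (R + 1)) := by
        rw [Fintype.card_piFinset]
        simp only [card_box, Finset.prod_const, Finset.card_univ, Fintype.card_fin]
        rw [← pow_mul]

end ESAs
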