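import Pool.Agent.ESGcd.Defs

/-!
# Definitions for the asymptotic description of the solutions of `f(n) = n / P(n)`
-/

namespace ESAs

open Finset

/-- the second largest prime factor `q` of `n` (with multiplicity): the largest prime factor of
`n / P(n)` -/
def secPrime (n : ℕ) : ℕ := ESGcd.maxPrime (n / ESGcd.maxPrime n)

/-- the cofactor `k = n / (P(n) q)` of the two largest prime factors of `n` -/
def cofac (n : ℕ) : ℕ := n / ESGcd.maxPrime n / secPrime n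

/-- the rule: `log q * log k ≤ log n` -/
def Rule (n : ℕ) : Prop :=
  Real.log (secPrime n) * Real.log (cofac n) ≤ Real.log n

/-- `e(θ) = exp(2 π i θ)` -/
noncomputable def ec (θ : ℝ) : ℂ := Complex.exp (2 * Real.pi * θ * Complex.I)

/-- distance to the nearest integer -/
noncomputable def dn (θ : ℝ) : ℝ := |θ - round θ|

/-- trigonometric polynomial in one variable, frequencies `≤ H` -/
noncomputable def t1 (H : ℕ) (c : ℤ → ℂ) (x : ℝ) : ℂ :=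
  ∑ k ∈ Icc (-(H : ℤ)) H, c k * ec (k * x)

/-- the box of frequencies -/
noncomputable def box (k H : ℕ) : Finset (Fin k → ℤ) := Fintype.piFinset fun _ => Icc (-(H : ℤ)) H

/-- trigonometric polynomial in `k` variables, frequencies in `box k H` -/
noncomputable def tp {k : ℕ} (H : ℕ) (c : (Fin k → ℤ) → ℂ) (t : Fin k → ℝ) : ℂ :=
  ∑ a ∈ box k H, c a * ec (∑ j, (a j : ℝ) * t j)

/-- the point `(J_j n / q^(i+1))_j` -/
noncomputable def pt {k : ℕ} (q : ℕ) (J : Fin k → ℕ) (i n : ℕ) : Fin k → ℝ :=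
  fun j => (J j : ℝ) * n / (q : ℝ) ^ (i + 1)

/-- `∑ a_j J_j` -/
def ip {k : ℕ} (a : Fin k → ℤ) (J : Fin k → ℕ) : ℤ := ∑ j, a j * (J j : ℤ)

/-- the twisted complete sum over `n mod q^L` of `∏_{i<L}` of trigonometric polynomials -/
noncomputable def lowS {k : ℕ} (q H : ℕ) (J : Fin k → ℕ) (c : ℕ → (Fin k → ℤ) → ℂ) (L : ℕ)
    (κ : ℤ) : ℂ :=
  ∑ n ∈ range (q ^ L), ec ((κ : ℝ) * n / (q : ℝ) ^ L) *
    ∏ i ∈ range L, tp H (c i) (pt q J i n)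

/-- `J` is deep: there is a `q`-adic relation with small digits of length `R + 1` -/
def Deep {k : ℕ} (q H R : ℕ) (J : Fin k → ℕ) : Prop :=
  ∃ w : ℕ → Fin k → ℤ, (∀ t, w t ∈ box k H) ∧ w 0 ≠ 0 ∧
    (q : ℤ) ^ (R + 1) ∣ ∑ t ∈ range (R + 1), ip (w t) J * (q : ℤ) ^ t

/-- the frequency of the top digits -/
noncomputable def tfr {k : ℕ} (q Rr : ℕ) (J : Fin k → ℕ) (w : ℕ → Fin k → ℤ) : ℝ :=
  ∑ t ∈ range Rr, (ip (w t) J : ℝ) / (q : ℝ) ^ (t + 1)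

/-- `J` is generic for the `Rr` top levels -/
def TopGen {k : ℕ} (q H Rr : ℕ) (ξ : ℝ) (J : Fin k → ℕ) : Prop :=
  ∀ w : ℕ → Fin k → ℤ, (∀ t, w t ∈ box k H) → (∃ t < Rr, w t ≠ 0) → ξ ≤ dn (tfr q Rr J w)

/-- `c` gives a real trigonometric polynomial `≥ g`, with mean `μ`, values and coefficients
bounded by `A` -/
structure Maj (k H : ℕ) (g : (Fin k → ℝ) → ℝ) (c : (Fin k → ℤ) → ℂ) (μ A : ℝ) : Prop where
  real : ∀ t, (tp H c t).im = 0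
  ge : ∀ t, g t ≤ (tp H c t).re
  mean : c 0 = (μ : ℂ)
  nonneg : 0 ≤ μ
  val : ∀ t, (tp H c t).re ≤ A
  cf : ∀ a, ‖c a‖ ≤ A

/-- `1(x ≤ y) / max(y, κ)` (fractional parts) -/
noncomputable def gG (κ : ℝ) (t : Fin 2 → ℝ) : ℝ :=
  if Int.fract (t 0) ≤ Int.fract (t 1) then 1 / max (Int.fract (t 1)) κ else 0

/-- `1(x ≤ y) 1(κ ≤ y) / y` -/
noncomputable def gF (κ : ℝ) (t : Fin 2 → ℝ) : ℝ :=
  if Int.fract (t 0) ≤ Int.fract (t 1) ∧ κ ≤ Int.fract (t 1) then 1 / Int.fract (t 1) else 0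

/-- `1(x ≤ y) 1(κ ≤ y) / y^(1+l)` -/
noncomputable def gL (κ l : ℝ) (t : Fin 2 → ℝ) : ℝ :=
  if Int.fract (t 0) ≤ Int.fract (t 1) ∧ κ ≤ Int.fract (t 1) then
    (1 / Int.fract (t 1)) ^ (1 + l) else 0

/-- `1(x ≤ y) 1(x' ≤ y) 1(κ ≤ y) / y^2` -/
noncomputable def gS (κ : ℝ) (t : Fin 3 → ℝ) : ℝ :=
  if Int.fract (t 0) ≤ Int.fract (t 2) ∧ Int.fract (t 1) ≤ Int.fract (t 2) ∧
    κ ≤ Int.fract (t 2) then (1 / Int.fract (t 2)) ^ 2 else 0

/-- digit sum of the `L` lowest digits in base `q` -/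
def dsum (q L u : ℕ) : ℕ := ∑ i ∈ range L, (u / q ^ i) % q

/-- the number of carries among the `L` lowest digits when `j n` and `(m - j) n` are added in
base `q` -/
def carr (q m j L n : ℕ) : ℕ :=
  #{i ∈ range L | q ^ (i + 1) ≤ (j * n) % q ^ (i + 1) + ((m - j) * n) % q ^ (i + 1)}

/-- digitwise domination on the `L` lowest digits: `J n ≤ M n` -/
def Dom (q J M L n : ℕ) : Prop := ∀ i < L, (J * n) % q ^ (i + 1) ≤ (M * n) % q ^ (i + 1)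

/-- degree of the trigonometric polynomials in the bad half -/
def HH (b : ℕ) : ℕ := b ^ 14

/-- the unit `u = b^(300 (Rr+1))` -/
def uu (b Rr : ℕ) : ℕ := b ^ (300 * (Rr + 1))

/-- the spacing `ξ = b^(100(Rr+1)) / ⌊X / q^L⌋` -/
noncomputable def xi (b q X L Rr : ℕ) : ℝ := (b : ℝ) ^ (100 * (Rr + 1)) / ((X / q ^ L : ℕ) : ℝ)

/-- the parameters of the bad half -/
structure Par (b q M N X L Rr : ℕ) (η : ℝ) : Prop where
  hq : q.Prime
  hb : 2 ≤ b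
  hη : 0 < η
  hη1 : η ≤ 1
  hRr : 1 ≤ Rr
  hRL : Rr ≤ L
  h1 : 2 * uu b Rr ^ 4 ≤ q
  h2 : q ^ (L + Rr) * uu b Rr ≤ N * X
  h3 : N * X * uu b Rr ≤ q ^ (L + Rr + 1)
  h4 : N ≤ M
  h4' : M ≤ 2 * uu b Rr ^ 2 * N
  h5 : (uu b Rr : ℝ) * Real.exp ((1 + η) * ((L : ℝ) + Rr)) ≤ N
  h6 : q * M ≤ q ^ Rr
  h7 : ¬ q ∣ M
  h8 : TopGen q (HH b) Rr (xi b q X L Rr) ![M]
  h9 : (L + Rr) ^ 2 ≤ b

end ESAs
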