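import Pool.Agent.ESAs.Stmts

open Finset

namespace ESAs

theorem tDep (hrec : St_rec) (hword : St_word) : St_dep := by
  intro k q H R J c L hq hRL hdeep
  induction L, hRL using Nat.le_induction with
  | base => simp
  | succ L hRL ih =>
    rw [hrec k q H J c L 0 hq]
    have hq0 : (q : ℤ) ≠ 0 := by exact_mod_cast hq.ne'
    have hz : ∀ a ∈ box k H, a ≠ 0 →
        (if (q : ℤ) ∣ ip a J + 0 then c L a * q * lowS q H J c L ((ip a J + 0) / q) else 0) = 0 := by
      intro a ha ha0
      by_contra hne
      split_ifs at hne with hd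
      · have hL : lowS q H J c L ((ip a J + 0) / q) ≠ 0 := right_ne_zero_of_mul hne
        obtain ⟨w, hw, hdw⟩ := hword k q H J c L _ hq hL
        apply hdeep
        obtain ⟨m, hm⟩ := hd
        rw [hm, Int.mul_ediv_cancel_left _ hq0] at hdw
        have e : ∑ t ∈ range (L + 1), ip ((fun t => Nat.casesOn t a w : ℕ → Fin k → ℤ) t) J * (q : ℤ) ^ t
            = (q : ℤ) * (m + ∑ t ∈ range L, ip (w t) J * (q : ℤ) ^ t) := by
          rw [sum_range_succ', mul_add, mul_sum, ← hm]
          have : ∀ t ∈ range L, ip (w t) J * (q : ℤ) ^ (t + 1)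
              = (q : ℤ) * (ip (w t) J * (q : ℤ) ^ t) := by
            intro t _; ring
          change ∑ t ∈ range L, ip (w t) J * (q : ℤ) ^ (t + 1) + ip a J * (q : ℤ) ^ 0 = _
          rw [sum_congr rfl this]
          ring
        have hd1 : (q : ℤ) ^ (L + 1) ∣
            ∑ t ∈ range (L + 1), ip ((fun t => Nat.casesOn t a w : ℕ → Fin k → ℤ) t) J * (q : ℤ) ^ t := by
          rw [e, pow_succ']
          exact mul_dvd_mul_left _ hdw
        refine ⟨fun t => Nat.casesOn t a w, ?_, ha0, ?_⟩
        · intro t
          cases t with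
          | zero => exact ha
          | succ t => exact hw t
        · have hd2 : (q : ℤ) ^ (R + 1) ∣
            ∑ t ∈ range (L + 1), ip ((fun t => Nat.casesOn t a w : ℕ → Fin k → ℤ) t) J * (q : ℤ) ^ t :=
            (pow_dvd_pow _ (by omega)).trans hd1
          have hs : L + 1 = (R + 1) + (L - R) := by omega
          rw [hs, sum_range_add] at hd2
          refine (dvd_add_left ?_).mp hd2
          refine dvd_sum fun t _ => ?_
          exact Dvd.dvd.mul_left (pow_dvd_pow _ (by omega)) _
      · exact hne rfl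
    rw [sum_eq_single_of_mem (0 : Fin k → ℤ) (zero_mem_box k H) hz]
    rw [ip_zero]
    simp only [add_zero, dvd_zero, if_true, Int.zero_ediv]
    rw [ih, prod_Ico_succ_top hRL, Nat.succ_sub hRL, pow_succ]
    ring

end ESAs
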