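import Pool.Agent.ESAs.Stmts

open Finset

namespace ESAs

theorem tDigf : St_digf := by
  intro q L u hq
  have hq0 : (0 : ℝ) < q := by exact_mod_cast (by omega : 0 < q)
  have hq1 : (0 : ℝ) < (q : ℝ) - 1 := by
    have : (2 : ℝ) ≤ q := by exact_mod_cast hq
    linarith
  induction L with
  | zero => simp [dsum, Nat.mod_one]
  | succ L ih =>
    have hd : (dsum q (L + 1) u : ℝ) = dsum q L u + ((u / q ^ L % q : ℕ) : ℝ) := by
      unfold dsum
      rw [sum_range_succ]
      push_cast
      ring
    have hm : ((u % q ^ (L + 1) : ℕ) : ℝ) =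
        ((u % q ^ L : ℕ) : ℝ) + (q : ℝ) ^ L * ((u / q ^ L % q : ℕ) : ℝ) := by
      have := Nat.mod_pow_succ (b := q) (k := L) (x := u)
      rw [this]; push_cast; ring
    rw [sum_range_succ, ih, hd, hm]
    have hp : (0 : ℝ) < (q : ℝ) ^ L := by positivity
    field_simp
    ring

end ESAs
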