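import Pool.Agent.ESAs.Stmts

open Finset

namespace ESAs

open scoped Classical

namespace ExcSum

lemma card_filter_exists_le {α ι : Type*} (S : Finset α) (I : Finset ι) (P : ι → α → Prop)
    {_ : DecidablePred (fun x => ∃ i ∈ I, P i x)} (B : ℝ) (h : ∀ i ∈ I, ((S.filter (P i)).card : ℝ) ≤ B) :
    ((S.filter (fun x => ∃ i ∈ I, P i x)).card : ℝ) ≤ I.card * B := by
  have h1 : S.filter (fun x => ∃ i ∈ I, P i x) ⊆ I.biUnion (fun i => S.filter (P i)) := by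
    intro x hx
    simp only [mem_filter, mem_biUnion] at hx ⊢
    obtain ⟨hx, i, hi, hp⟩ := hx
    exact ⟨i, hi, hx, hp⟩
  have h2 : ((S.filter (fun x => ∃ i ∈ I, P i x)).card : ℝ) ≤
      ∑ i ∈ I, ((S.filter (P i)).card : ℝ) := by
    have := (card_le_card h1).trans card_biUnion_le
    exact_mod_cast this
  refine h2.trans ?_
  rw [← nsmul_eq_mul]
  exact sum_le_card_nsmul _ _ _ h

lemma card_filter_le_of_not {α : Type*} (S : Finset α) (P : α → Prop) {_ : DecidablePred P}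
    {B : ℝ} (hB : 0 ≤ B) (h : ∀ x ∈ S, ¬ P x) : ((S.filter P).card : ℝ) ≤ B := by
  rw [filter_eq_empty_iff.2 (fun {x} hx => h x hx), card_empty]
  simpa using hB

lemma card_filter_le_of_imp {α : Type*} (S : Finset α) (P Q : α → Prop) {_ : DecidablePred P}
    {_ : DecidablePred Q} {B : ℝ} (hB : ((S.filter Q).card : ℝ) ≤ B) (h : ∀ x ∈ S, P x → Q x) :
    ((S.filter P).card : ℝ) ≤ B := by
  refine le_trans ?_ hB
  have : S.filter P ⊆ S.filter Q := by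
    intro x hx
    rw [mem_filter] at hx ⊢
    exact ⟨hx.1, h x hx.1 hx.2⟩
  exact_mod_cast card_le_card this

lemma dn_neg (θ : ℝ) : dn (-θ) = dn θ := by
  have key : ∀ x : ℝ, dn (-x) ≤ dn x := by
    intro x
    have := dn_le (-x) (-(round x))
    refine this.trans (le_of_eq ?_)
    unfold dn
    push_cast
    rw [show -x - -(round x : ℝ) = -(x - round x) by ring, abs_neg]
  apply le_antisymm (key θ)
  have := key (-θ)
  rwa [neg_neg] at this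

lemma cnt_bd (hcnt : St_cnt) (V c ξ D U : ℝ) (Y0 Y : ℕ) (hξ : 0 < ξ) (hD : 0 < D)
    (h1 : 1 / D ≤ |V|) (h2 : |V| ≤ U) :
    (#{M ∈ Ico Y0 (Y0 + Y) | dn (((M : ℕ) : ℝ) * V + c) < ξ} : ℝ) ≤
      2 * ξ * Y + U * Y + 4 * ξ * D + 2 := by
  have hV : 0 < |V| := lt_of_lt_of_le (by positivity) h1
  have hb : (#{M ∈ Ico Y0 (Y0 + Y) | dn (((M : ℕ) : ℝ) * V + c) < ξ} : ℝ) ≤
      (|V| * Y + 2) * (2 * ξ / |V| + 1) := by
    rcases lt_or_ge V 0 with hneg | hpos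
    · have := hcnt |V| (-c) ξ Y0 Y hV hξ
      have e : ∀ M : ℕ, dn ((M : ℝ) * V + c) = dn ((M : ℝ) * |V| + -c) := by
        intro M
        rw [abs_of_neg hneg, ← dn_neg]
        congr 1; ring
      simp_rw [e]
      exact this
    · have hV' : |V| = V := abs_of_nonneg hpos
      rw [hV'] at hV ⊢
      exact hcnt V c ξ Y0 Y hV hξ
  refine hb.trans ?_
  have hinv : 1 / |V| ≤ D := by
    rw [div_le_iff₀ hV]
    rw [div_le_iff₀ hD] at h1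
    linarith
  have e : (|V| * Y + 2) * (2 * ξ / |V| + 1) = 2 * ξ * Y + |V| * Y + 4 * ξ * (1 / |V|) + 2 := by
    field_simp
    ring
  rw [e]
  have hY : (0 : ℝ) ≤ Y := Nat.cast_nonneg _
  have := mul_le_mul_of_nonneg_right h2 hY
  have := mul_le_mul_of_nonneg_left hinv (by positivity : (0:ℝ) ≤ 4 * ξ)
  linarith

noncomputable def ext {k Rr : ℕ} (v : Fin Rr → Fin k → ℤ) : ℕ → Fin k → ℤ :=
  fun t => if h : t < Rr then v ⟨t, h⟩ else 0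

lemma ext_apply {k Rr : ℕ} (v : Fin Rr → Fin k → ℤ) {t : ℕ} (h : t < Rr) :
    ext v t = v ⟨t, h⟩ := by simp [ext, h]

noncomputable def Words (k H Rr : ℕ) : Finset (Fin Rr → Fin k → ℤ) :=
  Fintype.piFinset (fun _ => box k H)

lemma card_words (k H Rr : ℕ) : (Words k H Rr).card = ((2 * H + 1) ^ k) ^ Rr := by
  unfold Words
  rw [Fintype.card_piFinset]
  simp [card_box]

lemma ext_mem {k H Rr : ℕ} {v : Fin Rr → Fin k → ℤ} (hv : v ∈ Words k H Rr) (t : ℕ) :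
    ext v t ∈ box k H := by
  unfold ext
  split_ifs with h
  · exact (Fintype.mem_piFinset.1 hv) _
  · exact zero_mem_box k H

lemma tfr_ext {k : ℕ} (q Rr : ℕ) (J : Fin k → ℕ) (w : ℕ → Fin k → ℤ) :
    tfr q Rr J (ext (fun i : Fin Rr => w i)) = tfr q Rr J w := by
  unfold tfr
  refine sum_congr rfl fun t ht => ?_
  rw [ext_apply _ (mem_range.1 ht)]

lemma tfr_one (q Rr M : ℕ) (w : ℕ → Fin 1 → ℤ) :
    tfr q Rr ![M] w = (M : ℝ) * (∑ t ∈ range Rr, (w t 0 : ℝ) / (q : ℝ) ^ (t + 1)) := by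
  unfold tfr
  rw [mul_sum]
  refine sum_congr rfl fun t _ => ?_
  rw [ip_one]; push_cast; ring

lemma inner (hcnt : St_cnt) (hvb : St_vb) (q H Rr Y : ℕ) (ξ : ℝ) (hξ : 0 < ξ)
    (hHq : 2 * H + 2 ≤ q) (w : ℕ → Fin 1 → ℤ) (hw : ∀ t, w t ∈ box 1 H)
    (hne : ∃ t < Rr, w t ≠ 0) :
    (((Ico Y (Y + Y)).filter (fun M : ℕ => dn (tfr q Rr ![M] w) < ξ)).card : ℝ) ≤
      2 * ξ * Y + 2 * H / q * Y + 8 * ξ * (q : ℝ) ^ Rr + 2 := by
  have hq0 : (0 : ℝ) < q := by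
    have : 0 < q := by omega
    exact_mod_cast this
  have hw0 : ∀ t, |w t 0| ≤ (H : ℤ) := fun t => by
    have := mem_box.1 (hw t) 0
    exact abs_le.2 this
  have h0 : ∃ t < Rr, w t 0 ≠ 0 := by
    obtain ⟨t, ht, h⟩ := hne
    refine ⟨t, ht, fun hc => h ?_⟩
    funext j; fin_cases j; exact hc
  obtain ⟨h1, h2⟩ := hvb q H Rr (fun t => w t 0) hHq hw0 h0
  have key := cnt_bd hcnt (∑ t ∈ range Rr, (w t 0 : ℝ) / (q : ℝ) ^ (t + 1)) 0 ξ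
      (2 * (q : ℝ) ^ Rr) (2 * H / q) Y Y hξ (by positivity) h1 h2
  refine card_filter_le_of_imp _ _ _ (key.trans (le_of_eq (by ring))) (fun M _ h => ?_)
  rw [tfr_one] at h
  rw [add_zero]; exact h


lemma sum_biUnion_le {α ι : Type*} [DecidableEq α] (I : Finset ι) (t : ι → Finset α) (f : α → ℝ)
    (hf : ∀ x, 0 ≤ f x) : ∑ x ∈ I.biUnion t, f x ≤ ∑ i ∈ I, ∑ x ∈ t i, f x := by
  induction I using Finset.induction_on with
  | empty => simp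
  | insert a s ha ih =>
    rw [biUnion_insert, sum_insert ha]
    have h1 := sum_union_inter (s₁ := t a) (s₂ := s.biUnion t) (f := f)
    have h2 : 0 ≤ ∑ x ∈ t a ∩ s.biUnion t, f x := sum_nonneg fun x _ => hf x
    linarith

lemma per (b Rr : ℕ) (q H Y Y0 ρ ξ : ℝ) (hb' : 2 ≤ (b : ℝ)) (hRr : 1 ≤ Rr)
    (hρ : ρ = (b : ℝ) ^ (100 * (Rr + 1))) (hq0 : 0 < q) (hqR : 2 * (ρ ^ 3) ^ 4 ≤ q)
    (hHρ : 2 * H ≤ ρ) (hY0R : 0 < Y0) (hY0Y : Y0 ≤ Y) (hYq : Y ≤ q ^ Rr)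
    (hξ : ξ = 8 * Y * ρ / (ρ ^ 3 * q ^ Rr)) :
    (2 * ξ * Y + 2 * H / q * Y + 8 * ξ * q ^ Rr + 2) * (1 / Y) ≤
        1 / ρ * ((b : ℝ) ^ (4 * Rr)) + 2 / Y0 := by
  have hρ2 : 2 ≤ ρ := by
    calc (2 : ℝ) ≤ b := hb'
      _ ≤ ρ := by rw [hρ]; exact le_self_pow₀ (by linarith) (by omega)
  have hρ1 : 1 ≤ ρ := by linarith
  have hρ0 : 0 < ρ := by linarith
  have hYR : 0 < Y := by linarith
  have hqRr : 0 < q ^ Rr := by positivity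
  have e1 : (2 * ξ * Y + 2 * H / q * Y + 8 * ξ * q ^ Rr + 2) * (1 / Y) =
      2 * ξ + 2 * H / q + 8 * ξ * q ^ Rr / Y + 2 / Y := by
    field_simp
  have e2 : 8 * ξ * q ^ Rr / Y = 64 / ρ ^ 2 := by
    rw [hξ]; field_simp; ring
  have e3 : 2 * ξ ≤ 16 / ρ ^ 2 := by
    have h1 : 2 * ξ = 16 / ρ ^ 2 * (Y / q ^ Rr) := by
      rw [hξ]; field_simp; ring
    rw [h1]
    have h2 : Y / q ^ Rr ≤ 1 := by
      rw [div_le_one (by positivity)]; exact hYq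
    have h0 : 0 ≤ 16 / ρ ^ 2 := by positivity
    exact mul_le_of_le_one_right h0 h2
  have e4 : 2 * H / q ≤ 1 / ρ ^ 2 := by
    rw [div_le_div_iff₀ hq0 (by positivity)]
    have h5 : 2 * H * ρ ^ 2 ≤ ρ * ρ ^ 2 :=
      mul_le_mul_of_nonneg_right hHρ (by positivity)
    have h6 : ρ * ρ ^ 2 ≤ (ρ ^ 3) ^ 4 := by
      have : ρ * ρ ^ 2 = ρ ^ 3 := by ring
      rw [this]; exact le_self_pow₀ (one_le_pow₀ hρ1) (by norm_num)
    have : 0 < (ρ ^ 3) ^ 4 := by positivity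
    linarith
  have e5 : (2 : ℝ) / Y ≤ 2 / Y0 :=
    div_le_div_of_nonneg_left (by norm_num) hY0R hY0Y
  have e6 : 81 / ρ ^ 2 ≤ 1 / ρ * ((b : ℝ) ^ (4 * Rr)) := by
    have h7 : (81 : ℝ) ≤ ρ := by
      have : (2 : ℝ) ^ 7 ≤ ρ := by
        rw [hρ]
        calc (2 : ℝ) ^ 7 ≤ (b : ℝ) ^ 7 := pow_le_pow_left₀ (by norm_num) hb' 7
          _ ≤ _ := pow_le_pow_right₀ (by linarith) (by omega)
      linarith
    have h8 : (1 : ℝ) ≤ (b : ℝ) ^ (4 * Rr) := one_le_pow₀ (by linarith)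
    have h9 : 81 / ρ ^ 2 ≤ 1 / ρ := by
      rw [div_le_div_iff₀ (by positivity) hρ0]; nlinarith
    have h10 : 0 < 1 / ρ := by positivity
    have h11 : 1 / ρ * 1 ≤ 1 / ρ * ((b : ℝ) ^ (4 * Rr)) :=
      mul_le_mul_of_nonneg_left h8 h10.le
    linarith
  rw [e1, e2]
  have e7 : 16 / ρ ^ 2 + 1 / ρ ^ 2 + 64 / ρ ^ 2 = 81 / ρ ^ 2 := by ring
  linarith

lemma count (hcnt : St_cnt) (hvb : St_vb) (q b Rr Y0 Y1 Y : ℕ) (ρ ξ : ℝ)
    (hρ0 : 0 < ρ) (hu : ((uu b Rr : ℕ) : ℝ) = ρ ^ 3) (hρ : ρ = (b : ℝ) ^ (100 * (Rr + 1)))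
    (hq0 : (0 : ℝ) < q) (hHq : 2 * HH b + 2 ≤ q)
    (hξ : ξ = 8 * Y * ρ / (ρ ^ 3 * (q : ℝ) ^ Rr)) (hξ0 : 0 < ξ) :
    (((Icc Y0 Y1).filter (fun M => Exc q b Rr M ∧ Y ≤ M ∧ M < Y + Y)).card : ℝ) ≤
      ((2 * (HH b : ℝ) + 1) ^ Rr) *
        (2 * ξ * Y + 2 * HH b / q * Y + 8 * ξ * (q : ℝ) ^ Rr + 2) := by
  have h1 : (((Icc Y0 Y1).filter (fun M => Exc q b Rr M ∧ Y ≤ M ∧ M < Y + Y)).card : ℝ) ≤
      (((Ico Y (Y + Y)).filter (fun M : ℕ => ∃ v ∈ ExcSum.Words 1 (HH b) Rr,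
      ((∃ t < Rr, ExcSum.ext v t ≠ 0) ∧
        dn (tfr q Rr ![M] (ExcSum.ext v)) < ξ))).card : ℝ) := by
    have : (Icc Y0 Y1).filter (fun M => Exc q b Rr M ∧ Y ≤ M ∧ M < Y + Y) ⊆
        (Ico Y (Y + Y)).filter (fun M : ℕ => ∃ v ∈ ExcSum.Words 1 (HH b) Rr,
        ((∃ t < Rr, ExcSum.ext v t ≠ 0) ∧
        dn (tfr q Rr ![M] (ExcSum.ext v)) < ξ)) := by
      intro M hM
      rw [mem_filter] at hM ⊢
      obtain ⟨_, hE, hM1, hM2⟩ := hM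
      refine ⟨mem_Ico.2 ⟨hM1, hM2⟩, ?_⟩
      obtain ⟨w, hw, ⟨t, ht, hne⟩, hlt⟩ := hE
      refine ⟨fun i : Fin Rr => w i, Fintype.mem_piFinset.2 fun i => hw i,
        ⟨t, ht, ?_⟩, ?_⟩
      · rw [ExcSum.ext_apply _ ht]; exact hne
      · rw [ExcSum.tfr_ext]
        refine hlt.trans_le ?_
        rw [hξ, hu, ← hρ]
        have hM2' : (M : ℝ) ≤ 2 * Y := by
          have : M ≤ 2 * Y := by omega
          exact_mod_cast this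
        apply div_le_div_of_nonneg_right _ (by positivity)
        have := mul_le_mul_of_nonneg_right hM2' hρ0.le
        linarith
    exact_mod_cast card_le_card this
  refine h1.trans ?_
  refine le_trans (ExcSum.card_filter_exists_le (Ico Y (Y + Y)) (ExcSum.Words 1 (HH b) Rr)
    (fun v (M : ℕ) => ((∃ t < Rr, ExcSum.ext v t ≠ 0) ∧
      dn (tfr q Rr ![M] (ExcSum.ext v)) < ξ))
    (2 * ξ * Y + 2 * HH b / q * Y + 8 * ξ * (q : ℝ) ^ Rr + 2) (by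
      intro v hv
      by_cases hne : ∃ t < Rr, ExcSum.ext v t ≠ 0
      · have h3 := ExcSum.inner hcnt hvb q (HH b) Rr Y ξ hξ0 hHq (ExcSum.ext v)
          (ExcSum.ext_mem hv) hne
        exact ExcSum.card_filter_le_of_imp _ _ _ h3 (fun J _ hJ => hJ.2)
      · exact ExcSum.card_filter_le_of_not _ _ (by positivity) (fun J _ hc => hne hc.1)))
    (le_of_eq ?_)
  rw [ExcSum.card_words]; push_cast; ring

lemma block (hcnt : St_cnt) (hvb : St_vb) (q b Rr Y0 Y1 Y : ℕ) (ρ : ℝ) (hb' : 2 ≤ (b : ℝ))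
    (hRr : 1 ≤ Rr) (hρ : ρ = (b : ℝ) ^ (100 * (Rr + 1)))
    (hu : ((uu b Rr : ℕ) : ℝ) = ρ ^ 3) (hqR : 2 * (ρ ^ 3) ^ 4 ≤ (q : ℝ))
    (hH16 : 2 * (HH b : ℝ) + 1 ≤ (b : ℝ) ^ 16) (hHρ : 2 * (HH b : ℝ) ≤ ρ)
    (hHq : 2 * HH b + 2 ≤ q) (hY0 : 1 ≤ Y0) (hY0Y : Y0 ≤ Y) (hY1 : Y1 ≤ q ^ Rr) :
    ∑ M ∈ (Icc Y0 Y1).filter (fun M => Exc q b Rr M ∧ Y ≤ M ∧ M < Y + Y), (1 : ℝ) / M ≤
      (b : ℝ) ^ (20 * Rr) * (1 / ρ + 2 / Y0) := by
  have hρ2 : 2 ≤ ρ := by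
    calc (2 : ℝ) ≤ b := hb'
      _ ≤ ρ := by rw [hρ]; exact le_self_pow₀ (by linarith) (by omega)
  have hρ1 : 1 ≤ ρ := by linarith
  have hρ0 : 0 < ρ := by linarith
  have hq0 : (0 : ℝ) < q := lt_of_lt_of_le (by positivity) hqR
  have hYpos : 0 < Y := by omega
  have hYR : (0 : ℝ) < Y := by exact_mod_cast hYpos
  have hY0R : (0 : ℝ) < Y0 := by exact_mod_cast hY0
  have hrhs : 0 ≤ (b : ℝ) ^ (20 * Rr) * (1 / ρ + 2 / Y0) := by positivity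
  rcases Nat.lt_or_ge Y1 Y with hlt | hge
  · rw [filter_eq_empty_iff.2, sum_empty]
    · exact hrhs
    · intro M hM hc
      have := (mem_Icc.1 hM).2
      have := hc.2.1
      omega
  have hYq : (Y : ℝ) ≤ (q : ℝ) ^ Rr := by exact_mod_cast hge.trans hY1
  obtain ⟨ξ, hξ⟩ : ∃ ξ : ℝ, ξ = 8 * Y * ρ / (ρ ^ 3 * (q : ℝ) ^ Rr) := ⟨_, rfl⟩
  have hξ0 : 0 < ξ := by rw [hξ]; positivity
  have hcount := count hcnt hvb q b Rr Y0 Y1 Y ρ ξ hρ0 hu hρ hq0 hHq hξ hξ0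
  have hsum : ∑ M ∈ (Icc Y0 Y1).filter (fun M => Exc q b Rr M ∧ Y ≤ M ∧ M < Y + Y),
      (1 : ℝ) / M ≤
      (((Icc Y0 Y1).filter (fun M => Exc q b Rr M ∧ Y ≤ M ∧ M < Y + Y)).card : ℝ) *
        (1 / Y) := by
    rw [← nsmul_eq_mul]
    apply sum_le_card_nsmul
    intro M hM
    have h1 := (mem_filter.1 hM).2.2.1
    exact one_div_le_one_div_of_le hYR (by exact_mod_cast h1)
  refine hsum.trans ?_
  have h2 := mul_le_mul_of_nonneg_right hcount (by positivity : (0 : ℝ) ≤ 1 / Y)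
  refine h2.trans ?_
  have hw16 : (2 * (HH b : ℝ) + 1) ^ Rr ≤ (b : ℝ) ^ (16 * Rr) := by
    rw [pow_mul]; exact pow_le_pow_left₀ (by positivity) hH16 Rr
  have hb420 : (b : ℝ) ^ (16 * Rr) ≤ (b : ℝ) ^ (20 * Rr) :=
    pow_le_pow_right₀ (by linarith) (by omega)
  have hper := per b Rr q (HH b) Y Y0 ρ ξ hb' hRr hρ hq0 hqR hHρ hY0R
    (by exact_mod_cast hY0Y) hYq hξ
  calc (2 * (HH b : ℝ) + 1) ^ Rr *
        (2 * ξ * Y + 2 * HH b / q * Y + 8 * ξ * (q : ℝ) ^ Rr + 2) * (1 / Y)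
      = (2 * (HH b : ℝ) + 1) ^ Rr *
        ((2 * ξ * Y + 2 * HH b / q * Y + 8 * ξ * (q : ℝ) ^ Rr + 2) * (1 / Y)) := by ring
    _ ≤ (b : ℝ) ^ (16 * Rr) * (1 / ρ * ((b : ℝ) ^ (4 * Rr)) + 2 / Y0) :=
        mul_le_mul hw16 hper (by positivity) (by positivity)
    _ = (b : ℝ) ^ (20 * Rr) * (1 / ρ) + (b : ℝ) ^ (16 * Rr) * (2 / Y0) := by
        have : (b : ℝ) ^ (20 * Rr) = (b : ℝ) ^ (16 * Rr) * (b : ℝ) ^ (4 * Rr) := by
          rw [← pow_add]; congr 1; ring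
        rw [this]; ring
    _ ≤ (b : ℝ) ^ (20 * Rr) * (1 / ρ) + (b : ℝ) ^ (20 * Rr) * (2 / Y0) := by
        have := mul_le_mul_of_nonneg_right hb420 (by positivity : (0 : ℝ) ≤ 2 / Y0)
        linarith
    _ = _ := by ring

lemma cover (q b Rr Y0 Y1 : ℕ) (hY0 : 1 ≤ Y0) : (Icc Y0 Y1).filter (fun M => Exc q b Rr M) ⊆
      (range (Nat.log 2 Y1 + 1)).biUnion (fun i => (Icc Y0 Y1).filter (fun M => Exc q b Rr M ∧
      2 ^ i * Y0 ≤ M ∧ M < 2 ^ i * Y0 + 2 ^ i * Y0)) := by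
  intro M hM
  rw [mem_filter, mem_Icc] at hM
  obtain ⟨⟨hM0, hM1⟩, hE⟩ := hM
  rw [mem_biUnion]
  have hdiv : M / Y0 ≠ 0 := by
    have := Nat.div_pos hM0 (by omega)
    omega
  refine ⟨Nat.log 2 (M / Y0), ?_, ?_⟩
  · rw [mem_range]
    have : Nat.log 2 (M / Y0) ≤ Nat.log 2 Y1 :=
      Nat.log_mono_right ((Nat.div_le_self _ _).trans hM1)
    omega
  · rw [mem_filter, mem_Icc]
    refine ⟨⟨hM0, hM1⟩, hE, ?_, ?_⟩
    · have h1 := Nat.pow_log_le_self 2 hdiv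
      calc 2 ^ Nat.log 2 (M / Y0) * Y0 ≤ M / Y0 * Y0 := Nat.mul_le_mul_right _ h1
        _ ≤ M := Nat.div_mul_le_self _ _
    · have h1 := Nat.lt_pow_succ_log_self (b := 2) (by norm_num) (M / Y0)
      have h2 : M < 2 ^ (Nat.log 2 (M / Y0) + 1) * Y0 :=
        (Nat.div_lt_iff_lt_mul (by omega)).1 h1
      calc M < 2 ^ (Nat.log 2 (M / Y0) + 1) * Y0 := h2
        _ = _ := by rw [pow_succ]; ring

end ExcSum

theorem tExcSum (hcnt : St_cnt) (hvb : St_vb) : St_ExcSum := by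
  intro q b Rr Y0 Y1 hb hRr hq hY0 hY01 hY1
  have hb' : (2 : ℝ) ≤ b := by exact_mod_cast hb
  obtain ⟨ρ, hρ⟩ : ∃ ρ : ℝ, ρ = (b : ℝ) ^ (100 * (Rr + 1)) := ⟨_, rfl⟩
  have hu : ((uu b Rr : ℕ) : ℝ) = ρ ^ 3 := by
    simp only [uu, hρ]; push_cast; rw [← pow_mul]; congr 1; ring
  have hρ2 : 2 ≤ ρ := by
    calc (2 : ℝ) ≤ b := hb'
      _ ≤ ρ := by rw [hρ]; exact le_self_pow₀ (by linarith) (by omega)
  have hρ1 : 1 ≤ ρ := by linarith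
  have hqR : 2 * (ρ ^ 3) ^ 4 ≤ (q : ℝ) := by
    rw [← hu]; exact_mod_cast hq
  have hH16 : 2 * (HH b : ℝ) + 1 ≤ (b : ℝ) ^ 16 := by
    unfold HH; push_cast
    have h1 : (1 : ℝ) ≤ (b : ℝ) ^ 14 := one_le_pow₀ (by linarith)
    have h2 : (b : ℝ) ^ 16 = (b : ℝ) ^ 14 * (b : ℝ) ^ 2 := by ring
    have h3 : (4 : ℝ) ≤ (b : ℝ) ^ 2 := by nlinarith
    rw [h2]; nlinarith
  have hHρ : 2 * (HH b : ℝ) ≤ ρ := by
    have : (b : ℝ) ^ 16 ≤ ρ := by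
      rw [hρ]; exact pow_le_pow_right₀ (by linarith) (by omega)
    linarith
  have hHq : 2 * HH b + 2 ≤ q := by
    have h1 : (2 : ℝ) * HH b + 2 ≤ q := by
      have h2 : ρ ≤ (ρ ^ 3) ^ 4 := by rw [← pow_mul]; exact le_self_pow₀ hρ1 (by norm_num)
      linarith
    exact_mod_cast h1
  have hcover := ExcSum.cover q b Rr Y0 Y1 hY0
  have h1 : ∑ M ∈ (Icc Y0 Y1).filter (fun M => Exc q b Rr M), (1 : ℝ) / M ≤ _ :=
    sum_le_sum_of_subset_of_nonneg (f := fun M : ℕ => (1 : ℝ) / M) hcover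
    (fun M _ _ => by positivity)
  refine h1.trans ?_
  refine (ExcSum.sum_biUnion_le _ _ (fun M : ℕ => (1 : ℝ) / M)
    (fun M => by positivity)).trans ?_
  have h2 : ∀ i ∈ range (Nat.log 2 Y1 + 1),
      ∑ M ∈ (Icc Y0 Y1).filter (fun M => Exc q b Rr M ∧
        2 ^ i * Y0 ≤ M ∧ M < 2 ^ i * Y0 + 2 ^ i * Y0), (1 : ℝ) / M ≤
      (b : ℝ) ^ (20 * Rr) * (1 / ρ + 2 / Y0) := by
    intro i _
    exact ExcSum.block hcnt hvb q b Rr Y0 Y1 (2 ^ i * Y0) ρ hb' hRr hρ hu hqR hH16 hHρ hHq hY0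
      (Nat.le_mul_of_pos_left _ (by positivity)) hY1
  refine (sum_le_card_nsmul _ _ _ h2).trans (le_of_eq ?_)
  rw [card_range, nsmul_eq_mul, hρ]
  push_cast
  ring

end ESAs
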