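import Pool.Agent.ESAs.Stmts

open Finset

namespace ESAs

theorem tExcTop : St_ExcTop := by
  intro b q M X Rr hb hq hRr hM hqM hE L hL w hw hne
  have hu1 : 1 ≤ uu b Rr := Nat.one_le_pow _ _ (by omega)
  have hu0 : (0 : ℝ) < uu b Rr := by exact_mod_cast hu1
  have hq0 : (0 : ℝ) < q := by
    have : 0 < q := by omega
    exact_mod_cast this
  have hM0 : (0 : ℝ) < M := by exact_mod_cast hM
  have hb0 : (0 : ℝ) < b := by
    have : 0 < b := by omega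
    exact_mod_cast this
  have h1 : 4 * M * (b : ℝ) ^ (100 * (Rr + 1)) / (uu b Rr * (q : ℝ) ^ Rr) ≤ dn (tfr q Rr ![M] w) := by
    by_contra hc
    exact hE ⟨w, hw, hne, not_le.1 hc⟩
  refine le_trans ?_ h1
  -- `q ^ L ≤ X`
  have hXq : q ^ L ≤ X := by
    have h2 : q * (q ^ (L + Rr) * uu b Rr) ≤ q ^ Rr * X := by
      calc q * (q ^ (L + Rr) * uu b Rr) ≤ q * (M * X) := Nat.mul_le_mul_left _ hL
        _ = q * M * X := by ring
        _ ≤ q ^ Rr * X := Nat.mul_le_mul_right _ hqM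
    have h3 : q ^ Rr * (q * q ^ L * uu b Rr) ≤ q ^ Rr * X := by
      calc q ^ Rr * (q * q ^ L * uu b Rr) = q * (q ^ (L + Rr) * uu b Rr) := by rw [pow_add]; ring
        _ ≤ _ := h2
    have h4 : q * q ^ L * uu b Rr ≤ X := Nat.le_of_mul_le_mul_left h3 (by positivity)
    have h5 : q ^ L * 1 ≤ q * q ^ L * uu b Rr := by
      calc q ^ L * 1 ≤ (q ^ L * q) * 1 := by
            refine Nat.mul_le_mul_right _ ?_
            exact Nat.le_mul_of_pos_right _ (by omega)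
        _ ≤ (q ^ L * q) * uu b Rr := Nat.mul_le_mul_left _ hu1
        _ = _ := by ring
    omega
  have hqL : 0 < q ^ L := by positivity
  have hH1 : 1 ≤ X / q ^ L := (Nat.one_le_div_iff hqL).2 hXq
  have hH : (X : ℝ) ≤ 2 * (((X / q ^ L : ℕ) : ℝ) * (q : ℝ) ^ L) := by
    have h6 : X < (X / q ^ L + 1) * q ^ L := by
      have := Nat.lt_div_mul_add (a := X) hqL
      rw [add_mul, one_mul]; exact this
    have h7 : X ≤ 2 * ((X / q ^ L) * q ^ L) := by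
      have : (X / q ^ L + 1) * q ^ L ≤ (X / q ^ L + X / q ^ L) * q ^ L :=
        Nat.mul_le_mul_right _ (by omega)
      nlinarith
    exact_mod_cast h7
  have hH0 : (0 : ℝ) < ((X / q ^ L : ℕ) : ℝ) := by exact_mod_cast hH1
  have hL' : (q : ℝ) ^ (L + Rr) * uu b Rr ≤ M * X := by exact_mod_cast hL
  have hqL0 : (0 : ℝ) < (q : ℝ) ^ L := by positivity
  have hqR0 : (0 : ℝ) < (q : ℝ) ^ Rr := by positivity
  have h8 : (q : ℝ) ^ Rr * uu b Rr ≤ 2 * M * ((X / q ^ L : ℕ) : ℝ) := by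
    have h9 : (q : ℝ) ^ L * ((q : ℝ) ^ Rr * uu b Rr) ≤
        (q : ℝ) ^ L * (2 * M * ((X / q ^ L : ℕ) : ℝ)) := by
      calc (q : ℝ) ^ L * ((q : ℝ) ^ Rr * uu b Rr) = (q : ℝ) ^ (L + Rr) * uu b Rr := by
            rw [pow_add]; ring
        _ ≤ M * X := hL'
        _ ≤ M * (2 * (((X / q ^ L : ℕ) : ℝ) * (q : ℝ) ^ L)) :=
            mul_le_mul_of_nonneg_left hH hM0.le
        _ = _ := by ring
    exact le_of_mul_le_mul_left h9 hqL0
  unfold xi
  have hρ : (0 : ℝ) < (b : ℝ) ^ (100 * (Rr + 1)) := by positivity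
  rw [div_le_div_iff₀ hH0 (by positivity)]
  have h10 : (b : ℝ) ^ (100 * (Rr + 1)) * (uu b Rr * (q : ℝ) ^ Rr) ≤
      (b : ℝ) ^ (100 * (Rr + 1)) * (2 * M * ((X / q ^ L : ℕ) : ℝ)) := by
    refine mul_le_mul_of_nonneg_left ?_ hρ.le
    linarith [mul_comm (q : ℝ) ((uu b Rr : ℕ) : ℝ)]
  refine h10.trans ?_
  have h11 : (0 : ℝ) ≤ (b : ℝ) ^ (100 * (Rr + 1)) * (M * ((X / q ^ L : ℕ) : ℝ)) := by positivity
  nlinarith

end ESAs
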