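import Pool.Agent.ESAs.Stmts

open Finset

namespace ESAs

namespace FM

/-- the telescoping inequality for products -/
lemma prod_sub_le (n : ℕ) (a b : ℕ → ℝ) (ha : ∀ i, 0 ≤ a i) (hab : ∀ i, a i ≤ b i) :
    ∏ i ∈ range n, b i - ∏ i ∈ range n, a i ≤
      ∑ j ∈ range n, ∏ i ∈ range n, (if i = j then b i - a i else b i) := by
  induction n with
  | zero => simp
  | succ n ih =>
    have hb : ∀ i, 0 ≤ b i := fun i => (ha i).trans (hab i)
    rw [prod_range_succ, prod_range_succ, sum_range_succ]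
    have h1 : ∏ i ∈ range (n + 1), (if i = n then b i - a i else b i) =
        (∏ i ∈ range n, b i) * (b n - a n) := by
      rw [prod_range_succ, if_pos rfl]
      congr 1
      refine prod_congr rfl fun i hi => ?_
      rw [if_neg (by have := mem_range.1 hi; omega)]
    have h2 : ∀ j ∈ range n, ∏ i ∈ range (n + 1), (if i = j then b i - a i else b i) =
        (∏ i ∈ range n, (if i = j then b i - a i else b i)) * b n := by
      intro j hj
      rw [prod_range_succ, if_neg (by have := mem_range.1 hj; omega)]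
    rw [h1, sum_congr rfl h2, ← sum_mul]
    have h3 : 0 ≤ ∏ i ∈ range n, a i := prod_nonneg fun i _ => ha i
    have h4 : ∏ i ∈ range n, a i ≤ ∏ i ∈ range n, b i :=
      prod_le_prod (fun i _ => ha i) (fun i _ => hab i)
    have h5 := mul_le_mul_of_nonneg_right ih (hb n)
    have h6 : 0 ≤ (∏ i ∈ range n, b i - ∏ i ∈ range n, a i) * (b n - a n) :=
      mul_nonneg (sub_nonneg.2 h4) (sub_nonneg.2 (hab n))
    nlinarith

lemma pow_le_exp {C0 μ b : ℝ} (hb : 0 < b) (h0 : 0 ≤ μ) (h1 : μ ≤ 1 + C0 / b) (n : ℕ) :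
    μ ^ n ≤ Real.exp (C0 * n / b) := by
  have h2 : μ ≤ Real.exp (C0 / b) := h1.trans (by
    have := Real.add_one_le_exp (C0 / b)
    linarith)
  calc μ ^ n ≤ Real.exp (C0 / b) ^ n := pow_le_pow_left₀ h0 h2 n
    _ = Real.exp (C0 * n / b) := by
      rw [← Real.exp_nat_mul]
      congr 1
      ring

lemma exp_le_lin {x y : ℝ} (h0 : 0 ≤ x) (h1 : x ≤ y) : Real.exp x ≤ 1 + x * Real.exp y := by
  have h2 : Real.exp x * (1 - x) ≤ 1 := by
    have := Real.add_one_le_exp (-x)
    have h3 : Real.exp x * (1 - x) ≤ Real.exp x * Real.exp (-x) :=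
      mul_le_mul_of_nonneg_left (by linarith) (Real.exp_pos x).le
    rwa [← Real.exp_add, add_neg_cancel, Real.exp_zero] at h3
  have h3 : x * Real.exp x ≤ x * Real.exp y :=
    mul_le_mul_of_nonneg_left (Real.exp_le_exp.2 h1) h0
  nlinarith

end FM

open FM

theorem tFM (hbmaj : St_bmaj) (hcomb : St_comb) (hparF : St_parF) : St_FM := by
  obtain ⟨C0, hC0, hb⟩ := hbmaj
  have hE : 0 < Real.exp C0 := Real.exp_pos _
  refine ⟨C0 + Real.exp C0 * (C0 + 2), by positivity, ?_⟩
  intro b q M N X L Rr η hP J hD hT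
  obtain ⟨c, c', μ, μ', m1, μ1, μ2, m2, μ3⟩ := hb b hP.hb
  obtain ⟨p1, p2, p3, p4, p5, p6, p7, p8, p9, p10, p11, p12, p13⟩ := hparF b q M N X L Rr η hP
  have hq : 0 < q := hP.hq.pos
  have hb0 : (0 : ℝ) < b := by have := hP.hb; positivity
  have hb1 : (1 : ℝ) ≤ b := by have := hP.hb; exact_mod_cast (by omega : 1 ≤ b)
  set Hh := X / q ^ L with hHh
  set ξ := xi b q X L Rr with hξ
  set A : ℝ := (b : ℝ) ^ 20 with hA
  have hA0 : 0 ≤ A := by positivity
  have hΛb : ((L : ℝ) + Rr) ≤ b := by exact_mod_cast p13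
  have hΛ1 : (1 : ℝ) ≤ (L : ℝ) + Rr := by
    have := hP.hRr
    exact_mod_cast (by omega : 1 ≤ L + Rr)
  have hE1 : 1 ≤ Real.exp C0 := Real.one_le_exp hC0.le
  have hΛe : ((L + Rr : ℕ) : ℝ) = (L : ℝ) + Rr := by push_cast; ring
  -- the error of `comb`
  have herr : ((((2 * HH b + 1) ^ 2 : ℕ) : ℝ) * A) ^ Rr / (2 * ξ) ≤ (Hh : ℝ) / (b : ℝ) ^ 50 :=
    p12 2 (by norm_num)
  have hb50 : 1 / (b : ℝ) ^ 50 ≤ ((L : ℝ) + Rr) / b := by
    have h1 : (b : ℝ) ≤ (b : ℝ) ^ 50 := le_self_pow₀ hb1 (by norm_num)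
    calc 1 / (b : ℝ) ^ 50 ≤ 1 / b := one_div_le_one_div_of_le hb0 h1
      _ ≤ ((L : ℝ) + Rr) / b := by gcongr
  have hqH : 0 ≤ (q : ℝ) ^ L * (Hh : ℝ) := by positivity
  -- nonnegativity
  have gFn : ∀ t, 0 ≤ gF (1 / b) t := gF_nonneg _
  have Dn : ∀ t, 0 ≤ (tp (HH b) c t).re - gF (1 / b) t := fun t => sub_nonneg.2 (m1.ge t)
  have μ0 : 0 ≤ μ := m1.nonneg
  have μ'0 : 0 ≤ μ' := m2.nonneg
  -- first application
  have K1 := hcomb 2 q (HH b) ![J, M] (fun _ => gF (1 / b)) (fun _ => c) (fun _ => μ) L Rr Hh ξ A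
    hq p9 hA0 (fun _ => m1) (fun _ t => gFn t) hD hT
  simp only [prod_const, card_range] at K1
  have μL : μ ^ L ≤ Real.exp C0 := by
    refine (pow_le_exp hb0 μ0 μ2 L).trans (Real.exp_le_exp.2 ?_)
    have : (L : ℝ) ≤ b := by
      have : (0 : ℝ) ≤ Rr := Nat.cast_nonneg _
      linarith
    rw [div_le_iff₀ hb0]
    nlinarith
  have E1 : (q : ℝ) ^ L * μ ^ L * (((((2 * HH b + 1) ^ 2 : ℕ) : ℝ) * A) ^ Rr / (2 * ξ)) ≤
      (q : ℝ) ^ L * Hh * (Real.exp C0 * (((L : ℝ) + Rr) / b)) := by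
    calc (q : ℝ) ^ L * μ ^ L * (((((2 * HH b + 1) ^ 2 : ℕ) : ℝ) * A) ^ Rr / (2 * ξ))
        ≤ (q : ℝ) ^ L * μ ^ L * ((Hh : ℝ) / (b : ℝ) ^ 50) :=
          mul_le_mul_of_nonneg_left herr (by positivity)
      _ = (q : ℝ) ^ L * Hh * (μ ^ L * (1 / (b : ℝ) ^ 50)) := by ring
      _ ≤ (q : ℝ) ^ L * Hh * (Real.exp C0 * (((L : ℝ) + Rr) / b)) :=
          mul_le_mul_of_nonneg_left (mul_le_mul μL hb50 (by positivity) hE.le) hqH
  rw [abs_le] at K1
  obtain ⟨K1a, K1b⟩ := K1
  constructor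
  · -- lower bound
    have key : ∀ n, ∏ i ∈ range (L + Rr), (tp (HH b) c (pt q ![J, M] i n)).re -
        ∏ i ∈ range (L + Rr), gF (1 / b) (pt q ![J, M] i n) ≤
        ∑ j ∈ range (L + Rr), ∏ i ∈ range (L + Rr),
          (tp (HH b) (if i = j then c' else c) (pt q ![J, M] i n)).re := by
      intro n
      refine (prod_sub_le (L + Rr) (fun i => gF (1 / b) (pt q ![J, M] i n))
        (fun i => (tp (HH b) c (pt q ![J, M] i n)).re) (fun i => gFn _)
        (fun i => m1.ge _)).trans ?_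
      refine sum_le_sum fun j _ => ?_
      refine prod_le_prod ?_ ?_
      · intro i _
        split_ifs
        · exact Dn _
        · exact (gFn _).trans (m1.ge _)
      · intro i _
        split_ifs
        · exact m2.ge (pt q ![J, M] i n)
        · exact le_rfl
    have K2 : ∀ j ∈ range (L + Rr), ∑ n ∈ range (q ^ L * Hh), ∏ i ∈ range (L + Rr),
        (tp (HH b) (if i = j then c' else c) (pt q ![J, M] i n)).re ≤
        (q : ℝ) ^ L * Hh * (Real.exp C0 * (C0 + 1) / b) := by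
      intro j hj
      have hj' := mem_range.1 hj
      have K := hcomb 2 q (HH b) ![J, M]
        (fun i => if i = j then (fun t => (tp (HH b) c t).re - gF (1 / b) t) else gF (1 / b))
        (fun i => if i = j then c' else c) (fun i => if i = j then μ' else μ) L Rr Hh ξ A
        hq p9 hA0 (fun i => by
          by_cases h : i = j
          · simp only [h, if_true]; exact m2
          · simp only [h, if_false]; exact m1) (fun i t => by
          by_cases h : i = j
          · simp only [h, if_true]; exact Dn t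
          · simp only [h, if_false]; exact gFn t) hD hT
      rw [abs_le] at K
      have K3 := K.2
      have hμi : ∀ i, 0 ≤ (if i = j then μ' else μ) := fun i => by split_ifs <;> assumption
      have hμi1 : ∀ i, (if i = j then μ' else μ) ≤ 1 + C0 / b := fun i => by
        split_ifs
        · linarith
        · exact μ2
      have P1 : ∏ i ∈ range (L + Rr), (if i = j then μ' else μ) ≤ Real.exp C0 * (C0 / b) := by
        rw [← mul_prod_erase (range (L + Rr)) _ hj, if_pos rfl]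
        have h1 : ∏ i ∈ (range (L + Rr)).erase j, (if i = j then μ' else μ) = μ ^ (L + Rr - 1) := by
          rw [prod_congr rfl (g := fun _ => μ) (fun i hi => if_neg (ne_of_mem_erase hi)),
            prod_const, card_erase_of_mem hj, card_range]
        rw [h1, mul_comm]
        refine mul_le_mul ?_ μ3 μ'0 hE.le
        refine (pow_le_exp hb0 μ0 μ2 _).trans (Real.exp_le_exp.2 ?_)
        rw [div_le_iff₀ hb0]
        have h2 : ((L + Rr - 1 : ℕ) : ℝ) ≤ b := by
          have : ((L + Rr - 1 : ℕ) : ℝ) ≤ ((L + Rr : ℕ) : ℝ) := by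
            exact_mod_cast Nat.sub_le _ _
          linarith
        nlinarith
      have P2 : ∏ i ∈ range L, (if i = j then μ' else μ) ≤ Real.exp C0 := by
        calc ∏ i ∈ range L, (if i = j then μ' else μ) ≤ ∏ i ∈ range L, (1 + C0 / b) :=
              prod_le_prod (fun i _ => hμi i) (fun i _ => hμi1 i)
          _ = (1 + C0 / b) ^ L := by rw [prod_const, card_range]
          _ ≤ Real.exp (C0 * L / b) := pow_le_exp hb0 (by positivity) le_rfl L
          _ ≤ Real.exp C0 := Real.exp_le_exp.2 (by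
              have : (L : ℝ) ≤ b := by
                have : (0 : ℝ) ≤ Rr := Nat.cast_nonneg _
                linarith
              rw [div_le_iff₀ hb0]
              nlinarith)
      have P3 : 0 ≤ ∏ i ∈ range L, (if i = j then μ' else μ) := prod_nonneg fun i _ => hμi i
      have b50 : 1 / (b : ℝ) ^ 50 ≤ 1 / b :=
        one_div_le_one_div_of_le hb0 (le_self_pow₀ hb1 (by norm_num))
      have E2 : (q : ℝ) ^ L * (∏ i ∈ range L, (if i = j then μ' else μ)) *
          (((((2 * HH b + 1) ^ 2 : ℕ) : ℝ) * A) ^ Rr / (2 * ξ)) ≤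
          (q : ℝ) ^ L * Hh * (Real.exp C0 * (1 / b)) := by
        calc (q : ℝ) ^ L * (∏ i ∈ range L, (if i = j then μ' else μ)) *
            (((((2 * HH b + 1) ^ 2 : ℕ) : ℝ) * A) ^ Rr / (2 * ξ))
            ≤ (q : ℝ) ^ L * (∏ i ∈ range L, (if i = j then μ' else μ)) *
              ((Hh : ℝ) / (b : ℝ) ^ 50) :=
              mul_le_mul_of_nonneg_left herr (by positivity)
          _ = (q : ℝ) ^ L * Hh * ((∏ i ∈ range L, (if i = j then μ' else μ)) *
              (1 / (b : ℝ) ^ 50)) := by ring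
          _ ≤ (q : ℝ) ^ L * Hh * (Real.exp C0 * (1 / b)) :=
              mul_le_mul_of_nonneg_left (mul_le_mul P2 b50 (by positivity) hE.le) hqH
      have E3 := mul_le_mul_of_nonneg_left P1 hqH
      have K4 : ∑ n ∈ range (q ^ L * Hh), ∏ i ∈ range (L + Rr),
          (tp (HH b) (if i = j then c' else c) (pt q ![J, M] i n)).re ≤
          (q : ℝ) ^ L * Hh * (Real.exp C0 * (C0 / b)) +
            (q : ℝ) ^ L * Hh * (Real.exp C0 * (1 / b)) := by
        linarith
      refine K4.trans (le_of_eq ?_)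
      ring
    have S1 : ∑ n ∈ range (q ^ L * Hh), ∏ i ∈ range (L + Rr),
          (tp (HH b) c (pt q ![J, M] i n)).re -
        ∑ n ∈ range (q ^ L * Hh), ∏ i ∈ range (L + Rr), gF (1 / b) (pt q ![J, M] i n) ≤
        (q : ℝ) ^ L * Hh * (Real.exp C0 * (C0 + 1) * (((L : ℝ) + Rr) / b)) := by
      rw [← sum_sub_distrib]
      calc _ ≤ ∑ n ∈ range (q ^ L * Hh), ∑ j ∈ range (L + Rr), ∏ i ∈ range (L + Rr),
            (tp (HH b) (if i = j then c' else c) (pt q ![J, M] i n)).re :=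
            sum_le_sum fun n _ => key n
        _ = ∑ j ∈ range (L + Rr), ∑ n ∈ range (q ^ L * Hh), ∏ i ∈ range (L + Rr),
            (tp (HH b) (if i = j then c' else c) (pt q ![J, M] i n)).re := sum_comm
        _ ≤ ∑ j ∈ range (L + Rr), (q : ℝ) ^ L * Hh * (Real.exp C0 * (C0 + 1) / b) :=
            sum_le_sum K2
        _ = (q : ℝ) ^ L * Hh * (Real.exp C0 * (C0 + 1) * (((L : ℝ) + Rr) / b)) := by
            rw [sum_const, card_range, nsmul_eq_mul, hΛe]
            ring
    have μΛ : 1 - C0 * (((L : ℝ) + Rr) / b) ≤ μ ^ (L + Rr) := by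
      by_cases h : C0 ≤ b
      · have h1 : 0 ≤ 1 - C0 / b := by
          rw [sub_nonneg, div_le_one hb0]; exact h
        have h2 := one_add_mul_le_pow (a := -(C0 / b)) (by linarith) (L + Rr)
        calc 1 - C0 * (((L : ℝ) + Rr) / b) = 1 + ((L + Rr : ℕ) : ℝ) * -(C0 / b) := by
              rw [hΛe]; ring
          _ ≤ (1 + -(C0 / b)) ^ (L + Rr) := h2
          _ ≤ μ ^ (L + Rr) := pow_le_pow_left₀ (by linarith) (by linarith) _
      · have h1 : 0 ≤ μ ^ (L + Rr) := by positivity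
        have h2 : 1 ≤ C0 * (((L : ℝ) + Rr) / b) := by
          rw [mul_div_assoc', le_div_iff₀ hb0]
          have h3 : (b : ℝ) ≤ C0 := (not_le.1 h).le
          nlinarith
        linarith
    have h1 := mul_le_mul_of_nonneg_left μΛ hqH
    have h2 : (q : ℝ) ^ L * Hh * (1 - (C0 + Real.exp C0 * (C0 + 2)) * ((L : ℝ) + Rr) / b) =
        (q : ℝ) ^ L * Hh * (1 - C0 * (((L : ℝ) + Rr) / b)) -
        (q : ℝ) ^ L * Hh * (Real.exp C0 * (((L : ℝ) + Rr) / b)) -
        (q : ℝ) ^ L * Hh * (Real.exp C0 * (C0 + 1) * (((L : ℝ) + Rr) / b)) := by ring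
    rw [h2]
    linarith
  · -- upper bound
    have U1 : ∑ n ∈ range (q ^ L * Hh), ∏ i ∈ range (L + Rr), gF (1 / b) (pt q ![J, M] i n) ≤
        ∑ n ∈ range (q ^ L * Hh), ∏ i ∈ range (L + Rr), (tp (HH b) c (pt q ![J, M] i n)).re :=
      sum_le_sum fun n _ => prod_le_prod (fun i _ => gFn _) (fun i _ => m1.ge _)
    have μΛ : μ ^ (L + Rr) ≤ 1 + C0 * (((L : ℝ) + Rr) / b) * Real.exp C0 := by
      refine (pow_le_exp hb0 μ0 μ2 _).trans ?_
      have e : C0 * ((L + Rr : ℕ) : ℝ) / b = C0 * (((L : ℝ) + Rr) / b) := by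
        rw [hΛe]; ring
      rw [e]
      have h1 : ((L : ℝ) + Rr) / b ≤ 1 := (div_le_one hb0).2 hΛb
      have h0 : 0 ≤ ((L : ℝ) + Rr) / b := by positivity
      refine (exp_le_lin (y := C0) (by positivity) (by nlinarith))
    have h1 := mul_le_mul_of_nonneg_left μΛ hqH
    have h0 : 0 ≤ ((L : ℝ) + Rr) / b := by positivity
    have h3 : 0 ≤ (q : ℝ) ^ L * Hh * (C0 + Real.exp C0) * (((L : ℝ) + Rr) / b) := by positivity
    have h2 : (q : ℝ) ^ L * Hh * (1 + (C0 + Real.exp C0 * (C0 + 2)) * ((L : ℝ) + Rr) / b) =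
        (q : ℝ) ^ L * Hh * (1 + C0 * (((L : ℝ) + Rr) / b) * Real.exp C0) +
        (q : ℝ) ^ L * Hh * (Real.exp C0 * (((L : ℝ) + Rr) / b)) +
        (q : ℝ) ^ L * Hh * (C0 + Real.exp C0) * (((L : ℝ) + Rr) / b) := by ring
    rw [h2]
    linarith

end ESAs
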