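import Pool.Agent.ESAs.Stmts

open Finset

namespace ESAs

namespace Fej

open scoped ComplexConjugate

/-- trigonometric polynomials of degree at most `m` -/
def IsT (m : ℕ) (f : ℝ → ℂ) : Prop := ∃ c : ℤ → ℂ, ∀ x, f x = t1 m c x

lemma isT_ec (m : ℕ) (k : ℤ) (h1 : -(m : ℤ) ≤ k) (h2 : k ≤ m) :
    IsT m (fun x => ec (k * x)) := by
  refine ⟨fun l => if l = k then 1 else 0, fun x => ?_⟩
  unfold t1
  rw [Finset.sum_eq_single k]
  · simp
  · intro l _ hl; simp [hl]
  · intro h; exact absurd (mem_Icc.2 ⟨h1, h2⟩) h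

lemma isT_zero (m : ℕ) : IsT m (fun _ => 0) := ⟨fun _ => 0, fun x => by simp [t1]⟩

lemma IsT.add {m : ℕ} {f g : ℝ → ℂ} (hf : IsT m f) (hg : IsT m g) :
    IsT m (fun x => f x + g x) := by
  obtain ⟨c, hc⟩ := hf
  obtain ⟨d, hd⟩ := hg
  refine ⟨fun k => c k + d k, fun x => ?_⟩
  simp only [hc, hd, t1, add_mul, sum_add_distrib]

lemma IsT.smul {m : ℕ} {f : ℝ → ℂ} (a : ℂ) (hf : IsT m f) : IsT m (fun x => a * f x) := by
  obtain ⟨c, hc⟩ := hf
  refine ⟨fun k => a * c k, fun x => ?_⟩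
  simp only [hc, t1, mul_sum, mul_assoc]

lemma IsT.sum {ι : Type*} {m : ℕ} (s : Finset ι) (f : ι → ℝ → ℂ) (h : ∀ i ∈ s, IsT m (f i)) :
    IsT m (fun x => ∑ i ∈ s, f i x) := by
  classical
  induction s using Finset.induction_on with
  | empty => simpa using isT_zero m
  | insert a s ha ih =>
    have h1 := (h a (mem_insert_self a s)).add (ih fun i hi => h i (mem_insert_of_mem hi))
    simpa [sum_insert ha] using h1

lemma IsT.shift {m : ℕ} {f : ℝ → ℂ} (t : ℝ) (hf : IsT m f) : IsT m (fun x => f (x - t)) := by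
  obtain ⟨c, hc⟩ := hf
  refine ⟨fun k => c k * ec (-(k * t)), fun x => ?_⟩
  change f (x - t) = _
  rw [hc]
  unfold t1
  refine sum_congr rfl fun k _ => ?_
  have : (k : ℝ) * (x - t) = -(k * t) + k * x := by ring
  rw [this, ec_add]
  ring

lemma IsT.mul {m n : ℕ} {f g : ℝ → ℂ} (hf : IsT m f) (hg : IsT n g) :
    IsT (m + n) (fun x => f x * g x) := by
  obtain ⟨c, hc⟩ := hf
  obtain ⟨d, hd⟩ := hg
  have e : (fun x => f x * g x) = fun x => ∑ k ∈ Icc (-(m : ℤ)) m, ∑ l ∈ Icc (-(n : ℤ)) n,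
      (c k * d l) * ec (((k + l : ℤ) : ℝ) * x) := by
    funext x
    rw [hc, hd]
    unfold t1
    rw [sum_mul_sum]
    refine sum_congr rfl fun k _ => sum_congr rfl fun l _ => ?_
    have : (((k + l : ℤ) : ℝ) * x) = k * x + l * x := by push_cast; ring
    rw [this, ec_add]
    ring
  rw [e]
  refine IsT.sum _ _ fun k hk => IsT.sum _ _ fun l hl => IsT.smul _ (isT_ec _ _ ?_ ?_)
  · rw [mem_Icc] at hk hl
    push_cast
    linarith [hk.1, hl.1]
  · rw [mem_Icc] at hk hl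
    push_cast
    linarith [hk.2, hl.2]

lemma IsT.mono {m n : ℕ} {f : ℝ → ℂ} (hf : IsT m f) (h : m ≤ n) : IsT n f := by
  obtain ⟨c, hc⟩ := hf
  have e : f = fun x => ∑ k ∈ Icc (-(m : ℤ)) m, c k * ec (k * x) := by
    funext x; rw [hc]; rfl
  rw [e]
  refine IsT.sum _ _ fun k hk => IsT.smul _ (isT_ec _ _ ?_ ?_)
  · rw [mem_Icc] at hk
    have : (m : ℤ) ≤ n := by exact_mod_cast h
    linarith [hk.1]
  · rw [mem_Icc] at hk
    have : (m : ℤ) ≤ n := by exact_mod_cast h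
    linarith [hk.2]

/-- extraction of coefficients -/
lemma coef (H : ℕ) (c : ℤ → ℂ) (N : ℕ) (hN : 0 < N) (k : ℤ) (hk : k ∈ Icc (-(H : ℤ)) H)
    (hd : ∀ l ∈ Icc (-(H : ℤ)) H, (N : ℤ) ∣ l - k → l = k) (x : ℝ) :
    ∑ j ∈ range N, t1 H c (x + j / N) * ec (-(k * (x + j / N))) = N * c k := by
  have e : ∀ j ∈ range N, t1 H c (x + j / N) * ec (-(k * (x + j / N))) =
      ∑ l ∈ Icc (-(H : ℤ)) H, c l * ec ((l - k) * x) * ec (((l - k : ℤ) : ℝ) * j / N) := by
    intro j _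
    unfold t1
    rw [sum_mul]
    refine sum_congr rfl fun l _ => ?_
    rw [mul_assoc, ← ec_add, mul_assoc, ← ec_add]
    congr 2
    push_cast
    ring
  rw [sum_congr rfl e, sum_comm]
  have e2 : ∀ l ∈ Icc (-(H : ℤ)) H,
      ∑ j ∈ range N, c l * ec ((l - k) * x) * ec (((l - k : ℤ) : ℝ) * j / N) =
      if l = k then (N : ℂ) * c k else 0 := by
    intro l hl
    rw [← mul_sum, sum_ec_range N hN (l - k)]
    by_cases h : l = k
    · subst h
      simp [ec_zero]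
      ring
    · have : ¬ (N : ℤ) ∣ l - k := fun h' => h (hd l hl h')
      simp [h, this]
  rw [sum_congr rfl e2, sum_ite_eq' _ k, if_pos hk]

lemma IsT.nice {H : ℕ} {f : ℝ → ℂ} (hf : IsT H f) (M : ℝ) (hM : 0 ≤ M) (h : ∀ x, ‖f x‖ ≤ M) :
    ∃ c : ℤ → ℂ, (∀ x, t1 H c x = f x) ∧ ∀ k, ‖c k‖ ≤ M := by
  obtain ⟨c, hc⟩ := hf
  refine ⟨fun k => if k ∈ Icc (-(H : ℤ)) H then c k else 0, fun x => ?_, fun k => ?_⟩
  · rw [hc]
    unfold t1
    refine sum_congr rfl fun k hk => ?_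
    simp only [if_pos hk]
  · dsimp only
    split_ifs with hk
    · have h1 := coef H c (2 * H + 1) (by omega) k hk (by
        intro l hl h2
        rw [mem_Icc] at hk hl
        obtain ⟨u, hu⟩ := h2
        have h3 : u = 0 := by
          by_contra h0
          rcases lt_or_gt_of_ne h0 with h4 | h4
          · have : ((2 * H + 1 : ℕ) : ℤ) * u ≤ ((2 * H + 1 : ℕ) : ℤ) * (-1) := by
              apply mul_le_mul_of_nonneg_left (by omega) (by positivity)
            push_cast at this hu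
            linarith [hk.1, hk.2, hl.1, hl.2]
          · have : ((2 * H + 1 : ℕ) : ℤ) * 1 ≤ ((2 * H + 1 : ℕ) : ℤ) * u := by
              apply mul_le_mul_of_nonneg_left (by omega) (by positivity)
            push_cast at this hu
            linarith [hk.1, hk.2, hl.1, hl.2]
        rw [h3] at hu
        linarith) 0
      have h2 : ‖((2 * H + 1 : ℕ) : ℂ) * c k‖ ≤ ((2 * H + 1 : ℕ) : ℝ) * M := by
        rw [← h1]
        refine (norm_sum_le _ _).trans ?_
        have : ∀ j ∈ range (2 * H + 1), ‖t1 H c (0 + j / ((2 * H + 1 : ℕ) : ℝ)) *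
            ec (-(k * (0 + j / ((2 * H + 1 : ℕ) : ℝ))))‖ ≤ M := by
          intro j _
          rw [norm_mul, norm_ec, mul_one, ← hc]
          exact h _
        refine (sum_le_sum this).trans ?_
        simp
      rw [norm_mul, Complex.norm_natCast] at h2
      have h3 : (0 : ℝ) < ((2 * H + 1 : ℕ) : ℝ) := by positivity
      exact le_of_mul_le_mul_left h2 h3
    · simpa using hM

/-- the fourth power of the Dirichlet kernel -/
noncomputable def P (m : ℕ) (y : ℝ) : ℝ := ‖ESGcd.KK (m + 1) y‖ ^ 4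

lemma P_nonneg (m : ℕ) (y : ℝ) : 0 ≤ P m y := by unfold P; positivity

lemma P_neg (m : ℕ) (y : ℝ) : P m (-y) = P m y := by
  unfold P; rw [ESGcd.norm_KK_neg]

lemma KK_neg (N : ℕ) (θ : ℝ) : ESGcd.KK N (-θ) = conj (ESGcd.KK N θ) := by
  unfold ESGcd.KK
  rw [map_sum]
  refine sum_congr rfl fun n _ => ?_
  rw [ESGcd.conj_ee, mul_neg]

lemma isT_KK (m : ℕ) : IsT m (fun x => ESGcd.KK (m + 1) x) := by
  unfold ESGcd.KK
  refine IsT.sum _ _ fun a ha => ?_
  rw [mem_range] at ha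
  have := isT_ec m a (by omega) (by omega)
  simpa [ec_eq] using this

lemma isT_KK_neg (m : ℕ) : IsT m (fun x => ESGcd.KK (m + 1) (-x)) := by
  unfold ESGcd.KK
  refine IsT.sum _ _ fun a ha => ?_
  rw [mem_range] at ha
  have := isT_ec m (-(a : ℤ)) (by omega) (by omega)
  simpa [ec_eq] using this

lemma isT_P (m : ℕ) : IsT (4 * m) (fun x => (P m x : ℂ)) := by
  have h1 := ((isT_KK m).mul (isT_KK_neg m)).mul ((isT_KK m).mul (isT_KK_neg m))
  have e : 4 * m = m + m + (m + m) := by ring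
  rw [e]
  refine Eq.mp (congrArg _ ?_) h1
  funext x
  have h2 : ESGcd.KK (m + 1) x * ESGcd.KK (m + 1) (-x) =
      ((‖ESGcd.KK (m + 1) x‖ ^ 2 : ℝ) : ℂ) := by
    rw [KK_neg, Complex.mul_conj, Complex.normSq_eq_norm_sq]
  rw [h2, ← Complex.ofReal_mul]
  congr 1
  unfold P
  ring

lemma P_zero (m : ℕ) : P m 0 = ((m : ℝ) + 1) ^ 4 := by
  unfold P ESGcd.KK
  simp only [mul_zero, ESGcd.ee_zero, sum_const, card_range, nsmul_eq_mul, mul_one]
  rw [Complex.norm_natCast]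
  push_cast
  ring

lemma P_le (m : ℕ) (y : ℝ) (h : 0 < dn y) : P m y ≤ (1 / (2 * dn y)) ^ 4 := by
  unfold P
  have h1 := ESGcd.norm_KK_le_inv (m + 1) (θ := y) (ν := y - round y) (round y) (by ring)
    (by intro h0; unfold dn at h; rw [h0] at h; simp at h) (abs_sub_round y)
  exact pow_le_pow_left₀ (norm_nonneg _) h1 4

lemma mean_P (m N : ℕ) (h : 4 * m < N) : ∃ S : ℝ, (∀ x, ∑ j ∈ range N, P m (x + j / N) = N * S) ∧
    ((m : ℝ) + 1) ^ 4 ≤ N * S := by
  obtain ⟨c, hc⟩ := isT_P m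
  have hN : 0 < N := by omega
  have h1 : ∀ x : ℝ, ∑ j ∈ range N, (P m (x + j / N) : ℂ) = N * c 0 := by
    intro x
    have h2 := coef (4 * m) c N hN 0 (by simp) (by
      intro l hl h2
      rw [mem_Icc] at hl
      obtain ⟨u, hu⟩ := h2
      have h3 : u = 0 := by
        by_contra h0
        rcases lt_or_gt_of_ne h0 with h4 | h4
        · have : (N : ℤ) * u ≤ (N : ℤ) * (-1) := by
            apply mul_le_mul_of_nonneg_left (by omega) (by positivity)
          push_cast at hl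
          omega
        · have : (N : ℤ) * 1 ≤ (N : ℤ) * u := by
            apply mul_le_mul_of_nonneg_left (by omega) (by positivity)
          push_cast at hl
          omega
      rw [h3] at hu
      omega) x
    rw [← h2]
    refine sum_congr rfl fun j _ => ?_
    rw [← hc]
    simp [ec_zero]
  have hN0 : (N : ℝ) ≠ 0 := by exact_mod_cast hN.ne'
  refine ⟨(∑ j ∈ range N, P m (0 + j / N)) / N, fun x => ?_, ?_⟩
  · rw [mul_div_cancel₀ _ hN0]
    have h2 := (h1 x).trans (h1 0).symm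
    exact_mod_cast h2
  · rw [mul_div_cancel₀ _ hN0]
    have h2 : P m (0 + ((0 : ℕ) : ℝ) / N) ≤ ∑ j ∈ range N, P m (0 + j / N) :=
      single_le_sum (f := fun j : ℕ => P m (0 + (j : ℝ) / N)) (fun j _ => P_nonneg m _)
        (mem_range.2 hN)
    simpa [P_zero] using h2

lemma mean_P' (m N : ℕ) (S : ℝ) (h : ∀ x : ℝ, ∑ j ∈ range N, P m (x + j / N) = N * S) (x : ℝ) :
    ∑ j ∈ range N, P m (x - j / N) = N * S := by
  rw [← h (-x)]
  refine sum_congr rfl fun j _ => ?_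
  rw [← P_neg]
  congr 1
  ring

lemma grid (H : ℕ) (hH : 16 ≤ H) (A : Finset ℕ) (hA : A ⊆ range (H + 1)) :
    ∃ (c : ℤ → ℂ) (G : ℝ → ℝ), (∀ x, t1 H c x = (G x : ℂ)) ∧ (∀ x, 0 ≤ G x ∧ G x ≤ 1) ∧
      c 0 = (((#A : ℝ) / ((H + 1 : ℕ) : ℝ) : ℝ) : ℂ) ∧ (∀ k, ‖c k‖ ≤ 1) ∧
      (∀ x, (∀ j ∈ range (H + 1), √H * dn (x - j / ((H + 1 : ℕ) : ℝ)) < 1 → j ∈ A) →
        1 - 16 / H ≤ G x) ∧
      (∀ x, (∀ j ∈ A, 1 ≤ √H * dn (x - j / ((H + 1 : ℕ) : ℝ))) → G x ≤ 16 / H) := by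
  set m := H / 4 with hm
  set N := H + 1 with hN
  have hm1 : 4 * m < N := by omega
  have hm2 : N ≤ 4 * (m + 1) := by omega
  obtain ⟨S, hS, hS1⟩ := mean_P m N hm1
  have hS' := mean_P' m N S hS
  have hN0 : (0 : ℝ) < (N : ℝ) := by exact_mod_cast (by omega : 0 < N)
  have hH0 : (0 : ℝ) < (H : ℝ) := by exact_mod_cast (by omega : 0 < H)
  have hNS : 0 < (N : ℝ) * S := lt_of_lt_of_le (by positivity) hS1
  have hS0 : 0 < S := by
    rcases (mul_pos_iff.1 hNS) with h | h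
    · exact h.2
    · linarith [h.1]
  -- pointwise bound
  have hpt : ∀ y, 1 ≤ √H * dn y → P m y ≤ 16 / H * S := by
    intro y hy
    have hs : 0 < √(H : ℝ) := Real.sqrt_pos.2 hH0
    have hd : 0 < dn y := by
      by_contra h
      have : √(H : ℝ) * dn y ≤ 0 := mul_nonpos_of_nonneg_of_nonpos hs.le (not_lt.1 h)
      linarith
    have h1 := P_le m y hd
    have h2 : 1 / (2 * dn y) ≤ √H / 2 := by
      rw [div_le_div_iff₀ (by positivity) (by norm_num)]
      nlinarith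
    have h3 : (1 / (2 * dn y)) ^ 4 ≤ (√H / 2) ^ 4 := pow_le_pow_left₀ (by positivity) h2 4
    have h4 : (√(H : ℝ) / 2) ^ 4 = (H : ℝ) ^ 2 / 16 := by
      have : √(H : ℝ) ^ 2 = H := Real.sq_sqrt hH0.le
      calc (√(H : ℝ) / 2) ^ 4 = (√(H : ℝ) ^ 2) ^ 2 / 16 := by ring
        _ = _ := by rw [this]
    have h5 : (H : ℝ) ≤ 4 * ((m : ℝ) + 1) := by
      have : H ≤ 4 * (m + 1) := by omega
      exact_mod_cast this
    have h6 : (N : ℝ) ≤ 4 * ((m : ℝ) + 1) := by exact_mod_cast hm2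
    have hm0 : (0 : ℝ) < (m : ℝ) + 1 := by positivity
    have h7 : ((m : ℝ) + 1) ^ 3 ≤ 4 * S := by
      have : ((m : ℝ) + 1) ^ 4 ≤ 4 * ((m : ℝ) + 1) * S := hS1.trans (by gcongr)
      have e : ((m : ℝ) + 1) * ((m : ℝ) + 1) ^ 3 ≤ ((m : ℝ) + 1) * (4 * S) := by
        calc ((m : ℝ) + 1) * ((m : ℝ) + 1) ^ 3 = ((m : ℝ) + 1) ^ 4 := by ring
          _ ≤ _ := this
          _ = _ := by ring
      exact le_of_mul_le_mul_left e hm0
    have h8 : (H : ℝ) ^ 3 ≤ 64 * ((m : ℝ) + 1) ^ 3 := by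
      calc (H : ℝ) ^ 3 ≤ (4 * ((m : ℝ) + 1)) ^ 3 := pow_le_pow_left₀ hH0.le h5 3
        _ = _ := by ring
    rw [h4] at h3
    have h9 : (H : ℝ) ^ 2 / 16 ≤ 16 / H * S := by
      rw [div_mul_eq_mul_div, div_le_div_iff₀ (by norm_num) hH0]
      nlinarith
    linarith
  -- the function
  have hT : IsT H (fun x => ((((N : ℝ) * S)⁻¹ : ℝ) : ℂ) *
      ∑ j ∈ A, (P m (x - j / (N : ℝ)) : ℂ)) := by
    refine IsT.smul _ (IsT.sum _ _ fun j _ => ?_)
    exact ((isT_P m).shift ((j : ℝ) / N)).mono (by omega)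
  have hsub : ∀ x : ℝ, ∑ j ∈ A, P m (x - j / (N : ℝ)) ≤ N * S := by
    intro x
    rw [← hS' x]
    exact sum_le_sum_of_subset_of_nonneg hA fun j _ _ => P_nonneg m _
  have hG1 : ∀ x : ℝ, ((N : ℝ) * S)⁻¹ * ∑ j ∈ A, P m (x - j / (N : ℝ)) ≤ 1 := by
    intro x
    rw [inv_mul_le_iff₀ hNS, mul_one]
    exact hsub x
  have hG0 : ∀ x : ℝ, 0 ≤ ((N : ℝ) * S)⁻¹ * ∑ j ∈ A, P m (x - j / (N : ℝ)) := by
    intro x
    have : 0 ≤ ∑ j ∈ A, P m (x - j / (N : ℝ)) := sum_nonneg fun j _ => P_nonneg m _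
    positivity
  obtain ⟨c, hc1, hc2⟩ := hT.nice 1 (by norm_num) (by
    intro x
    have : ((((N : ℝ) * S)⁻¹ : ℝ) : ℂ) * ∑ j ∈ A, (P m (x - j / (N : ℝ)) : ℂ) =
        ((((N : ℝ) * S)⁻¹ * ∑ j ∈ A, P m (x - j / (N : ℝ)) : ℝ) : ℂ) := by push_cast; rfl
    rw [this, Complex.norm_real, Real.norm_of_nonneg (hG0 x)]
    exact hG1 x)
  have hcG : ∀ x, t1 H c x = ((((N : ℝ) * S)⁻¹ * ∑ j ∈ A, P m (x - j / (N : ℝ)) : ℝ) : ℂ) := by
    intro x; rw [hc1]; push_cast; rfl
  refine ⟨c, fun x => ((N : ℝ) * S)⁻¹ * ∑ j ∈ A, P m (x - j / (N : ℝ)), hcG,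
    fun x => ⟨hG0 x, hG1 x⟩, ?_, hc2, ?_, ?_⟩
  · -- the mean
    have h1 := coef H c N (by omega) 0 (by simp) (by
      intro l hl h2
      rw [mem_Icc] at hl
      obtain ⟨u, hu⟩ := h2
      have h3 : u = 0 := by
        by_contra h0
        rcases lt_or_gt_of_ne h0 with h4 | h4
        · have : (N : ℤ) * u ≤ (N : ℤ) * (-1) := by
            apply mul_le_mul_of_nonneg_left (by omega) (by positivity)
          omega
        · have : (N : ℤ) * 1 ≤ (N : ℤ) * u := by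
            apply mul_le_mul_of_nonneg_left (by omega) (by positivity)
          omega
      rw [h3] at hu
      omega) 0
    have h2 : ∑ i ∈ range N, t1 H c (0 + i / (N : ℝ)) * ec (-(((0 : ℤ) : ℝ) * (0 + i / (N : ℝ)))) =
        ((#A : ℝ) : ℂ) := by
      have e1 : ∀ i ∈ range N, t1 H c (0 + i / (N : ℝ)) *
          ec (-(((0 : ℤ) : ℝ) * (0 + i / (N : ℝ)))) =
          ((((N : ℝ) * S)⁻¹ * ∑ j ∈ A, P m ((0 + i / (N : ℝ)) - j / (N : ℝ)) : ℝ) : ℂ) := by
        intro i _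
        rw [hcG]
        simp [ec_zero]
      rw [sum_congr rfl e1, ← Complex.ofReal_sum]
      congr 1
      rw [← mul_sum, sum_comm]
      have e2 : ∀ j ∈ A, ∑ i ∈ range N, P m ((0 + i / (N : ℝ)) - j / (N : ℝ)) = N * S := by
        intro j _
        rw [← hS (-(j / (N : ℝ)))]
        refine sum_congr rfl fun i _ => ?_
        congr 1
        ring
      rw [sum_congr rfl e2, sum_const, nsmul_eq_mul]
      field_simp
    rw [h2] at h1
    have h3 : (N : ℂ) ≠ 0 := by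
      have : N ≠ 0 := by omega
      exact_mod_cast this
    push_cast
    rw [eq_div_iff h3]
    rw [mul_comm, ← h1]
    norm_cast
  · intro x hx
    have h1 : ∑ j ∈ range N \ A, P m (x - j / (N : ℝ)) ≤ N * (16 / H * S) := by
      have h2 : ∀ j ∈ range N \ A, P m (x - j / (N : ℝ)) ≤ 16 / H * S := by
        intro j hj
        rw [mem_sdiff] at hj
        apply hpt
        by_contra h3
        exact hj.2 (hx j hj.1 (not_le.1 h3))
      refine (sum_le_sum h2).trans ?_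
      rw [sum_const, nsmul_eq_mul]
      have h3 : (#(range N \ A) : ℝ) ≤ N := by
        have := card_le_card (sdiff_subset (s := range N) (t := A))
        rw [card_range] at this
        exact_mod_cast this
      have : 0 ≤ 16 / (H : ℝ) * S := by positivity
      gcongr
    have h2 : ∑ j ∈ range N \ A, P m (x - j / (N : ℝ)) + ∑ j ∈ A, P m (x - j / (N : ℝ)) =
        N * S := by
      rw [← hS' x]
      exact sum_sdiff hA
    have h3 : N * S * (1 - 16 / H) ≤ ∑ j ∈ A, P m (x - j / (N : ℝ)) := by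
      nlinarith
    change 1 - 16 / (H : ℝ) ≤ ((N : ℝ) * S)⁻¹ * ∑ j ∈ A, P m (x - j / (N : ℝ))
    rw [inv_mul_eq_div, le_div_iff₀ hNS]
    linarith
  · intro x hx
    have h1 : ∑ j ∈ A, P m (x - j / (N : ℝ)) ≤ N * (16 / H * S) := by
      have h2 : ∀ j ∈ A, P m (x - j / (N : ℝ)) ≤ 16 / H * S := fun j hj => hpt _ (hx j hj)
      refine (sum_le_sum h2).trans ?_
      rw [sum_const, nsmul_eq_mul]
      have h3 : (#A : ℝ) ≤ N := by
        have := card_le_card hA
        rw [card_range] at this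
        exact_mod_cast this
      have : 0 ≤ 16 / (H : ℝ) * S := by positivity
      gcongr
    change ((N : ℝ) * S)⁻¹ * ∑ j ∈ A, P m (x - j / (N : ℝ)) ≤ 16 / (H : ℝ)
    rw [inv_mul_le_iff₀ hNS]
    linarith

/-- grid points in an arc -/
lemma arc_card (N : ℕ) (hN : 0 < N) (a b : ℝ) (hab : a ≤ b) (A : Finset ℕ) (hA : A ⊆ range N)
    (h : ∀ j ∈ A, ∃ k : ℤ, a ≤ (j : ℝ) / N - k ∧ (j : ℝ) / N - k ≤ b) :
    (#A : ℝ) ≤ N * (b - a) + 1 := by
  have hN0 : (0 : ℝ) < N := by exact_mod_cast hN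
  choose! k hk using h
  have h1 : #A ≤ #(Icc ⌈(N : ℝ) * a⌉ ⌊(N : ℝ) * b⌋) := by
    apply card_le_card_of_injOn (fun j : ℕ => (j : ℤ) - N * k j)
    · intro j hj
      have hj' : j ∈ A := hj
      obtain ⟨h2, h3⟩ := hk j hj'
      rw [mem_coe, mem_Icc]
      constructor
      · apply Int.ceil_le.2
        push_cast
        have : (N : ℝ) * a ≤ N * ((j : ℝ) / N - k j) := by gcongr
        have e : (N : ℝ) * ((j : ℝ) / N - k j) = j - N * k j := by field_simp
        linarith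
      · apply Int.le_floor.2
        push_cast
        have : (N : ℝ) * ((j : ℝ) / N - k j) ≤ N * b := by gcongr
        have e : (N : ℝ) * ((j : ℝ) / N - k j) = j - N * k j := by field_simp
        linarith
    · intro j hj j' hj' he
      have h2 := mem_range.1 (hA hj)
      have h3 := mem_range.1 (hA hj')
      dsimp only at he
      have h4 : (j : ℤ) = j' + N * (k j - k j') := by linarith
      have h5 : ((j : ℤ)) % N = (j' : ℤ) % N := by
        rw [h4, Int.add_mul_emod_self_left]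
      rw [Int.emod_eq_of_lt (by omega) (by omega), Int.emod_eq_of_lt (by omega) (by omega)] at h5
      exact_mod_cast h5
  rw [Int.card_Icc] at h1
  have h2 : (#A : ℝ) ≤ ((⌊(N : ℝ) * b⌋ + 1 - ⌈(N : ℝ) * a⌉).toNat : ℝ) := by exact_mod_cast h1
  refine h2.trans ?_
  have h3 := Int.floor_le ((N : ℝ) * b)
  have h4 := Int.le_ceil ((N : ℝ) * a)
  rcases le_total 0 (⌊(N : ℝ) * b⌋ + 1 - ⌈(N : ℝ) * a⌉) with h5 | h5
  · have h6 : ((⌊(N : ℝ) * b⌋ + 1 - ⌈(N : ℝ) * a⌉).toNat : ℝ) =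
        ((⌊(N : ℝ) * b⌋ + 1 - ⌈(N : ℝ) * a⌉ : ℤ) : ℝ) := by
      have := Int.toNat_of_nonneg h5
      exact_mod_cast this
    rw [h6]
    push_cast
    linarith
  · rw [Int.toNat_of_nonpos h5]
    have : 0 ≤ (N : ℝ) * (b - a) := mul_nonneg hN0.le (by linarith)
    push_cast
    linarith

lemma t1_affine (H : ℕ) (c : ℤ → ℂ) (a τ : ℂ) (x : ℝ) :
    t1 H (fun k => a * c k + if k = 0 then τ else 0) x = a * t1 H c x + τ := by
  unfold t1
  simp only [add_mul, sum_add_distrib, mul_sum, mul_assoc]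
  congr 1
  rw [sum_eq_single 0]
  · simp [ec_zero]
  · intro l _ hl
    simp [hl]
  · intro h
    exact absurd (mem_Icc.2 ⟨by simp, by simp⟩) h

lemma t1_one (H : ℕ) (x : ℝ) : t1 H (fun k => if k = 0 then 1 else 0) x = 1 := by
  have := t1_affine H (fun _ => 0) 0 1 x
  simpa [t1] using this

lemma card_low (N : ℕ) (hN : 0 < N) (α β : ℝ) (hα : 0 ≤ α) (hβ : β ≤ 1) (A : Finset ℕ)
    (h : ∀ j ∈ range N, α ≤ (j : ℝ) / N → (j : ℝ) / N ≤ β → j ∈ A) :
    (N : ℝ) * (β - α) - 2 ≤ #A := by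
  have hN0 : (0 : ℝ) < N := by exact_mod_cast hN
  have h1 : Ico ⌈α * N⌉₊ ⌊β * N⌋₊ ⊆ A := by
    intro j hj
    rw [mem_Ico] at hj
    have h2 : α * N ≤ j := (Nat.le_ceil _).trans (by exact_mod_cast hj.1)
    have hβ0 : 0 ≤ β * N := by
      by_contra hneg
      have : ⌊β * (N : ℝ)⌋₊ = 0 := Nat.floor_of_nonpos (by linarith [not_le.1 hneg])
      omega
    have h3 : (j : ℝ) ≤ β * N := by
      have h4 := Nat.floor_le hβ0
      have h5 : (j : ℝ) ≤ (⌊β * (N : ℝ)⌋₊ : ℝ) := by exact_mod_cast hj.2.le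
      linarith
    have h4 : j < N := by
      have h5 : (⌊β * (N : ℝ)⌋₊ : ℝ) ≤ N := (Nat.floor_le hβ0).trans (by nlinarith)
      have h6 : ⌊β * (N : ℝ)⌋₊ ≤ N := by exact_mod_cast h5
      omega
    apply h j (mem_range.2 h4)
    · rw [le_div_iff₀ hN0]; exact h2
    · rw [div_le_iff₀ hN0]; exact h3
  have h2 := card_le_card h1
  rw [Nat.card_Ico] at h2
  have h3 : (⌊β * (N : ℝ)⌋₊ : ℝ) - ⌈α * (N : ℝ)⌉₊ ≤ #A := by
    have h4 : ⌊β * (N : ℝ)⌋₊ ≤ #A + ⌈α * (N : ℝ)⌉₊ := by omega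
    have h5 : (⌊β * (N : ℝ)⌋₊ : ℝ) ≤ #A + ⌈α * (N : ℝ)⌉₊ := by exact_mod_cast h4
    linarith
  have h4 : β * N - 1 < ⌊β * (N : ℝ)⌋₊ := Nat.sub_one_lt_floor _
  have h5 : (⌈α * (N : ℝ)⌉₊ : ℝ) < α * N + 1 := Nat.ceil_lt_add_one (by positivity)
  nlinarith

end Fej

open Fej in
theorem tFej : St_fej := by
  classical
  refine ⟨100, by norm_num, fun H α β hH hα hαβ hβ => ?_⟩
  have hH0 : (0 : ℝ) < H := by exact_mod_cast (by omega : 0 < H)
  have hs0 : 0 < √(H : ℝ) := Real.sqrt_pos.2 hH0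
  have hss : √(H : ℝ) * √(H : ℝ) = H := Real.mul_self_sqrt hH0.le
  by_cases h16 : 16 ≤ H
  swap
  · -- small degree
    have hs4 : √(H : ℝ) ≤ 4 := by
      rw [Real.sqrt_le_left (by norm_num)]
      have : (H : ℝ) ≤ 16 := by exact_mod_cast (by omega : H ≤ 16)
      linarith
    have h1 : 1 ≤ 100 / √(H : ℝ) := by
      rw [le_div_iff₀ hs0]; linarith
    have h2 : ∀ x, t1 H (fun k => if k = 0 then (1 : ℂ) else 0) x = 1 := t1_one H
    have h3 : ∀ k : ℤ, ‖(fun k : ℤ => if k = 0 then (1 : ℂ) else 0) k‖ ≤ 1 := by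
      intro k
      dsimp only
      split_ifs <;> simp
    refine ⟨fun k => if k = 0 then 1 else 0, fun k => if k = 0 then 1 else 0, 1, 1, ?_, ?_, ?_, ?_,
      fun k => (h3 k).trans (by norm_num), ?_, ?_, ?_, ?_, fun k => (h3 k).trans (by norm_num)⟩
    · intro x
      rw [h2]
      simp
    · simp
    · linarith
    · linarith
    · intro x
      rw [h2]
      refine ⟨by simp, by simp, by norm_num, ?_⟩
      split_ifs <;> simp
    · simp
    · norm_num
    · exact h1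
  -- main case
  set N := H + 1 with hN
  set δ : ℝ := 1 / √(H : ℝ) with hδ
  set τ : ℝ := 16 / (H : ℝ) with hτ
  have hδ0 : 0 < δ := by positivity
  have hτ0 : 0 < τ := by positivity
  have hN0 : (0 : ℝ) < (N : ℝ) := by exact_mod_cast (by omega : 0 < N)
  have hH16 : (16 : ℝ) ≤ H := by exact_mod_cast h16
  have hτ1 : τ ≤ 1 := by rw [hτ, div_le_one hH0]; exact hH16
  have hs4 : 4 ≤ √(H : ℝ) := Real.le_sqrt_of_sq_le (by linarith)
  have hτδ : τ ≤ 4 * δ := by
    have e : 1 / √(H : ℝ) * H = √(H : ℝ) := by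
      rw [div_mul_eq_mul_div, one_mul, div_eq_iff hs0.ne']; exact hss.symm
    rw [hτ, hδ, div_le_iff₀ hH0, mul_assoc, e]
    linarith
  have hNδ : 1 / (N : ℝ) ≤ δ / 4 := by
    have h1 : (H : ℝ) ≤ N := by rw [hN]; push_cast; linarith
    have h2 : 1 / (N : ℝ) ≤ 1 / H := one_div_le_one_div_of_le hH0 h1
    have h3 : 1 / (H : ℝ) = τ / 16 := by rw [hτ]; ring
    rw [h3] at h2
    linarith
  have hNτ : 2 / (N : ℝ) ≤ τ := by
    have h1 : (H : ℝ) ≤ N := by rw [hN]; push_cast; linarith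
    rw [hτ, div_le_div_iff₀ hN0 hH0]
    linarith
  have hclose : ∀ y : ℝ, √(H : ℝ) * dn y < 1 → ∃ k : ℤ, |y - k| < δ := by
    intro y hy
    refine ⟨round y, ?_⟩
    change dn y < δ
    rw [hδ, lt_div_iff₀ hs0, mul_comm]
    exact hy
  set A : Finset ℕ := {j ∈ range N | ∃ k : ℤ, α - δ ≤ (j : ℝ) / N - k ∧ (j : ℝ) / N - k ≤ β + δ}
    with hA
  set B1 : Finset ℕ := {j ∈ range N | ∃ k : ℤ, α - 3 * δ ≤ (j : ℝ) / N - k ∧
    (j : ℝ) / N - k ≤ α + 3 * δ} with hB1
  set B2 : Finset ℕ := {j ∈ range N | ∃ k : ℤ, β - 3 * δ ≤ (j : ℝ) / N - k ∧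
    (j : ℝ) / N - k ≤ β + 3 * δ} with hB2
  have hAc : (#A : ℝ) ≤ N * (β + δ - (α - δ)) + 1 :=
    arc_card N (by omega) _ _ (by linarith) A (filter_subset _ _)
      (fun j hj => (mem_filter.1 hj).2)
  have hB1c : (#B1 : ℝ) ≤ N * (α + 3 * δ - (α - 3 * δ)) + 1 :=
    arc_card N (by omega) _ _ (by linarith) B1 (filter_subset _ _)
      (fun j hj => (mem_filter.1 hj).2)
  have hB2c : (#B2 : ℝ) ≤ N * (β + 3 * δ - (β - 3 * δ)) + 1 :=
    arc_card N (by omega) _ _ (by linarith) B2 (filter_subset _ _)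
      (fun j hj => (mem_filter.1 hj).2)
  have hBc : (#(B1 ∪ B2) : ℝ) ≤ #B1 + #B2 := by exact_mod_cast card_union_le B1 B2
  have hAl : (N : ℝ) * (β - α) - 2 ≤ #A := by
    refine card_low N (by omega) α β hα hβ A fun j hj h1 h2 => ?_
    rw [hA, mem_filter]
    refine ⟨hj, 0, ?_, ?_⟩
    · push_cast; linarith
    · push_cast; linarith
  obtain ⟨cA, GA, hA1, hA2, hA3, hA4, hA5, hA6⟩ := grid H h16 A (filter_subset _ _)
  obtain ⟨cB, GB, hB3, hB4, hB5, hB6, hB7, hB8⟩ := grid H h16 (B1 ∪ B2)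
    (union_subset (filter_subset _ _) (filter_subset _ _))
  have hc : ∀ x, t1 H (fun k => 1 * cA k + if k = 0 then (τ : ℂ) else 0) x =
      ((GA x + τ : ℝ) : ℂ) := by
    intro x; rw [t1_affine, hA1]; push_cast; ring
  have hc' : ∀ x, t1 H (fun k => 2 * cB k + if k = 0 then ((4 * τ : ℝ) : ℂ) else 0) x =
      ((2 * GB x + 4 * τ : ℝ) : ℂ) := by
    intro x; rw [t1_affine, hB3]; push_cast; ring
  refine ⟨fun k => 1 * cA k + if k = 0 then (τ : ℂ) else 0,
    fun k => 2 * cB k + if k = 0 then ((4 * τ : ℝ) : ℂ) else 0, #A / (N : ℝ) + τ,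
    2 * (#(B1 ∪ B2) / (N : ℝ)) + 4 * τ, ?_, ?_, ?_, ?_, ?_, ?_, ?_, ?_, ?_, ?_⟩
  · intro x
    rw [hc, Complex.ofReal_re, Complex.ofReal_im]
    obtain ⟨h1, h2⟩ := hA2 x
    refine ⟨rfl, by linarith, by linarith, fun h3 h4 => ?_⟩
    have h5 : 1 - 16 / (H : ℝ) ≤ GA x := by
      apply hA5
      intro j hj h6
      obtain ⟨k0, h7⟩ := hclose _ h6
      rw [abs_lt] at h7
      rw [hA, mem_filter]
      have h8 := Int.self_sub_floor x
      refine ⟨hj, ⌊x⌋ - k0, ?_, ?_⟩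
      · push_cast
        linarith [h7.1, h7.2]
      · push_cast
        linarith [h7.1, h7.2]
    linarith
  · dsimp only
    rw [if_pos rfl, hA3, ← hN]
    push_cast
    ring
  · have h1 : (β - α) - 2 / N ≤ #A / (N : ℝ) := by
      rw [le_div_iff₀ hN0]
      have : (β - α - 2 / (N : ℝ)) * N = N * (β - α) - 2 := by field_simp
      linarith
    linarith
  · have h1 : #A / (N : ℝ) ≤ (β - α) + 2 * δ + 1 / N := by
      rw [div_le_iff₀ hN0]
      have : (β - α + 2 * δ + 1 / (N : ℝ)) * N = N * (β + δ - (α - δ)) + 1 := by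
        field_simp; ring
      linarith
    have h2 : 100 / √(H : ℝ) = 100 * δ := by rw [hδ]; ring
    rw [h2]
    linarith
  · intro k
    dsimp only
    refine (norm_add_le _ _).trans ?_
    have h1 := hA4 k
    rw [one_mul]
    have h2 : ‖(if k = 0 then (τ : ℂ) else 0)‖ ≤ 1 := by
      split_ifs
      · rw [Complex.norm_real, Real.norm_of_nonneg hτ0.le]; exact hτ1
      · simp
    linarith
  · intro x
    rw [hc, hc', Complex.ofReal_re, Complex.ofReal_re, Complex.ofReal_im]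
    obtain ⟨h1, h2⟩ := hA2 x
    obtain ⟨h3, h4⟩ := hB4 x
    refine ⟨rfl, by linarith, by linarith, ?_⟩
    split_ifs with h5
    · linarith
    by_cases h6 : ∃ j ∈ A, √(H : ℝ) * dn (x - j / ((H + 1 : ℕ) : ℝ)) < 1
    swap
    · push Not at h6
      have := hA6 x h6
      linarith
    obtain ⟨j, hj, h7⟩ := h6
    obtain ⟨k0, h8⟩ := hclose _ h7
    obtain ⟨k1, h9, h10⟩ := (mem_filter.1 hj).2
    rw [abs_lt] at h8
    have h11 := Int.self_sub_floor x
    have h12 := Int.fract_nonneg x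
    have h13 := Int.fract_lt_one x
    have hz : |x - (k0 + k1 : ℤ) - α| ≤ 2 * δ ∨ |x - (k0 + k1 : ℤ) - β| ≤ 2 * δ := by
      push_cast
      rcases lt_or_ge (x - (k0 + k1)) α with h14 | h14
      · left
        rw [abs_le]
        constructor
        · linarith [h8.1, h8.2]
        · linarith [h8.1, h8.2]
      rcases lt_or_ge β (x - (k0 + k1)) with h15 | h15
      · right
        rw [abs_le]
        constructor
        · linarith [h8.1, h8.2]
        · linarith [h8.1, h8.2]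
      right
      have h16' : x - (k0 + k1) = β := by
        have h17 : x = Int.fract x + ⌊x⌋ := by linarith
        have h18 : ((⌊x⌋ - (k0 + k1) : ℤ) : ℝ) = x - (k0 + k1) - Int.fract x := by
          push_cast; linarith
        have h19 : (⌊x⌋ - (k0 + k1) : ℤ) = 0 ∨ (⌊x⌋ - (k0 + k1) : ℤ) = 1 := by
          have h20 : (((-1 : ℤ)) : ℝ) < ((⌊x⌋ - (k0 + k1) : ℤ) : ℝ) := by
            rw [h18]; push_cast; linarith
          have h21 : ((⌊x⌋ - (k0 + k1) : ℤ) : ℝ) ≤ ((1 : ℤ) : ℝ) := by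
            rw [h18]; push_cast; linarith
          have h22 := Int.cast_lt.1 h20
          have h23 := Int.cast_le.1 h21
          omega
        rcases h19 with h19 | h19
        · rw [h19] at h18
          push_cast at h18
          have h20 : α ≤ Int.fract x := by linarith
          have h21 : ¬ Int.fract x < β := fun h => h5 ⟨h20, h⟩
          linarith [not_lt.1 h21]
        · rw [h19] at h18
          push_cast at h18
          linarith
      rw [h16']
      simp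
      positivity
    have h14 : 1 - 16 / (H : ℝ) ≤ GB x := by
      apply hB7
      intro j' hj' h15
      obtain ⟨k', h16'⟩ := hclose _ h15
      rw [abs_lt] at h16'
      rw [mem_union]
      rcases hz with hz | hz
      · left
        rw [abs_le] at hz
        rw [hB1, mem_filter]
        refine ⟨hj', k0 + k1 - k', ?_, ?_⟩
        · push_cast at hz ⊢
          linarith [hz.1, hz.2, h16'.1, h16'.2]
        · push_cast at hz ⊢
          linarith [hz.1, hz.2, h16'.1, h16'.2]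
      · right
        rw [abs_le] at hz
        rw [hB2, mem_filter]
        refine ⟨hj', k0 + k1 - k', ?_, ?_⟩
        · push_cast at hz ⊢
          linarith [hz.1, hz.2, h16'.1, h16'.2]
        · push_cast at hz ⊢
          linarith [hz.1, hz.2, h16'.1, h16'.2]
    linarith
  · dsimp only
    rw [if_pos rfl, hB5, ← hN]
    push_cast
    ring
  · positivity
  · have h1 : #(B1 ∪ B2) / (N : ℝ) ≤ 12 * δ + 2 * (1 / N) := by
      rw [div_le_iff₀ hN0]
      have : (12 * δ + 2 * (1 / (N : ℝ))) * N =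
          N * (α + 3 * δ - (α - 3 * δ)) + 1 + (N * (β + 3 * δ - (β - 3 * δ)) + 1) := by
        field_simp; ring
      linarith
    have h2 : 100 / √(H : ℝ) = 100 * δ := by rw [hδ]; ring
    rw [h2]
    linarith
  · intro k
    dsimp only
    refine (norm_add_le _ _).trans ?_
    have h1 := hB6 k
    have h2 : ‖(if k = 0 then ((4 * τ : ℝ) : ℂ) else 0)‖ ≤ 4 := by
      split_ifs
      · rw [Complex.norm_real, Real.norm_of_nonneg (by positivity)]; linarith
      · simp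
    have h3 : ‖2 * cB k‖ ≤ 2 := by
      rw [norm_mul]
      simp only [Complex.norm_ofNat]
      linarith
    linarith

end ESAs
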