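import Pool.Agent.ESAs.Stmts

open Finset

namespace ESAs

namespace Fin

open Filter Real

lemma ncard_eq (x : ℕ) (F : ℕ → Prop) [DecidablePred F] (h : ∀ n, F n → 1 < n) :
    ({n : ℕ | n ≤ x ∧ F n}.ncard : ℝ) = (#{n ∈ Icc 2 x | F n} : ℝ) := by
  have : {n : ℕ | n ≤ x ∧ F n} = (({n ∈ Icc 2 x | F n} : Finset ℕ) : Set ℕ) := by
    ext n
    simp only [Set.mem_ofPred_eq, coe_filter, mem_Icc]
    constructor
    · rintro ⟨h1, h2⟩
      exact ⟨⟨h n h2, h1⟩, h2⟩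
    · rintro ⟨⟨_, h1⟩, h2⟩
      exact ⟨h1, h2⟩
  rw [this, Set.ncard_coe_finset]

/-- elementary asymptotics -/
lemma ev_exp (a c : ℝ) (hc : 0 < c) (ε : ℝ) (hε : 0 < ε) :
    ∀ᶠ s : ℝ in atTop, a * s * exp (-(c * s)) ≤ ε := by
  have h1 : Tendsto (fun s : ℝ => a * s * exp (-(c * s))) atTop (nhds 0) := by
    have h2 := Real.tendsto_pow_mul_exp_neg_atTop_nhds_zero 1
    have h3 : Tendsto (fun s : ℝ => c * s) atTop atTop := tendsto_id.const_mul_atTop hc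
    have h4 := (h2.comp h3).const_mul (a / c)
    rw [mul_zero] at h4
    refine h4.congr fun s => ?_
    simp only [Function.comp, pow_one]
    field_simp
  exact (h1.eventually_le_const hε)

lemma ev_log (a ε : ℝ) (hε : 0 < ε) : ∀ᶠ s : ℝ in atTop, a * s + 2 * log s + 1 < ε * s ^ 2 := by
  have h1 : ∀ᶠ s : ℝ in atTop, (|a| + 3) / ε < s := eventually_gt_atTop _
  filter_upwards [h1, eventually_ge_atTop 1] with s hs hs1
  have h2 : log s ≤ s := (log_le_sub_one_of_pos (by linarith)).trans (by linarith)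
  rw [div_lt_iff₀ hε] at hs
  have h3 : a ≤ |a| := le_abs_self a
  nlinarith

lemma card_cover (N : Finset ℕ) (l : List (Finset ℕ)) (B : ℝ) (h : ∀ n ∈ N, ∃ A ∈ l, n ∈ A)
    (hB : ∀ A ∈ l, (#A : ℝ) ≤ B) : (#N : ℝ) ≤ l.length * B := by
  classical
  induction l generalizing N with
  | nil =>
    have : N = ∅ := by
      by_contra hc
      obtain ⟨n, hn⟩ := Finset.nonempty_iff_ne_empty.2 hc
      obtain ⟨A, hA, _⟩ := h n hn
      simp at hA
    simp [this]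
  | cons A l ih =>
    have h1 : N ⊆ A ∪ (N \ A) := by
      intro n hn
      by_cases hA : n ∈ A
      · exact mem_union_left _ hA
      · exact mem_union_right _ (Finset.mem_sdiff.2 ⟨hn, hA⟩)
    have h2 : (#N : ℝ) ≤ #A + #(N \ A) := by
      exact_mod_cast (card_le_card h1).trans (card_union_le _ _)
    have h3 := ih (N \ A) (by
      intro n hn
      rw [Finset.mem_sdiff] at hn
      obtain ⟨A', hA', hn'⟩ := h n hn.1
      rcases List.mem_cons.1 hA' with rfl | h4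
      · exact absurd hn' hn.2
      · exact ⟨A', h4, hn'⟩) (fun A' hA' => hB A' (List.mem_cons_of_mem _ hA'))
    have h4 := hB A (List.mem_cons_self)
    rw [List.length_cons]
    push_cast
    linarith

/-- the exceptional sets cover everything -/
lemma cover (x n : ℕ) (s K δ ε2 : ℝ) (hx : log x = s ^ 2) (hs1 : 1 ≤ s) 
    (hε2 : 0 < ε2) (h1 : 2 * K * s + 2 * log s < s ^ 2)
    (h2 : (1 - ε2) * s ^ 2 ≤ s ^ 2 - 2 * log s) (hn : n ∈ Icc 2 x) (hp : ¬ n.Prime)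
    (hb : ¬ (ESGcd.IsSolution n ↔ Rule n)) :
    (n : ℝ) ≤ x / s ^ 2 ∨
    (ESGcd.IsSolution n ∧ exp (K * s) < ((n / ESGcd.maxPrime n : ℕ) : ℝ)) ∨
    (Rule n ∧ exp (K * s) < ((n / ESGcd.maxPrime n : ℕ) : ℝ) ∧ cofac n ≤ secPrime n) ∨
    (Rule n ∧ exp (K * s) < ((n / ESGcd.maxPrime n : ℕ) : ℝ) ∧
      secPrime n < cofac n ∧ (n / ESGcd.maxPrime n) ^ 2 ≤ x) ∨
    (Rule n ∧ secPrime n < cofac n ∧ x < (n / ESGcd.maxPrime n) ^ 2) ∨
    (1 ≤ n / ESGcd.maxPrime n ∧ ((n / ESGcd.maxPrime n : ℕ) : ℝ) ≤ exp (K * s) ∧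
      (ESGcd.maxPrime (n / ESGcd.maxPrime n) : ℝ) ≤ exp (δ * s)) ∨
    (1 ≤ n / ESGcd.maxPrime n ∧ ((n / ESGcd.maxPrime n : ℕ) : ℝ) ≤ exp (K * s) ∧
      ∃ r : ℕ, r.Prime ∧ exp (δ * s) < r ∧ r ^ 2 ∣ n / ESGcd.maxPrime n) ∨
    (1 ≤ n / ESGcd.maxPrime n ∧ ((n / ESGcd.maxPrime n : ℕ) : ℝ) ≤ exp (K * s) ∧
      exp (δ * s) < ESGcd.maxPrime (n / ESGcd.maxPrime n) ∧
      (1 - ε2) * s ^ 2 < log (secPrime n) * log (cofac n) ∧
      log (secPrime n) * log (cofac n) < (1 + ε2) * s ^ 2) ∨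
    (2 ≤ n / ESGcd.maxPrime n ∧
      ((n / ESGcd.maxPrime n : ℕ) : ℝ) ≤ exp (K * s) ∧
      n / ESGcd.maxPrime n < ESGcd.maxPrime n ∧
      (∀ r : ℕ, r.Prime → r ^ 2 ∣ n / ESGcd.maxPrime n → (r : ℝ) ≤ exp (δ * s)) ∧
      log (secPrime n) * log (cofac n) ≤ (1 - ε2) * s ^ 2 ∧
      ¬ ESGcd.IsSolution n) ∨
    (2 ≤ n / ESGcd.maxPrime n ∧
      ((n / ESGcd.maxPrime n : ℕ) : ℝ) ≤ exp (K * s) ∧
      n / ESGcd.maxPrime n < ESGcd.maxPrime n ∧
      (∀ r : ℕ, r.Prime → r ^ 2 ∣ n / ESGcd.maxPrime n → (r : ℝ) ≤ exp (δ * s)) ∧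
      exp (δ * s) < secPrime n ∧
      (1 + ε2) * s ^ 2 ≤ log (secPrime n) * log (cofac n) ∧
      ESGcd.IsSolution n) := by
  rw [mem_Icc] at hn
  obtain ⟨hn2, hnx⟩ := hn
  obtain ⟨hP, hPn⟩ := ESGcd.maxPrime_spec hn2
  set P := ESGcd.maxPrime n with hPdef
  set m := n / P with hm
  have hnm : n = m * P := (Nat.div_mul_cancel hPn).symm
  have hm0 : 1 ≤ m := by
    rcases Nat.eq_zero_or_pos m with h | h
    · rw [h] at hnm; omega
    · exact h
  have hx0 : (0 : ℝ) < x := by exact_mod_cast (by omega : 0 < x)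
  have hn0 : (0 : ℝ) < n := by exact_mod_cast (by omega : 0 < n)
  have hxe : (x : ℝ) = exp (s ^ 2) := by rw [← hx, exp_log hx0]
  have hs0 : 0 < s := by linarith
  by_cases c1 : (n : ℝ) ≤ x / s ^ 2
  · left; exact c1
  right
  rw [not_le] at c1
  have hln : s ^ 2 - 2 * log s ≤ log n := by
    have := log_le_log (by positivity) c1.le
    rw [log_div hx0.ne' (by positivity), hx, log_pow] at this
    push_cast at this
    linarith
  have hlx : log n ≤ s ^ 2 := by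
    rw [← hx]; exact log_le_log hn0 (by exact_mod_cast hnx)
  by_cases c2 : exp (K * s) < (m : ℝ)
  · by_cases c3 : ESGcd.IsSolution n
    · left; exact ⟨c3, c2⟩
    right
    have c4 : Rule n := by
      by_contra hc
      exact hb ⟨fun h => absurd h c3, fun h => absurd h hc⟩
    rcases le_or_gt (cofac n) (secPrime n) with c5 | c5
    · left; exact ⟨c4, c2, c5⟩
    · right
      rcases le_or_gt (m ^ 2) x with c6 | c6
      · left; exact ⟨c4, c2, c5, c6⟩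
      · right; left; exact ⟨c4, c5, c6⟩
  right; right; right; right
  rw [not_lt] at c2
  have hmP : m < P := by
    by_contra hc
    rw [not_lt] at hc
    have e1 : (n : ℝ) ≤ m * m := by
      rw [hnm]; push_cast
      have : (P : ℝ) ≤ m := by exact_mod_cast hc
      exact mul_le_mul_of_nonneg_left this (Nat.cast_nonneg m)
    have e2 : (n : ℝ) ≤ exp (2 * K * s) := by
      calc (n : ℝ) ≤ m * m := e1
        _ ≤ exp (K * s) * exp (K * s) := by gcongr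
        _ = exp (2 * K * s) := by rw [← exp_add]; ring_nf
    have e3 := log_le_log hn0 e2
    rw [log_exp] at e3
    linarith
  have hm2 : 2 ≤ m := by
    by_contra hc
    have : m = 1 := by omega
    rw [this, one_mul] at hnm
    rw [hnm] at hp
    exact hp hP
  by_cases c5 : (ESGcd.maxPrime m : ℝ) ≤ exp (δ * s)
  · left; exact ⟨hm0, c2, c5⟩
  right
  rw [not_le] at c5
  by_cases c6 : ∃ r : ℕ, r.Prime ∧ exp (δ * s) < r ∧ r ^ 2 ∣ m
  · left; exact ⟨hm0, c2, c6⟩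
  right
  have c6' : ∀ r : ℕ, r.Prime → r ^ 2 ∣ m → (r : ℝ) ≤ exp (δ * s) := by
    intro r hr hd
    by_contra hc
    rw [not_le] at hc
    exact c6 ⟨r, hr, hc, hd⟩
  rcases le_or_gt (log (secPrime n) * log (cofac n)) ((1 - ε2) * s ^ 2) with c7 | c7
  · right; left
    have hR : Rule n := by
      unfold Rule; linarith
    have hS : ¬ ESGcd.IsSolution n := fun h => hb ⟨fun _ => hR, fun _ => h⟩
    exact ⟨hm2, c2, hmP, c6', c7, hS⟩
  rcases le_or_gt ((1 + ε2) * s ^ 2) (log (secPrime n) * log (cofac n)) with c8 | c8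
  · right; right
    have hR : ¬ Rule n := by
      unfold Rule; rw [not_le]
      have : 0 < ε2 * s ^ 2 := by positivity
      linarith
    have hS : ESGcd.IsSolution n := by
      by_contra hc
      exact hb ⟨fun h => absurd h hc, fun h => absurd h hR⟩
    exact ⟨hm2, c2, hmP, c6', c5, c8, hS⟩
  · left; exact ⟨hm0, c2, c5, c7, c8⟩

end Fin

open Fin Filter Real in
set_option maxHeartbeats 4000000 in
theorem tFin (hTLa : St_TLa) (hTLb : St_TLb) (hTLc : St_TLc) (hpair : St_pair) (hsmo : St_smo)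
    (hsq : St_sq) (hbdr : St_bdr) (hgood : St_good) (hbad : St_bad) : St_Fin := by
  classical
  intro ε hε
  set ε1 : ℝ := ε / 3840 with hε1
  have hε1p : 0 < ε1 := by positivity
  obtain ⟨K1, hK1, hlarge⟩ := ESGcd.few_large ε1 hε1p
  obtain ⟨Ca, hCa, hTLa⟩ := hTLa
  obtain ⟨Cb, hCb, hTLb⟩ := hTLb
  obtain ⟨Cc, hCc, hTLc⟩ := hTLc
  obtain ⟨Cp, hCp, hpair⟩ := hpair
  obtain ⟨Cs, hCs, hsmo⟩ := hsmo
  set K : ℝ := max 1 (max K1 (max (Ca / ε1) (max (Cb / ε1) (Cc / ε1)))) with hKdef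
  have hK : 1 ≤ K := le_max_left _ _
  have hKK1 : K1 ≤ K := (le_max_left _ _).trans (le_max_right _ _)
  have hKa : Ca / ε1 ≤ K :=
    ((le_max_left _ _).trans (le_max_right _ _)).trans (le_max_right _ _)
  have hKb : Cb / ε1 ≤ K :=
    (((le_max_left _ _).trans (le_max_right _ _)).trans (le_max_right _ _)).trans
      (le_max_right _ _)
  have hKc : Cc / ε1 ≤ K :=
    (((le_max_right _ _).trans (le_max_right _ _)).trans (le_max_right _ _)).trans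
      (le_max_right _ _)
  have hK0 : 0 < K := by linarith
  clear_value K
  obtain ⟨δ, hδ, hδ1, hδ2, hδ3⟩ : ∃ δ : ℝ, 0 < δ ∧ δ ≤ 1 ∧ 200 * (K + 2) * δ ≤ 1 ∧
      Cp * Cs * δ ≤ ε1 := by
    refine ⟨min (1 / (200 * (K + 2))) (ε1 / (Cp * Cs)), by positivity, ?_, ?_, ?_⟩
    · refine (min_le_left _ _).trans ?_
      rw [div_le_one (by positivity)]; linarith
    · calc 200 * (K + 2) * min (1 / (200 * (K + 2))) (ε1 / (Cp * Cs)) ≤
          200 * (K + 2) * (1 / (200 * (K + 2))) := by gcongr; exact min_le_left _ _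
        _ = 1 := by field_simp
    · calc Cp * Cs * min (1 / (200 * (K + 2))) (ε1 / (Cp * Cs)) ≤
          Cp * Cs * (ε1 / (Cp * Cs)) := by gcongr; exact min_le_right _ _
        _ = ε1 := by field_simp
  obtain ⟨ε2, hε2, hε2', hε2''⟩ : ∃ ε2 : ℝ, 0 < ε2 ∧ ε2 ≤ 1 / 4 ∧ Cp * (8 * ε2 * K) ≤ ε1 := by
    refine ⟨min (1 / 4) (ε1 / (8 * Cp * K)), by positivity, min_le_left _ _, ?_⟩
    calc Cp * (8 * min (1 / 4) (ε1 / (8 * Cp * K)) * K) ≤ Cp * (8 * (ε1 / (8 * Cp * K)) * K) := by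
          gcongr; exact min_le_right _ _
      _ = ε1 := by field_simp
  obtain ⟨sa, hTLa⟩ := hTLa K hK
  obtain ⟨sb, hTLb⟩ := hTLb K hK
  obtain ⟨sc, hTLc⟩ := hTLc K hK
  obtain ⟨sp, hpair⟩ := hpair K hK
  obtain ⟨sd, hbdr⟩ := hbdr K δ ε2 hK hδ hε2 hε2'
  obtain ⟨cg, sg, hcg, hsg, hgood⟩ := hgood K δ ε2 hK hδ hδ2 hε2 (by linarith)
  obtain ⟨cb, sbb, hcb, hsbb, hbad⟩ := hbad K δ ε2 hK hδ hδ1 hε2 (by linarith)
  have ht : Tendsto (fun x : ℕ => √(log x)) atTop atTop :=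
    tendsto_sqrt_atTop.comp (tendsto_log_atTop.comp tendsto_natCast_atTop_atTop)
  have e1 := ev_log (2 * K) 1 one_pos
  have e2 := ev_log 0 ε2 hε2
  have e3 := ev_exp 1 cg hcg ε1 hε1p
  have e4 := ev_exp 1 cb hcb ε1 hε1p
  have e5 := ev_exp (2 * (Cp * (K + 1))) δ hδ ε1 hε1p
  have e6 : ∀ᶠ s : ℝ in atTop, 1 / ε1 ≤ s := eventually_ge_atTop _
  have e7 : ∀ᶠ s : ℝ in atTop, 1 / δ ≤ s := eventually_ge_atTop _
  have e8 : ∀ᶠ s : ℝ in atTop, 1 ≤ s ∧ sa ≤ s ∧ sb ≤ s ∧ sc ≤ s ∧ sp ≤ s ∧ sd ≤ s ∧ sg ≤ s ∧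
      sbb ≤ s := by
    filter_upwards [eventually_ge_atTop 1, eventually_ge_atTop sa, eventually_ge_atTop sb,
      eventually_ge_atTop sc, eventually_ge_atTop sp, eventually_ge_atTop sd,
      eventually_ge_atTop sg, eventually_ge_atTop sbb] with s h1 h2 h3 h4 h5 h6 h7 h8
    exact ⟨h1, h2, h3, h4, h5, h6, h7, h8⟩
  filter_upwards [hlarge, ESGcd.count_lower, ht.eventually e1, ht.eventually e2, ht.eventually e3,
    ht.eventually e4, ht.eventually e5, ht.eventually e6, ht.eventually e7, ht.eventually e8,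
    eventually_ge_atTop 2] with x hL hlow e1 e2 e3 e4 e5 e6 e7 e8 hx2
  set s : ℝ := √(log x) with hsdef
  obtain ⟨hs1, ha, hb, hc, hp, hd, hg, hbb⟩ := e8
  have hs0 : 0 < s := by linarith
  have hlogx : 0 ≤ log (x : ℝ) := log_natCast_nonneg x
  have hsx : log x = s ^ 2 := (sq_sqrt hlogx).symm
  clear_value s
  have hx0 : (0 : ℝ) < x := by exact_mod_cast (by omega : 0 < x)
  set B : ℝ := ε1 * (x / s) with hB
  have hxs : (0 : ℝ) < x / s := by positivity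
  have hB0 : 0 < B := by positivity
  -- the sum of 1/m
  have hfl1 : (1 : ℕ) ≤ ⌊exp (K * s)⌋₊ := by
    apply Nat.le_floor
    rw [Nat.cast_one]
    exact one_le_exp (by positivity)
  have hflle : (⌊exp (K * s)⌋₊ : ℝ) ≤ exp (K * s) := Nat.floor_le (exp_pos _).le
  have hxs2 : (x : ℝ) / s ^ 2 = (x / s) / s := by field_simp
  -- the ten sets
  set A0 : Finset ℕ := {n ∈ Icc 2 x | (n : ℝ) ≤ x / s ^ 2} with hA0
  set A1 : Finset ℕ := {n ∈ Icc 2 x | ESGcd.IsSolution n ∧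
    exp (K * s) < ((n / ESGcd.maxPrime n : ℕ) : ℝ)} with hA1
  set A2 : Finset ℕ := {n ∈ Icc 2 x | ¬ n.Prime ∧ Rule n ∧
    exp (K * s) < ((n / ESGcd.maxPrime n : ℕ) : ℝ) ∧ cofac n ≤ secPrime n} with hA2
  set A3 : Finset ℕ := {n ∈ Icc 2 x | ¬ n.Prime ∧ Rule n ∧
    exp (K * s) < ((n / ESGcd.maxPrime n : ℕ) : ℝ) ∧ secPrime n < cofac n ∧
    (n / ESGcd.maxPrime n) ^ 2 ≤ x} with hA3
  set A4 : Finset ℕ := {n ∈ Icc 2 x | ¬ n.Prime ∧ Rule n ∧ secPrime n < cofac n ∧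
    x < (n / ESGcd.maxPrime n) ^ 2} with hA4
  set S5 : Finset ℕ := {m ∈ Icc 1 ⌊exp (K * s)⌋₊ | (ESGcd.maxPrime m : ℝ) ≤ exp (δ * s)} with hS5
  set S6 : Finset ℕ := {m ∈ Icc 1 ⌊exp (K * s)⌋₊ | ∃ r : ℕ, r.Prime ∧ exp (δ * s) < r ∧
    r ^ 2 ∣ m} with hS6
  set S7 : Finset ℕ := {m ∈ Icc 1 ⌊exp (K * s)⌋₊ | exp (δ * s) < ESGcd.maxPrime m ∧
      (1 - ε2) * s ^ 2 < log (ESGcd.maxPrime m) *
        log ((m / ESGcd.maxPrime m : ℕ) : ℝ) ∧
      log (ESGcd.maxPrime m) * log ((m / ESGcd.maxPrime m : ℕ) : ℝ) <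
        (1 + ε2) * s ^ 2} with hS7
  set A5 : Finset ℕ := {n ∈ Icc 2 x | n / ESGcd.maxPrime n ∈ S5} with hA5
  set A6 : Finset ℕ := {n ∈ Icc 2 x | n / ESGcd.maxPrime n ∈ S6} with hA6
  set A7 : Finset ℕ := {n ∈ Icc 2 x | n / ESGcd.maxPrime n ∈ S7} with hA7
  set A8 : Finset ℕ := {n ∈ Icc 2 x | 2 ≤ n / ESGcd.maxPrime n ∧
      ((n / ESGcd.maxPrime n : ℕ) : ℝ) ≤ exp (K * s) ∧
      n / ESGcd.maxPrime n < ESGcd.maxPrime n ∧
      (∀ r : ℕ, r.Prime → r ^ 2 ∣ n / ESGcd.maxPrime n → (r : ℝ) ≤ exp (δ * s)) ∧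
      log (secPrime n) * log (cofac n) ≤ (1 - ε2) * s ^ 2 ∧
      ¬ ESGcd.IsSolution n} with hA8
  set A9 : Finset ℕ := {n ∈ Icc 2 x | 2 ≤ n / ESGcd.maxPrime n ∧
      ((n / ESGcd.maxPrime n : ℕ) : ℝ) ≤ exp (K * s) ∧
      n / ESGcd.maxPrime n < ESGcd.maxPrime n ∧
      (∀ r : ℕ, r.Prime → r ^ 2 ∣ n / ESGcd.maxPrime n → (r : ℝ) ≤ exp (δ * s)) ∧
      exp (δ * s) < secPrime n ∧
      (1 + ε2) * s ^ 2 ≤ log (secPrime n) * log (cofac n) ∧
      ESGcd.IsSolution n} with hA9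
  have memS : ∀ m : ℕ, m ∈ Icc 1 ⌊exp (K * s)⌋₊ ↔ 1 ≤ m ∧ (m : ℝ) ≤ exp (K * s) := by
    intro m
    rw [mem_Icc, Nat.le_floor_iff (exp_pos _).le]
  -- the set of exceptions
  set N : Finset ℕ := {n ∈ Icc 2 x | ¬ n.Prime ∧ ¬ (ESGcd.IsSolution n ↔ Rule n)} with hN
  have hNcard : ({n : ℕ | n ≤ x ∧ 1 < n ∧ ¬ n.Prime ∧ ¬ (ESGcd.IsSolution n ↔ Rule n)}.ncard : ℝ)
      = #N := by
    have : {n : ℕ | n ≤ x ∧ 1 < n ∧ ¬ n.Prime ∧ ¬ (ESGcd.IsSolution n ↔ Rule n)} =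
        (N : Set ℕ) := by
      ext n
      simp only [hN, Set.mem_ofPred_eq, coe_filter, mem_Icc]
      constructor
      · rintro ⟨h1, h2, h3⟩; exact ⟨⟨h2, h1⟩, h3⟩
      · rintro ⟨⟨h2, h1⟩, h3⟩; exact ⟨h1, h2, h3⟩
    rw [this, Set.ncard_coe_finset]
  have hcov : ∀ n ∈ N, ∃ A ∈ [A0, A1, A2, A3, A4, A5, A6, A7, A8, A9], n ∈ A := by
    intro n hn
    rw [hN, mem_filter] at hn
    obtain ⟨hnx, hnp, hnb⟩ := hn
    have hc := cover x n s K δ ε2 hsx hs1 hε2 (by linarith) (by linarith) hnx hnp hnb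
    simp only [List.mem_cons, List.not_mem_nil, or_false, exists_eq_or_imp, exists_eq_left]
    rcases hc with h | h | h | h | h | h | h | h | h | h
    · left; rw [hA0, mem_filter]; exact ⟨hnx, h⟩
    · right; left; rw [hA1, mem_filter]; exact ⟨hnx, h⟩
    · right; right; left; rw [hA2, mem_filter]; exact ⟨hnx, hnp, h⟩
    · right; right; right; left; rw [hA3, mem_filter]; exact ⟨hnx, hnp, h⟩
    · right; right; right; right; left; rw [hA4, mem_filter]; exact ⟨hnx, hnp, h⟩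
    · right; right; right; right; right; left
      rw [hA5, mem_filter, hS5, mem_filter, memS]
      exact ⟨hnx, ⟨h.1, h.2.1⟩, h.2.2⟩
    · right; right; right; right; right; right; left
      rw [hA6, mem_filter, hS6, mem_filter, memS]
      exact ⟨hnx, ⟨h.1, h.2.1⟩, h.2.2⟩
    · right; right; right; right; right; right; right; left
      rw [hA7, mem_filter, hS7, mem_filter, memS]
      exact ⟨hnx, ⟨h.1, h.2.1⟩, h.2.2⟩
    · right; right; right; right; right; right; right; right; left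
      rw [hA8, mem_filter]; exact ⟨hnx, h⟩
    · right; right; right; right; right; right; right; right; right
      rw [hA9, mem_filter]; exact ⟨hnx, h⟩
  have hKs : ∀ C : ℝ, C / ε1 ≤ K → C * (x / (K * s)) ≤ B := by
    intro C hC
    rw [div_le_iff₀ hε1p] at hC
    have : C * (x / (K * s)) = (C / K) * (x / s) := by field_simp
    rw [this, hB]
    have : C / K ≤ ε1 := by
      rw [div_le_iff₀ hK0]; linarith
    gcongr
  have hpS : ∀ S : Finset ℕ, (∀ m ∈ S, m ∈ Icc 1 ⌊exp (K * s)⌋₊) →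
      Cp * ∑ m ∈ S, (1 : ℝ) / m ≤ ε1 * s →
      (#{n ∈ Icc 2 x | n / ESGcd.maxPrime n ∈ S} : ℝ) ≤ B := by
    intro S hS h
    have h1 := hpair x s hp hsx S (fun m hm => (memS m).1 (hS m hm))
    refine h1.trans ?_
    calc Cp * (x / s ^ 2) * ∑ m ∈ S, (1 : ℝ) / m = (x / s ^ 2) * (Cp * ∑ m ∈ S, (1 : ℝ) / m) := by
          ring
      _ ≤ (x / s ^ 2) * (ε1 * s) := by gcongr
      _ = B := by rw [hB]; field_simp
  have b0 : (#A0 : ℝ) ≤ B := by
    have h1 : A0 ⊆ Icc 1 ⌊(x : ℝ) / s ^ 2⌋₊ := by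
      intro n hn
      rw [hA0, mem_filter, mem_Icc] at hn
      rw [mem_Icc]
      exact ⟨by omega, Nat.le_floor hn.2⟩
    have h2 := card_le_card h1
    rw [Nat.card_Icc, Nat.add_sub_cancel] at h2
    calc (#A0 : ℝ) ≤ (⌊(x : ℝ) / s ^ 2⌋₊ : ℝ) := by exact_mod_cast h2
      _ ≤ (x : ℝ) / s ^ 2 := Nat.floor_le (by positivity)
      _ = (x / s) * (1 / s) := by field_simp
      _ ≤ (x / s) * ε1 := by
          gcongr
          rw [div_le_iff₀ hs0]
          rw [div_le_iff₀ hε1p] at e6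
          linarith
      _ = B := by rw [hB]; ring
  have b1 : (#A1 : ℝ) ≤ B := by
    refine le_trans ?_ hL
    have h1 : (A1 : Set ℕ) ⊆ {n : ℕ | n ≤ x ∧ ESGcd.IsSolution n ∧
        exp (K1 * s) < ((n / ESGcd.maxPrime n : ℕ) : ℝ)} := by
      intro n hn
      rw [mem_coe, hA1, mem_filter, mem_Icc] at hn
      refine ⟨hn.1.2, hn.2.1, lt_of_le_of_lt ?_ hn.2.2⟩
      apply exp_le_exp.2
      gcongr
    have h2 := Set.ncard_le_ncard h1 (Set.Finite.subset (Set.finite_Iic x) fun n hn => hn.1)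
    rw [Set.ncard_coe_finset] at h2
    exact_mod_cast h2
  have b2 : (#A2 : ℝ) ≤ B := (hTLa x s ha hsx).trans (hKs Ca hKa)
  have b3 : (#A3 : ℝ) ≤ B := (hTLb x s hb hsx).trans (hKs Cb hKb)
  have b4 : (#A4 : ℝ) ≤ B := (hTLc x s hc hsx).trans (hKs Cc hKc)
  have hδs : 1 ≤ δ * s := by
    rw [div_le_iff₀ hδ] at e7; linarith
  have hexp2 : 2 ≤ exp (δ * s) := by
    have := add_one_le_exp (δ * s)
    linarith
  have b5 : (#A5 : ℝ) ≤ B := by
    refine hpS S5 (fun m hm => (mem_filter.1 hm).1) ?_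
    have h1 := hsmo (exp (δ * s)) S5 hexp2 (by
      intro m hm
      rw [hS5, mem_filter, memS] at hm
      refine ⟨hm.1.1, fun p hp hd => ?_⟩
      refine le_trans ?_ hm.2
      exact_mod_cast ESGcd.le_maxPrime (by have := hm.1.1; omega) hp hd)
    rw [log_exp] at h1
    calc Cp * ∑ m ∈ S5, (1 : ℝ) / m ≤ Cp * (Cs * (δ * s)) := by gcongr
      _ = (Cp * Cs * δ) * s := by ring
      _ ≤ ε1 * s := by gcongr
  have b6 : (#A6 : ℝ) ≤ B := by
    refine hpS S6 (fun m hm => (mem_filter.1 hm).1) ?_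
    have h1 := hsq (exp (δ * s)) ⌊exp (K * s)⌋₊ (by linarith) hfl1
    have h2 : log (⌊exp (K * s)⌋₊ : ℝ) ≤ K * s := by
      have := log_le_log (by exact_mod_cast hfl1) hflle
      rwa [log_exp] at this
    have h3 : ∑ m ∈ S6, (1 : ℝ) / m ≤ (K + 1) * s * (2 / exp (δ * s)) := by
      refine (le_of_eq ?_).trans (h1.trans ?_)
      · apply sum_congr _ fun _ _ => rfl
        rw [hS6]
      · have : log (⌊exp (K * s)⌋₊ : ℝ) + 1 ≤ (K + 1) * s := by linarith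
        gcongr
    have h4 : 2 * (Cp * (K + 1)) * s * exp (-(δ * s)) ≤ ε1 := e5
    calc Cp * ∑ m ∈ S6, (1 : ℝ) / m ≤ Cp * ((K + 1) * s * (2 / exp (δ * s))) := by gcongr
      _ = 2 * (Cp * (K + 1)) * s * exp (-(δ * s)) := by rw [exp_neg]; ring
      _ ≤ ε1 := h4
      _ ≤ ε1 * s := by nlinarith
  have b7 : (#A7 : ℝ) ≤ B := by
    refine hpS S7 (fun m hm => (mem_filter.1 hm).1) ?_
    have h1 := hbdr s hd
    have h2 : ∑ m ∈ S7, (1 : ℝ) / m ≤ 8 * ε2 * K * s := by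
      refine (le_of_eq ?_).trans h1
      apply sum_congr _ fun _ _ => rfl
      rw [hS7]
    calc Cp * ∑ m ∈ S7, (1 : ℝ) / m ≤ Cp * (8 * ε2 * K * s) := by gcongr
      _ = Cp * (8 * ε2 * K) * s := by ring
      _ ≤ ε1 * s := by gcongr
  have b8 : (#A8 : ℝ) ≤ B := by
    refine (hgood x s hg hsx).trans ?_
    rw [hB]
    have : exp (-(cg * s)) ≤ ε1 / s := by rw [le_div_iff₀ hs0]; linarith
    calc exp (-(cg * s)) * x ≤ ε1 / s * x := by gcongr
      _ = ε1 * (x / s) := by ring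
  have b9 : (#A9 : ℝ) ≤ B := by
    refine (hbad x s hbb hsx).trans ?_
    rw [hB]
    have : exp (-(cb * s)) ≤ ε1 / s := by rw [le_div_iff₀ hs0]; linarith
    calc exp (-(cb * s)) * x ≤ ε1 / s * x := by gcongr
      _ = ε1 * (x / s) := by ring
  have htot := card_cover N [A0, A1, A2, A3, A4, A5, A6, A7, A8, A9] B hcov (by
    intro A hA
    simp only [List.mem_cons, List.not_mem_nil, or_false] at hA
    rcases hA with rfl | rfl | rfl | rfl | rfl | rfl | rfl | rfl | rfl | rfl <;> assumption)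
  rw [hNcard]
  refine htot.trans ?_
  simp only [List.length_cons, List.length_nil]
  have h320 : B * 10 ≤ ε * (x / (320 * s)) := by
    rw [hB, hε1]
    have e : ε * (x / (320 * s)) = ε / 3840 * (x / s) * 12 := by field_simp; norm_num
    rw [e]
    have : 0 < ε / 3840 * (x / s) := by positivity
    linarith
  calc ((0 + 1 + 1 + 1 + 1 + 1 + 1 + 1 + 1 + 1 + 1 : ℕ) : ℝ) * B = B * 10 := by
        push_cast; ring
    _ ≤ ε * (x / (320 * s)) := h320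
    _ ≤ _ := by gcongr

end ESAs
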