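import Pool.Agent.ESAs.Stmts

namespace ESAs

open Finset
open scoped Classical

namespace GH

lemma card_pf {m : ℕ} {y : ℝ} (hm : m ≠ 0) (h : (m : ℝ) ≤ Real.exp y) :
    (#m.primeFactors : ℝ) ≤ 2 * y := by
  have h1 : 2 ^ #m.primeFactors ≤ m := by
    have h2 : 2 ^ #m.primeFactors ≤ ∏ p ∈ m.primeFactors, p := by
      apply pow_card_le_prod
      intro p hp
      exact (Nat.prime_of_mem_primeFactors hp).two_le
    exact h2.trans (Nat.le_of_dvd (Nat.pos_of_ne_zero hm) (Nat.prod_primeFactors_dvd m))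
  have h3 : (2 : ℝ) ^ #m.primeFactors ≤ Real.exp y := by
    have : ((2 ^ #m.primeFactors : ℕ) : ℝ) ≤ m := by exact_mod_cast h1
    push_cast at this
    exact this.trans h
  have h4 := Real.log_le_log (by positivity) h3
  rw [Real.log_pow, Real.log_exp] at h4
  have h5 : (1 / 2 : ℝ) ≤ Real.log 2 := by
    have := Real.log_two_gt_d9
    linarith
  have h6 : (0 : ℝ) ≤ #m.primeFactors := Nat.cast_nonneg _
  nlinarith

end GH

theorem tGH (hsolG : St_solG) (hGHs : St_GHs) (hGHl : St_GHl) : St_GH := by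
  intro K δ ε hK hδ hKδ hε hε2
  obtain ⟨s1, hs1, H1⟩ := hGHs K δ hK hδ hKδ
  obtain ⟨c2, s2, hc2, hs2, H2⟩ := hGHl K δ ε hK hδ hε hε2
  set c1 := min 1 c2 with hc1d
  have hc1 : 0 < c1 := lt_min one_pos hc2
  have hK0 : 0 < K := by linarith
  refine ⟨c1 / 2, s1 + s2 + 16 * K / c1 ^ 2 + K + 1, by positivity, by positivity, ?_⟩
  intro x m s hs hx hm hmK hsqf hlog
  have hp16 : 0 < 16 * K / c1 ^ 2 := by positivity
  have t1 : s1 ≤ s := by linarith
  have t2 : s2 ≤ s := by linarith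
  have t3 : 16 * K / c1 ^ 2 ≤ s := by linarith
  have t4 : K + 1 ≤ s := by linarith
  have hs0 : 0 < s := by linarith
  have hm0 : m ≠ 0 := by omega
  have hmr : (0 : ℝ) < m := by exact_mod_cast Nat.pos_of_ne_zero hm0
  have hlm : Real.log m ≤ K * s := by
    rw [← Real.log_exp (K * s)]
    exact Real.log_le_log hmr hmK
  have hKs : K * s ≤ s ^ 2 := by nlinarith
  have hx0 : x ≠ 0 := by
    rintro rfl
    simp at hx
    nlinarith
  have hxr : (0 : ℝ) < x := by exact_mod_cast Nat.pos_of_ne_zero hx0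
  have hmx : m ≤ x := by
    have h1 : Real.log m ≤ Real.log x := by rw [hx]; linarith
    have h2 := (Real.log_le_log_iff hmr hxr).1 h1
    exact_mod_cast h2
  set X := x / m with hX
  have hX1 : 1 ≤ X := Nat.div_pos hmx (by omega)
  have hX1r : (1 : ℝ) ≤ X := by exact_mod_cast hX1
  have hXle : (X : ℝ) ≤ (x : ℝ) / m := Nat.cast_div_le
  have hlX : s ^ 2 - K * s ≤ Real.log X + 1 := by
    have h1 : x < m * (X + 1) := by
      have := Nat.lt_mul_div_succ x (Nat.pos_of_ne_zero hm0)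
      exact this
    have h2 : (x : ℝ) < m * (X + 1) := by exact_mod_cast h1
    have h3 : (x : ℝ) / m ≤ 2 * X := by
      rw [div_le_iff₀ hmr]
      nlinarith
    have h4 := Real.log_le_log (by positivity) h3
    rw [Real.log_div hxr.ne' hmr.ne', Real.log_mul (by norm_num) (by positivity), hx] at h4
    have h5 := Real.log_two_lt_d9
    linarith
  have hbound : ∀ r ∈ m.primeFactors,
      (#{P ∈ Icc 1 X | ((r : ℝ) ≤ Real.exp (δ * s) ∧
          ∃ j, 0 < j ∧ j < m ∧ ∀ L, carr r m j L P < m.factorization r) ∨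
        (Real.exp (δ * s) < r ∧ ∃ J, 0 < J ∧ J < m / r ∧ ∀ L, Dom r J (m / r) L P)} : ℝ) ≤
        Real.exp (-(c1 * s)) * X := by
    intro r hr
    have hrp := Nat.prime_of_mem_primeFactors hr
    have hrd := Nat.dvd_of_mem_primeFactors hr
    rcases le_or_gt ((r : ℝ)) (Real.exp (δ * s)) with h | h
    · have h1 := H1 X m r s t1 hlX hm hmK hrp hrd h
      have h2 : ({P ∈ Icc 1 X | ((r : ℝ) ≤ Real.exp (δ * s) ∧
          ∃ j, 0 < j ∧ j < m ∧ ∀ L, carr r m j L P < m.factorization r) ∨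
        (Real.exp (δ * s) < r ∧ ∃ J, 0 < J ∧ J < m / r ∧ ∀ L, Dom r J (m / r) L P)}) ⊆
          {P ∈ Icc 1 X | ∃ j, 0 < j ∧ j < m ∧ ∀ L, carr r m j L P < m.factorization r} := by
        intro P hP
        rw [mem_filter] at hP ⊢
        refine ⟨hP.1, ?_⟩
        rcases hP.2 with h3 | h3
        · exact h3.2
        · exact absurd h3.1 (not_lt.2 h)
      have h3 : ((#{P ∈ Icc 1 X | ((r : ℝ) ≤ Real.exp (δ * s) ∧
          ∃ j, 0 < j ∧ j < m ∧ ∀ L, carr r m j L P < m.factorization r) ∨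
        (Real.exp (δ * s) < r ∧ ∃ J, 0 < J ∧ J < m / r ∧ ∀ L, Dom r J (m / r) L P)} : ℕ) : ℝ) ≤
          (#{P ∈ Icc 1 X | ∃ j, 0 < j ∧ j < m ∧ ∀ L, carr r m j L P < m.factorization r} : ℕ) := by
        exact_mod_cast card_le_card h2
      refine h3.trans (h1.trans ?_)
      apply mul_le_mul_of_nonneg_right _ (Nat.cast_nonneg _)
      apply Real.exp_le_exp.2
      have : c1 ≤ 1 := min_le_left _ _
      nlinarith
    · have hr2 : ¬ r ^ 2 ∣ m := fun hd => absurd (hsqf r hrp hd) (not_le.2 h)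
      have h1 := H2 X m r s t2 hlX hm hmK hrp hrd hr2 h hlog
      have h2 : ({P ∈ Icc 1 X | ((r : ℝ) ≤ Real.exp (δ * s) ∧
          ∃ j, 0 < j ∧ j < m ∧ ∀ L, carr r m j L P < m.factorization r) ∨
        (Real.exp (δ * s) < r ∧ ∃ J, 0 < J ∧ J < m / r ∧ ∀ L, Dom r J (m / r) L P)}) ⊆
          {P ∈ Icc 1 X | ∃ J, 0 < J ∧ J < m / r ∧ ∀ L, Dom r J (m / r) L P} := by
        intro P hP
        rw [mem_filter] at hP ⊢
        refine ⟨hP.1, ?_⟩
        rcases hP.2 with h3 | h3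
        · exact absurd h3.1 (not_le.2 h)
        · exact h3.2
      have h3 : ((#{P ∈ Icc 1 X | ((r : ℝ) ≤ Real.exp (δ * s) ∧
          ∃ j, 0 < j ∧ j < m ∧ ∀ L, carr r m j L P < m.factorization r) ∨
        (Real.exp (δ * s) < r ∧ ∃ J, 0 < J ∧ J < m / r ∧ ∀ L, Dom r J (m / r) L P)} : ℕ) : ℝ) ≤
          (#{P ∈ Icc 1 X | ∃ J, 0 < J ∧ J < m / r ∧ ∀ L, Dom r J (m / r) L P} : ℕ) := by
        exact_mod_cast card_le_card h2
      refine h3.trans (h1.trans ?_)
      apply mul_le_mul_of_nonneg_right _ (Nat.cast_nonneg _)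
      apply Real.exp_le_exp.2
      have : c1 ≤ c2 := min_le_right _ _
      nlinarith
  have hsub : ({P ∈ Icc 1 X | P.Prime ∧ m < P ∧ ¬ ESGcd.IsSolution (m * P)}) ⊆
      m.primeFactors.biUnion fun r => {P ∈ Icc 1 X | ((r : ℝ) ≤ Real.exp (δ * s) ∧
          ∃ j, 0 < j ∧ j < m ∧ ∀ L, carr r m j L P < m.factorization r) ∨
        (Real.exp (δ * s) < r ∧ ∃ J, 0 < J ∧ J < m / r ∧ ∀ L, Dom r J (m / r) L P)} := by
    intro P hP
    rw [mem_filter] at hP
    obtain ⟨hP1, hPp, hPm, hPs⟩ := hP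
    obtain ⟨r, hr, hrm, j, j0, j1, hj, hJ⟩ := hsolG m P hm hPp hPm hPs
    rw [mem_biUnion]
    refine ⟨r, Nat.mem_primeFactors.2 ⟨hr, hrm, hm0⟩, ?_⟩
    rw [mem_filter]
    refine ⟨hP1, ?_⟩
    rcases le_or_gt ((r : ℝ)) (Real.exp (δ * s)) with h | h
    · left; exact ⟨h, j, j0, j1, hj⟩
    · right
      refine ⟨h, hJ ?_⟩
      have hr2 : ¬ r ^ 2 ∣ m := fun hd => absurd (hsqf r hr hd) (not_le.2 h)
      have h1 : 1 ≤ m.factorization r := hr.factorization_pos_of_dvd hm0 hrm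
      have h2 : ¬ 2 ≤ m.factorization r := fun h3 =>
        hr2 ((hr.pow_dvd_iff_le_factorization hm0).2 h3)
      omega
  have hfin : (#{P ∈ Icc 1 X | P.Prime ∧ m < P ∧ ¬ ESGcd.IsSolution (m * P)} : ℝ) ≤
      #m.primeFactors * (Real.exp (-(c1 * s)) * X) := by
    have h1 := (card_le_card hsub).trans card_biUnion_le
    have h2 : (#{P ∈ Icc 1 X | P.Prime ∧ m < P ∧ ¬ ESGcd.IsSolution (m * P)} : ℝ) ≤
        ∑ r ∈ m.primeFactors, (#{P ∈ Icc 1 X | ((r : ℝ) ≤ Real.exp (δ * s) ∧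
          ∃ j, 0 < j ∧ j < m ∧ ∀ L, carr r m j L P < m.factorization r) ∨
        (Real.exp (δ * s) < r ∧ ∃ J, 0 < J ∧ J < m / r ∧ ∀ L, Dom r J (m / r) L P)} : ℝ) := by
      exact_mod_cast h1
    refine h2.trans ((sum_le_sum hbound).trans ?_)
    rw [sum_const, nsmul_eq_mul]
  have hpf := GH.card_pf hm0 hmK
  have hgrow : 2 * (K * s) ≤ Real.exp (c1 * s / 2) := by
    have h1 : (c1 * s / 2) ^ 2 / 2 ≤ Real.exp (c1 * s / 2) := by
      have := Real.quadratic_le_exp_of_nonneg (show 0 ≤ c1 * s / 2 by positivity)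
      have h2 : 0 ≤ c1 * s / 2 := by positivity
      linarith
    refine le_trans ?_ h1
    rw [div_le_iff₀ (by positivity)] at t3
    nlinarith
  calc (#{P ∈ Icc 1 X | P.Prime ∧ m < P ∧ ¬ ESGcd.IsSolution (m * P)} : ℝ) ≤
      #m.primeFactors * (Real.exp (-(c1 * s)) * X) := hfin
    _ ≤ 2 * (K * s) * (Real.exp (-(c1 * s)) * X) :=
        mul_le_mul_of_nonneg_right hpf (by positivity)
    _ ≤ Real.exp (c1 * s / 2) * (Real.exp (-(c1 * s)) * X) :=
        mul_le_mul_of_nonneg_right hgrow (by positivity)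
    _ = Real.exp (-(c1 / 2 * s)) * X := by
        rw [← mul_assoc, ← Real.exp_add]
        congr 2; ring
    _ ≤ Real.exp (-(c1 / 2 * s)) * ((x : ℝ) / m) :=
        mul_le_mul_of_nonneg_left hXle (Real.exp_pos _).le

end ESAs
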