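import Pool.Agent.ESAs.Stmts

open Finset

namespace ESAs

namespace GHl

lemma dom_mod (r J M L n : ℕ) : Dom r J M L (n % r ^ L) ↔ Dom r J M L n := by
  have key : ∀ a i, i < L → (a * (n % r ^ L)) % r ^ (i + 1) = (a * n) % r ^ (i + 1) := by
    intro a i hi
    have h1 : n % r ^ L ≡ n [MOD r ^ (i + 1)] :=
      (Nat.mod_modEq n (r ^ L)).of_dvd (pow_dvd_pow r hi)
    exact h1.mul_left a
  unfold Dom
  constructor
  · intro h i hi
    have := h i hi
    rwa [key J i hi, key M i hi] at this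
  · intro h i hi
    rw [key J i hi, key M i hi]
    exact h i hi

lemma le_maxPrime {m r : ℕ} (hm : m ≠ 0) (hr : r.Prime) (h : r ∣ m) : r ≤ ESGcd.maxPrime m := by
  unfold ESGcd.maxPrime
  exact Finset.le_sup (f := id) (Nat.mem_primeFactors.2 ⟨hr, h, hm⟩)

/-- among the prime factors the largest one gives the largest product -/
lemma log_mul_log_le {m r : ℕ} (hm : 2 ≤ m) (hr : r.Prime) (h : r ∣ m) :
    Real.log r * Real.log ((m / r : ℕ) : ℝ) ≤
      Real.log (ESGcd.maxPrime m) * Real.log ((m / ESGcd.maxPrime m : ℕ) : ℝ) := by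
  obtain ⟨hq, hqm⟩ := ESGcd.maxPrime_spec hm
  have hle := le_maxPrime (by omega) hr h
  set q := ESGcd.maxPrime m with hqdef
  rcases eq_or_ne r q with e | hne
  · rw [e]
  · have hcop : Nat.Coprime r q := (Nat.coprime_primes hr hq).2 hne
    obtain ⟨k, hk⟩ := hcop.mul_dvd_of_dvd_of_dvd h hqm
    have hk0 : 0 < k := by
      rcases Nat.eq_zero_or_pos k with h0 | h0
      · rw [h0, mul_zero] at hk; omega
      · exact h0
    have e1 : m / r = q * k := by
      rw [hk, mul_assoc, Nat.mul_div_cancel_left _ hr.pos]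
    have e2 : m / q = r * k := by
      rw [hk, show r * q * k = q * (r * k) by ring, Nat.mul_div_cancel_left _ hq.pos]
    rw [e1, e2]
    have r0 : (r : ℝ) ≠ 0 := by exact_mod_cast hr.ne_zero
    have q0 : (q : ℝ) ≠ 0 := by exact_mod_cast hq.ne_zero
    have k0 : (k : ℝ) ≠ 0 := by exact_mod_cast hk0.ne'
    push_cast
    rw [Real.log_mul q0 k0, Real.log_mul r0 k0]
    have l1 : 0 ≤ Real.log k := Real.log_nonneg (by exact_mod_cast hk0)
    have l2 : Real.log r ≤ Real.log q :=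
      Real.log_le_log (by exact_mod_cast hr.pos) (by exact_mod_cast hle)
    nlinarith [mul_le_mul_of_nonneg_right l2 l1]

end GHl

open GHl

theorem tGHl (hSG : St_SG) (hper : St_per) : St_GHl := by
  classical
  intro K δ ε hK hδ hε hε2
  obtain ⟨q0, L0, C, c, hC, hc, hmain⟩ := hSG (ε / 8) ⌈K / δ⌉₊ (by positivity) (by linarith)
  have hK0 : 0 < K := by linarith
  refine ⟨c / (4 * K), 6 * K + 2 * K * L0 + 6 * K / ε + q0 / δ + 8 * C * K / c + 1,
    by positivity, by positivity, ?_⟩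
  intro X m r s hs hX hm hme hr hrm hr2 hrs hlog
  -- consequences of the size of `s`
  have a1 : 0 ≤ 2 * K * (L0 : ℝ) := by positivity
  have a2 : 0 ≤ 6 * K / ε := by positivity
  have a3 : 0 ≤ (q0 : ℝ) / δ := by positivity
  have a4 : 0 ≤ 8 * C * K / c := by positivity
  have s1 : 6 * K ≤ s := by linarith
  have s2 : 2 * K * L0 ≤ s := by linarith
  have s3 : 6 * K / ε ≤ s := by linarith
  have s4 : (q0 : ℝ) / δ ≤ s := by linarith
  have s5 : 8 * C * K / c ≤ s := by linarith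
  have sp : 0 < s := by linarith
  rw [div_le_iff₀ hε] at s3
  rw [div_le_iff₀ hδ] at s4
  rw [div_le_iff₀ hc] at s5
  have hKs : 1 ≤ K * s := by nlinarith
  -- `X`
  have hX1 : 1 ≤ X := by
    rcases Nat.eq_zero_or_pos X with h0 | h0
    · rw [h0, Nat.cast_zero, Real.log_zero] at hX
      nlinarith
    · exact h0
  have hr0 : (0 : ℝ) < r := by exact_mod_cast hr.pos
  have hr1 : (1 : ℝ) < r := by exact_mod_cast hr.one_lt
  have hlr : 0 < Real.log r := Real.log_pos hr1
  have hm0 : (0 : ℝ) < m := by exact_mod_cast (by omega : 0 < m)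
  have hlm : Real.log m ≤ K * s := by
    have := Real.log_le_log hm0 hme
    rwa [Real.log_exp] at this
  have hrm' : r ≤ m := Nat.le_of_dvd (by omega) hrm
  have hlrm : Real.log r ≤ K * s :=
    (Real.log_le_log hr0 (by exact_mod_cast hrm')).trans hlm
  -- `L`
  set L := Nat.log r X with hL
  have hLX : r ^ L ≤ X := Nat.pow_log_le_self r (by omega)
  have hXL : X < r ^ (L + 1) := Nat.lt_pow_succ_log_self hr.one_lt X
  have hlX : Real.log X ≤ ((L : ℝ) + 1) * Real.log r := by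
    have h1 : (X : ℝ) ≤ (r : ℝ) ^ (L + 1) := by exact_mod_cast hXL.le
    have h2 := Real.log_le_log (by exact_mod_cast hX1) h1
    rw [Real.log_pow] at h2
    push_cast at h2
    exact h2
  have hLr : s ^ 2 - 2 * (K * s) - 1 ≤ L * Real.log r := by nlinarith
  have hLs : s / (2 * K) ≤ L := by
    rw [div_le_iff₀ (by positivity)]
    by_contra hcon
    rw [not_le] at hcon
    have h1 : (L : ℝ) * Real.log r ≤ L * (K * s) :=
      mul_le_mul_of_nonneg_left hlrm (Nat.cast_nonneg _)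
    have h2 : (L : ℝ) * (K * s) ≤ s / 2 * s := by
      have : (L : ℝ) * K ≤ s / 2 := by linarith
      nlinarith
    nlinarith
  have hLL0 : L0 ≤ L := by
    have h1 : (L0 : ℝ) ≤ s / (2 * K) := by
      rw [le_div_iff₀ (by positivity)]
      linarith
    exact_mod_cast h1.trans hLs
  -- `M`
  set M := m / r with hM
  have hmM : m = r * M := (Nat.mul_div_cancel' hrm).symm
  have hM1 : 1 ≤ M := Nat.div_pos hrm' hr.pos
  have hrM : ¬ r ∣ M := by
    rintro ⟨k, hk⟩
    apply hr2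
    exact ⟨k, by rw [hmM, hk]; ring⟩
  have hMm : M ≤ m := Nat.div_le_self _ _
  have hMr : M ≤ r ^ (⌈K / δ⌉₊ + 1) := by
    have h1 : (M : ℝ) ≤ (r : ℝ) ^ ⌈K / δ⌉₊ := by
      calc (M : ℝ) ≤ m := by exact_mod_cast hMm
        _ ≤ Real.exp (K * s) := hme
        _ ≤ Real.exp (⌈K / δ⌉₊ * (δ * s)) := by
          apply Real.exp_le_exp.2
          have h2 := Nat.le_ceil (K / δ)
          rw [div_le_iff₀ hδ] at h2
          nlinarith
        _ = Real.exp (δ * s) ^ ⌈K / δ⌉₊ := by rw [← Real.exp_nat_mul]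
        _ ≤ (r : ℝ) ^ ⌈K / δ⌉₊ := pow_le_pow_left₀ (Real.exp_pos _).le hrs.le _
    have h2 : M ≤ r ^ ⌈K / δ⌉₊ := by exact_mod_cast h1
    exact h2.trans (Nat.pow_le_pow_right hr.pos (by omega))
  have hq0 : q0 ≤ r := by
    have h1 : (q0 : ℝ) ≤ r := by
      have := Real.add_one_le_exp (δ * s)
      linarith
    exact_mod_cast h1
  have hlM : Real.log M ≤ (1 - 4 * (ε / 8)) * L := by
    have h1 := (log_mul_log_le hm hr hrm).trans hlog
    have h2 : (1 - ε) * s ^ 2 ≤ (1 - ε / 2) * (L * Real.log r) := by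
      have h3 : (1 - ε) * s ^ 2 ≤ (1 - ε / 2) * (s ^ 2 - 2 * (K * s) - 1) := by
        nlinarith [mul_le_mul_of_nonneg_right s3 sp.le]
      exact h3.trans (mul_le_mul_of_nonneg_left hLr (by linarith))
    have h3 : Real.log r * Real.log M ≤ Real.log r * ((1 - ε / 2) * L) := by
      calc Real.log r * Real.log M ≤ (1 - ε) * s ^ 2 := h1
        _ ≤ (1 - ε / 2) * (L * Real.log r) := h2
        _ = Real.log r * ((1 - ε / 2) * L) := by ring
    have h4 := le_of_mul_le_mul_left h3 hlr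
    linarith
  have hcount := hmain r M L hr hq0 hLL0 hrM hM1 hMr hlM
  -- periodicity
  have hp := hper (r ^ L) X (fun n => ∃ J, 0 < J ∧ J < M ∧ Dom r J M L n) (pow_pos hr.pos L) hLX
    (fun n => by simp only [dom_mod])
  have hsub : (#{P ∈ Icc 1 X | ∃ J, 0 < J ∧ J < M ∧ ∀ L, Dom r J M L P} : ℝ) ≤
      (#{n ∈ Icc 1 X | ∃ J, 0 < J ∧ J < M ∧ Dom r J M L n} : ℝ) := by
    have : #{P ∈ Icc 1 X | ∃ J, 0 < J ∧ J < M ∧ ∀ L, Dom r J M L P} ≤
        #{n ∈ Icc 1 X | ∃ J, 0 < J ∧ J < M ∧ Dom r J M L n} := by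
      apply card_le_card
      intro P hP
      rw [mem_filter] at hP ⊢
      obtain ⟨h1, J, j1, j2, j3⟩ := hP
      exact ⟨h1, J, j1, j2, j3 L⟩
    exact_mod_cast this
  refine hsub.trans (hp.trans ?_)
  have hQ : (0 : ℝ) < (r : ℝ) ^ L := by positivity
  have hXr : (0 : ℝ) ≤ X := Nat.cast_nonneg _
  have e1 : 2 * ((X : ℝ) / ((r ^ L : ℕ) : ℝ)) *
      (#{n ∈ range (r ^ L) | ∃ J, 0 < J ∧ J < M ∧ Dom r J M L n} : ℝ) ≤
      2 * ((X : ℝ) / ((r ^ L : ℕ) : ℝ)) * (C * (r : ℝ) ^ L * Real.exp (-(c * L))) :=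
    mul_le_mul_of_nonneg_left hcount (by positivity)
  refine e1.trans ?_
  push_cast
  have e2 : 2 * ((X : ℝ) / (r : ℝ) ^ L) * (C * (r : ℝ) ^ L * Real.exp (-(c * L))) =
      2 * C * Real.exp (-(c * L)) * X := by
    field_simp
  rw [e2]
  refine mul_le_mul_of_nonneg_right ?_ hXr
  -- `2 C e^{-cL} ≤ e^{-c s / (4K)}`
  have h1 : Real.exp (-(c * L)) ≤ Real.exp (-(c * (s / (2 * K)))) := by
    apply Real.exp_le_exp.2
    nlinarith
  have h2 : 2 * C ≤ Real.exp (c / (4 * K) * s) := by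
    have h3 := Real.add_one_le_exp (c / (4 * K) * s)
    have h4 : 2 * C ≤ c / (4 * K) * s := by
      rw [div_mul_eq_mul_div, le_div_iff₀ (by positivity)]
      linarith
    linarith
  calc 2 * C * Real.exp (-(c * L)) ≤
      Real.exp (c / (4 * K) * s) * Real.exp (-(c * (s / (2 * K)))) :=
        mul_le_mul h2 h1 (Real.exp_pos _).le (Real.exp_pos _).le
    _ = Real.exp (-(c / (4 * K) * s)) := by
        rw [← Real.exp_add]
        congr 1
        field_simp
        ring

end ESAs
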