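import Pool.Agent.ESAs.Stmts

namespace ESAs

open Finset
open scoped Classical

namespace GHs

lemma carr_mod (r m j L n : ℕ) : carr r m j L (n % r ^ L) = carr r m j L n := by
  unfold carr
  congr 1
  refine filter_congr fun i hi => ?_
  rw [mem_range] at hi
  have hd : r ^ (i + 1) ∣ r ^ L := pow_dvd_pow r (by omega)
  have h1 : ∀ c : ℕ, (c * (n % r ^ L)) % r ^ (i + 1) = (c * n) % r ^ (i + 1) := fun c =>
    ((Nat.mod_modEq n (r ^ L)).of_dvd hd).mul_left c
  rw [h1, h1]

end GHs

theorem tGHs (hcrude : St_crude) (hper : St_per) : St_GHs := by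
  intro K δ hK hδ hKδ
  refine ⟨2 * (K + 2) * (K + 1) + 41 * K + 3, by positivity, ?_⟩
  intro X m r s hs hX hm hmK hr hrm hrδ
  have hKK : 0 ≤ 2 * (K + 2) * (K + 1) := by positivity
  have hs1 : 1 ≤ s := by nlinarith
  have hs2 : 41 * K + 3 ≤ s := by linarith
  have hlr : 0 < Real.log r := Real.log_pos (by exact_mod_cast hr.one_lt)
  have hr0 : (0 : ℝ) < r := by exact_mod_cast hr.pos
  have hlrδ : Real.log r ≤ δ * s := by
    rw [← Real.log_exp (δ * s)]
    exact Real.log_le_log hr0 hrδ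
  have hlX : s ^ 2 - K * s - 1 ≤ Real.log X := by linarith
  have hδ1 : 600 * δ ≤ 1 := by nlinarith
  have hsq : s * (41 * K + 3) ≤ s * s := mul_le_mul_of_nonneg_left hs2 (by linarith)
  have hXpos : 0 < X := by
    rcases Nat.eq_zero_or_pos X with h | h
    · rw [h] at hlX
      simp at hlX
      nlinarith
    · exact h
  have hm0 : m ≠ 0 := by omega
  set L := Nat.log r X with hL
  have hL1 : r ^ L ≤ X := Nat.pow_log_le_self r hXpos.ne'
  have hL2 : X < r ^ (L + 1) := Nat.lt_pow_succ_log_self hr.one_lt X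
  have hL3 : Real.log X ≤ (L + 1) * Real.log r := by
    have h1 : (X : ℝ) ≤ (r : ℝ) ^ (L + 1) := by exact_mod_cast hL2.le
    have h2 := Real.log_le_log (by exact_mod_cast hXpos) h1
    rw [Real.log_pow] at h2
    push_cast at h2
    exact h2
  have hlm : Real.log m ≤ K * s := by
    rw [← Real.log_exp (K * s)]
    exact Real.log_le_log (by positivity) hmK
  have hv : 1 ≤ m.factorization r := hr.factorization_pos_of_dvd hm0 hrm
  set a := m.factorization r - 1 with ha
  set σ := Nat.log r m with hσ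
  have hvl : ((m.factorization r : ℕ) : ℝ) * Real.log r ≤ K * s := by
    have h1 : r ^ m.factorization r ≤ m := Nat.le_of_dvd (by omega) (Nat.ordProj_dvd m r)
    have h2 : (r : ℝ) ^ m.factorization r ≤ m := by exact_mod_cast h1
    have h3 := Real.log_le_log (by positivity) h2
    rw [Real.log_pow] at h3
    linarith
  have hσl : (σ : ℝ) * Real.log r ≤ K * s := by
    have h1 : r ^ σ ≤ m := Nat.pow_log_le_self r hm0
    have h2 : (r : ℝ) ^ σ ≤ m := by exact_mod_cast h1
    have h3 := Real.log_le_log (by positivity) h2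
    rw [Real.log_pow] at h3
    linarith
  have hLσ : 20 * (σ + a + 1) ≤ L := by
    by_contra hc
    have h1 : L + 1 ≤ 20 * (σ + m.factorization r) := by omega
    have h2 : ((L : ℝ) + 1) ≤ 20 * ((σ : ℝ) + (m.factorization r : ℕ)) := by exact_mod_cast h1
    have h3 := mul_le_mul_of_nonneg_right h2 hlr.le
    nlinarith
  have hL400 : 400 ≤ L := by
    by_contra hc
    have h1 : L + 1 ≤ 400 := by omega
    have h2 : ((L : ℝ) + 1) ≤ 400 := by exact_mod_cast h1
    have h3 := mul_le_mul_of_nonneg_right h2 hlr.le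
    have h4 : 400 * Real.log r ≤ s := by nlinarith
    nlinarith
  have hLbig : 200 * (K + 2) * (s - K - 1) ≤ (L : ℝ) + 1 := by
    have h1 : s ^ 2 - K * s - 1 ≤ ((L : ℝ) + 1) * (δ * s) := by
      have := mul_le_mul_of_nonneg_left hlrδ (show (0 : ℝ) ≤ (L : ℝ) + 1 by positivity)
      linarith
    have h2 : s * (s - K - 1) ≤ s * (((L : ℝ) + 1) * δ) := by nlinarith
    have h3 : s - K - 1 ≤ ((L : ℝ) + 1) * δ := le_of_mul_le_mul_left h2 (by linarith)
    have h4 := mul_le_mul_of_nonneg_left h3 (show (0 : ℝ) ≤ 200 * (K + 2) by positivity)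
    have h5 := mul_le_mul_of_nonneg_left hKδ (show (0 : ℝ) ≤ (L : ℝ) + 1 by positivity)
    nlinarith
  have hexp : Real.log 6 + K * s + s ≤ (L : ℝ) / 100 := by
    have h6 : Real.log 6 ≤ 2 := by
      have h7 : (6 : ℝ) ≤ Real.exp 2 := by
        have h8 := Real.exp_one_gt_d9
        have h9 : Real.exp 2 = Real.exp 1 * Real.exp 1 := by rw [← Real.exp_add]; norm_num
        rw [h9]; nlinarith
      calc Real.log 6 ≤ Real.log (Real.exp 2) := Real.log_le_log (by norm_num) h7
        _ = 2 := Real.log_exp 2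
    nlinarith
  -- one `j`
  have hj : ∀ j ∈ Ioo 0 m, (#{P ∈ Icc 1 X | carr r m j L P ≤ a} : ℝ) ≤
      6 * X * Real.exp (-((L : ℝ) / 100)) := by
    intro j hj
    rw [mem_Ioo] at hj
    have hlt : m < r ^ (σ + 1) := Nat.lt_pow_succ_log_self hr.one_lt m
    have c1 := hcrude r m j L a σ hr hj.1 hj.2
      (fun h => by have := Nat.le_of_dvd hj.1 h; omega)
      (fun h => by have := Nat.le_of_dvd (by omega) h; omega)
      (fun h => by have := Nat.le_of_dvd (by omega) h; omega) hLσ hL400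
    have hQ : 0 < r ^ L := pow_pos hr.pos L
    have c2 : (#{n ∈ Icc 1 X | carr r m j L n ≤ a} : ℝ) ≤
        2 * ((X : ℝ) / ((r ^ L : ℕ) : ℝ)) * (#{n ∈ range (r ^ L) | carr r m j L n ≤ a} : ℝ) := by
      convert hper (r ^ L) X (fun n => carr r m j L n ≤ a) hQ hL1
        (fun n => by simp only [GHs.carr_mod])
    have hQr : (0 : ℝ) < (r : ℝ) ^ L := by positivity
    refine c2.trans ?_
    calc 2 * ((X : ℝ) / ((r ^ L : ℕ) : ℝ)) * (#{n ∈ range (r ^ L) | carr r m j L n ≤ a} : ℝ) ≤
        2 * ((X : ℝ) / ((r ^ L : ℕ) : ℝ)) * (3 * (r : ℝ) ^ L * Real.exp (-((L : ℝ) / 100))) :=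
          mul_le_mul_of_nonneg_left c1 (by positivity)
      _ = 6 * X * Real.exp (-((L : ℝ) / 100)) := by
          push_cast
          field_simp
          ring
  have hsub : ({P ∈ Icc 1 X | ∃ j, 0 < j ∧ j < m ∧ ∀ L, carr r m j L P < m.factorization r}) ⊆
      (Ioo 0 m).biUnion fun j => {P ∈ Icc 1 X | carr r m j L P ≤ a} := by
    intro P hP
    rw [mem_filter] at hP
    obtain ⟨hP1, j, j0, j1, hj⟩ := hP
    rw [mem_biUnion]
    refine ⟨j, mem_Ioo.2 ⟨j0, j1⟩, ?_⟩
    rw [mem_filter]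
    refine ⟨hP1, ?_⟩
    have := hj L
    omega
  have hfin : (#{P ∈ Icc 1 X | ∃ j, 0 < j ∧ j < m ∧ ∀ L, carr r m j L P < m.factorization r} : ℝ) ≤
      m * (6 * X * Real.exp (-((L : ℝ) / 100))) := by
    have h1 := (card_le_card hsub).trans card_biUnion_le
    have h2 : (#{P ∈ Icc 1 X | ∃ j, 0 < j ∧ j < m ∧ ∀ L, carr r m j L P < m.factorization r} : ℝ) ≤
        ∑ j ∈ Ioo 0 m, (#{P ∈ Icc 1 X | carr r m j L P ≤ a} : ℝ) := by exact_mod_cast h1
    refine h2.trans ((sum_le_sum hj).trans ?_)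
    rw [sum_const, nsmul_eq_mul, Nat.card_Ioo]
    apply mul_le_mul_of_nonneg_right _ (by positivity)
    exact_mod_cast (show m - 0 - 1 ≤ m by omega)
  refine hfin.trans ?_
  have h6 : (6 : ℝ) = Real.exp (Real.log 6) := (Real.exp_log (by norm_num)).symm
  calc (m : ℝ) * (6 * X * Real.exp (-((L : ℝ) / 100))) ≤
      Real.exp (K * s) * (6 * X * Real.exp (-((L : ℝ) / 100))) :=
        mul_le_mul_of_nonneg_right hmK (by positivity)
    _ = Real.exp (K * s) * (Real.exp (Real.log 6) * X * Real.exp (-((L : ℝ) / 100))) := by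
        rw [← h6]
    _ = Real.exp (Real.log 6 + K * s - (L : ℝ) / 100) * X := by
        rw [Real.exp_sub, Real.exp_add, Real.exp_neg]
        field_simp
    _ ≤ Real.exp (-s) * X := by
        apply mul_le_mul_of_nonneg_right _ (Nat.cast_nonneg _)
        apply Real.exp_le_exp.2
        linarith

end ESAs
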