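import Pool.Agent.ESAs.Stmts

open Finset

namespace ESAs

theorem tGeo : St_geo := by
  intro β N hβ
  have h1 : ∑ h ∈ range N, ec (β * h) = ESGcd.KK N β := by
    unfold ESGcd.KK
    refine sum_congr rfl fun h _ => ?_
    rw [ec_eq, mul_comm]
  rw [h1]
  have h2 : β = (round β : ℤ) + (β - round β) := by ring
  have h3 : β - round β ≠ 0 := abs_pos.1 hβ
  exact ESGcd.norm_KK_le_inv N (round β) h2 h3 (abs_sub_round β)

end ESAs
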