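import Pool.Agent.ESAs.Stmts
import Pool.Agent.ESGcd.Cost

open Finset

namespace ESAs

namespace Hoef

lemma digit_sq {q g : ℕ} (hq : 2 ≤ q) (hg : g < q) :
    ((g : ℝ) / ((q : ℝ) - 1) - 1 / 2) ^ 2 ≤ 1 / 4 := by
  have h1 : (0 : ℝ) < (q : ℝ) - 1 := by
    have : (2 : ℝ) ≤ q := by exact_mod_cast hq
    linarith
  have h2 : (g : ℝ) ≤ (q : ℝ) - 1 := by
    have : (g : ℝ) + 1 ≤ q := by exact_mod_cast hg
    linarith
  have h3 : 0 ≤ (g : ℝ) / ((q : ℝ) - 1) := by positivity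
  have h4 : (g : ℝ) / ((q : ℝ) - 1) ≤ 1 := (div_le_one h1).2 h2
  nlinarith

lemma mgf1 {q : ℕ} (hq : 2 ≤ q) (l : ℝ) :
    ∑ g ∈ range q, Real.exp (l * ((g : ℝ) / ((q : ℝ) - 1) - 1 / 2)) ≤
      q * Real.exp (l ^ 2 / 8) := by
  have h1 : (0 : ℝ) < (q : ℝ) - 1 := by
    have : (2 : ℝ) ≤ q := by exact_mod_cast hq
    linarith
  have h2 : ∑ g ∈ range q, Real.exp (l * ((g : ℝ) / ((q : ℝ) - 1) - 1 / 2)) =
      ∑ g ∈ range q, Real.exp (-(l * ((g : ℝ) / ((q : ℝ) - 1) - 1 / 2))) := by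
    rw [← sum_range_reflect]
    refine sum_congr rfl fun g hg => ?_
    rw [mem_range] at hg
    congr 1
    have h3 : ((q - 1 - g : ℕ) : ℝ) = (q : ℝ) - 1 - g := by
      have h4 : q - 1 - g + g + 1 = q := by omega
      have h5 : ((q - 1 - g : ℕ) : ℝ) + g + 1 = q := by exact_mod_cast h4
      linarith
    rw [h3]
    field_simp
    ring
  have h3 : ∑ g ∈ range q, Real.exp (l * ((g : ℝ) / ((q : ℝ) - 1) - 1 / 2)) =
      ∑ g ∈ range q, Real.cosh (l * ((g : ℝ) / ((q : ℝ) - 1) - 1 / 2)) := by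
    have h4 : ∑ g ∈ range q, Real.cosh (l * ((g : ℝ) / ((q : ℝ) - 1) - 1 / 2)) =
        (∑ g ∈ range q, Real.exp (l * ((g : ℝ) / ((q : ℝ) - 1) - 1 / 2)) +
          ∑ g ∈ range q, Real.exp (-(l * ((g : ℝ) / ((q : ℝ) - 1) - 1 / 2)))) / 2 := by
      rw [← sum_add_distrib, sum_div]
      refine sum_congr rfl fun g _ => ?_
      rw [Real.cosh_eq]
    rw [h4, ← h2]; ring
  rw [h3]
  have h4 : ∀ g ∈ range q, Real.cosh (l * ((g : ℝ) / ((q : ℝ) - 1) - 1 / 2)) ≤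
      Real.exp (l ^ 2 / 8) := by
    intro g hg
    rw [mem_range] at hg
    refine (Real.cosh_le_exp_half_sq _).trans (Real.exp_le_exp.2 ?_)
    rw [mul_pow]
    have := digit_sq hq hg
    nlinarith [sq_nonneg l]
  refine (sum_le_sum h4).trans ?_
  rw [sum_const, card_range, nsmul_eq_mul]

lemma exp_dsum {q : ℕ} (l : ℝ) (L u : ℕ) :
    Real.exp (l * ((dsum q L u : ℝ) / ((q : ℝ) - 1) - L / 2)) =
      ∏ t ∈ range L, Real.exp (l * ((((u / q ^ t) % q : ℕ) : ℝ) / ((q : ℝ) - 1) - 1 / 2)) := by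
  rw [← Real.exp_sum]
  congr 1
  rw [← mul_sum, sum_sub_distrib, ← sum_div, sum_const, card_range, nsmul_eq_mul]
  unfold dsum
  push_cast
  ring

lemma mgf {q : ℕ} (hq : 2 ≤ q) (l : ℝ) (L : ℕ) :
    ∑ u ∈ range (q ^ L), Real.exp (l * ((dsum q L u : ℝ) / ((q : ℝ) - 1) - L / 2)) ≤
      (q : ℝ) ^ L * Real.exp (l ^ 2 / 8 * L) := by
  have h1 : ∑ u ∈ range (q ^ L), Real.exp (l * ((dsum q L u : ℝ) / ((q : ℝ) - 1) - L / 2)) =
      (∑ g ∈ range q, Real.exp (l * ((g : ℝ) / ((q : ℝ) - 1) - 1 / 2))) ^ L := by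
    rw [← ESGcd.sum_prod_digits q
      (fun g => Real.exp (l * ((g : ℝ) / ((q : ℝ) - 1) - 1 / 2))) L]
    refine sum_congr rfl fun u _ => ?_
    rw [exp_dsum]
  rw [h1]
  refine (pow_le_pow_left₀ (sum_nonneg fun g _ => (Real.exp_pos _).le) (mgf1 hq l) L).trans ?_
  rw [mul_pow, ← Real.exp_nat_mul]
  apply le_of_eq
  congr 2
  ring

lemma markov {q : ℕ} (hq : 2 ≤ q) (l a : ℝ) (L : ℕ) (F : ℕ → Prop) [DecidablePred F]
    (hF : ∀ u, F u → a ≤ l * ((dsum q L u : ℝ) / ((q : ℝ) - 1) - L / 2)) :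
    (#{u ∈ range (q ^ L) | F u} : ℝ) ≤ (q : ℝ) ^ L * Real.exp (l ^ 2 / 8 * L - a) := by
  have h1 : (#{u ∈ range (q ^ L) | F u} : ℝ) * Real.exp a ≤
      (q : ℝ) ^ L * Real.exp (l ^ 2 / 8 * L) := by
    refine le_trans ?_ (mgf hq l L)
    rw [← nsmul_eq_mul, ← sum_const]
    calc ∑ u ∈ range (q ^ L) with F u, Real.exp a
        ≤ ∑ u ∈ range (q ^ L) with F u,
            Real.exp (l * ((dsum q L u : ℝ) / ((q : ℝ) - 1) - L / 2)) := by
          refine sum_le_sum fun u hu => Real.exp_le_exp.2 (hF u (mem_filter.1 hu).2)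
      _ ≤ _ := by
          apply sum_le_sum_of_subset_of_nonneg (filter_subset _ _)
          intro _ _ _; positivity
  rw [Real.exp_sub, mul_div_assoc', le_div_iff₀ (Real.exp_pos a)]
  exact h1

end Hoef

theorem tHoef : St_hoef := by
  intro q L α hq hα
  have h1 : (0 : ℝ) < (q : ℝ) - 1 := by
    have : (2 : ℝ) ≤ q := by exact_mod_cast hq
    linarith
  constructor
  · refine (Hoef.markov hq (4 * α) (4 * α * (α * L)) L _ ?_).trans (le_of_eq ?_)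
    · intro u hu
      refine mul_le_mul_of_nonneg_left ?_ (by positivity)
      have h2 : (1 / 2 + α) * L ≤ (dsum q L u : ℝ) / ((q : ℝ) - 1) := by
        rw [le_div_iff₀ h1]; linarith
      linarith
    · congr 2
      ring
  · refine (Hoef.markov hq (-(4 * α)) (4 * α * (α * L)) L _ ?_).trans (le_of_eq ?_)
    · intro u hu
      have h2 : (dsum q L u : ℝ) / ((q : ℝ) - 1) ≤ (1 / 2 - α) * L := by
        rw [div_le_iff₀ h1]; linarith
      have h3 : 0 ≤ 4 * α := by positivity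
      nlinarith
    · congr 2
      ring

end ESAs
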