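import Pool.Agent.ESAs.Stmts

open Finset

namespace ESAs

namespace LM

lemma inv_le_exp {l : ℝ} (h0 : 0 ≤ l) (h1 : l ≤ 1 / 2) : 1 / (1 - l) ≤ Real.exp (l + l ^ 2) := by
  have hx : 0 ≤ l + l ^ 2 := by positivity
  have h2 := Real.quadratic_le_exp_of_nonneg hx
  have h3 : 0 < 1 - l := by linarith
  rw [div_le_iff₀ h3]
  have h4 : 1 ≤ (1 + (l + l ^ 2) + (l + l ^ 2) ^ 2 / 2) * (1 - l) := by
    have h5 : 0 ≤ l ^ 2 * (1 - l - l ^ 2 - l ^ 3) := by
      apply mul_nonneg (by positivity)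
      nlinarith [pow_le_pow_left₀ h0 h1 2, pow_le_pow_left₀ h0 h1 3]
    nlinarith
  exact h4.trans (mul_le_mul_of_nonneg_right h2 h3.le)

/-- pointwise bound -/
lemma ptw {κ l : ℝ} (hκ : 0 < κ) (hl : 0 ≤ l) (T : ℕ) (y : ℕ → ℝ) (t : ℕ → Fin 2 → ℝ)
    (hy : ∀ i, Int.fract (t i 1) = y i) (E : ℝ)
    (h : ∏ i ∈ range T, max (y i) κ < Real.exp (-E)) :
    ∏ i ∈ range T, gF κ (t i) ≤ Real.exp (-(l * E)) * ∏ i ∈ range T, gL κ l (t i) := by
  by_cases hz : ∃ i ∈ range T, gF κ (t i) = 0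
  · obtain ⟨i, hi, hi0⟩ := hz
    rw [prod_eq_zero hi hi0]
    exact mul_nonneg (Real.exp_pos _).le (prod_nonneg fun i _ => gL_nonneg κ l (t i))
  · push Not at hz
    have h1 : ∀ i ∈ range T, Int.fract (t i 0) ≤ Int.fract (t i 1) ∧ κ ≤ Int.fract (t i 1) := by
      intro i hi
      by_contra hc
      exact hz i hi (by unfold gF; rw [if_neg hc])
    have hyp : ∀ i ∈ range T, 0 < y i := by
      intro i hi
      rw [← hy i]; exact hκ.trans_le (h1 i hi).2
    have h2 : ∏ i ∈ range T, max (y i) κ = ∏ i ∈ range T, y i := by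
      refine prod_congr rfl fun i hi => ?_
      rw [max_eq_left]
      rw [← hy i]; exact (h1 i hi).2
    rw [h2] at h
    have h3 : ∏ i ∈ range T, gL κ l (t i) = (∏ i ∈ range T, gF κ (t i)) *
        ((∏ i ∈ range T, y i) ^ l)⁻¹ := by
      rw [← Real.finsetProd_rpow _ _ (fun i hi => (hyp i hi).le), ← prod_inv_distrib,
        ← prod_mul_distrib]
      refine prod_congr rfl fun i hi => ?_
      unfold gL gF
      rw [if_pos (h1 i hi), if_pos (h1 i hi), hy i, Real.rpow_add (by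
        have := hyp i hi; positivity), Real.rpow_one, one_div, Real.inv_rpow (hyp i hi).le]
    have hP : 0 < ∏ i ∈ range T, y i := prod_pos hyp
    have h4 : Real.exp (l * E) ≤ ((∏ i ∈ range T, y i) ^ l)⁻¹ := by
      rw [← Real.rpow_neg hP.le]
      have h5 : Real.log (∏ i ∈ range T, y i) < -E := by
        rwa [Real.log_lt_iff_lt_exp hP]
      rw [Real.rpow_def_of_pos hP]
      apply Real.exp_le_exp.mpr
      nlinarith
    rw [h3]
    have hF : 0 ≤ ∏ i ∈ range T, gF κ (t i) := prod_nonneg fun i _ => gF_nonneg κ (t i)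
    have h6 : 1 ≤ Real.exp (-(l * E)) * ((∏ i ∈ range T, y i) ^ l)⁻¹ := by
      calc (1 : ℝ) = Real.exp (-(l * E)) * Real.exp (l * E) := by
            rw [← Real.exp_add]; simp
        _ ≤ _ := mul_le_mul_of_nonneg_left h4 (Real.exp_pos _).le
    calc ∏ i ∈ range T, gF κ (t i) = (∏ i ∈ range T, gF κ (t i)) * 1 := by ring
      _ ≤ (∏ i ∈ range T, gF κ (t i)) *
          (Real.exp (-(l * E)) * ((∏ i ∈ range T, y i) ^ l)⁻¹) :=
            mul_le_mul_of_nonneg_left h6 hF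
      _ = _ := by ring

end LM

theorem tLM (hlmaj : St_lmaj) (hcomb : St_comb) (hparF : St_parF) : St_LM := by
  classical
  obtain ⟨C0, hC0, hm⟩ := hlmaj
  refine ⟨2 * Real.exp C0, by positivity, ?_⟩
  intro b q M N X L Rr η hP J hD hT
  obtain ⟨-, -, -, -, -, -, -, -, hxi, -, -, hk, hΛb⟩ := hparF b q M N X L Rr η hP
  have hb : (2 : ℝ) ≤ b := by exact_mod_cast hP.hb
  have hb0 : (0 : ℝ) < b := by linarith
  have hη := hP.hη
  have hη1 := hP.hη1
  obtain ⟨c, μ, hMaj, hμ⟩ := hm b (η / 2) hP.hb (by linarith) (by linarith)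
  set l : ℝ := η / 2 with hl
  have hl0 : 0 ≤ l := by linarith
  have hl1 : l ≤ 1 / 2 := by linarith
  set Hh : ℕ := X / q ^ L with hHh
  have hκ : (0 : ℝ) < 1 / b := by positivity
  have hc := hcomb 2 q (HH b) ![J, M] (fun _ => gL (1 / b) l) (fun _ => c) (fun _ => μ) L Rr Hh
    (xi b q X L Rr) ((b : ℝ) ^ 20) hP.hq.pos hxi (by positivity) (fun _ => hMaj)
    (fun _ t => gL_nonneg _ _ t) hD hT
  have hk2 := hk 2 (by norm_num)
  have hq0 : (0 : ℝ) < (q : ℝ) ^ L := by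
    have := hP.hq.pos
    positivity
  -- sum over the filtered set
  have hsum : ∑ n ∈ range (q ^ L * Hh) with
      ∏ i ∈ range (L + Rr), max (((M * n % q ^ (i + 1) : ℕ) : ℝ) / (q : ℝ) ^ (i + 1)) (1 / b) <
        Real.exp (-((1 + η) * ((L : ℝ) + Rr))),
      ∏ i ∈ range (L + Rr), gF (1 / b) (pt q ![J, M] i n) ≤
      Real.exp (-(l * ((1 + η) * ((L : ℝ) + Rr)))) *
        ∑ n ∈ range (q ^ L * Hh), ∏ i ∈ range (L + Rr), (tp (HH b) c (pt q ![J, M] i n)).re := by
    rw [mul_sum]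
    refine (sum_le_sum fun n hn => ?_).trans (sum_le_sum_of_subset_of_nonneg
      (filter_subset _ _) ?_)
    · have hn2 := (mem_filter.mp hn).2
      refine (LM.ptw hκ hl0 (L + Rr) (fun i => ((M * n % q ^ (i + 1) : ℕ) : ℝ) / (q : ℝ) ^ (i + 1))
        (fun i => pt q ![J, M] i n) ?_ _ hn2).trans ?_
      · intro i
        have := fract_pt q hP.hq.pos ![J, M] i n 1
        simpa using this
      · apply mul_le_mul_of_nonneg_left _ (Real.exp_pos _).le
        exact prod_le_prod (fun i _ => gL_nonneg _ _ _) (fun i _ => hMaj.ge _)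
    · intro n _ _
      exact mul_nonneg (Real.exp_pos _).le
        (prod_nonneg fun i _ => hMaj.re_nonneg (fun t => gL_nonneg _ _ t) _)
  refine hsum.trans ?_
  -- bounds for μ
  set ν : ℝ := 1 / (1 - l) + C0 / b with hν
  have h1l : 0 < 1 - l := by linarith
  have hν1 : 1 ≤ ν := by
    have : 1 ≤ 1 / (1 - l) := by rw [le_div_iff₀ h1l]; linarith
    have h2 : 0 ≤ C0 / b := by positivity
    linarith
  have hμ0 := hMaj.nonneg
  have hΛ1 : μ ^ (L + Rr) ≤ ν ^ (L + Rr) := pow_le_pow_left₀ hμ0 hμ _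
  have hΛ2 : μ ^ L ≤ ν ^ (L + Rr) :=
    (pow_le_pow_left₀ hμ0 hμ _).trans (pow_le_pow_right₀ hν1 (by omega))
  have hνe : ν ≤ Real.exp (l + l ^ 2) * Real.exp (C0 / b) := by
    have h3 : ν ≤ 1 / (1 - l) * (1 + C0 / b) := by
      have : 1 ≤ 1 / (1 - l) := by rw [le_div_iff₀ h1l]; linarith
      have h2 : 0 ≤ C0 / b := by positivity
      rw [hν]; nlinarith
    refine h3.trans (mul_le_mul (LM.inv_le_exp hl0 hl1) ?_ (by positivity) (Real.exp_pos _).le)
    have := Real.add_one_le_exp (C0 / b)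
    linarith
  have hνΛ : ν ^ (L + Rr) ≤ Real.exp ((l + l ^ 2) * ((L : ℝ) + Rr)) * Real.exp C0 := by
    refine (pow_le_pow_left₀ (by linarith) hνe _).trans ?_
    rw [mul_pow, ← Real.exp_nat_mul, ← Real.exp_nat_mul]
    apply mul_le_mul
    · apply Real.exp_le_exp.mpr
      push_cast
      rw [mul_comm]
    · apply Real.exp_le_exp.mpr
      have h5 : ((L + Rr : ℕ) : ℝ) ≤ b := by exact_mod_cast hΛb
      calc ((L + Rr : ℕ) : ℝ) * (C0 / b) ≤ b * (C0 / b) :=
            mul_le_mul_of_nonneg_right h5 (by positivity)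
        _ = C0 := by field_simp
    · exact (Real.exp_pos _).le
    · exact (Real.exp_pos _).le
  -- main sum
  have hmain : ∑ n ∈ range (q ^ L * Hh), ∏ i ∈ range (L + Rr),
      (tp (HH b) c (pt q ![J, M] i n)).re ≤ (q : ℝ) ^ L * Hh * (2 * ν ^ (L + Rr)) := by
    have h1 := (abs_le.mp hc).2
    have h2 : (q : ℝ) ^ L * (∏ i ∈ range L, μ) *
        (((((2 * HH b + 1) ^ 2 : ℕ) : ℝ) * (b : ℝ) ^ 20) ^ Rr / (2 * xi b q X L Rr)) ≤
        (q : ℝ) ^ L * Hh * ν ^ (L + Rr) := by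
      have h3 : (∏ i ∈ range L, μ) ≤ ν ^ (L + Rr) := by
        rw [prod_const, card_range]; exact hΛ2
      have h4 : ((Hh : ℕ) : ℝ) / (b : ℝ) ^ 50 ≤ Hh := by
        apply div_le_self (Nat.cast_nonneg _)
        exact one_le_pow₀ (by linarith)
      have h5 : 0 ≤ (∏ i ∈ range L, μ) := prod_nonneg fun _ _ => hμ0
      calc _ ≤ (q : ℝ) ^ L * (∏ i ∈ range L, μ) * Hh := by
            apply mul_le_mul_of_nonneg_left (hk2.trans h4)
            exact mul_nonneg hq0.le h5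
        _ ≤ (q : ℝ) ^ L * ν ^ (L + Rr) * Hh := by
            apply mul_le_mul_of_nonneg_right _ (Nat.cast_nonneg _)
            exact mul_le_mul_of_nonneg_left h3 hq0.le
        _ = _ := by ring
    have h6 : (q : ℝ) ^ L * Hh * (∏ i ∈ range (L + Rr), μ) ≤ (q : ℝ) ^ L * Hh * ν ^ (L + Rr) := by
      rw [prod_const, card_range]
      exact mul_le_mul_of_nonneg_left hΛ1 (by positivity)
    linarith
  calc Real.exp (-(l * ((1 + η) * ((L : ℝ) + Rr)))) *
        ∑ n ∈ range (q ^ L * Hh), ∏ i ∈ range (L + Rr), (tp (HH b) c (pt q ![J, M] i n)).re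
      ≤ Real.exp (-(l * ((1 + η) * ((L : ℝ) + Rr)))) *
        ((q : ℝ) ^ L * Hh * (2 * (Real.exp ((l + l ^ 2) * ((L : ℝ) + Rr)) * Real.exp C0))) := by
        apply mul_le_mul_of_nonneg_left _ (Real.exp_pos _).le
        refine hmain.trans (mul_le_mul_of_nonneg_left ?_ (by positivity))
        linarith
    _ = (q : ℝ) ^ L * Hh * (2 * Real.exp C0 * (Real.exp (-(l * ((1 + η) * ((L : ℝ) + Rr)))) *
        Real.exp ((l + l ^ 2) * ((L : ℝ) + Rr)))) := by ring
    _ = _ := by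
        rw [← Real.exp_add]
        congr 3
        rw [hl]; ring_nf

end ESAs
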