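import Pool.Agent.ESAs.Stmts

open Finset

namespace ESAs

namespace Lmaj

lemma tele (g : ℕ → ℝ) (m : ℕ) (hm : 1 ≤ m) (n : ℕ) (hn : m ≤ n) :
    ∑ j ∈ Ico m n, (g j - g (j - 1)) = g (n - 1) - g (m - 1) := by
  induction n, hn using Nat.le_induction with
  | base => simp
  | succ n hn ih =>
    rw [sum_Ico_succ_top hn, ih]
    simp

/-- the main terms -/
lemma main (B l : ℝ) (hB : 0 < B) (h0 : 0 ≤ l) (h1 : l ≤ 1 / 2) (j : ℕ) (hj : 1 ≤ j) :
    (B / j) ^ (1 + l) * (j / B) * (1 / B) ≤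
      (((j : ℝ) / B) ^ (1 - l) - (((j - 1 : ℕ) : ℝ) / B) ^ (1 - l)) / (1 - l) := by
  have hj' : (0 : ℝ) < j := by exact_mod_cast (by omega : 0 < j)
  have ha : 0 < 1 - l := by linarith
  have hr : 0 < (j : ℝ) / B := by positivity
  have e1 : (B / j) ^ (1 + l) * (j / B) * (1 / B) = ((j : ℝ) / B) ^ (1 - l) / j := by
    have h2 : B / (j : ℝ) = ((j : ℝ) / B)⁻¹ := by rw [inv_div]
    rw [h2, Real.inv_rpow hr.le, ← Real.rpow_neg hr.le]
    have h3 : ((j : ℝ) / B) ^ (-(1 + l)) * (j / B) = ((j : ℝ) / B) ^ (-l) := by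
      nth_rewrite 2 [← Real.rpow_one ((j : ℝ) / B)]
      rw [← Real.rpow_add hr]; congr 1; ring
    have h4 : ((j : ℝ) / B) ^ (1 - l) = ((j : ℝ) / B) ^ (-l) * (j / B) := by
      nth_rewrite 3 [← Real.rpow_one ((j : ℝ) / B)]
      rw [← Real.rpow_add hr]; congr 1; ring
    rw [h3, h4]
    field_simp
  rw [e1, le_div_iff₀ ha]
  have hc : ((j - 1 : ℕ) : ℝ) = (j : ℝ) - 1 := by
    rw [Nat.cast_sub hj]; simp
  rw [hc]
  have h5 : ((j : ℝ) - 1) / B = (j / B) * (1 + -(1 / (j : ℝ))) := by field_simp; ring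
  have h6 : -1 ≤ -(1 / (j : ℝ)) := by
    have : 1 / (j : ℝ) ≤ 1 := by
      rw [div_le_one hj']; exact_mod_cast hj
    linarith
  have h7 := _root_.rpow_one_add_le_one_add_mul_self h6 ha.le (by linarith : 1 - l ≤ 1)
  rw [h5, Real.mul_rpow hr.le (by linarith)]
  have h8 := mul_le_mul_of_nonneg_left h7 (Real.rpow_nonneg hr.le (1 - l))
  have h9 : ((j : ℝ) / B) ^ (1 - l) * (1 + (1 - l) * -(1 / (j : ℝ))) =
      ((j : ℝ) / B) ^ (1 - l) - ((j : ℝ) / B) ^ (1 - l) / j * (1 - l) := by ring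
  linarith

end Lmaj

theorem tLmaj (hfej : St_fej) (hprd : St_prd) : St_lmaj := by
  obtain ⟨C, hC, hf⟩ := hfej
  refine ⟨1 + 3 * C + C ^ 2, by positivity, ?_⟩
  intro b l hb hl0 hl1
  have hb' : (2 : ℝ) ≤ b := by exact_mod_cast hb
  have hb0 : (0 : ℝ) < b := by linarith
  have hb1 : (1 : ℝ) ≤ b := by linarith
  have hH : 1 ≤ HH b := Nat.one_le_pow _ _ (by omega)
  have hsq : √(HH b : ℝ) = (b : ℝ) ^ 7 := by
    unfold HH; push_cast
    rw [show (b : ℝ) ^ 14 = ((b : ℝ) ^ 7) ^ 2 by ring, Real.sqrt_sq (by positivity)]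
  obtain ⟨B, hB⟩ : ∃ B : ℝ, B = (b : ℝ) ^ 3 := ⟨_, rfl⟩
  have hB0 : 0 < B := by rw [hB]; positivity
  have hB1 : 1 ≤ B := by rw [hB]; exact one_le_pow₀ hb1
  choose c1 d1 m1 n1 h1 using fun j : ℕ => hf (HH b) 0 (min (((j : ℝ) + 1) / B) 1) hH le_rfl
    (by positivity) (min_le_right _ _)
  choose c2 d2 m2 n2 h2 using fun j : ℕ => hf (HH b) (min ((j : ℝ) / B) 1)
    (min (((j : ℝ) + 1) / B) 1) hH (by positivity)
    (min_le_min_right _ (by gcongr; linarith)) (min_le_right _ _)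
  set S : Finset ℕ := Ico (b ^ 2) (b ^ 3) with hS
  have hSj : ∀ j ∈ S, 1 ≤ j ∧ (b : ℝ) ^ 2 ≤ j ∧ ((j : ℝ) + 1) ≤ B := by
    intro j hj
    rw [hS, mem_Ico] at hj
    have h3 : 1 ≤ b ^ 2 := Nat.one_le_pow _ _ (by omega)
    refine ⟨by omega, by exact_mod_cast hj.1, ?_⟩
    rw [hB]; exact_mod_cast hj.2
  set T : ℕ → ℝ := fun j => (B / j) ^ (1 + l) with hT
  have hT0 : ∀ j, 0 ≤ T j := fun j => Real.rpow_nonneg (by positivity) _
  have hTb : ∀ j ∈ S, T j ≤ (b : ℝ) ^ 2 := by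
    intro j hj
    obtain ⟨a1, a2, a3⟩ := hSj j hj
    have hj' : (0 : ℝ) < j := by exact_mod_cast (by omega : 0 < j)
    have e1 : B / j ≤ b := by
      rw [div_le_iff₀ hj', hB]
      have e0 : (b : ℝ) ^ 3 = (b : ℝ) * (b : ℝ) ^ 2 := by ring
      rw [e0]
      exact mul_le_mul_of_nonneg_left a2 hb0.le
    calc T j ≤ (b : ℝ) ^ (1 + l) := Real.rpow_le_rpow (by positivity) e1 (by linarith)
      _ ≤ (b : ℝ) ^ (2 : ℝ) := Real.rpow_le_rpow_of_exponent_le hb1 (by linarith)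
      _ = (b : ℝ) ^ 2 := by norm_num
  set c : (Fin 2 → ℤ) → ℂ := fun a => ∑ j ∈ S, (T j : ℂ) * (c1 j (a 0) * c2 j (a 1)) with hc
  have htp : ∀ t, tp (HH b) c t = ((∑ j ∈ S, T j *
      ((t1 (HH b) (c1 j) (t 0)).re * (t1 (HH b) (c2 j) (t 1)).re) : ℝ) : ℂ) := by
    intro t
    have e1 : tp (HH b) c t = ∑ j ∈ S, (T j : ℂ) *
        (t1 (HH b) (c1 j) (t 0) * t1 (HH b) (c2 j) (t 1)) := by
      have e2 : ∀ j, tp (HH b) (fun a : Fin 2 → ℤ => c1 j (a 0) * c2 j (a 1)) t =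
          t1 (HH b) (c1 j) (t 0) * t1 (HH b) (c2 j) (t 1) := by
        intro j
        have := hprd 2 (HH b) ![c1 j, c2 j] t
        simpa [Fin.prod_univ_two] using this
      simp_rw [← e2]
      unfold tp
      rw [hc]
      simp_rw [sum_mul]
      rw [sum_comm]
      refine sum_congr rfl fun j _ => ?_
      rw [mul_sum]
      refine sum_congr rfl fun a _ => ?_
      ring
    rw [e1]
    push_cast
    refine sum_congr rfl fun j _ => ?_
    have f1 : t1 (HH b) (c1 j) (t 0) = ((t1 (HH b) (c1 j) (t 0)).re : ℂ) := by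
      apply Complex.ext
      · simp
      · simp [((h1 j).1 (t 0)).1]
    have f2 : t1 (HH b) (c2 j) (t 1) = ((t1 (HH b) (c2 j) (t 1)).re : ℂ) := by
      apply Complex.ext
      · simp
      · simp [((h2 j).1 (t 1)).1]
    rw [← f1, ← f2]
  have r1 : ∀ j x, 0 ≤ (t1 (HH b) (c1 j) x).re ∧ (t1 (HH b) (c1 j) x).re ≤ 2 :=
    fun j x => ⟨((h1 j).1 x).2.1, ((h1 j).1 x).2.2.1⟩
  have r2 : ∀ j x, 0 ≤ (t1 (HH b) (c2 j) x).re ∧ (t1 (HH b) (c2 j) x).re ≤ 2 :=
    fun j x => ⟨((h2 j).1 x).2.1, ((h2 j).1 x).2.2.1⟩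
  have hcard : (#S : ℝ) ≤ B := by
    rw [hS, Nat.card_Ico, hB]
    have : b ^ 3 - b ^ 2 ≤ b ^ 3 := Nat.sub_le _ _
    exact_mod_cast this
  have hbig : ∑ j ∈ S, T j * 4 ≤ (b : ℝ) ^ 20 := by
    calc ∑ j ∈ S, T j * 4 ≤ ∑ j ∈ S, (b : ℝ) ^ 2 * 4 := by
          refine sum_le_sum fun j hj => ?_
          have := hTb j hj
          linarith
      _ = #S * ((b : ℝ) ^ 2 * 4) := by rw [sum_const, nsmul_eq_mul]
      _ ≤ B * ((b : ℝ) ^ 2 * 4) := by gcongr
      _ ≤ B * ((b : ℝ) ^ 2 * b ^ 2) := by gcongr; nlinarith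
      _ = (b : ℝ) ^ 7 := by rw [hB]; ring
      _ ≤ (b : ℝ) ^ 20 := pow_le_pow_right₀ hb1 (by norm_num)
  have hm1 : ∀ j, 0 ≤ m1 j := fun j => by
    have := (h1 j).2.2.1
    have h3 : 0 ≤ min (((j : ℝ) + 1) / B) 1 := by positivity
    linarith
  have hm2 : ∀ j, 0 ≤ m2 j := fun j => by
    have := (h2 j).2.2.1
    have h3 : min ((j : ℝ) / B) 1 ≤ min (((j : ℝ) + 1) / B) 1 :=
      min_le_min_right _ (by gcongr; linarith)
    linarith
  refine ⟨c, ∑ j ∈ S, T j * (m1 j * m2 j), ⟨?_, ?_, ?_, ?_, ?_, ?_⟩, ?_⟩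
  · intro t
    rw [htp t]; simp
  · intro t
    rw [htp t, Complex.ofReal_re]
    have hnn : ∀ j ∈ S, 0 ≤ T j * ((t1 (HH b) (c1 j) (t 0)).re * (t1 (HH b) (c2 j) (t 1)).re) :=
      fun j _ => mul_nonneg (hT0 j) (mul_nonneg (r1 j _).1 (r2 j _).1)
    unfold gL
    split_ifs with hcond
    · obtain ⟨hxy, hκ⟩ := hcond
      set x := Int.fract (t 0)
      set y := Int.fract (t 1)
      have hx0 : 0 ≤ x := Int.fract_nonneg _
      have hy1 : y < 1 := Int.fract_lt_one _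
      have hy0 : 0 < y := lt_of_lt_of_le (by positivity) hκ
      obtain ⟨j, hj⟩ : ∃ j : ℕ, j = ⌊B * y⌋₊ := ⟨_, rfl⟩
      have hj1 : (j : ℝ) ≤ B * y := by rw [hj]; exact Nat.floor_le (by positivity)
      have hj2 : B * y < (j : ℝ) + 1 := by rw [hj]; exact Nat.lt_floor_add_one _
      have hjS : j ∈ S := by
        rw [hS, mem_Ico]
        constructor
        · rw [hj]
          apply Nat.le_floor
          push_cast
          rw [hB]
          calc (b : ℝ) ^ 2 = b ^ 3 * (1 / b) := by field_simp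
            _ ≤ b ^ 3 * y := by gcongr
        · have : (j : ℝ) < (b : ℝ) ^ 3 := by
            rw [← hB]
            calc (j : ℝ) ≤ B * y := hj1
              _ < B * 1 := by gcongr
              _ = B := mul_one _
          exact_mod_cast this
      obtain ⟨a1, a2, a3⟩ := hSj j hjS
      have hj' : (0 : ℝ) < j := by exact_mod_cast (by omega : 0 < j)
      have e1 : min (((j : ℝ) + 1) / B) 1 = ((j : ℝ) + 1) / B :=
        min_eq_left (by rw [div_le_one hB0]; exact a3)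
      have e2 : min ((j : ℝ) / B) 1 = (j : ℝ) / B :=
        min_eq_left (by rw [div_le_one hB0]; linarith)
      have g1 : 1 ≤ (t1 (HH b) (c1 j) (t 0)).re := by
        refine ((h1 j).1 (t 0)).2.2.2 hx0 ?_
        rw [e1, le_div_iff₀ hB0]
        nlinarith
      have g2 : 1 ≤ (t1 (HH b) (c2 j) (t 1)).re := by
        refine ((h2 j).1 (t 1)).2.2.2 ?_ ?_
        · rw [e2, div_le_iff₀ hB0]; linarith
        · rw [e1, le_div_iff₀ hB0]; linarith
      calc (1 / y) ^ (1 + l) ≤ T j := by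
            refine Real.rpow_le_rpow (by positivity) ?_ (by linarith)
            rw [div_le_div_iff₀ hy0 hj']; linarith
        _ = T j * (1 * 1) := by ring
        _ ≤ T j * ((t1 (HH b) (c1 j) (t 0)).re * (t1 (HH b) (c2 j) (t 1)).re) := by
            refine mul_le_mul_of_nonneg_left ?_ (hT0 j)
            exact mul_le_mul g1 g2 zero_le_one (zero_le_one.trans g1)
        _ ≤ _ := single_le_sum hnn hjS
    · exact sum_nonneg hnn
  · rw [hc]
    push_cast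
    refine sum_congr rfl fun j _ => ?_
    simp only [Pi.zero_apply]
    rw [(h1 j).2.1, (h2 j).2.1]
  · exact sum_nonneg fun j _ => mul_nonneg (hT0 j) (mul_nonneg (hm1 j) (hm2 j))
  · intro t
    rw [htp t, Complex.ofReal_re]
    refine (sum_le_sum fun j _ => ?_).trans hbig
    refine mul_le_mul_of_nonneg_left ?_ (hT0 j)
    have := mul_le_mul (r1 j (t 0)).2 (r2 j (t 1)).2 (r2 j _).1 (by norm_num)
    linarith
  · intro a
    rw [hc]
    refine (norm_sum_le _ _).trans ((sum_le_sum fun j _ => ?_).trans hbig)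
    rw [norm_mul, norm_mul, Complex.norm_real, Real.norm_of_nonneg (hT0 j)]
    refine mul_le_mul_of_nonneg_left ?_ (hT0 j)
    have k1 := (h1 j).2.2.2.2.1 (a 0)
    have k2 := (h2 j).2.2.2.2.1 (a 1)
    have := mul_le_mul k1 k2 (norm_nonneg _) (by norm_num)
    linarith
  · -- the mean
    obtain ⟨D, hD⟩ : ∃ D : ℝ, D = C / (b : ℝ) ^ 7 := ⟨_, rfl⟩
    have hD0 : 0 ≤ D := by rw [hD]; positivity
    have hterm : ∀ j ∈ S, T j * (m1 j * m2 j) ≤
        (((j : ℝ) / B) ^ (1 - l) - (((j - 1 : ℕ) : ℝ) / B) ^ (1 - l)) / (1 - l) +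
        (b : ℝ) ^ 2 * (3 * D + D ^ 2 + 1 / B ^ 2) := by
      intro j hj
      obtain ⟨a1, a2, a3⟩ := hSj j hj
      have e1 : min (((j : ℝ) + 1) / B) 1 = ((j : ℝ) + 1) / B :=
        min_eq_left (by rw [div_le_one hB0]; exact a3)
      have e2 : min ((j : ℝ) / B) 1 = (j : ℝ) / B :=
        min_eq_left (by rw [div_le_one hB0]; linarith)
      have k1 := (h1 j).2.2.2.1
      have k2 := (h2 j).2.2.2.1
      rw [e1, hsq, ← hD, sub_zero] at k1
      rw [e1, e2, hsq, ← hD] at k2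
      have k2' : m2 j ≤ 1 / B + D := by
        have : ((j : ℝ) + 1) / B - j / B = 1 / B := by ring
        linarith
      have k1' : m1 j ≤ j / B + 1 / B + D := by
        have : ((j : ℝ) + 1) / B = j / B + 1 / B := by ring
        linarith
      have hm := Lmaj.main B l hB0 hl0 hl1 j a1
      have hr1 : (j : ℝ) / B ≤ 1 := by rw [div_le_one hB0]; linarith
      have hr0 : 0 ≤ (j : ℝ) / B := by positivity
      have hi0 : 0 < 1 / B := by positivity
      have hi1 : 1 / B ≤ 1 := by rw [div_le_one hB0]; exact hB1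
      have p1 : m1 j * m2 j ≤ (j / B + 1 / B + D) * (1 / B + D) :=
        mul_le_mul k1' k2' (hm2 j) (by positivity)
      have p2 : (j / B + 1 / B + D) * (1 / B + D) ≤
          j / B * (1 / B) + (3 * D + D ^ 2 + 1 / B ^ 2) := by
        have q1 : (j : ℝ) / B * D ≤ 1 * D := by gcongr
        have q2 : 1 / B * D ≤ 1 * D := by gcongr
        have q3 : 1 / B ^ 2 = 1 / B * (1 / B) := by ring
        rw [q3]
        nlinarith
      have p3 : 0 ≤ 3 * D + D ^ 2 + 1 / B ^ 2 := by positivity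
      calc T j * (m1 j * m2 j) ≤ T j * (j / B * (1 / B) + (3 * D + D ^ 2 + 1 / B ^ 2)) :=
            mul_le_mul_of_nonneg_left (p1.trans p2) (hT0 j)
        _ = T j * (j / B) * (1 / B) + T j * (3 * D + D ^ 2 + 1 / B ^ 2) := by ring
        _ ≤ _ := add_le_add hm (mul_le_mul_of_nonneg_right (hTb j hj) p3)
    refine (sum_le_sum hterm).trans ?_
    rw [sum_add_distrib, ← sum_div]
    have hb2 : 1 ≤ b ^ 2 := Nat.one_le_pow _ _ (by omega)
    have hb23 : b ^ 2 ≤ b ^ 3 := Nat.pow_le_pow_right (by omega) (by norm_num)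
    have e3 := Lmaj.tele (fun j : ℕ => ((j : ℝ) / B) ^ (1 - l)) (b ^ 2) hb2 (b ^ 3) hb23
    have ha : 0 < 1 - l := by linarith
    have s1 : (∑ j ∈ S, (((j : ℝ) / B) ^ (1 - l) - (((j - 1 : ℕ) : ℝ) / B) ^ (1 - l))) / (1 - l) ≤
        1 / (1 - l) := by
      refine div_le_div_of_nonneg_right ?_ ha.le
      rw [hS, e3]
      have w1 : (((b ^ 3 - 1 : ℕ) : ℝ) / B) ^ (1 - l) ≤ 1 := by
        refine Real.rpow_le_one (by positivity) ?_ ha.le
        rw [div_le_one hB0, hB]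
        have : b ^ 3 - 1 ≤ b ^ 3 := Nat.sub_le _ _
        exact_mod_cast this
      have w2 : 0 ≤ (((b ^ 2 - 1 : ℕ) : ℝ) / B) ^ (1 - l) := Real.rpow_nonneg (by positivity) _
      linarith
    have s2 : ∑ j ∈ S, (b : ℝ) ^ 2 * (3 * D + D ^ 2 + 1 / B ^ 2) ≤ (1 + 3 * C + C ^ 2) / b := by
      rw [sum_const, nsmul_eq_mul]
      have p3 : 0 ≤ 3 * D + D ^ 2 + 1 / B ^ 2 := by positivity
      calc (#S : ℝ) * ((b : ℝ) ^ 2 * (3 * D + D ^ 2 + 1 / B ^ 2)) ≤
            B * ((b : ℝ) ^ 2 * (3 * D + D ^ 2 + 1 / B ^ 2)) := by gcongr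
        _ = 3 * C / b ^ 2 + C ^ 2 / b ^ 9 + 1 / b := by
            rw [hD, hB]; field_simp
        _ ≤ 3 * C / b + C ^ 2 / b + 1 / b := by
            have t1 : (b : ℝ) ≤ b ^ 2 := by nlinarith
            have t2 : (b : ℝ) ≤ b ^ 9 := by
              calc (b : ℝ) = b ^ 1 := (pow_one _).symm
                _ ≤ b ^ 9 := pow_le_pow_right₀ hb1 (by norm_num)
            gcongr
        _ = (1 + 3 * C + C ^ 2) / b := by ring
    linarith

end ESAs
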