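import Pool.Agent.ESAs.Stmts

open Finset

namespace ESAs

open Finset in
theorem tLowUp (hdep : St_dep) : St_lowUp := by
  intro k q H R J L g c μ A hq hRL hD hM hg
  have hnn : ∀ i t, 0 ≤ (tp H (c i) t).re := fun i t => (hM i).re_nonneg (hg i) t
  have key : ∀ L : ℕ, lowS q H J c L 0 =
      ((∑ n ∈ range (q ^ L), ∏ i ∈ range L, (tp H (c i) (pt q J i n)).re : ℝ) : ℂ) := by
    intro L
    unfold lowS
    push_cast
    refine sum_congr rfl fun n _ => ?_
    have h1 : ec (((0 : ℝ)) * n / (q : ℝ) ^ L) = 1 := by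
      rw [zero_mul, zero_div, ec_zero]
    rw [h1, one_mul]
    refine prod_congr rfl fun i _ => ?_
    exact (hM i).tp_eq _
  constructor
  · refine sum_le_sum fun n _ => ?_
    exact prod_le_prod (fun i _ => hg i _) (fun i _ => (hM i).ge _)
  · have h1 := hdep k q H R J c L hq hRL hD
    rw [key L, key R] at h1
    have h2 : (∏ i ∈ Ico R L, c i 0) = ((∏ i ∈ Ico R L, μ i : ℝ) : ℂ) := by
      push_cast
      exact prod_congr rfl fun i _ => (hM i).mean
    rw [h2] at h1
    have h3 : ∑ n ∈ range (q ^ L), ∏ i ∈ range L, (tp H (c i) (pt q J i n)).re =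
        (∏ i ∈ Ico R L, μ i) * (q : ℝ) ^ (L - R) *
          ∑ n ∈ range (q ^ R), ∏ i ∈ range R, (tp H (c i) (pt q J i n)).re := by
      exact_mod_cast h1
    rw [h3]
    have h4 : ∑ n ∈ range (q ^ R), ∏ i ∈ range R, (tp H (c i) (pt q J i n)).re ≤
        (q : ℝ) ^ R * A ^ R := by
      calc ∑ n ∈ range (q ^ R), ∏ i ∈ range R, (tp H (c i) (pt q J i n)).re ≤
            ∑ n ∈ range (q ^ R), A ^ R := by
            refine sum_le_sum fun n _ => ?_
            calc ∏ i ∈ range R, (tp H (c i) (pt q J i n)).re ≤ ∏ i ∈ range R, A :=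
                  prod_le_prod (fun i _ => hnn i _) (fun i _ => (hM i).val _)
              _ = A ^ R := by simp
        _ = _ := by simp
    have h5 : 0 ≤ ∏ i ∈ Ico R L, μ i := prod_nonneg fun i _ => (hM i).nonneg
    calc (∏ i ∈ Ico R L, μ i) * (q : ℝ) ^ (L - R) *
          ∑ n ∈ range (q ^ R), ∏ i ∈ range R, (tp H (c i) (pt q J i n)).re ≤
          (∏ i ∈ Ico R L, μ i) * (q : ℝ) ^ (L - R) * ((q : ℝ) ^ R * A ^ R) := by gcongr
      _ = (∏ i ∈ Ico R L, μ i) * ((q : ℝ) ^ (L - R) * (q : ℝ) ^ R) * A ^ R := by ring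
      _ = _ := by rw [← pow_add, Nat.sub_add_cancel hRL]

end ESAs
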