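import Pool.Agent.ESAs.Stmts

open Finset

namespace ESAs

theorem tPair : St_pair := by
  classical
  refine ⟨7, by norm_num, ?_⟩
  intro K hK
  refine ⟨max 6 (2 * K), ?_⟩
  intro x s hs hxs S hS
  have hs6 : 6 ≤ s := (le_max_left _ _).trans hs
  have hsK : 2 * K ≤ s := (le_max_right _ _).trans hs
  have hs36 : 36 ≤ s ^ 2 := by nlinarith
  have hx0 : 0 < x := by
    rcases Nat.eq_zero_or_pos x with h | h
    · subst h
      simp at hxs
      nlinarith
    · exact h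
  have hxr : (0 : ℝ) < x := by exact_mod_cast hx0
  have hxe : (x : ℝ) = Real.exp (s ^ 2) := by rw [← hxs, Real.exp_log hxr]
  have h16 : 16 ≤ x := by
    have h1 : s ^ 2 + 1 ≤ Real.exp (s ^ 2) := Real.add_one_le_exp _
    have h2 : (16 : ℝ) ≤ x := by rw [hxe]; linarith
    exact_mod_cast h2
  have hlog : Real.log x ≤ √(√(x : ℝ)) := by
    have e1 : √(√(x : ℝ)) = Real.exp (s ^ 2 / 4) := by
      rw [hxe, ← Real.exp_half, ← Real.exp_half]; congr 1; ring
    rw [e1, hxs]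
    have h1 := Real.quadratic_le_exp_of_nonneg (x := s ^ 2 / 4) (by positivity)
    have h2 : 0 ≤ s ^ 2 * (s ^ 2 - 32) := by nlinarith
    nlinarith
  have key := ESGcd.card_prod_prime x h16 hlog S {n ∈ Icc 2 x | n / ESGcd.maxPrime n ∈ S} ?_ ?_
  · rw [hxs] at key
    calc (#{n ∈ Icc 2 x | n / ESGcd.maxPrime n ∈ S} : ℝ) ≤
          7 * x / s ^ 2 * ∑ m ∈ S, (m : ℝ)⁻¹ := key
      _ = 7 * (x / s ^ 2) * ∑ m ∈ S, (1 : ℝ) / m := by
          simp_rw [one_div]; ring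
  · intro m hm
    obtain ⟨h1, h2⟩ := hS m hm
    refine ⟨h1, ?_⟩
    have h3 : (m : ℝ) ^ 2 ≤ x := by
      rw [hxe]
      calc (m : ℝ) ^ 2 ≤ Real.exp (K * s) ^ 2 := by gcongr
        _ = Real.exp (2 * (K * s)) := by rw [← Real.exp_nat_mul]; norm_num
        _ ≤ Real.exp (s ^ 2) := by
            apply Real.exp_le_exp.mpr
            nlinarith
    exact_mod_cast h3
  · intro n hn
    rw [mem_filter, mem_Icc] at hn
    obtain ⟨⟨h1, h2⟩, h3⟩ := hn
    obtain ⟨hPp, hPd⟩ := ESGcd.maxPrime_spec h1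
    exact ⟨h2, ESGcd.maxPrime n, n / ESGcd.maxPrime n, hPp, (Nat.mul_div_cancel' hPd).symm, h3⟩

end ESAs
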