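import Pool.Agent.ESAs.Stmts

open Finset

namespace ESAs

theorem tParF : St_parF := by
  intro b q M N X L Rr η hP
  obtain ⟨hq, hb, hη, hη1, hRr, hRL, h1, h2, h3, h4, h4', h5, h6, h7, h8, h9⟩ := hP
  have hq0 : 0 < q := hq.pos
  have hb1 : 1 ≤ b := by omega
  have hu14 : b ^ 14 ≤ uu b Rr := by
    unfold uu; exact Nat.pow_le_pow_right hb1 (by omega)
  have h14 : 2 ≤ b ^ 14 := by
    calc 2 ≤ b := hb
      _ ≤ b ^ 14 := Nat.le_self_pow (by norm_num) b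
  have hu1 : 1 ≤ uu b Rr := by omega
  have hu4 : uu b Rr ≤ uu b Rr ^ 4 := Nat.le_self_pow (by norm_num) _
  have c1 : 2 * HH b + 1 ≤ b ^ 16 := by
    unfold HH
    have e : b ^ 16 = b ^ 2 * b ^ 14 := by ring
    have : 4 ≤ b ^ 2 := by nlinarith
    nlinarith
  have c2 : 2 * HH b + 2 ≤ q := by
    unfold HH
    have hlt : b ^ 14 < uu b Rr := by
      unfold uu; exact Nat.pow_lt_pow_right (by omega) (by omega)
    omega
  have c3 : uu b Rr ≤ N := by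
    have e1 : (1 : ℝ) ≤ Real.exp ((1 + η) * ((L : ℝ) + Rr)) := by
      apply Real.one_le_exp
      positivity
    have e2 : ((uu b Rr : ℕ) : ℝ) ≤ N := by
      refine le_trans ?_ h5
      exact le_mul_of_one_le_right (Nat.cast_nonneg _) e1
    exact_mod_cast e2
  have c4 : 1 ≤ M := by omega
  have c5 : N * q ≤ q ^ Rr := by
    calc N * q ≤ M * q := Nat.mul_le_mul_right _ h4
      _ = q * M := by ring
      _ ≤ q ^ Rr := h6
  have hqL : 0 < q ^ L := by positivity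
  have hqR : 0 < q ^ Rr := by positivity
  have c6 : q * uu b Rr ≤ X / q ^ L := by
    rw [Nat.le_div_iff_mul_le hqL]
    have e : q ^ Rr * (q * uu b Rr * q ^ L) ≤ q ^ Rr * X := by
      calc q ^ Rr * (q * uu b Rr * q ^ L) = (q ^ (L + Rr) * uu b Rr) * q := by rw [pow_add]; ring
        _ ≤ N * X * q := Nat.mul_le_mul_right _ h2
        _ = (N * q) * X := by ring
        _ ≤ q ^ Rr * X := Nat.mul_le_mul_right _ c5
    exact Nat.le_of_mul_le_mul_left e hqR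
  have hHh : 1 ≤ X / q ^ L := by
    have : 1 ≤ q * uu b Rr := Nat.mul_pos hq0 (by omega)
    omega
  have c7 : q ^ L * (X / q ^ L) ≤ X := Nat.mul_div_le _ _
  have c8 : X ≤ 2 * (q ^ L * (X / q ^ L)) := by
    have e1 := Nat.lt_mul_div_succ X hqL
    have e2 : q ^ L * (X / q ^ L + 1) ≤ q ^ L * (2 * (X / q ^ L)) :=
      Nat.mul_le_mul_left _ (by omega)
    calc X ≤ q ^ L * (X / q ^ L + 1) := e1.le
      _ ≤ _ := e2
      _ = _ := by ring
  have hbR : (2 : ℝ) ≤ b := by exact_mod_cast hb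
  have hb0 : (0 : ℝ) < b := by linarith
  have hHR : (1 : ℝ) ≤ ((X / q ^ L : ℕ) : ℝ) := by exact_mod_cast hHh
  have hH0 : (0 : ℝ) < ((X / q ^ L : ℕ) : ℝ) := by linarith
  have c9 : 0 < xi b q X L Rr := by unfold xi; positivity
  have c6R : (q : ℝ) * uu b Rr ≤ ((X / q ^ L : ℕ) : ℝ) := by exact_mod_cast c6
  have c10 : xi b q X L Rr * ((q : ℝ) * uu b Rr) ≤ (b : ℝ) ^ (100 * (Rr + 1)) := by
    unfold xi
    rw [div_mul_eq_mul_div, div_le_iff₀ hH0]
    exact mul_le_mul_of_nonneg_left c6R (by positivity)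
  have c11' : q ^ Rr * uu b Rr ≤ 2 * N * (X / q ^ L) := by
    have e : q ^ L * (q ^ Rr * uu b Rr) ≤ q ^ L * (2 * N * (X / q ^ L)) := by
      calc q ^ L * (q ^ Rr * uu b Rr) = q ^ (L + Rr) * uu b Rr := by rw [pow_add]; ring
        _ ≤ N * X := h2
        _ ≤ N * (2 * (q ^ L * (X / q ^ L))) := Nat.mul_le_mul_left _ c8
        _ = _ := by ring
    exact Nat.le_of_mul_le_mul_left e hqL
  have c11R : (q : ℝ) ^ Rr * uu b Rr ≤ 2 * N * ((X / q ^ L : ℕ) : ℝ) := by exact_mod_cast c11'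
  have c11 : xi b q X L Rr * (q : ℝ) ^ Rr * uu b Rr ≤ 2 * (b : ℝ) ^ (100 * (Rr + 1)) * N := by
    unfold xi
    rw [mul_assoc, div_mul_eq_mul_div, div_le_iff₀ hH0]
    calc (b : ℝ) ^ (100 * (Rr + 1)) * ((q : ℝ) ^ Rr * uu b Rr) ≤
        (b : ℝ) ^ (100 * (Rr + 1)) * (2 * N * ((X / q ^ L : ℕ) : ℝ)) :=
          mul_le_mul_of_nonneg_left c11R (by positivity)
      _ = _ := by ring
  refine ⟨c1, c2, c3, c4, c5, c6, c7, c8, c9, c10, c11, ?_, ?_⟩
  · intro k hk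
    have e1 : (((2 * HH b + 1) ^ k : ℕ) : ℝ) ≤ (b : ℝ) ^ 48 := by
      have : (2 * HH b + 1) ^ k ≤ b ^ 48 := by
        calc (2 * HH b + 1) ^ k ≤ (2 * HH b + 1) ^ 3 := Nat.pow_le_pow_right (by omega) hk
          _ ≤ (b ^ 16) ^ 3 := Nat.pow_le_pow_left c1 3
          _ = b ^ 48 := by ring
      exact_mod_cast this
    have e2 : ((((2 * HH b + 1) ^ k : ℕ) : ℝ) * (b : ℝ) ^ 20) ^ Rr ≤ (b : ℝ) ^ (68 * Rr) := by
      rw [pow_mul]
      apply pow_le_pow_left₀ (by positivity)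
      calc _ ≤ (b : ℝ) ^ 48 * (b : ℝ) ^ 20 := mul_le_mul_of_nonneg_right e1 (by positivity)
        _ = _ := by ring
    have e3 : (b : ℝ) ^ (68 * Rr) * (b : ℝ) ^ 50 ≤ (b : ℝ) ^ (100 * (Rr + 1)) := by
      rw [← pow_add]
      exact pow_le_pow_right₀ (by linarith) (by omega)
    have hxi : xi b q X L Rr * ((X / q ^ L : ℕ) : ℝ) = (b : ℝ) ^ (100 * (Rr + 1)) := by
      unfold xi; field_simp
    rw [div_le_div_iff₀ (by positivity) (by positivity)]
    calc ((((2 * HH b + 1) ^ k : ℕ) : ℝ) * (b : ℝ) ^ 20) ^ Rr * (b : ℝ) ^ 50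
        ≤ (b : ℝ) ^ (68 * Rr) * (b : ℝ) ^ 50 := mul_le_mul_of_nonneg_right e2 (by positivity)
      _ ≤ (b : ℝ) ^ (100 * (Rr + 1)) := e3
      _ ≤ 2 * (b : ℝ) ^ (100 * (Rr + 1)) := by
          have : (0 : ℝ) ≤ (b : ℝ) ^ (100 * (Rr + 1)) := by positivity
          linarith
      _ = ((X / q ^ L : ℕ) : ℝ) * (2 * xi b q X L Rr) := by rw [← hxi]; ring
  · calc L + Rr ≤ (L + Rr) ^ 2 := Nat.le_self_pow (by norm_num) _
      _ ≤ b := h9

end ESAs
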