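import Pool.Agent.ESAs.Stmts

open Finset

namespace ESAs

theorem tPer : St_per := by
  classical
  intro Q X F hQ hQX hF
  have hmap : ∀ n ∈ {n ∈ Icc 1 X | F n}, n % Q ∈ {n ∈ range Q | F n} := by
    intro n hn
    rw [mem_filter] at hn ⊢
    exact ⟨mem_range.2 (Nat.mod_lt _ hQ), (hF n).2 hn.2⟩
  have h1 := card_eq_sum_card_fiberwise (f := fun n => n % Q) (s := {n ∈ Icc 1 X | F n})
    (t := {n ∈ range Q | F n}) (fun n hn => hmap n hn)
  have h2 : ∀ r ∈ {n ∈ range Q | F n}, #{n ∈ {n ∈ Icc 1 X | F n} | n % Q = r} ≤ X / Q + 1 := by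
    intro r _
    rw [← card_range (X / Q + 1)]
    apply card_le_card_of_injOn (fun n => n / Q)
    · intro n hn
      rw [mem_coe, mem_filter, mem_filter, mem_Icc] at hn
      rw [mem_coe, mem_range]
      exact Nat.lt_succ_of_le (Nat.div_le_div_right hn.1.1.2)
    · intro n hn m hm h
      rw [mem_coe, mem_filter] at hn hm
      simp only at h
      rw [← Nat.div_add_mod n Q, ← Nat.div_add_mod m Q, h, hn.2, hm.2]
  have h3 : #{n ∈ Icc 1 X | F n} ≤ #{n ∈ range Q | F n} * (X / Q + 1) := by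
    rw [h1]
    refine (sum_le_sum h2).trans ?_
    rw [sum_const, smul_eq_mul]
  have hQr : (0 : ℝ) < Q := by exact_mod_cast hQ
  have h4 : ((X / Q : ℕ) : ℝ) ≤ (X : ℝ) / Q := Nat.cast_div_le
  have h5 : (1 : ℝ) ≤ (X : ℝ) / Q := by
    rw [le_div_iff₀ hQr, one_mul]
    exact_mod_cast hQX
  have h6 : (#{n ∈ Icc 1 X | F n} : ℝ) ≤ #{n ∈ range Q | F n} * (((X / Q : ℕ) : ℝ) + 1) := by
    exact_mod_cast h3
  refine h6.trans ?_
  have h7 : (0 : ℝ) ≤ #{n ∈ range Q | F n} := Nat.cast_nonneg _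
  calc (#{n ∈ range Q | F n} : ℝ) * (((X / Q : ℕ) : ℝ) + 1)
      ≤ #{n ∈ range Q | F n} * (2 * ((X : ℝ) / Q)) := by
        apply mul_le_mul_of_nonneg_left _ h7
        linarith
    _ = 2 * ((X : ℝ) / Q) * #{n ∈ range Q | F n} := by ring

end ESAs
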