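import Pool.Agent.ESAs.Stmts

open Finset

namespace ESAs

theorem tPrd : St_prd := by
  intro k H c t
  unfold tp t1 box
  rw [prod_univ_sum]
  refine sum_congr rfl fun a _ => ?_
  rw [prod_mul_distrib]
  congr 1
  unfold ec
  rw [← Complex.exp_sum]
  congr 1
  push_cast
  rw [mul_sum, sum_mul]

end ESAs
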