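import Pool.Agent.ESAs.Stmts

open Finset

namespace ESAs

theorem tQlq : St_qlq := by
  obtain ⟨C0, hC0, hM⟩ := Pool.Agent.CoprimeSieve.mertens_second_upper
  have hl2 : 0 < Real.log 2 := Real.log_pos (by norm_num)
  refine ⟨2 * (Real.log 2 + C0 / Real.log 2), by positivity, ?_⟩
  intro z T hz hT
  have hz0 : 0 < z := by linarith
  have hlz : 0 < Real.log z := Real.log_pos (by linarith)
  have hlz2 : Real.log 2 ≤ Real.log z := Real.log_le_log (by norm_num) hz
  set a : ℕ → ℝ := fun i => z ^ (2 ^ i) with ha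
  have ha0 : a 0 = z := by simp [ha]
  have haz : ∀ i, z ≤ a i := by
    intro i
    have h1 : 1 ≤ 2 ^ i := Nat.one_le_two_pow
    calc z = z ^ 1 := (pow_one z).symm
      _ ≤ z ^ (2 ^ i) := pow_le_pow_right₀ (by linarith) h1
  have hasucc : ∀ i, a (i + 1) = a i ^ 2 := by
    intro i
    simp only [ha]
    rw [pow_succ, pow_mul]
  have hlog : ∀ i, Real.log (a i) = 2 ^ i * Real.log z := by
    intro i
    simp only [ha]
    rw [Real.log_pow]
    push_cast
    ring
  set n := T.sup id with hn
  have hTn : ∀ q ∈ T, (q : ℝ) ≤ a n := by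
    intro q hq
    have h1 : q ≤ n := by
      have := Finset.le_sup (f := id) hq
      simpa [hn] using this
    have h2 : q ≤ 2 ^ (2 ^ n) := by
      have h3 : n < 2 ^ n := Nat.lt_two_pow_self
      have h4 : 2 ^ n < 2 ^ (2 ^ n) := Nat.lt_two_pow_self
      omega
    calc (q : ℝ) ≤ (2 : ℝ) ^ (2 ^ n) := by exact_mod_cast h2
      _ ≤ z ^ (2 ^ n) := pow_le_pow_left₀ (by norm_num) hz _
  have hf : ∀ q ∈ T, 0 ≤ 1 / ((q : ℝ) * Real.log q) := by
    intro q hq
    have h1 : (2 : ℝ) < q := lt_of_le_of_lt hz (hT q hq).2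
    have h2 : 0 < Real.log q := Real.log_pos (by linarith)
    positivity
  have hex : ∀ q ∈ T, ∃ i ∈ range n, a i < q ∧ (q : ℝ) ≤ a (i + 1) := by
    intro q hq
    have h : ∃ i, (q : ℝ) ≤ a i := ⟨n, hTn q hq⟩
    classical
    set j := Nat.find h with hj
    have hj1 : (q : ℝ) ≤ a j := Nat.find_spec h
    have hjn : j ≤ n := Nat.find_min' h (hTn q hq)
    have hj0 : j ≠ 0 := by
      intro h0
      rw [h0, ha0] at hj1
      exact absurd (hT q hq).2 (not_lt.2 hj1)
    refine ⟨j - 1, mem_range.2 (by omega), ?_, ?_⟩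
    · exact not_le.1 (Nat.find_min h (by omega))
    · rw [Nat.sub_add_cancel (by omega)]; exact hj1
  classical
  calc ∑ q ∈ T, 1 / ((q : ℝ) * Real.log q)
      ≤ ∑ q ∈ T, ∑ i ∈ range n, if a i < q ∧ (q : ℝ) ≤ a (i + 1) then
          1 / ((q : ℝ) * Real.log q) else 0 := by
        refine sum_le_sum fun q hq => ?_
        obtain ⟨i, hi, h1⟩ := hex q hq
        have h2 : ∀ i ∈ range n, 0 ≤ if a i < q ∧ (q : ℝ) ≤ a (i + 1) then
          1 / ((q : ℝ) * Real.log q) else 0 := by
          intro i _
          split_ifs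
          · exact hf q hq
          · exact le_rfl
        have h3 := single_le_sum h2 hi
        simpa [h1] using h3
    _ = ∑ i ∈ range n, ∑ q ∈ T, if a i < q ∧ (q : ℝ) ≤ a (i + 1) then
          1 / ((q : ℝ) * Real.log q) else 0 := sum_comm
    _ ≤ ∑ i ∈ range n, (Real.log 2 + C0 / Real.log 2) / Real.log z * (1 / 2) ^ i := by
        refine sum_le_sum fun i _ => ?_
        have hai : 2 ≤ a i := hz.trans (haz i)
        have hai2 : a i ≤ a (i + 1) := by rw [hasucc]; nlinarith
        have h1 := hM (a i) (a (i + 1)) hai hai2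
        have hlai : 0 < Real.log (a i) := Real.log_pos (by linarith)
        have h2 : Real.log (a (i + 1)) / Real.log (a i) = 2 := by
          rw [hasucc, Real.log_pow]
          field_simp
          norm_num
        rw [h2] at h1
        rw [← sum_filter]
        have h3 : ∑ q ∈ T.filter (fun q : ℕ => a i < (q : ℝ) ∧ (q : ℝ) ≤ a (i + 1)), 1 / ((q : ℝ) * Real.log q) ≤
            ∑ q ∈ T.filter (fun q : ℕ => a i < (q : ℝ) ∧ (q : ℝ) ≤ a (i + 1)), 1 / (q : ℝ) * (1 / Real.log (a i)) := by
          refine sum_le_sum fun q hq => ?_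
          have hq' := mem_filter.1 hq
          have hq0 : (0 : ℝ) < q := by linarith [hq'.2.1]
          have h4 : Real.log (a i) ≤ Real.log q := Real.log_le_log (by linarith) hq'.2.1.le
          rw [one_div_mul_one_div]
          exact one_div_le_one_div_of_le (by positivity)
            (mul_le_mul_of_nonneg_left h4 hq0.le)
        have h5 : ∑ q ∈ T.filter (fun q : ℕ => a i < (q : ℝ) ∧ (q : ℝ) ≤ a (i + 1)), 1 / (q : ℝ) ≤
            ∑ p ∈ (Pool.Agent.CoprimeSieve.pr (a (i + 1))).filter (fun p : ℕ => a i < (p:ℝ)), (1:ℝ) / p := by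
          refine sum_le_sum_of_subset_of_nonneg ?_ ?_
          · intro q hq
            have hq' := mem_filter.1 hq
            rw [mem_filter, Pool.Agent.CoprimeSieve.mem_pr]
            exact ⟨⟨(hT q hq'.1).1, hq'.2.2⟩, hq'.2.1⟩
          · intro q _ _
            positivity
        have h6 : C0 / Real.log (a i) ≤ C0 / Real.log 2 := by
          refine div_le_div_of_nonneg_left hC0 hl2 ?_
          exact Real.log_le_log (by norm_num) hai
        have h7 : ∑ q ∈ T.filter (fun q : ℕ => a i < (q : ℝ) ∧ (q : ℝ) ≤ a (i + 1)), 1 / (q : ℝ) ≤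
            Real.log 2 + C0 / Real.log 2 := by linarith
        refine h3.trans ?_
        rw [← sum_mul]
        calc (∑ q ∈ T.filter (fun q : ℕ => a i < (q : ℝ) ∧ (q : ℝ) ≤ a (i + 1)), 1 / (q : ℝ)) * (1 / Real.log (a i))
            ≤ (Real.log 2 + C0 / Real.log 2) * (1 / Real.log (a i)) :=
              mul_le_mul_of_nonneg_right h7 (by positivity)
          _ = (Real.log 2 + C0 / Real.log 2) / Real.log z * (1 / 2) ^ i := by
              rw [hlog]
              rw [one_div_pow]
              field_simp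
    _ = (Real.log 2 + C0 / Real.log 2) / Real.log z * ∑ i ∈ range n, (1 / 2 : ℝ) ^ i := by
        rw [mul_sum]
    _ ≤ (Real.log 2 + C0 / Real.log 2) / Real.log z * 2 := by
        refine mul_le_mul_of_nonneg_left ?_ (by positivity)
        exact sum_geometric_two_le n
    _ = 2 * (Real.log 2 + C0 / Real.log 2) / Real.log z := by ring

end ESAs
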