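import Pool.Agent.ESAs.Stmts

open Finset

namespace ESAs

namespace Rank

/-- `n ↦ n^(β-1)` -/
noncomputable def wt (β : ℝ) : ℕ →* ℝ where
  toFun n := (n : ℝ) ^ (β - 1)
  map_one' := by simp
  map_mul' a b := by
    rw [Nat.cast_mul, Real.mul_rpow (Nat.cast_nonneg a) (Nat.cast_nonneg b)]

lemma wt_apply (β : ℝ) (n : ℕ) : wt β n = (n : ℝ) ^ (β - 1) := rfl

lemma wt_nonneg (β : ℝ) (n : ℕ) : 0 ≤ wt β n := by
  rw [wt_apply]
  positivity

lemma wt_lt {β : ℝ} (hβ : β < 1) {p : ℕ} (hp : p.Prime) : ‖wt β p‖ < 1 := by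
  rw [Real.norm_of_nonneg (wt_nonneg β p), wt_apply]
  exact Real.rpow_lt_one_of_one_lt_of_neg (by exact_mod_cast hp.one_lt) (by linarith)

lemma sum_wt_le {β : ℝ} (hβ : β < 1) (S : Finset ℕ) (hS : ∀ p ∈ S, p.Prime) (T : Finset ℕ)
    (hT : ∀ n ∈ T, n ≠ 0 ∧ ∀ p, p.Prime → p ∣ n → p ∈ S) :
    ∑ n ∈ T, wt β n ≤ ∏ p ∈ S, (1 - wt β p)⁻¹ := by
  classical
  have h1 : ∀ {p : ℕ}, p.Prime → ‖wt β p‖ < 1 := fun hp => wt_lt hβ hp
  have h2 := (EulerProduct.summable_and_hasSum_factoredNumbers_prod_filter_prime_geometric h1 S).2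
  rw [filter_true_of_mem hS] at h2
  have h3 : ∀ n ∈ T, n ∈ Nat.factoredNumbers S := by
    intro n hn
    rw [Nat.mem_factoredNumbers']
    intro p hp hd
    exact (hT n hn).2 p hp hd
  have h4 := sum_le_hasSum (T.subtype (· ∈ Nat.factoredNumbers S))
    (fun m _ => wt_nonneg β m) h2
  refine le_trans (le_of_eq ?_) h4
  exact (sum_subtype_of_mem (fun n : ℕ => wt β n) h3).symm

/-- the factor of the prime `p` -/
lemma factor {β : ℝ} (h0 : 0 ≤ β) {p : ℕ} (hp : p.Prime) (h1 : β * Real.log p ≤ 1 / 10) :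
    0 < 1 - wt β p ∧
    (1 - wt β p)⁻¹ ≤ (1 - (p : ℝ)⁻¹)⁻¹ * Real.exp (5 * β * (Real.log p / p)) := by
  have hp0 : (0 : ℝ) < p := by exact_mod_cast hp.pos
  have hp2 : (2 : ℝ) ≤ p := by exact_mod_cast hp.two_le
  have hlp : 0 ≤ Real.log p := Real.log_nonneg (by linarith)
  have ha : (p : ℝ)⁻¹ ≤ 1 / 2 := by
    rw [one_div]
    exact inv_anti₀ (by norm_num) hp2
  have ha0 : 0 < (p : ℝ)⁻¹ := by positivity
  have hs0 : 0 ≤ β * Real.log p := mul_nonneg h0 hlp
  have hw : wt β p = (p : ℝ)⁻¹ * Real.exp (β * Real.log p) := by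
    rw [wt_apply, Real.rpow_sub hp0, Real.rpow_one, Real.rpow_def_of_pos hp0, mul_comm β,
      div_eq_mul_inv, mul_comm]
  have h2 : Real.exp (β * Real.log p) - 1 ≤ 2 * (β * Real.log p) := by
    have := Real.abs_exp_sub_one_le (x := β * Real.log p) (by rw [abs_of_nonneg hs0]; linarith)
    rw [abs_of_nonneg hs0] at this
    exact (le_abs_self _).trans this
  have h3 : 1 ≤ Real.exp (β * Real.log p) := Real.one_le_exp hs0
  set t := Real.exp (β * Real.log p) with ht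
  set a := (p : ℝ)⁻¹ with haa
  have h4 : t ≤ 6 / 5 := by linarith
  have h5 : a * t ≤ 3 / 5 := by nlinarith
  have h6 : 0 < 1 - a * t := by linarith
  rw [hw]
  refine ⟨h6, ?_⟩
  have h7 : 0 < 1 - a := by linarith
  have h8 : (1 - a) / (1 - a * t) ≤ 1 + 5 / 2 * (a * (t - 1)) := by
    rw [div_le_iff₀ h6]
    have : 0 ≤ a * (t - 1) := mul_nonneg ha0.le (by linarith)
    nlinarith
  have h9 : 1 + 5 / 2 * (a * (t - 1)) ≤ Real.exp (5 * β * (Real.log p / p)) := by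
    have e1 : 5 / 2 * (a * (t - 1)) ≤ 5 * β * (Real.log p / p) := by
      have e2 : 5 * β * (Real.log p / p) = 5 / 2 * (a * (2 * (β * Real.log p))) := by
        rw [haa]; ring
      rw [e2]
      gcongr
    have := Real.add_one_le_exp (5 * β * (Real.log p / p))
    linarith
  calc (1 - a * t)⁻¹ = (1 - a)⁻¹ * ((1 - a) / (1 - a * t)) := by
        field_simp
    _ ≤ (1 - a)⁻¹ * Real.exp (5 * β * (Real.log p / p)) := by
        apply mul_le_mul_of_nonneg_left (h8.trans h9)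
        exact inv_nonneg.2 h7.le

end Rank

open Rank in
theorem tRank : St_rank := by
  classical
  obtain ⟨C, hC, hm⟩ := ESGcd.exists_mertens
  obtain ⟨C1, hC1, hm1⟩ := Pool.Agent.CoprimeSieve.mertens_first
  have hl2 : 0 < Real.log 2 := Real.log_pos (by norm_num)
  refine ⟨(C + 1) * Real.exp (1 / 2 + C1 / (2 * Real.log 2)), 1 / 10, by positivity,
    by norm_num, ?_⟩
  intro y Z T hy hZ hT
  have hly2 : Real.log 2 ≤ Real.log y := Real.log_le_log (by norm_num) hy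
  have hly : 0 < Real.log y := lt_of_lt_of_le hl2 hly2
  set β : ℝ := 1 / 10 / Real.log y with hβ
  have hβ0 : 0 < β := by positivity
  have hβ1 : β < 1 := by
    rw [hβ, div_lt_one hly]
    have := Real.log_two_gt_d9
    linarith
  set S : Finset ℕ := T.biUnion Nat.primeFactors with hS
  have hS1 : ∀ p ∈ S, p.Prime ∧ (p : ℝ) ≤ y := by
    intro p hp
    rw [hS, mem_biUnion] at hp
    obtain ⟨n, hn, hp⟩ := hp
    have hpp := Nat.prime_of_mem_primeFactors hp
    exact ⟨hpp, (hT n hn).2.2 p hpp (Nat.dvd_of_mem_primeFactors hp)⟩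
  have hne : ∀ n ∈ T, n ≠ 0 := fun n hn => by
    have := (hT n hn).1; omega
  have h1 : ∑ n ∈ T, wt β n ≤ ∏ p ∈ S, (1 - wt β p)⁻¹ := by
    refine sum_wt_le hβ1 S (fun p hp => (hS1 p hp).1) T ?_
    intro n hn
    refine ⟨hne n hn, fun p hp hd => ?_⟩
    rw [hS, mem_biUnion]
    exact ⟨n, hn, Nat.mem_primeFactors.2 ⟨hp, hd, hne n hn⟩⟩
  have h2 : ∏ p ∈ S, (1 - (p : ℝ)⁻¹)⁻¹ ≤ C * Real.log y := by
    have := hm y y y S hy le_rfl le_rfl fun p hp => ⟨(hS1 p hp).1, Or.inl (hS1 p hp).2⟩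
    rwa [div_self hly.ne', mul_one] at this
  have h3 : ∏ p ∈ S, (1 - wt β p)⁻¹ ≤
      (∏ p ∈ S, (1 - (p : ℝ)⁻¹)⁻¹) * Real.exp (∑ p ∈ S, 5 * β * (Real.log p / p)) := by
    rw [Real.exp_sum, ← prod_mul_distrib]
    have hf : ∀ p ∈ S, 0 < 1 - wt β p ∧
        (1 - wt β p)⁻¹ ≤ (1 - (p : ℝ)⁻¹)⁻¹ * Real.exp (5 * β * (Real.log p / p)) := by
      intro p hp
      obtain ⟨hp1, hp2⟩ := hS1 p hp
      apply factor hβ0.le hp1
      rw [hβ, div_mul_eq_mul_div, div_le_iff₀ hly]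
      have : Real.log p ≤ Real.log y :=
        Real.log_le_log (by exact_mod_cast hp1.pos) hp2
      linarith
    exact prod_le_prod (fun p hp => inv_nonneg.2 (hf p hp).1.le) fun p hp => (hf p hp).2
  have h4 : ∑ p ∈ S, 5 * β * (Real.log p / p) ≤ 1 / 2 + C1 / (2 * Real.log 2) := by
    rw [← mul_sum]
    have e1 : ∑ p ∈ S, Real.log p / p ≤ Pool.Agent.CoprimeSieve.mE y := by
      apply sum_le_sum_of_subset_of_nonneg
      · intro p hp
        exact Pool.Agent.CoprimeSieve.mem_pr.2 (hS1 p hp)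
      · intro p _ _
        exact Pool.Agent.CoprimeSieve.logdiv_nonneg p
    have e2 : Pool.Agent.CoprimeSieve.mE y ≤ Real.log y + C1 := by
      have := (abs_le.1 (hm1 y (by linarith))).2
      linarith
    have e3 : 5 * β * (Real.log y + C1) = 1 / 2 + C1 / (2 * Real.log y) := by
      rw [hβ]
      field_simp
      ring
    calc 5 * β * ∑ p ∈ S, Real.log p / p ≤ 5 * β * (Real.log y + C1) := by
          apply mul_le_mul_of_nonneg_left (e1.trans e2)
          positivity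
      _ = 1 / 2 + C1 / (2 * Real.log y) := e3
      _ ≤ 1 / 2 + C1 / (2 * Real.log 2) := by
          gcongr
  have h5 : ∑ n ∈ T, wt β n ≤
      (C + 1) * Real.exp (1 / 2 + C1 / (2 * Real.log 2)) * Real.log y := by
    refine h1.trans (h3.trans ?_)
    calc (∏ p ∈ S, (1 - (p : ℝ)⁻¹)⁻¹) * Real.exp (∑ p ∈ S, 5 * β * (Real.log p / p))
        ≤ (C * Real.log y) * Real.exp (1 / 2 + C1 / (2 * Real.log 2)) := by
          gcongr
      _ ≤ ((C + 1) * Real.log y) * Real.exp (1 / 2 + C1 / (2 * Real.log 2)) := by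
          gcongr
          linarith
      _ = _ := by ring
  have hZ0 : 0 < Z := by linarith
  have h6 : ∀ n ∈ T, 1 / (n : ℝ) ≤ Real.exp (-(1 / 10 * Real.log Z / Real.log y)) * wt β n := by
    intro n hn
    obtain ⟨hn1, hn2, -⟩ := hT n hn
    have hn0 : (0 : ℝ) < n := by exact_mod_cast hn1
    have e1 : 1 / (n : ℝ) = (n : ℝ) ^ (-β) * wt β n := by
      rw [wt_apply, ← Real.rpow_add hn0]
      have : -β + (β - 1) = -1 := by ring
      rw [this, Real.rpow_neg_one, one_div]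
    have e2 : (n : ℝ) ^ (-β) ≤ Z ^ (-β) :=
      Real.rpow_le_rpow_of_nonpos hZ0 hn2 (by linarith)
    have e3 : Z ^ (-β) = Real.exp (-(1 / 10 * Real.log Z / Real.log y)) := by
      rw [Real.rpow_def_of_pos hZ0]
      congr 1
      rw [hβ]
      ring
    rw [e1, ← e3]
    exact mul_le_mul_of_nonneg_right e2 (wt_nonneg β n)
  calc ∑ M ∈ T, 1 / (M : ℝ)
      ≤ ∑ M ∈ T, Real.exp (-(1 / 10 * Real.log Z / Real.log y)) * wt β M := sum_le_sum h6
    _ = Real.exp (-(1 / 10 * Real.log Z / Real.log y)) * ∑ M ∈ T, wt β M := by rw [mul_sum]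
    _ ≤ Real.exp (-(1 / 10 * Real.log Z / Real.log y)) *
        ((C + 1) * Real.exp (1 / 2 + C1 / (2 * Real.log 2)) * Real.log y) := by
        apply mul_le_mul_of_nonneg_left h5 (Real.exp_pos _).le
    _ = _ := by ring

end ESAs
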