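import Pool.Agent.ESAs.Stmts

open Finset

namespace ESAs

namespace Rec

lemma range_mul_sum (A q : ℕ) (f : ℕ → ℂ) :
    ∑ n ∈ range (A * q), f n = ∑ d ∈ range q, ∑ n0 ∈ range A, f (n0 + A * d) := by
  induction q with
  | zero => simp
  | succ q ih =>
    rw [sum_range_succ, ← ih, mul_add, mul_one, sum_range_add]
    congr 1
    refine sum_congr rfl fun n _ => ?_
    rw [add_comm]

end Rec

theorem tRec : St_rec := by
  intro k q H J c L κ hq
  have hq0 : (q : ℝ) ≠ 0 := by exact_mod_cast hq.ne'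
  unfold lowS
  rw [pow_succ q L, Rec.range_mul_sum]
  -- the term
  have key : ∀ d ∈ range q, ∀ n0 ∈ range (q ^ L),
      ec ((κ : ℝ) * ((n0 + q ^ L * d : ℕ) : ℝ) / (q : ℝ) ^ (L + 1)) *
        ∏ i ∈ range (L + 1), tp H (c i) (pt q J i (n0 + q ^ L * d)) =
      ∑ a ∈ box k H, c L a * ((∏ i ∈ range L, tp H (c i) (pt q J i n0)) *
        (ec (((ip a J + κ : ℤ) : ℝ) * n0 / (q : ℝ) ^ (L + 1)) *
          ec (((ip a J + κ : ℤ) : ℝ) * d / q))) := by
    intro d _ n0 _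
    rw [prod_range_succ]
    have h1 : ∏ i ∈ range L, tp H (c i) (pt q J i (n0 + q ^ L * d)) =
        ∏ i ∈ range L, tp H (c i) (pt q J i n0) := by
      refine prod_congr rfl fun i hi => ?_
      have hi' : i + 1 ≤ L := by
        have := mem_range.1 hi
        omega
      obtain ⟨r, hr⟩ := Nat.exists_eq_add_of_le hi'
      have e : q ^ L * d = q ^ (i + 1) * (q ^ r * d) := by
        rw [hr, pow_add]; ring
      rw [e, tp_pt_add q H hq]
    rw [h1, tp_pt, mul_sum, mul_sum]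
    refine sum_congr rfl fun a _ => ?_
    have h2 : ec ((κ : ℝ) * ((n0 + q ^ L * d : ℕ) : ℝ) / (q : ℝ) ^ (L + 1)) *
        ec ((ip a J : ℝ) * ((n0 + q ^ L * d : ℕ) : ℝ) / (q : ℝ) ^ (L + 1)) =
        ec (((ip a J + κ : ℤ) : ℝ) * n0 / (q : ℝ) ^ (L + 1)) *
          ec (((ip a J + κ : ℤ) : ℝ) * d / q) := by
      rw [← ec_add, ← ec_add]
      congr 1
      push_cast
      field_simp
      ring
    calc _ = c L a * ((∏ i ∈ range L, tp H (c i) (pt q J i n0)) *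
          (ec ((κ : ℝ) * ((n0 + q ^ L * d : ℕ) : ℝ) / (q : ℝ) ^ (L + 1)) *
          ec ((ip a J : ℝ) * ((n0 + q ^ L * d : ℕ) : ℝ) / (q : ℝ) ^ (L + 1)))) := by ring
      _ = _ := by rw [h2]
  have e1 : ∑ d ∈ range q, ∑ n0 ∈ range (q ^ L),
      ec ((κ : ℝ) * ((n0 + q ^ L * d : ℕ) : ℝ) / (q : ℝ) ^ (L + 1)) *
        ∏ i ∈ range (L + 1), tp H (c i) (pt q J i (n0 + q ^ L * d)) =
      ∑ d ∈ range q, ∑ n0 ∈ range (q ^ L), ∑ a ∈ box k H, c L a *
        ((∏ i ∈ range L, tp H (c i) (pt q J i n0)) *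
        (ec (((ip a J + κ : ℤ) : ℝ) * n0 / (q : ℝ) ^ (L + 1)) *
          ec (((ip a J + κ : ℤ) : ℝ) * d / q))) :=
    sum_congr rfl fun d hd => sum_congr rfl fun n0 hn0 => key d hd n0 hn0
  rw [e1]
  have e2 : ∀ a : Fin k → ℤ, ∑ d ∈ range q, ∑ n0 ∈ range (q ^ L), c L a *
        ((∏ i ∈ range L, tp H (c i) (pt q J i n0)) *
        (ec (((ip a J + κ : ℤ) : ℝ) * n0 / (q : ℝ) ^ (L + 1)) *
          ec (((ip a J + κ : ℤ) : ℝ) * d / q))) =
      if (q : ℤ) ∣ ip a J + κ then c L a * q * ∑ n ∈ range (q ^ L),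
        ec ((((ip a J + κ) / q : ℤ) : ℝ) * n / (q : ℝ) ^ L) *
          ∏ i ∈ range L, tp H (c i) (pt q J i n) else 0 := by
    intro a
    rw [sum_comm]
    have e3 : ∀ n0 ∈ range (q ^ L), ∑ d ∈ range q, c L a *
        ((∏ i ∈ range L, tp H (c i) (pt q J i n0)) *
        (ec (((ip a J + κ : ℤ) : ℝ) * n0 / (q : ℝ) ^ (L + 1)) *
          ec (((ip a J + κ : ℤ) : ℝ) * d / q))) =
        c L a * ((∏ i ∈ range L, tp H (c i) (pt q J i n0)) *
        (ec (((ip a J + κ : ℤ) : ℝ) * n0 / (q : ℝ) ^ (L + 1)) *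
          (if (q : ℤ) ∣ ip a J + κ then (q : ℂ) else 0))) := by
      intro n0 _
      rw [← sum_ec_range q hq, ← mul_sum, ← mul_sum, ← mul_sum]
    rw [sum_congr rfl e3]
    split_ifs with h
    · rw [mul_sum]
      refine sum_congr rfl fun n0 _ => ?_
      obtain ⟨m, hm⟩ := h
      have e4 : (ip a J + κ) / (q : ℤ) = m := by
        rw [hm]
        exact Int.mul_ediv_cancel_left m (by exact_mod_cast hq.ne')
      rw [e4, hm]
      have e5 : (((q : ℤ) * m : ℤ) : ℝ) * n0 / (q : ℝ) ^ (L + 1) =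
          (m : ℝ) * n0 / (q : ℝ) ^ L := by
        push_cast
        field_simp
        ring
      rw [e5]
      ring
    · simp
  rw [← sum_congr rfl fun a _ => e2 a]
  rw [sum_congr rfl fun d _ => sum_comm, sum_comm]

end ESAs
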