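import Pool.Agent.ESAs.Stmts

open Finset

namespace ESAs

namespace SG

/-- digitwise domination means that there is no carry -/
lemma carr_zero {q J M L n : ℕ} (hq : 0 < q) (hJ : J ≤ M) (h : Dom q J M L n) :
    carr q M J L n ≤ 0 := by
  unfold carr
  rw [Nat.le_zero, card_eq_zero, filter_eq_empty_iff]
  intro i hi hc
  have hi' := mem_range.1 hi
  have h1 := h i hi'
  have hQ : 0 < q ^ (i + 1) := by positivity
  have e : M * n = J * n + (M - J) * n := by
    rw [← add_mul]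
    congr 1
    omega
  have h2 : (M * n) % q ^ (i + 1) =
      ((J * n) % q ^ (i + 1) + ((M - J) * n) % q ^ (i + 1)) % q ^ (i + 1) := by
    rw [e, Nat.add_mod]
  have h3 := Nat.mod_lt (J * n) hQ
  have h4 := Nat.mod_lt ((M - J) * n) hQ
  have h5 : ((J * n) % q ^ (i + 1) + ((M - J) * n) % q ^ (i + 1)) % q ^ (i + 1) =
      (J * n) % q ^ (i + 1) + ((M - J) * n) % q ^ (i + 1) - q ^ (i + 1) := by
    rw [Nat.mod_eq_sub_mod hc, Nat.mod_eq_of_lt (by omega)]
  rw [h2, h5] at h1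
  omega

lemma not_dvd_of_lt {q a k : ℕ} (h0 : 0 < a) (h1 : a < q ^ k) : ¬ q ^ k ∣ a := fun h =>
  absurd (Nat.le_of_dvd h0 h) (not_le.2 h1)

/-- the product of `gG` for a dominated number -/
lemma prod_gG {q J M L n : ℕ} {κ : ℝ} (hq : 0 < q) (h : Dom q J M L n) :
    ∏ i ∈ range L, gG κ (pt q ![J, M] i n) =
      1 / ∏ i ∈ range L, max (((M * n % q ^ (i + 1) : ℕ) : ℝ) / (q : ℝ) ^ (i + 1)) κ := by
  rw [one_div, ← prod_inv_distrib]
  refine prod_congr rfl fun i hi => ?_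
  have h1 := h i (mem_range.1 hi)
  have hQ : (0 : ℝ) < (q : ℝ) ^ (i + 1) := by positivity
  have e0 : Int.fract (pt q ![J, M] i n 0) =
      ((J * n % q ^ (i + 1) : ℕ) : ℝ) / (q : ℝ) ^ (i + 1) := fract_pt q hq ![J, M] i n 0
  have e1 : Int.fract (pt q ![J, M] i n 1) =
      ((M * n % q ^ (i + 1) : ℕ) : ℝ) / (q : ℝ) ^ (i + 1) := fract_pt q hq ![J, M] i n 1
  have hle : Int.fract (pt q ![J, M] i n 0) ≤ Int.fract (pt q ![J, M] i n 1) := by
    rw [e0, e1]
    gcongr
  unfold gG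
  rw [if_pos hle, e1, one_div]

end SG

open SG

theorem tSG (hlowUp : St_lowUp) (hgmaj : St_gmaj) (hcrude : St_crude) (htyp : St_typ) (hdeep2 : St_deep2) : St_SG := by
  classical
  obtain ⟨C0, hC0, hgm⟩ := hgmaj
  intro η R hη hη8
  -- choice of b
  set b : ℕ := max 2 (max ⌈C0 / η⌉₊ ⌈16 / η ^ 2⌉₊) with hb
  have hb2 : 2 ≤ b := le_max_left _ _
  have hb0 : (0 : ℝ) < b := by exact_mod_cast (by omega : 0 < b)
  have hbn1 : ⌈C0 / η⌉₊ ≤ b := (le_max_left _ _).trans (le_max_right _ _)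
  have hbn3 : ⌈16 / η ^ 2⌉₊ ≤ b := (le_max_right _ _).trans (le_max_right _ _)
  have hb1 : C0 / η ≤ b := (Nat.le_ceil _).trans (Nat.cast_le.2 hbn1)
  have hb3 : 16 / η ^ 2 ≤ b := (Nat.le_ceil _).trans (Nat.cast_le.2 hbn3)
  have hCb : C0 / b ≤ η := by
    rw [div_le_iff₀ hη] at hb1
    rw [div_le_iff₀ hb0]
    linarith
  have hκ : 1 / (b : ℝ) ≤ η ^ 2 / 16 := by
    rw [div_le_iff₀ (by positivity)] at hb3
    rw [div_le_iff₀ hb0]
    linarith
  obtain ⟨c, μ, hm, hμ⟩ := hgm b hb2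
  set H := HH b with hH
  set C1 : ℝ := (((2 * H + 1) ^ (2 * (R + 1)) : ℕ) : ℝ) with hC1
  refine ⟨max (H + 1) (max 2 ⌈16 / η ^ 2⌉₊), 20 * (R + 3) + 400,
    1 + 3 * C1 + (b : ℝ) ^ (20 * R), η ^ 2 / 4, by positivity, by positivity, ?_⟩
  intro q M L hq hq0 hL hqM hM1 hMq hlog
  have hqH : H < q := by
    have := (le_max_left (H + 1) (max 2 ⌈16 / η ^ 2⌉₊)).trans hq0
    omega
  have hq2 : 2 ≤ q := hq.two_le
  have hqp : 0 < q := hq.pos
  have hqr : (0 : ℝ) < q := by exact_mod_cast hqp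
  have hqη : 1 / (q : ℝ) ≤ η ^ 2 / 16 := by
    have h0 : ⌈16 / η ^ 2⌉₊ ≤ q := ((le_max_right _ _).trans (le_max_right _ _)).trans hq0
    have h1 : 16 / η ^ 2 ≤ q := (Nat.le_ceil _).trans (Nat.cast_le.2 h0)
    rw [div_le_iff₀ (by positivity)] at h1
    rw [div_le_iff₀ hqr]
    linarith
  have hcop : Nat.Coprime q M := (Nat.Prime.coprime_iff_not_dvd hq).2 hqM
  have hqL : (0 : ℝ) < (q : ℝ) ^ L := by positivity
  -- three sets
  set P : ℕ → ℝ := fun n =>
    ∏ i ∈ range L, max (((M * n % q ^ (i + 1) : ℕ) : ℝ) / (q : ℝ) ^ (i + 1)) (1 / b) with hP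
  set T1 := {n ∈ range (q ^ L) | Real.exp (-((1 - η) * L)) < P n} with hT1
  set D := {J ∈ range M | Deep q H R ![J, M]} with hD
  set T2 := (D.filter (0 < ·)).biUnion fun J => {n ∈ range (q ^ L) | carr q M J L n ≤ 0} with hT2
  set T3 := ((range M).filter fun J => ¬ Deep q H R ![J, M]).biUnion fun J =>
    {n ∈ range (q ^ L) | Dom q J M L n ∧ P n ≤ Real.exp (-((1 - η) * L))} with hT3
  have hsub : {n ∈ range (q ^ L) | ∃ J, 0 < J ∧ J < M ∧ Dom q J M L n} ⊆ T1 ∪ (T2 ∪ T3) := by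
    intro n hn
    rw [mem_filter] at hn
    obtain ⟨hn1, J, J0, J1, hJ⟩ := hn
    rw [mem_union, mem_union]
    by_cases h1 : Real.exp (-((1 - η) * L)) < P n
    · left
      rw [hT1, mem_filter]
      exact ⟨hn1, h1⟩
    · right
      by_cases h2 : Deep q H R ![J, M]
      · left
        rw [hT2, mem_biUnion]
        refine ⟨J, ?_, ?_⟩
        · rw [mem_filter, hD, mem_filter, mem_range]
          exact ⟨⟨J1, h2⟩, J0⟩
        · rw [mem_filter]
          exact ⟨hn1, carr_zero hqp J1.le hJ⟩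
      · right
        rw [hT3, mem_biUnion]
        refine ⟨J, ?_, ?_⟩
        · rw [mem_filter, mem_range]
          exact ⟨J1, h2⟩
        · rw [mem_filter]
          exact ⟨hn1, hJ, not_lt.1 h1⟩
  have hcard : (#{n ∈ range (q ^ L) | ∃ J, 0 < J ∧ J < M ∧ Dom q J M L n} : ℝ) ≤
      (#T1 : ℝ) + ((#T2 : ℝ) + (#T3 : ℝ)) := by
    have h1 := card_le_card hsub
    have h2 := card_union_le T1 (T2 ∪ T3)
    have h3 := card_union_le T2 T3
    exact_mod_cast h1.trans (h2.trans (by omega))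
  -- comparison of exponents
  have hexp1 : Real.exp (-((L : ℝ) / 100)) ≤ Real.exp (-(η ^ 2 / 4 * L)) := by
    apply Real.exp_le_exp.2
    have : η ^ 2 ≤ 1 / 64 := by nlinarith
    have hL0 : (0 : ℝ) ≤ L := Nat.cast_nonneg _
    nlinarith
  have hexp2 : Real.exp (-(2 * η * L)) ≤ Real.exp (-(η ^ 2 / 4 * L)) := by
    apply Real.exp_le_exp.2
    have : η ^ 2 ≤ η / 8 := by nlinarith
    have hL0 : (0 : ℝ) ≤ L := Nat.cast_nonneg _
    nlinarith
  -- first set
  have c1 : (#T1 : ℝ) ≤ (q : ℝ) ^ L * Real.exp (-(η ^ 2 / 4 * L)) :=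
    htyp q M L (1 / b) η hq2 hcop hη (by linarith) (by positivity) (by linarith)
  -- second set
  have c2 : (#T2 : ℝ) ≤ C1 * (3 * (q : ℝ) ^ L * Real.exp (-((L : ℝ) / 100))) := by
    have h1 : (#T2 : ℝ) ≤ ∑ J ∈ D.filter (0 < ·),
        (#{n ∈ range (q ^ L) | carr q M J L n ≤ 0} : ℝ) := by
      exact_mod_cast card_biUnion_le
    refine h1.trans ?_
    have h2 : ∀ J ∈ D.filter (0 < ·), (#{n ∈ range (q ^ L) | carr q M J L n ≤ 0} : ℝ) ≤
        3 * (q : ℝ) ^ L * Real.exp (-((L : ℝ) / 100)) := by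
      intro J hJ
      rw [mem_filter, hD, mem_filter, mem_range] at hJ
      have hlt : q ^ (R + 1) < q ^ (R + 1 + 1) := Nat.pow_lt_pow_right (by omega) (by omega)
      exact hcrude q M J L 0 (R + 1) hq hJ.2 hJ.1.1
        (not_dvd_of_lt hJ.2 (by omega)) (not_dvd_of_lt (by omega) (by omega))
        (not_dvd_of_lt (by omega) (by omega)) (by omega) (by omega)
    refine (sum_le_sum h2).trans ?_
    rw [sum_const, nsmul_eq_mul]
    refine mul_le_mul_of_nonneg_right ?_ (by positivity)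
    have h3 : #(D.filter (0 < ·)) ≤ (2 * H + 1) ^ (2 * (R + 1)) :=
      (card_filter_le _ _).trans (hdeep2 q H R M hq hqH hqM hMq)
    rw [hC1]
    exact_mod_cast h3
  -- third set
  have c3 : (#T3 : ℝ) ≤ (b : ℝ) ^ (20 * R) * ((q : ℝ) ^ L * Real.exp (-(2 * η * L))) := by
    have h1 : (#T3 : ℝ) ≤ ∑ J ∈ (range M).filter fun J => ¬ Deep q H R ![J, M],
        (#{n ∈ range (q ^ L) | Dom q J M L n ∧ P n ≤ Real.exp (-((1 - η) * L))} : ℝ) := by
      exact_mod_cast card_biUnion_le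
    refine h1.trans ?_
    have h2 : ∀ J ∈ (range M).filter fun J => ¬ Deep q H R ![J, M],
        (#{n ∈ range (q ^ L) | Dom q J M L n ∧ P n ≤ Real.exp (-((1 - η) * L))} : ℝ) ≤
        Real.exp (-((1 - η) * L)) * (Real.exp (η * L) * (q : ℝ) ^ L * (b : ℝ) ^ (20 * R)) := by
      intro J hJ
      rw [mem_filter] at hJ
      obtain ⟨l1, l2⟩ := hlowUp 2 q H R ![J, M] L (fun _ => gG (1 / b)) (fun _ => c) (fun _ => μ)
        ((b : ℝ) ^ 20) hqp (by omega) hJ.2 (fun _ => hm)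
        (fun _ t => gG_nonneg (by positivity) t)
      have l3 := l1.trans l2
      have hμL : ∏ i ∈ Ico R L, μ ≤ Real.exp (η * L) := by
        rw [prod_const, Nat.card_Ico]
        have hμ1 : μ ≤ Real.exp η := by
          have := Real.add_one_le_exp η
          linarith
        calc μ ^ (L - R) ≤ Real.exp η ^ (L - R) := pow_le_pow_left₀ hm.nonneg hμ1 _
          _ = Real.exp (((L - R : ℕ) : ℝ) * η) := by rw [← Real.exp_nat_mul]
          _ ≤ Real.exp (η * L) := by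
            apply Real.exp_le_exp.2
            have : ((L - R : ℕ) : ℝ) ≤ L := by exact_mod_cast Nat.sub_le _ _
            nlinarith
      have l4 : (#{n ∈ range (q ^ L) | Dom q J M L n ∧ P n ≤ Real.exp (-((1 - η) * L))} : ℝ) ≤
          ∑ n ∈ range (q ^ L), Real.exp (-((1 - η) * L)) *
            ∏ i ∈ range L, gG (1 / b) (pt q ![J, M] i n) := by
        rw [card_filter]
        push_cast
        refine sum_le_sum fun n _ => ?_
        have hpos : 0 ≤ ∏ i ∈ range L, gG (1 / b) (pt q ![J, M] i n) :=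
          prod_nonneg fun i _ => gG_nonneg (by positivity) _
        split_ifs with hn
        · rw [prod_gG hqp hn.1]
          have hPp : 0 < P n := prod_pos fun i _ => lt_max_of_lt_right (by positivity)
          have : 1 ≤ Real.exp (-((1 - η) * L)) * (1 / P n) := by
            rw [mul_one_div, one_le_div hPp]
            exact hn.2
          exact this
        · exact mul_nonneg (Real.exp_pos _).le hpos
      rw [← mul_sum] at l4
      refine l4.trans (mul_le_mul_of_nonneg_left ?_ (Real.exp_pos _).le)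
      refine l3.trans ?_
      rw [← pow_mul]
      exact mul_le_mul_of_nonneg_right (mul_le_mul_of_nonneg_right hμL hqL.le) (by positivity)
    refine (sum_le_sum h2).trans ?_
    rw [sum_const, nsmul_eq_mul]
    have h3 : ((#((range M).filter fun J => ¬ Deep q H R ![J, M]) : ℕ) : ℝ) ≤
        Real.exp ((1 - 4 * η) * L) := by
      have h4 : #((range M).filter fun J => ¬ Deep q H R ![J, M]) ≤ M := by
        simpa using card_filter_le (range M) fun J => ¬ Deep q H R ![J, M]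
      have hM0 : (0 : ℝ) < M := by exact_mod_cast hM1
      calc ((#((range M).filter fun J => ¬ Deep q H R ![J, M]) : ℕ) : ℝ) ≤ M := by
            exact_mod_cast h4
        _ = Real.exp (Real.log M) := (Real.exp_log hM0).symm
        _ ≤ Real.exp ((1 - 4 * η) * L) := Real.exp_le_exp.2 hlog
    refine (mul_le_mul_of_nonneg_right h3 (by positivity)).trans (le_of_eq ?_)
    have e : Real.exp (-(2 * η * L)) =
        Real.exp ((1 - 4 * η) * L) * Real.exp (-((1 - η) * L)) * Real.exp (η * L) := by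
      rw [← Real.exp_add, ← Real.exp_add]
      congr 1
      ring
    rw [e]
    ring
  have hC1p : 0 ≤ C1 := by positivity
  have c2' : (#T2 : ℝ) ≤ 3 * C1 * ((q : ℝ) ^ L * Real.exp (-(η ^ 2 / 4 * L))) := by
    refine c2.trans ?_
    have := mul_le_mul_of_nonneg_left hexp1 (show 0 ≤ 3 * C1 * (q : ℝ) ^ L by positivity)
    linarith
  have c3' : (#T3 : ℝ) ≤ (b : ℝ) ^ (20 * R) * ((q : ℝ) ^ L * Real.exp (-(η ^ 2 / 4 * L))) := by
    refine c3.trans ?_
    have := mul_le_mul_of_nonneg_left hexp2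
      (show 0 ≤ (b : ℝ) ^ (20 * R) * (q : ℝ) ^ L by positivity)
    linarith
  have : (1 + 3 * C1 + (b : ℝ) ^ (20 * R)) * (q : ℝ) ^ L * Real.exp (-(η ^ 2 / 4 * L)) =
      (q : ℝ) ^ L * Real.exp (-(η ^ 2 / 4 * L)) +
      3 * C1 * ((q : ℝ) ^ L * Real.exp (-(η ^ 2 / 4 * L))) +
      (b : ℝ) ^ (20 * R) * ((q : ℝ) ^ L * Real.exp (-(η ^ 2 / 4 * L))) := by ring
  rw [this]
  linarith

end ESAs
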