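import Pool.Agent.ESAs.Stmts

open Finset

namespace ESAs

namespace SM

lemma exp_le (x : ℝ) : Real.exp x ≤ 1 + x * Real.exp x := by
  have h1 : 1 - x ≤ Real.exp (-x) := by
    have := Real.add_one_le_exp (-x)
    linarith
  have h2 := mul_le_mul_of_nonneg_left h1 (Real.exp_pos x).le
  rw [← Real.exp_add, add_neg_cancel, Real.exp_zero] at h2
  nlinarith

/-- powers of `μ ≤ 1 + C0/b` -/
lemma pow_le {μ C0 : ℝ} {b k : ℕ} (hb : 0 < b) (h0 : 0 ≤ μ) (_hC : 0 ≤ C0) (h : μ ≤ 1 + C0 / b) :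
    μ ^ k ≤ Real.exp (C0 * k / b) := by
  have hb' : (0 : ℝ) < b := by exact_mod_cast hb
  have h1 : μ ≤ Real.exp (C0 / b) := h.trans (by have := Real.add_one_le_exp (C0 / b); linarith)
  calc μ ^ k ≤ Real.exp (C0 / b) ^ k := pow_le_pow_left₀ h0 h1 k
    _ = Real.exp (C0 * k / b) := by
      rw [← Real.exp_nat_mul]
      congr 1; ring

end SM

theorem tSM (hsmaj : St_smaj) (hcomb : St_comb) (hparF : St_parF) : St_SM := by
  obtain ⟨C0, hC0, hmaj⟩ := hsmaj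
  refine ⟨(C0 + 1) * Real.exp C0, by positivity, ?_⟩
  intro b q M N X L Rr η hP J J' hD hT
  obtain ⟨p1, p2, p3, p4, p5, p6, p7, p8, hxi, p10, p11, p12, p13⟩ := hparF b q M N X L Rr η hP
  obtain ⟨c, μ, hM, hμ⟩ := hmaj b hP.hb
  have hb0 : 0 < b := by have := hP.hb; omega
  have hb : (0 : ℝ) < b := by exact_mod_cast hb0
  have hb1 : (1 : ℝ) ≤ b := by exact_mod_cast hb0
  have hq := hP.hq.pos
  have hcb := hcomb 3 q (HH b) ![J, J', M] (fun _ => gS (1 / b)) (fun _ => c) (fun _ => μ) L Rr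
    (X / q ^ L) (xi b q X L Rr) ((b : ℝ) ^ 20) hq hxi (by positivity) (fun _ => hM)
    (fun _ t => gS_nonneg _ t) hD hT
  have h12 := p12 3 le_rfl
  have h1 : ∑ n ∈ range (q ^ L * (X / q ^ L)), ∏ i ∈ range (L + Rr),
      gS (1 / b) (pt q ![J, J', M] i n) ≤ ∑ n ∈ range (q ^ L * (X / q ^ L)),
        ∏ i ∈ range (L + Rr), (tp (HH b) c (pt q ![J, J', M] i n)).re :=
    sum_le_sum fun n _ => prod_le_prod (fun i _ => gS_nonneg _ _) (fun i _ => hM.ge _)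
  refine h1.trans ?_
  simp only [prod_const, card_range] at hcb
  rw [abs_le] at hcb
  have h2 := hcb.2
  have hμ0 := hM.nonneg
  have h3 : μ ^ (L + Rr) ≤ 1 + C0 * Real.exp C0 * (((L : ℝ) + Rr) / b) := by
    have h4 := SM.pow_le (k := L + Rr) hb0 hμ0 hC0.le hμ
    have h5 : C0 * ((L + Rr : ℕ) : ℝ) / b ≤ C0 := by
      rw [div_le_iff₀ hb]
      have : ((L + Rr : ℕ) : ℝ) ≤ b := by exact_mod_cast p13
      nlinarith
    have h6 := SM.exp_le (C0 * ((L + Rr : ℕ) : ℝ) / b)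
    have h7 : C0 * ((L + Rr : ℕ) : ℝ) / b * Real.exp (C0 * ((L + Rr : ℕ) : ℝ) / b) ≤
        C0 * ((L + Rr : ℕ) : ℝ) / b * Real.exp C0 := by
      apply mul_le_mul_of_nonneg_left (Real.exp_le_exp.2 h5) (by positivity)
    calc μ ^ (L + Rr) ≤ 1 + C0 * ((L + Rr : ℕ) : ℝ) / b * Real.exp C0 := by linarith
      _ = 1 + C0 * Real.exp C0 * (((L : ℝ) + Rr) / b) := by push_cast; ring
  have h4 : μ ^ L ≤ Real.exp C0 := by
    refine (SM.pow_le (k := L) hb0 hμ0 hC0.le hμ).trans ?_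
    apply Real.exp_le_exp.2
    rw [div_le_iff₀ hb]
    have h5 : L ≤ b := by omega
    have : (L : ℝ) ≤ b := by exact_mod_cast h5
    nlinarith
  have hΛ : 1 ≤ ((L : ℝ) + Rr) := by
    have h5 := hP.hRr
    have : (1 : ℝ) ≤ Rr := by exact_mod_cast h5
    have : (0 : ℝ) ≤ L := Nat.cast_nonneg _
    linarith
  have h5 : 1 / (b : ℝ) ^ 50 ≤ ((L : ℝ) + Rr) / b := by
    have h6 : (b : ℝ) ≤ (b : ℝ) ^ 50 := le_self_pow₀ hb1 (by norm_num)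
    calc 1 / (b : ℝ) ^ 50 ≤ 1 / b := by
          apply one_div_le_one_div_of_le hb h6
      _ ≤ ((L : ℝ) + Rr) / b := by gcongr
  set Hh : ℝ := ((X / q ^ L : ℕ) : ℝ) with hHh
  have hHh0 : 0 ≤ Hh := Nat.cast_nonneg _
  have hqL : (0 : ℝ) ≤ (q : ℝ) ^ L := by positivity
  have h6 : (q : ℝ) ^ L * μ ^ L * ((((2 * HH b + 1) ^ 3 : ℕ) : ℝ) * (b : ℝ) ^ 20) ^ Rr /
      (2 * xi b q X L Rr) ≤ (q : ℝ) ^ L * Hh * (Real.exp C0 * (((L : ℝ) + Rr) / b)) := by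
    calc (q : ℝ) ^ L * μ ^ L * ((((2 * HH b + 1) ^ 3 : ℕ) : ℝ) * (b : ℝ) ^ 20) ^ Rr /
        (2 * xi b q X L Rr) = (q : ℝ) ^ L * μ ^ L *
          (((((2 * HH b + 1) ^ 3 : ℕ) : ℝ) * (b : ℝ) ^ 20) ^ Rr / (2 * xi b q X L Rr)) := by ring
      _ ≤ (q : ℝ) ^ L * Real.exp C0 * (Hh / (b : ℝ) ^ 50) := by
          apply mul_le_mul _ h12 (by positivity) (by positivity)
          exact mul_le_mul_of_nonneg_left h4 hqL
      _ = (q : ℝ) ^ L * Hh * (Real.exp C0 * (1 / (b : ℝ) ^ 50)) := by ring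
      _ ≤ (q : ℝ) ^ L * Hh * (Real.exp C0 * (((L : ℝ) + Rr) / b)) := by
          apply mul_le_mul_of_nonneg_left _ (by positivity)
          exact mul_le_mul_of_nonneg_left h5 (Real.exp_pos _).le
  have h7 : (q : ℝ) ^ L * Hh * μ ^ (L + Rr) ≤
      (q : ℝ) ^ L * Hh * (1 + C0 * Real.exp C0 * (((L : ℝ) + Rr) / b)) :=
    mul_le_mul_of_nonneg_left h3 (by positivity)
  have h8 : (q : ℝ) ^ L * Hh * (1 + (C0 + 1) * Real.exp C0 * ((L : ℝ) + Rr) / b) =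
      (q : ℝ) ^ L * Hh * (1 + C0 * Real.exp C0 * (((L : ℝ) + Rr) / b)) +
      (q : ℝ) ^ L * Hh * (Real.exp C0 * (((L : ℝ) + Rr) / b)) := by ring
  rw [h8]
  have h9 : (q : ℝ) ^ L * μ ^ L * (((((2 * HH b + 1) ^ 3 : ℕ) : ℝ) * (b : ℝ) ^ 20) ^ Rr /
      (2 * xi b q X L Rr)) = (q : ℝ) ^ L * μ ^ L * ((((2 * HH b + 1) ^ 3 : ℕ) : ℝ) *
      (b : ℝ) ^ 20) ^ Rr / (2 * xi b q X L Rr) := by ring
  rw [h9] at h2
  linarith

end ESAs
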