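import Pool.Agent.ESAs.Stmts

open Finset

namespace ESAs

theorem tSM2 (hsmaj : St_smaj) (hupLow : St_upLow) (hparF : St_parF) : St_SM2 := by
  obtain ⟨C0, hC0, hmaj⟩ := hsmaj
  refine ⟨Real.exp C0, Real.exp_pos _, ?_⟩
  intro b q M N X L Rr η hP J J' hD
  obtain ⟨-, -, -, -, -, -, -, -, -, -, -, -, f13⟩ := hparF b q M N X L Rr η hP
  have hb := hP.hb
  have hb0 : (0 : ℝ) < b := by
    have : 0 < b := by omega
    exact_mod_cast this
  obtain ⟨c, μ, hM, hμ⟩ := hmaj b hb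
  have hg : ∀ (i : ℕ) (t : Fin 3 → ℝ), 0 ≤ gS (1 / (b : ℝ)) t := fun _ t => gS_nonneg _ t
  have h1 := hupLow 3 q (HH b) ![J, J', M] (fun _ => gS (1 / b)) (fun _ => c) (fun _ => μ) L Rr
    (X / q ^ L) ((b : ℝ) ^ 20) hP.hq.pos hP.hRL (by positivity) (fun _ => hM) hg hD
  have h2 : ∑ n ∈ range (q ^ L * (X / q ^ L)),
      ∏ i ∈ range (L + Rr), gS (1 / b) (pt q ![J, J', M] i n) ≤
      ∑ n ∈ range (q ^ L * (X / q ^ L)),
        ∏ i ∈ range (L + Rr), (tp (HH b) c (pt q ![J, J', M] i n)).re := by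
    refine sum_le_sum fun n _ => ?_
    exact prod_le_prod (fun i _ => hg i _) (fun i _ => hM.ge _)
  refine h2.trans (h1.trans ?_)
  have h3 : ∏ i ∈ Ico Rr L, μ ≤ Real.exp C0 := by
    rw [prod_const, Nat.card_Ico]
    have h4 : μ ≤ Real.exp (C0 / b) := by
      have := Real.add_one_le_exp (C0 / b)
      linarith
    calc μ ^ (L - Rr) ≤ Real.exp (C0 / b) ^ (L - Rr) := pow_le_pow_left₀ hM.nonneg h4 _
      _ = Real.exp (((L - Rr : ℕ) : ℝ) * (C0 / b)) := by rw [← Real.exp_nat_mul]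
      _ ≤ Real.exp C0 := by
          apply Real.exp_le_exp.mpr
          have h5 : ((L - Rr : ℕ) : ℝ) ≤ b := by
            have : L - Rr ≤ b := by omega
            exact_mod_cast this
          calc ((L - Rr : ℕ) : ℝ) * (C0 / b) ≤ b * (C0 / b) := by gcongr
            _ = C0 := by field_simp
  have h6 : ((b : ℝ) ^ 20) ^ (2 * Rr) = (b : ℝ) ^ (40 * Rr) := by
    rw [← pow_mul]; congr 1; ring
  rw [h6]
  calc (q : ℝ) ^ L * ((X / q ^ L : ℕ) : ℝ) * (∏ i ∈ Ico Rr L, μ) * (b : ℝ) ^ (40 * Rr) ≤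
        (q : ℝ) ^ L * ((X / q ^ L : ℕ) : ℝ) * Real.exp C0 * (b : ℝ) ^ (40 * Rr) := by gcongr
    _ = _ := by ring

end ESAs
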