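import Pool.Agent.ESAs.Stmts

open Finset

namespace ESAs

theorem tSel : St_Sel := by
  intro b q M X Rr η hq hb hη hη1 hRr h1 h6 h7 hX hlog2 hM hT
  set u := uu b Rr with hu
  have hu2 : 2 ≤ u := by
    rw [hu]; unfold uu
    calc 2 ≤ b := hb
      _ ≤ _ := Nat.le_self_pow (by omega) b
  have hu0 : 0 < u := by omega
  have huR : (2 : ℝ) ≤ u := by exact_mod_cast hu2
  have hu0R : (0 : ℝ) < u := by linarith
  have hq2 : 2 ≤ q := hq.two_le
  have hq0 : 0 < q := hq.pos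
  have hqR : (2 : ℝ) ≤ q := by exact_mod_cast hq2
  have hlq : 0 < Real.log q := Real.log_pos (by linarith)
  -- M is positive
  set T : ℝ := Real.log (M * X) / Real.log q with hTdef
  have hMpos : (0 : ℝ) < M := by
    have : (0 : ℝ) < 2 * (u : ℝ) ^ 3 * Real.exp ((1 + η) * T) := by positivity
    linarith
  have hM1 : 1 ≤ M := by
    have : 0 < M := by exact_mod_cast hMpos
    omega
  have hXpos : 0 < X := lt_of_lt_of_le (by positivity) hX
  have hMX : M * X ≠ 0 := by positivity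
  set Λ' := Nat.log q (M * X) with hΛ'
  have hlo : q ^ Λ' ≤ M * X := Nat.pow_log_le_self q hMX
  have hhi : M * X < q ^ (Λ' + 1) := Nat.lt_pow_succ_log_self hq2 _
  have hΛT : (Λ' : ℝ) ≤ T := by
    rw [hTdef, le_div_iff₀ hlq]
    have : Real.log ((q : ℝ) ^ Λ') ≤ Real.log (M * X) := by
      apply Real.log_le_log (by positivity)
      exact_mod_cast hlo
    rwa [Real.log_pow] at this
  have hT0 : 0 ≤ T := le_trans (Nat.cast_nonneg _) hΛT
  have hΛ2 : 2 * Rr + 2 ≤ Λ' := by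
    rw [hΛ']
    apply Nat.le_log_of_pow_le hq2
    calc q ^ (2 * Rr + 2) ≤ X := hX
      _ ≤ M * X := Nat.le_mul_of_pos_left X (by omega)
  -- key
  have key : ∀ N Λ : ℕ, N ≤ M → M ≤ 2 * u ^ 2 * N → q ^ Λ * u ≤ N * X → N * X * u ≤ q ^ (Λ + 1) →
      Λ ≤ Λ' → 2 * Rr ≤ Λ → ∃ N L, Par b q M N X L Rr η := by
    intro N Λ hN1 hN2 k2 k3 hΛ hR2
    refine ⟨N, Λ - Rr, ?_⟩
    have e : Λ - Rr + Rr = Λ := by omega
    have eR : ((Λ - Rr : ℕ) : ℝ) + Rr = Λ := by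
      have : (((Λ - Rr + Rr : ℕ)) : ℝ) = (Λ : ℝ) := by rw [e]
      push_cast at this; linarith
    have hΛR : (Λ : ℝ) ≤ T := le_trans (by exact_mod_cast hΛ) hΛT
    refine ⟨hq, hb, hη, hη1, hRr, by omega, h1, ?_, ?_, hN1, hN2, ?_, h6, h7, ?_, ?_⟩
    · rw [e]; exact k2
    · rw [e]; exact k3
    · rw [eR]
      have e1 : (M : ℝ) ≤ 2 * (u : ℝ) ^ 2 * N := by exact_mod_cast hN2
      have e2 : 2 * (u : ℝ) ^ 2 * ((u : ℝ) * Real.exp ((1 + η) * Λ)) ≤ 2 * (u : ℝ) ^ 2 * N := by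
        calc 2 * (u : ℝ) ^ 2 * ((u : ℝ) * Real.exp ((1 + η) * Λ))
            = 2 * (u : ℝ) ^ 3 * Real.exp ((1 + η) * Λ) := by ring
          _ ≤ 2 * (u : ℝ) ^ 3 * Real.exp ((1 + η) * T) := by
              apply mul_le_mul_of_nonneg_left _ (by positivity)
              apply Real.exp_le_exp.mpr
              exact mul_le_mul_of_nonneg_left hΛR (by linarith)
          _ ≤ M := hM
          _ ≤ _ := e1
      exact le_of_mul_le_mul_left e2 (by positivity)
    · apply hT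
      rw [e]
      exact k2.trans (Nat.mul_le_mul_right _ hN1)
    · have e1 : ((Λ : ℝ)) ^ 2 ≤ b := by
        refine le_trans ?_ hlog2
        exact pow_le_pow_left₀ (Nat.cast_nonneg _) hΛR 2
      rw [e]
      exact_mod_cast e1
  -- facts on N = M / u^2
  have hMu : u ^ 2 ≤ M := by
    have e1 : (u : ℝ) ^ 2 ≤ M := by
      have e2 : (1 : ℝ) ≤ Real.exp ((1 + η) * T) := Real.one_le_exp (by positivity)
      have e3 : (u : ℝ) ^ 2 ≤ 2 * (u : ℝ) ^ 3 := by nlinarith [pow_pos hu0R 2, pow_pos hu0R 3]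
      calc (u : ℝ) ^ 2 ≤ 2 * (u : ℝ) ^ 3 * 1 := by linarith
        _ ≤ 2 * (u : ℝ) ^ 3 * Real.exp ((1 + η) * T) :=
            mul_le_mul_of_nonneg_left e2 (by positivity)
        _ ≤ M := hM
    exact_mod_cast e1
  have hu2pos : 0 < u ^ 2 := by positivity
  have hN0 : 1 ≤ M / u ^ 2 := (Nat.one_le_div_iff hu2pos).mpr hMu
  have hNle : M / u ^ 2 * u ^ 2 ≤ M := Nat.div_mul_le_self M _
  have hNM : M / u ^ 2 ≤ M := Nat.div_le_self _ _
  have hMN : M ≤ 2 * u ^ 2 * (M / u ^ 2) := by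
    have e1 := Nat.lt_mul_div_succ M hu2pos
    have e2 : u ^ 2 * (M / u ^ 2 + 1) ≤ u ^ 2 * (2 * (M / u ^ 2)) :=
      Nat.mul_le_mul_left _ (by omega)
    calc M ≤ u ^ 2 * (M / u ^ 2 + 1) := e1.le
      _ ≤ _ := e2
      _ = _ := by ring
  set N := M / u ^ 2 with hNdef
  have hNX : N * X * u ^ 2 ≤ M * X := by
    calc N * X * u ^ 2 = (N * u ^ 2) * X := by ring
      _ ≤ M * X := Nat.mul_le_mul_right _ hNle
  have hNX' : N * X * u ≤ M * X := by
    calc N * X * u ≤ N * X * u ^ 2 := Nat.mul_le_mul_left _ (Nat.le_self_pow (by norm_num) u)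
      _ ≤ M * X := hNX
  have hMX2 : M * X ≤ 2 * u ^ 2 * (N * X) := by
    calc M * X ≤ 2 * u ^ 2 * N * X := Nat.mul_le_mul_right _ hMN
      _ = _ := by ring
  by_cases hA : q ^ Λ' * u ≤ M * X
  · by_cases hB : M * X * u ≤ q ^ (Λ' + 1)
    · refine key M Λ' le_rfl ?_ hA hB le_rfl (by omega)
      have : 1 ≤ 2 * u ^ 2 := by nlinarith
      exact Nat.le_mul_of_pos_left M (by omega)
    · push Not at hB
      refine key N Λ' hNM hMN ?_ (hNX'.trans hhi.le) le_rfl (by omega)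
      -- q^Λ' u ≤ N X
      have e1 : q ^ (Λ' + 1) ≤ 2 * u ^ 3 * (N * X) := by
        calc q ^ (Λ' + 1) ≤ M * X * u := hB.le
          _ ≤ 2 * u ^ 2 * (N * X) * u := Nat.mul_le_mul_right _ hMX2
          _ = _ := by ring
      have e2 : 2 * u ^ 3 * (q ^ Λ' * u) ≤ 2 * u ^ 3 * (N * X) := by
        calc 2 * u ^ 3 * (q ^ Λ' * u) = q ^ Λ' * (2 * u ^ 4) := by ring
          _ ≤ q ^ Λ' * q := Nat.mul_le_mul_left _ h1
          _ = q ^ (Λ' + 1) := by ring
          _ ≤ _ := e1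
      exact Nat.le_of_mul_le_mul_left e2 (by positivity)
  · push Not at hA
    have hΛ1 : Λ' - 1 + 1 = Λ' := by omega
    refine key N (Λ' - 1) hNM hMN ?_ ?_ (by omega) (by omega)
    · have e2 : 2 * u ^ 2 * (q ^ (Λ' - 1) * u) ≤ 2 * u ^ 2 * (N * X) := by
        calc 2 * u ^ 2 * (q ^ (Λ' - 1) * u) = q ^ (Λ' - 1) * (2 * u ^ 3) := by ring
          _ ≤ q ^ (Λ' - 1) * (2 * u ^ 4) :=
              Nat.mul_le_mul_left _ (Nat.mul_le_mul_left _ (Nat.pow_le_pow_right hu0 (by norm_num)))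
          _ ≤ q ^ (Λ' - 1) * q := Nat.mul_le_mul_left _ h1
          _ = q ^ Λ' := by rw [← pow_succ, hΛ1]
          _ ≤ M * X := hlo
          _ ≤ _ := hMX2
      exact Nat.le_of_mul_le_mul_left e2 (by positivity)
    · rw [hΛ1]
      have e3 : u * (N * X * u) ≤ u * q ^ Λ' := by
        calc u * (N * X * u) = N * X * u ^ 2 := by ring
          _ ≤ M * X := hNX
          _ ≤ q ^ Λ' * u := hA.le
          _ = _ := by ring
      exact Nat.le_of_mul_le_mul_left e3 hu0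

end ESAs
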