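import Pool.Agent.ESAs.Stmts

open Finset

namespace ESAs

theorem tSmaj (hfej : St_fej) (hprd : St_prd) : St_smaj := by
  obtain ⟨C, hC, hf⟩ := hfej
  refine ⟨C + 2 * (1 + C) ^ 2 + (1 + C) ^ 3, by positivity, ?_⟩
  intro b hb
  have hb' : (2 : ℝ) ≤ b := by exact_mod_cast hb
  have hb0 : (0 : ℝ) < b := by linarith
  have hb1 : (1 : ℝ) ≤ b := by linarith
  have hH : 1 ≤ HH b := Nat.one_le_pow _ _ (by omega)
  have hsq : √(HH b : ℝ) = (b : ℝ) ^ 7 := by
    unfold HH; push_cast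
    rw [show (b : ℝ) ^ 14 = ((b : ℝ) ^ 7) ^ 2 by ring, Real.sqrt_sq (by positivity)]
  obtain ⟨B, hB⟩ : ∃ B : ℝ, B = (b : ℝ) ^ 3 := ⟨_, rfl⟩
  have hB0 : 0 < B := by rw [hB]; positivity
  have hB1 : 1 ≤ B := by rw [hB]; exact one_le_pow₀ hb1
  choose c1 d1 m1 n1 h1 using fun j : ℕ => hf (HH b) 0 (min (((j : ℝ) + 1) / B) 1) hH le_rfl
    (by positivity) (min_le_right _ _)
  choose c2 d2 m2 n2 h2 using fun j : ℕ => hf (HH b) (min ((j : ℝ) / B) 1)
    (min (((j : ℝ) + 1) / B) 1) hH (by positivity)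
    (min_le_min_right _ (by gcongr; linarith)) (min_le_right _ _)
  set S : Finset ℕ := Ico (b ^ 2) (b ^ 3) with hS
  have hSj : ∀ j ∈ S, 1 ≤ j ∧ (b : ℝ) ^ 2 ≤ j ∧ ((j : ℝ) + 1) ≤ B := by
    intro j hj
    rw [hS, mem_Ico] at hj
    have h3 : 1 ≤ b ^ 2 := Nat.one_le_pow _ _ (by omega)
    refine ⟨by omega, by exact_mod_cast hj.1, ?_⟩
    rw [hB]; exact_mod_cast hj.2
  set T : ℕ → ℝ := fun j => (B / j) ^ 2 with hT
  have hT0 : ∀ j, 0 ≤ T j := fun j => sq_nonneg _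
  have hTb : ∀ j ∈ S, T j ≤ (b : ℝ) ^ 2 := by
    intro j hj
    obtain ⟨a1, a2, a3⟩ := hSj j hj
    have hj' : (0 : ℝ) < j := by exact_mod_cast (by omega : 0 < j)
    have e1 : B / j ≤ b := by
      rw [div_le_iff₀ hj', hB]
      have e0 : (b : ℝ) ^ 3 = (b : ℝ) * (b : ℝ) ^ 2 := by ring
      rw [e0]
      exact mul_le_mul_of_nonneg_left a2 hb0.le
    exact pow_le_pow_left₀ (by positivity) e1 2
  set c : (Fin 3 → ℤ) → ℂ := fun a => ∑ j ∈ S, (T j : ℂ) *
    (c1 j (a 0) * c1 j (a 1) * c2 j (a 2)) with hc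
  have htp : ∀ t, tp (HH b) c t = ((∑ j ∈ S, T j *
      ((t1 (HH b) (c1 j) (t 0)).re * (t1 (HH b) (c1 j) (t 1)).re *
        (t1 (HH b) (c2 j) (t 2)).re) : ℝ) : ℂ) := by
    intro t
    have e1 : tp (HH b) c t = ∑ j ∈ S, (T j : ℂ) *
        (t1 (HH b) (c1 j) (t 0) * t1 (HH b) (c1 j) (t 1) * t1 (HH b) (c2 j) (t 2)) := by
      have e2 : ∀ j, tp (HH b) (fun a : Fin 3 → ℤ => c1 j (a 0) * c1 j (a 1) * c2 j (a 2)) t =
          t1 (HH b) (c1 j) (t 0) * t1 (HH b) (c1 j) (t 1) * t1 (HH b) (c2 j) (t 2) := by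
        intro j
        have := hprd 3 (HH b) ![c1 j, c1 j, c2 j] t
        simpa [Fin.prod_univ_three] using this
      simp_rw [← e2]
      unfold tp
      rw [hc]
      simp_rw [sum_mul]
      rw [sum_comm]
      refine sum_congr rfl fun j _ => ?_
      rw [mul_sum]
      refine sum_congr rfl fun a _ => ?_
      ring
    rw [e1]
    push_cast
    refine sum_congr rfl fun j _ => ?_
    have f1 : t1 (HH b) (c1 j) (t 0) = ((t1 (HH b) (c1 j) (t 0)).re : ℂ) := by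
      apply Complex.ext
      · simp
      · simp [((h1 j).1 (t 0)).1]
    have f1' : t1 (HH b) (c1 j) (t 1) = ((t1 (HH b) (c1 j) (t 1)).re : ℂ) := by
      apply Complex.ext
      · simp
      · simp [((h1 j).1 (t 1)).1]
    have f2 : t1 (HH b) (c2 j) (t 2) = ((t1 (HH b) (c2 j) (t 2)).re : ℂ) := by
      apply Complex.ext
      · simp
      · simp [((h2 j).1 (t 2)).1]
    rw [← f1, ← f1', ← f2]
  have r1 : ∀ j x, 0 ≤ (t1 (HH b) (c1 j) x).re ∧ (t1 (HH b) (c1 j) x).re ≤ 2 :=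
    fun j x => ⟨((h1 j).1 x).2.1, ((h1 j).1 x).2.2.1⟩
  have r2 : ∀ j x, 0 ≤ (t1 (HH b) (c2 j) x).re ∧ (t1 (HH b) (c2 j) x).re ≤ 2 :=
    fun j x => ⟨((h2 j).1 x).2.1, ((h2 j).1 x).2.2.1⟩
  have hcard : (#S : ℝ) ≤ B := by
    rw [hS, Nat.card_Ico, hB]
    have : b ^ 3 - b ^ 2 ≤ b ^ 3 := Nat.sub_le _ _
    exact_mod_cast this
  have hbig : ∑ j ∈ S, T j * 8 ≤ (b : ℝ) ^ 20 := by
    calc ∑ j ∈ S, T j * 8 ≤ ∑ j ∈ S, (b : ℝ) ^ 2 * 8 := by
          refine sum_le_sum fun j hj => ?_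
          have := hTb j hj
          linarith
      _ = #S * ((b : ℝ) ^ 2 * 8) := by rw [sum_const, nsmul_eq_mul]
      _ ≤ B * ((b : ℝ) ^ 2 * 8) := by gcongr
      _ ≤ B * ((b : ℝ) ^ 2 * b ^ 3) := by
          gcongr
          calc (8 : ℝ) = 2 ^ 3 := by norm_num
            _ ≤ (b : ℝ) ^ 3 := by gcongr
      _ = (b : ℝ) ^ 8 := by rw [hB]; ring
      _ ≤ (b : ℝ) ^ 20 := pow_le_pow_right₀ hb1 (by norm_num)
  have hm1 : ∀ j, 0 ≤ m1 j := fun j => by
    have := (h1 j).2.2.1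
    have h3 : 0 ≤ min (((j : ℝ) + 1) / B) 1 := by positivity
    linarith
  have hm2 : ∀ j, 0 ≤ m2 j := fun j => by
    have := (h2 j).2.2.1
    have h3 : min ((j : ℝ) / B) 1 ≤ min (((j : ℝ) + 1) / B) 1 :=
      min_le_min_right _ (by gcongr; linarith)
    linarith
  refine ⟨c, ∑ j ∈ S, T j * (m1 j * m1 j * m2 j), ⟨?_, ?_, ?_, ?_, ?_, ?_⟩, ?_⟩
  · intro t
    rw [htp t]; simp
  · intro t
    rw [htp t, Complex.ofReal_re]
    have hnn : ∀ j ∈ S, 0 ≤ T j * ((t1 (HH b) (c1 j) (t 0)).re * (t1 (HH b) (c1 j) (t 1)).re *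
        (t1 (HH b) (c2 j) (t 2)).re) :=
      fun j _ => mul_nonneg (hT0 j) (mul_nonneg (mul_nonneg (r1 j _).1 (r1 j _).1) (r2 j _).1)
    unfold gS
    split_ifs with hcond
    · obtain ⟨hxy, hxy', hκ⟩ := hcond
      set x := Int.fract (t 0)
      set x' := Int.fract (t 1)
      set y := Int.fract (t 2)
      have hx0 : 0 ≤ x := Int.fract_nonneg _
      have hx0' : 0 ≤ x' := Int.fract_nonneg _
      have hy1 : y < 1 := Int.fract_lt_one _
      have hy0 : 0 < y := lt_of_lt_of_le (by positivity) hκ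
      obtain ⟨j, hj⟩ : ∃ j : ℕ, j = ⌊B * y⌋₊ := ⟨_, rfl⟩
      have hj1 : (j : ℝ) ≤ B * y := by rw [hj]; exact Nat.floor_le (by positivity)
      have hj2 : B * y < (j : ℝ) + 1 := by rw [hj]; exact Nat.lt_floor_add_one _
      have hjS : j ∈ S := by
        rw [hS, mem_Ico]
        constructor
        · rw [hj]
          apply Nat.le_floor
          push_cast
          rw [hB]
          calc (b : ℝ) ^ 2 = b ^ 3 * (1 / b) := by field_simp
            _ ≤ b ^ 3 * y := by gcongr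
        · have : (j : ℝ) < (b : ℝ) ^ 3 := by
            rw [← hB]
            calc (j : ℝ) ≤ B * y := hj1
              _ < B * 1 := by gcongr
              _ = B := mul_one _
          exact_mod_cast this
      obtain ⟨a1, a2, a3⟩ := hSj j hjS
      have hj' : (0 : ℝ) < j := by exact_mod_cast (by omega : 0 < j)
      have e1 : min (((j : ℝ) + 1) / B) 1 = ((j : ℝ) + 1) / B :=
        min_eq_left (by rw [div_le_one hB0]; exact a3)
      have e2 : min ((j : ℝ) / B) 1 = (j : ℝ) / B :=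
        min_eq_left (by rw [div_le_one hB0]; linarith)
      have g1 : 1 ≤ (t1 (HH b) (c1 j) (t 0)).re := by
        refine ((h1 j).1 (t 0)).2.2.2 hx0 ?_
        rw [e1, le_div_iff₀ hB0]
        nlinarith
      have g1' : 1 ≤ (t1 (HH b) (c1 j) (t 1)).re := by
        refine ((h1 j).1 (t 1)).2.2.2 hx0' ?_
        rw [e1, le_div_iff₀ hB0]
        nlinarith
      have g2 : 1 ≤ (t1 (HH b) (c2 j) (t 2)).re := by
        refine ((h2 j).1 (t 2)).2.2.2 ?_ ?_
        · rw [e2, div_le_iff₀ hB0]; linarith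
        · rw [e1, le_div_iff₀ hB0]; linarith
      calc (1 / y) ^ 2 ≤ T j := by
            refine pow_le_pow_left₀ (by positivity) ?_ 2
            rw [div_le_div_iff₀ hy0 hj']; linarith
        _ = T j * (1 * 1 * 1) := by ring
        _ ≤ T j * ((t1 (HH b) (c1 j) (t 0)).re * (t1 (HH b) (c1 j) (t 1)).re *
              (t1 (HH b) (c2 j) (t 2)).re) := by
            refine mul_le_mul_of_nonneg_left ?_ (hT0 j)
            have g3 := mul_le_mul g1 g1' zero_le_one (zero_le_one.trans g1)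
            exact mul_le_mul g3 g2 zero_le_one (by positivity)
        _ ≤ _ := single_le_sum hnn hjS
    · exact sum_nonneg hnn
  · rw [hc]
    push_cast
    refine sum_congr rfl fun j _ => ?_
    simp only [Pi.zero_apply]
    rw [(h1 j).2.1, (h2 j).2.1]
  · exact sum_nonneg fun j _ =>
      mul_nonneg (hT0 j) (mul_nonneg (mul_nonneg (hm1 j) (hm1 j)) (hm2 j))
  · intro t
    rw [htp t, Complex.ofReal_re]
    refine (sum_le_sum fun j _ => ?_).trans hbig
    refine mul_le_mul_of_nonneg_left ?_ (hT0 j)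
    have q1 := mul_le_mul (r1 j (t 0)).2 (r1 j (t 1)).2 (r1 j _).1 (by norm_num)
    have := mul_le_mul q1 (r2 j (t 2)).2 (r2 j _).1 (by norm_num)
    linarith
  · intro a
    rw [hc]
    refine (norm_sum_le _ _).trans ((sum_le_sum fun j _ => ?_).trans hbig)
    rw [norm_mul, norm_mul, norm_mul, Complex.norm_real, Real.norm_of_nonneg (hT0 j)]
    refine mul_le_mul_of_nonneg_left ?_ (hT0 j)
    have k1 := (h1 j).2.2.2.2.1 (a 0)
    have k1' := (h1 j).2.2.2.2.1 (a 1)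
    have k2 := (h2 j).2.2.2.2.1 (a 2)
    have q1 := mul_le_mul k1 k1' (norm_nonneg _) (by norm_num)
    have := mul_le_mul q1 k2 (norm_nonneg _) (by norm_num)
    linarith
  · -- the mean
    obtain ⟨D, hD⟩ : ∃ D : ℝ, D = C / (b : ℝ) ^ 7 := ⟨_, rfl⟩
    have hD0 : 0 ≤ D := by rw [hD]; positivity
    obtain ⟨w, hw⟩ : ∃ w : ℝ, w = 1 / B + D := ⟨_, rfl⟩
    have hw0 : 0 ≤ w := by rw [hw]; positivity
    have hterm : ∀ j ∈ S, T j * (m1 j * m1 j * m2 j) ≤
        1 / B + (b : ℝ) ^ 2 * (D + 2 * w ^ 2 + w ^ 3) := by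
      intro j hj
      obtain ⟨a1, a2, a3⟩ := hSj j hj
      have e1 : min (((j : ℝ) + 1) / B) 1 = ((j : ℝ) + 1) / B :=
        min_eq_left (by rw [div_le_one hB0]; exact a3)
      have e2 : min ((j : ℝ) / B) 1 = (j : ℝ) / B :=
        min_eq_left (by rw [div_le_one hB0]; linarith)
      have k1 := (h1 j).2.2.2.1
      have k2 := (h2 j).2.2.2.1
      rw [e1, hsq, ← hD, sub_zero] at k1
      rw [e1, e2, hsq, ← hD] at k2
      obtain ⟨r, hr⟩ : ∃ r : ℝ, r = (j : ℝ) / B := ⟨_, rfl⟩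
      have k2' : m2 j ≤ w := by
        have : ((j : ℝ) + 1) / B - j / B = 1 / B := by ring
        rw [hw]; linarith
      have k1' : m1 j ≤ r + w := by
        have : ((j : ℝ) + 1) / B = j / B + 1 / B := by ring
        rw [hw, hr]; linarith
      have hj' : (0 : ℝ) < j := by exact_mod_cast (by omega : 0 < j)
      have hr1 : r ≤ 1 := by rw [hr, div_le_one hB0]; linarith
      have hr0 : 0 < r := by rw [hr]; positivity
      have hTr : T j * r ^ 2 = 1 := by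
        rw [hT, hr]; field_simp
      have p1 : m1 j * m1 j * m2 j ≤ (r + w) * (r + w) * w := by
        have q1 := mul_le_mul k1' k1' (hm1 j) (by positivity)
        exact mul_le_mul q1 k2' (hm2 j) (by positivity)
      have p2 : (r + w) * (r + w) * w ≤ r ^ 2 * (1 / B) + (D + 2 * w ^ 2 + w ^ 3) := by
        have q1 : r ^ 2 * D ≤ 1 * D := by
          have : r ^ 2 ≤ 1 := pow_le_one₀ hr0.le hr1
          gcongr
        have q2 : r * w ^ 2 ≤ 1 * w ^ 2 := by gcongr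
        have q3 : (r + w) * (r + w) * w = r ^ 2 * w + 2 * (r * w ^ 2) + w ^ 3 := by ring
        have q4 : r ^ 2 * w = r ^ 2 * (1 / B) + r ^ 2 * D := by rw [hw]; ring
        rw [q3, q4]
        linarith
      have p3 : 0 ≤ D + 2 * w ^ 2 + w ^ 3 := by positivity
      calc T j * (m1 j * m1 j * m2 j) ≤ T j * (r ^ 2 * (1 / B) + (D + 2 * w ^ 2 + w ^ 3)) :=
            mul_le_mul_of_nonneg_left (p1.trans p2) (hT0 j)
        _ = (T j * r ^ 2) * (1 / B) + T j * (D + 2 * w ^ 2 + w ^ 3) := by ring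
        _ = 1 / B + T j * (D + 2 * w ^ 2 + w ^ 3) := by rw [hTr, one_mul]
        _ ≤ _ := by
            have := mul_le_mul_of_nonneg_right (hTb j hj) p3
            linarith
    refine (sum_le_sum hterm).trans ?_
    rw [sum_const, nsmul_eq_mul]
    have p3 : 0 ≤ D + 2 * w ^ 2 + w ^ 3 := by positivity
    have hwb : w ≤ (1 + C) / b ^ 3 := by
      rw [hw, hD, hB]
      have : C / (b : ℝ) ^ 7 ≤ C / b ^ 3 := by
        apply div_le_div_of_nonneg_left hC.le (by positivity)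
        exact pow_le_pow_right₀ hb1 (by norm_num)
      have e : (1 + C) / (b : ℝ) ^ 3 = 1 / b ^ 3 + C / b ^ 3 := by ring
      rw [e]; linarith
    calc (#S : ℝ) * (1 / B + (b : ℝ) ^ 2 * (D + 2 * w ^ 2 + w ^ 3)) ≤
          B * (1 / B + (b : ℝ) ^ 2 * (D + 2 * w ^ 2 + w ^ 3)) := by gcongr
      _ ≤ B * (1 / B + (b : ℝ) ^ 2 * (D + 2 * ((1 + C) / b ^ 3) ^ 2 + ((1 + C) / b ^ 3) ^ 3)) := by
          gcongr
      _ = 1 + (C / b ^ 2 + 2 * (1 + C) ^ 2 / b + (1 + C) ^ 3 / b ^ 4) := by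
          rw [hD, hB]; field_simp
      _ ≤ 1 + (C / b + 2 * (1 + C) ^ 2 / b + (1 + C) ^ 3 / b) := by
          have t1 : (b : ℝ) ≤ b ^ 2 := by nlinarith
          have t2 : (b : ℝ) ≤ b ^ 4 := by
            calc (b : ℝ) = b ^ 1 := (pow_one _).symm
              _ ≤ b ^ 4 := pow_le_pow_right₀ hb1 (by norm_num)
          gcongr
      _ = 1 + (C + 2 * (1 + C) ^ 2 + (1 + C) ^ 3) / b := by ring

end ESAs
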