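import Pool.Agent.ESAs.Stmts
import Pool.Agent.ESGcd.HT

open Finset

namespace ESAs

theorem tSmo : St_smo := by
  obtain ⟨C, hC, h⟩ := ESGcd.sieve_bound
  refine ⟨C, hC, ?_⟩
  intro y T hy hT
  have h1 := (h y y y hy le_rfl le_rfl).1 T (fun n hn => ⟨by
    have := (hT n hn).1; omega, fun p hp hd => Or.inl ((hT n hn).2 p hp hd)⟩)
  have hly : 0 < Real.log y := Real.log_pos (by linarith)
  rw [div_self hly.ne', mul_one] at h1
  have e : ∑ m ∈ T, (1 : ℝ) / m = ∑ m ∈ T, ((m : ℝ))⁻¹ := sum_congr rfl fun m _ => one_div _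
  rw [e]
  exact h1

end ESAs
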