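import Pool.Agent.ESAs.Stmts

open Finset

namespace ESAs

theorem tSolB : St_solB := by
  intro q M P hq hP hqM hlt hsol J hJ hJM
  have hm : 2 ≤ q * M := by
    have := hq.two_le
    nlinarith
  rw [ESGcd.isSolution_iff hm hP hlt] at hsol
  have h1 := hsol (q * J) (Nat.mul_pos hq.pos hJ) (Nat.mul_lt_mul_of_pos_left hJM hq.pos)
  have h2 : q ∣ (q * M * P).choose (q * J * P) := (dvd_mul_right q M).trans h1
  by_contra hcon
  push Not at hcon
  refine ESGcd.not_dvd_choose_of_mod_le hq ?_ ?_ h2
  · exact Nat.mul_le_mul_right _ (Nat.mul_le_mul_left _ hJM.le)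
  · intro u
    rcases u with _ | u
    · simp [Nat.mod_one]
    · have e1 : q * J * P % q ^ (u + 1) = q * (J * P % q ^ u) := by
        rw [pow_succ', mul_assoc, Nat.mul_mod_mul_left]
      have e2 : q * M * P % q ^ (u + 1) = q * (M * P % q ^ u) := by
        rw [pow_succ', mul_assoc, Nat.mul_mod_mul_left]
      rw [e1, e2]
      apply Nat.mul_le_mul_left
      rcases u with _ | u
      · simp [Nat.mod_one]
      · exact hcon u

end ESAs
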