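import Pool.Agent.ESAs.Stmts
import Pool.Agent.ESGcd.Carry
import Pool.Agent.ESGcd.Crit

open Finset

namespace ESAs

namespace SolG

lemma carr_eq (r m j L n : ℕ) : carr r m j L n = ESGcd.cc (r ^ 1) j (m - j) L n := by
  unfold carr ESGcd.cc
  rw [pow_one]

lemma carr_le {r m j L n : ℕ} (hr : r.Prime) (hj : j < m) :
    carr r m j L n ≤ ((m * n).choose (j * n)).factorization r := by
  rw [carr_eq]
  have h := ESGcd.cc_le_factorization r 1 j (m - j) L n hr one_pos
  have h2 : j + (m - j) = m := by omega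
  rw [h2] at h
  exact h

lemma no_carry {r m j n : ℕ} (h : ∀ L, carr r m j L n = 0) (i : ℕ) :
    (j * n) % r ^ (i + 1) + ((m - j) * n) % r ^ (i + 1) < r ^ (i + 1) := by
  have h1 := h (i + 1)
  unfold carr at h1
  rw [card_eq_zero, filter_eq_empty_iff] at h1
  have h2 := h1 (mem_range.2 (Nat.lt_succ_self i))
  omega

end SolG

theorem tSolG : St_solG := by
  intro m P hm hP hmP hns
  rw [ESGcd.isSolution_iff hm hP hmP] at hns
  push Not at hns
  obtain ⟨j, hj0, hjm, hnd⟩ := hns
  have hC0 : (m * P).choose (j * P) ≠ 0 :=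
    (Nat.choose_pos (Nat.mul_le_mul_right P hjm.le)).ne'
  have h1 : ∃ r, r.Prime ∧ ((m * P).choose (j * P)).factorization r < m.factorization r := by
    by_contra hcon
    push Not at hcon
    exact hnd ((Nat.factorization_prime_le_iff_dvd (by omega) hC0).1 hcon)
  obtain ⟨r, hr, hlt⟩ := h1
  have hrm : r ∣ m := by
    by_contra hcon
    rw [Nat.factorization_eq_zero_of_not_dvd hcon] at hlt
    omega
  have hcar : ∀ L, carr r m j L P < m.factorization r :=
    fun L => (SolG.carr_le hr hjm).trans_lt hlt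
  refine ⟨r, hr, hrm, j, hj0, hjm, hcar, ?_⟩
  intro hfac
  have hz : ∀ L, carr r m j L P = 0 := by
    intro L
    have := hcar L
    omega
  have hrP : ¬ r ∣ P := by
    intro hd
    have h2 : r = P := (Nat.prime_dvd_prime_iff_eq hr hP).1 hd
    have h3 : r ≤ m := Nat.le_of_dvd (by omega) hrm
    omega
  have hrj : r ∣ j := by
    have h2 := SolG.no_carry hz 0
    simp only [zero_add, pow_one] at h2
    have h3 : ((j * P) % r + ((m - j) * P) % r) % r = 0 := by
      rw [← Nat.add_mod, ← add_mul]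
      have h4 : j + (m - j) = m := by omega
      rw [h4]
      exact Nat.mod_eq_zero_of_dvd (Dvd.dvd.mul_right hrm P)
    rw [Nat.mod_eq_of_lt h2] at h3
    have h4 : (j * P) % r = 0 := by omega
    have h5 : r ∣ j * P := Nat.dvd_of_mod_eq_zero h4
    exact (hr.dvd_mul.1 h5).resolve_right hrP
  obtain ⟨J, rfl⟩ := hrj
  obtain ⟨M, rfl⟩ := hrm
  have hr0 : 0 < r := hr.pos
  have hMr : r * M / r = M := Nat.mul_div_cancel_left M hr0
  rw [hMr]
  have hJM : J < M := Nat.lt_of_mul_lt_mul_left hjm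
  refine ⟨J, Nat.pos_of_ne_zero (by rintro rfl; simp at hj0), hJM, ?_⟩
  intro L i _
  have h2 := SolG.no_carry hz (i + 1)
  have h3 : r * J * P = r * (J * P) := by ring
  have h4 : (r * M - r * J) * P = r * ((M - J) * P) := by
    rw [← Nat.mul_sub]; ring
  have h5 : r ^ (i + 1 + 1) = r * r ^ (i + 1) := by rw [pow_succ' r (i + 1)]
  rw [h3, h4, h5, Nat.mul_mod_mul_left, Nat.mul_mod_mul_left, ← mul_add] at h2
  have h6 : (J * P) % r ^ (i + 1) + ((M - J) * P) % r ^ (i + 1) < r ^ (i + 1) :=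
    Nat.lt_of_mul_lt_mul_left h2
  have h7 : M * P = J * P + (M - J) * P := by
    rw [← add_mul]; congr 1; omega
  rw [h7, Nat.add_mod, Nat.mod_eq_of_lt h6]
  exact Nat.le_add_right _ _

end ESAs
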