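import Pool.Agent.ESAs.Stmts

open Finset

namespace ESAs

namespace Sq

lemma tail_sq (N : ℕ) (hN : 1 ≤ N) (Y : ℕ) (hY : N ≤ Y) :
    ∑ r ∈ Icc (N + 1) Y, 1 / (r : ℝ) ^ 2 ≤ 1 / (N : ℝ) - 1 / (Y : ℝ) := by
  induction Y, hY using Nat.le_induction with
  | base => simp
  | succ Y hY ih =>
    rw [Finset.sum_Icc_succ_top (by omega)]
    have hY0 : (0 : ℝ) < Y := by
      have : 0 < Y := by omega
      exact_mod_cast this
    have h1 : 1 / ((Y + 1 : ℕ) : ℝ) ^ 2 ≤ 1 / (Y : ℝ) - 1 / ((Y + 1 : ℕ) : ℝ) := by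
      push_cast
      rw [div_sub_div _ _ hY0.ne' (by positivity), div_le_div_iff₀ (by positivity) (by positivity)]
      nlinarith
    linarith

lemma mult_sum (d Y : ℕ) (hd : 1 ≤ d) :
    ∑ m ∈ Icc 1 Y with d ∣ m, (1 : ℝ) / m ≤ (Real.log Y + 1) * (1 / d) := by
  have hd0 : (0 : ℝ) < d := by exact_mod_cast hd
  have e : (Icc 1 Y).filter (fun m => d ∣ m) = (Icc 1 (Y / d)).image (fun k => d * k) := by
    ext m
    simp only [mem_filter, mem_Icc, mem_image]
    constructor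
    · rintro ⟨⟨h1, h2⟩, k, rfl⟩
      refine ⟨k, ⟨?_, ?_⟩, rfl⟩
      · rcases Nat.eq_zero_or_pos k with h | h
        · subst h; simp at h1
        · exact h
      · rw [Nat.le_div_iff_mul_le hd]; linarith [mul_comm d k]
    · rintro ⟨k, ⟨h1, h2⟩, rfl⟩
      rw [Nat.le_div_iff_mul_le hd] at h2
      refine ⟨⟨?_, ?_⟩, dvd_mul_right _ _⟩
      · exact Nat.one_le_iff_ne_zero.2 (by positivity)
      · linarith [mul_comm d k]
  rw [e, sum_image (by
    intro a _ b _ h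
    exact Nat.eq_of_mul_eq_mul_left hd h)]
  have h1 : ∀ k ∈ Icc 1 (Y / d), (1 : ℝ) / ((d * k : ℕ) : ℝ) = (1 / d) * (1 / k) := by
    intro k _
    push_cast
    rw [one_div_mul_one_div]
  rw [sum_congr rfl h1, ← mul_sum, mul_comm]
  refine mul_le_mul_of_nonneg_right ?_ (by positivity)
  rcases Nat.eq_zero_or_pos (Y / d) with h | h
  · rw [h]
    simp only [Icc_eq_empty (show ¬ 1 ≤ 0 by norm_num), sum_empty]
    have : 0 ≤ Real.log Y := Real.log_natCast_nonneg Y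
    linarith
  · have h2 := harmonic_le_one_add_log (Y / d)
    rw [harmonic_eq_sum_Icc] at h2
    push_cast at h2
    have h3 : ∑ k ∈ Icc 1 (Y / d), 1 / (k : ℝ) ≤ 1 + Real.log ((Y / d : ℕ) : ℝ) := by
      simpa [one_div] using h2
    have h4 : Real.log ((Y / d : ℕ) : ℝ) ≤ Real.log Y := by
      apply Real.log_le_log
      · exact_mod_cast h
      · exact_mod_cast Nat.div_le_self Y d
    linarith

end Sq

open Classical in
theorem tSq : St_sq := by
  intro z Y hz hY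
  set N := ⌊z⌋₊ with hN
  have hN1 : 1 ≤ N := by
    rw [hN]; exact Nat.le_floor (by simpa using hz)
  have hlog : 0 ≤ Real.log Y := Real.log_natCast_nonneg Y
  have hNz : 1 / (N : ℝ) ≤ 2 / z := by
    have h1 : z < N + 1 := Nat.lt_floor_add_one z
    have h2 : (1 : ℝ) ≤ N := by exact_mod_cast hN1
    rw [div_le_div_iff₀ (by linarith) (by linarith)]
    linarith
  have hstep : ∑ m ∈ Icc 1 Y with ∃ r : ℕ, r.Prime ∧ z < r ∧ r ^ 2 ∣ m, (1 : ℝ) / m ≤
      ∑ r ∈ Icc (N + 1) Y, ∑ m ∈ Icc 1 Y with r ^ 2 ∣ m, (1 : ℝ) / m := by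
    have h1 : ∀ r ∈ Icc (N + 1) Y, ∑ m ∈ Icc 1 Y with r ^ 2 ∣ m, (1 : ℝ) / m =
        ∑ m ∈ Icc 1 Y, if r ^ 2 ∣ m then (1 : ℝ) / m else 0 := fun r _ => sum_filter _ _
    rw [sum_congr rfl h1, sum_comm, sum_filter]
    refine sum_le_sum fun m hm => ?_
    have hm1 := mem_Icc.1 hm
    have hnn : ∀ r ∈ Icc (N + 1) Y, (0 : ℝ) ≤ if r ^ 2 ∣ m then (1 : ℝ) / m else 0 := by
      intro r _
      split_ifs <;> positivity
    split_ifs with h
    · obtain ⟨r, hr, hzr, hrm⟩ := h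
      have hrN : N + 1 ≤ r := by
        have : (N : ℝ) < r := lt_of_le_of_lt (Nat.floor_le (by linarith)) hzr
        have : N < r := by exact_mod_cast this
        omega
      have hrY : r ≤ Y := by
        have h2 : r ^ 2 ≤ m := Nat.le_of_dvd hm1.1 hrm
        have h3 : r ≤ r ^ 2 := Nat.le_self_pow (by norm_num) r
        omega
      have h4 := single_le_sum hnn (mem_Icc.2 ⟨hrN, hrY⟩)
      simpa [hrm] using h4
    · exact sum_nonneg hnn
  refine hstep.trans ?_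
  have h2 : ∑ r ∈ Icc (N + 1) Y, ∑ m ∈ Icc 1 Y with r ^ 2 ∣ m, (1 : ℝ) / m ≤
      ∑ r ∈ Icc (N + 1) Y, (Real.log Y + 1) * (1 / (r : ℝ) ^ 2) := by
    refine sum_le_sum fun r hr => ?_
    have hr1 := mem_Icc.1 hr
    have := Sq.mult_sum (r ^ 2) Y (Nat.one_le_pow _ _ (by omega))
    push_cast at this
    exact this
  refine h2.trans ?_
  rw [← mul_sum]
  refine mul_le_mul_of_nonneg_left ?_ (by linarith)
  refine le_trans ?_ hNz
  rcases le_or_gt N Y with h | h
  · have := Sq.tail_sq N hN1 Y h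
    have h5 : (0 : ℝ) ≤ 1 / (Y : ℝ) := by positivity
    linarith
  · rw [Icc_eq_empty (by omega), sum_empty]
    positivity

end ESAs
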