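import Pool.Agent.ESAs.Stmts
import Pool.Agent.ESGcd.Typical2
import Pool.Agent.CoprimeSieve.Mertens

open Finset

namespace ESAs

namespace TLa

/-- the decomposition of a composite integer -/
lemma decomp {n : ℕ} (h2 : 2 ≤ n) (hp : ¬ n.Prime) :
    (ESGcd.maxPrime n).Prime ∧ (secPrime n).Prime ∧ 1 ≤ cofac n ∧ secPrime n ≤ ESGcd.maxPrime n ∧
      n = ESGcd.maxPrime n * (secPrime n * cofac n) ∧
      n / ESGcd.maxPrime n = secPrime n * cofac n ∧
      ∀ p, p.Prime → p ∣ cofac n → p ≤ secPrime n := by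
  obtain ⟨hP, hPn⟩ := ESGcd.maxPrime_spec h2
  set P := ESGcd.maxPrime n with hPd
  have hn : n = P * (n / P) := (Nat.mul_div_cancel' hPn).symm
  set m := n / P with hm
  have hm2 : 2 ≤ m := by
    rcases Nat.lt_or_ge m 2 with h | h
    · exfalso
      interval_cases m
      · omega
      · rw [mul_one] at hn
        rw [hn] at hp
        exact hp hP
    · exact h
  obtain ⟨hq, hqm⟩ := ESGcd.maxPrime_spec hm2
  have hqd : secPrime n = ESGcd.maxPrime m := rfl
  have hcd : cofac n = m / ESGcd.maxPrime m := rfl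
  rw [hqd, hcd]
  set q := ESGcd.maxPrime m with hq'
  have hmq : m = q * (m / q) := (Nat.mul_div_cancel' hqm).symm
  have hM1 : 1 ≤ m / q := Nat.div_pos (Nat.le_of_dvd (by omega) hqm) hq.pos
  refine ⟨hP, hq, hM1, ?_, ?_, hmq, ?_⟩
  · exact ESGcd.le_maxPrime (by omega) hq (hqm.trans (Nat.div_dvd_of_dvd hPn))
  · rw [← hmq]
    exact hn
  · intro p hpp hpd
    exact ESGcd.le_maxPrime (by omega) hpp (hpd.trans (Nat.div_dvd_of_dvd hqm))

lemma pi3 (z s : ℝ) (hs : 9 ≤ s) (hz0 : 0 < z) (hz : s ^ 2 / 3 ≤ Real.log z) :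
    (Nat.primeCounting ⌊z⌋₊ : ℝ) ≤ 10 * z / s ^ 2 := by
  have hs2 : 81 ≤ s ^ 2 := by nlinarith
  have hlz : 0 < Real.log z := by linarith
  have hz1 : 1 < z := (Real.log_pos_iff hz0.le).1 hlz
  have h1 := Chebyshev.pi_le_log4_mul_div hz1
  refine h1.trans ?_
  have h2 : s ^ 2 / 6 ≤ Real.log √z := by
    rw [Real.log_sqrt hz0.le]
    linarith
  have h4 : Real.log 4 < 1.4 := by
    rw [show (4 : ℝ) = 2 ^ 2 by norm_num, Real.log_pow]
    have := Real.log_two_lt_d9
    push_cast; linarith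
  have h3 : Real.log 4 * z / Real.log √z ≤ 9 * z / s ^ 2 := by
    calc Real.log 4 * z / Real.log √z ≤ 1.4 * z / (s ^ 2 / 6) := by
          gcongr
      _ = 8.4 * z / s ^ 2 := by field_simp; norm_num
      _ ≤ 9 * z / s ^ 2 := by gcongr; norm_num
  have h5 : s ^ 2 ≤ √z := by
    have h6 : Real.exp (s ^ 2 / 6) ≤ √z := by
      calc Real.exp (s ^ 2 / 6) ≤ Real.exp (Real.log √z) := Real.exp_le_exp.2 h2
        _ = √z := Real.exp_log (Real.sqrt_pos.2 hz0)
    have h7 := Real.quadratic_le_exp_of_nonneg (show 0 ≤ s ^ 2 / 6 by positivity)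
    nlinarith
  have h6 : √z ≤ z / s ^ 2 := by
    rw [le_div_iff₀ (by positivity)]
    calc √z * s ^ 2 ≤ √z * √z := by gcongr
      _ = z := Real.mul_self_sqrt hz0.le
  have h7 : 10 * z / s ^ 2 = 9 * z / s ^ 2 + z / s ^ 2 := by ring
  rw [h7]
  linarith

lemma harm (y : ℝ) (hy : 0 ≤ y) : ∑ M ∈ Icc 1 ⌊Real.exp y⌋₊, (1 : ℝ) / M ≤ 1 + y := by
  have h3 := harmonic_le_one_add_log ⌊Real.exp y⌋₊
  rw [harmonic_eq_sum_Icc] at h3
  push_cast at h3
  have h4 : Real.log ⌊Real.exp y⌋₊ ≤ y := by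
    have h5 : 1 ≤ ⌊Real.exp y⌋₊ := Nat.le_floor (by simpa using Real.one_le_exp hy)
    calc Real.log ⌊Real.exp y⌋₊ ≤ Real.log (Real.exp y) := by
          apply Real.log_le_log
          · exact_mod_cast h5
          · exact Nat.floor_le (Real.exp_pos y).le
      _ = y := Real.log_exp y
  simp only [one_div]
  linarith

open Classical in
/-- the integers `P q M` -/
noncomputable def W (x : ℕ) (s : ℝ) (q M : ℕ) : Finset ℕ :=
  if s ^ 2 / 3 ≤ Real.log ((x : ℝ) / (q * M)) then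
    ({P ∈ Icc 1 (x / (q * M)) | P.Prime} : Finset ℕ).image fun P => P * (q * M) else ∅

lemma card_W (x : ℕ) (s : ℝ) (q M : ℕ) (hs : 9 ≤ s) (hx : 0 < x) (hq : 0 < q) (hM : 0 < M) :
    (#(W x s q M) : ℝ) ≤ 10 * (x / s ^ 2) * (1 / q * (1 / M)) := by
  classical
  have hq0 : (0 : ℝ) < q := by exact_mod_cast hq
  have hM0 : (0 : ℝ) < M := by exact_mod_cast hM
  have hx0 : (0 : ℝ) < x := by exact_mod_cast hx
  unfold W
  split_ifs with h
  · have hpi : ∀ z : ℕ, #({P ∈ Icc 1 z | P.Prime} : Finset ℕ) = Nat.primeCounting z := by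
      intro z
      rw [Nat.primeCounting, Nat.primeCounting', Nat.count_eq_card_filter_range]
      congr 1
      ext P
      simp only [mem_filter, mem_range, mem_Icc]
      constructor
      · rintro ⟨h1, h2⟩; exact ⟨by omega, h2⟩
      · rintro ⟨h1, h2⟩; exact ⟨⟨h2.pos, by omega⟩, h2⟩
    have h1 : #(({P ∈ Icc 1 (x / (q * M)) | P.Prime} : Finset ℕ).image fun P => P * (q * M)) ≤
        Nat.primeCounting (x / (q * M)) := card_image_le.trans (hpi _).le
    have h2 : x / (q * M) = ⌊(x : ℝ) / (q * M)⌋₊ := by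
      have := (Nat.floor_div_eq_div (K := ℝ) x (q * M)).symm
      push_cast at this
      exact this
    have h3 := pi3 ((x : ℝ) / (q * M)) s hs (by positivity) h
    rw [← h2] at h3
    calc ((#(({P ∈ Icc 1 (x / (q * M)) | P.Prime} : Finset ℕ).image fun P => P * (q * M)) : ℕ) : ℝ)
        ≤ (Nat.primeCounting (x / (q * M)) : ℝ) := by exact_mod_cast h1
      _ ≤ 10 * ((x : ℝ) / (q * M)) / s ^ 2 := h3
      _ = 10 * (x / s ^ 2) * (1 / q * (1 / M)) := by field_simp
  · simp only [card_empty, Nat.cast_zero]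
    positivity

end TLa

open TLa Pool.Agent.CoprimeSieve in
theorem tTLa (hqlq : St_qlq) : St_TLa := by
  classical
  obtain ⟨C2, hC2, hql⟩ := hqlq
  obtain ⟨C1, hC1, hmer⟩ := mertens_second_upper
  refine ⟨10 * (1 + 2 * C1 + 2 * C2), by positivity, ?_⟩
  intro K hK
  -- `K log (2 s) ≤ s` for large `s`
  have hev : ∀ᶠ s : ℝ in Filter.atTop, K * Real.log (2 * s) ≤ s := by
    have h1 : Filter.Tendsto (fun s : ℝ => 2 * s) Filter.atTop Filter.atTop :=
      Filter.tendsto_id.const_mul_atTop (by norm_num)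
    have h2 := (h1.eventually (Real.isLittleO_log_id_atTop.bound
      (show (0 : ℝ) < 1 / (2 * K) by positivity)))
    filter_upwards [h2, Filter.eventually_ge_atTop 1] with s hs hs1
    have h3 : 0 ≤ Real.log (2 * s) := Real.log_nonneg (by linarith)
    simp only [id_eq, Real.norm_of_nonneg h3, Real.norm_of_nonneg (show (0 : ℝ) ≤ 2 * s by linarith)]
      at hs
    calc K * Real.log (2 * s) ≤ K * (1 / (2 * K) * (2 * s)) := by gcongr
      _ = s := by field_simp
  obtain ⟨s1, hs1⟩ := Filter.eventually_atTop.1 hev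
  refine ⟨max s1 9, ?_⟩
  intro x s hs hlx
  have hs9 : 9 ≤ s := (le_max_right _ _).trans hs
  have hsK : K * Real.log (2 * s) ≤ s := hs1 s ((le_max_left _ _).trans hs)
  have hs0 : 0 < s := by linarith
  have hx0 : 0 < x := by
    rcases Nat.eq_zero_or_pos x with rfl | h
    · simp at hlx
      nlinarith
    · exact h
  have hx0' : (0 : ℝ) < x := by exact_mod_cast hx0
  have hxe : (x : ℝ) = Real.exp (s ^ 2) := by rw [← hlx, Real.exp_log hx0']
  set z : ℝ := Real.exp (K * s / 2) with hz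
  have hlz : Real.log z = K * s / 2 := Real.log_exp _
  have hz2 : 2 ≤ z := by
    have h1 := Real.add_one_le_exp (K * s / 2)
    nlinarith
  set Q : Finset ℕ := (pr x).filter (fun p : ℕ => z < (p : ℝ)) with hQ
  have hsub : ({n ∈ Icc 2 x | ¬ n.Prime ∧ Rule n ∧
      Real.exp (K * s) < ((n / ESGcd.maxPrime n : ℕ) : ℝ) ∧ cofac n ≤ secPrime n} : Finset ℕ) ⊆
      Q.biUnion fun q => (Icc 1 ⌊Real.exp (s ^ 2 / Real.log q)⌋₊).biUnion fun M => W x s q M := by
    intro n hn
    rw [mem_filter, mem_Icc] at hn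
    obtain ⟨⟨hn2, hnx⟩, hnp, hR, hm, hMq⟩ := hn
    obtain ⟨hP, hq, hM1, hqP, hnd, hmd, -⟩ := decomp hn2 hnp
    unfold Rule at hR
    set P := ESGcd.maxPrime n
    set q := secPrime n
    set M := cofac n
    rw [hmd] at hm
    have hq0 : (0 : ℝ) < q := by exact_mod_cast hq.pos
    have hM0 : (0 : ℝ) < M := by exact_mod_cast hM1
    have hlq : 0 < Real.log q := Real.log_pos (by exact_mod_cast hq.one_lt)
    have hln : Real.log n ≤ s ^ 2 := by
      rw [← hlx]
      exact Real.log_le_log (by exact_mod_cast (by omega : 0 < n)) (by exact_mod_cast hnx)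
    have hqz : z < q := by
      have h1 : Real.exp (K * s) < (q : ℝ) ^ 2 := by
        refine lt_of_lt_of_le hm ?_
        push_cast
        rw [sq]
        gcongr
      have h2 : Real.exp (K * s) = z ^ 2 := by
        rw [hz, ← Real.exp_nat_mul]
        congr 1
        push_cast
        ring
      rw [h2] at h1
      exact lt_of_pow_lt_pow_left₀ 2 hq0.le h1
    have hqx : (q : ℝ) ≤ x := by
      have h1 : q ≤ n := Nat.le_of_dvd (by omega) (by
        rw [hnd]
        exact Dvd.dvd.mul_left (Dvd.intro _ rfl) _)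
      exact_mod_cast h1.trans hnx
    rw [mem_biUnion]
    refine ⟨q, ?_, ?_⟩
    · rw [hQ, mem_filter, mem_pr]
      exact ⟨⟨hq, hqx⟩, hqz⟩
    rw [mem_biUnion]
    refine ⟨M, ?_, ?_⟩
    · rw [mem_Icc]
      refine ⟨hM1, ?_⟩
      apply Nat.le_floor
      have h1 : Real.log M ≤ s ^ 2 / Real.log q := by
        rw [le_div_iff₀ hlq]
        linarith
      calc (M : ℝ) = Real.exp (Real.log M) := (Real.exp_log hM0).symm
        _ ≤ _ := Real.exp_le_exp.2 h1
    · have hPx : (P : ℝ) ≤ (x : ℝ) / (q * M) := by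
        rw [le_div_iff₀ (by positivity)]
        have h1 : P * (q * M) ≤ x := by rw [← hnd]; exact hnx
        exact_mod_cast h1
      set Y : ℝ := (x : ℝ) / (q * M) with hY
      have hY0 : 0 < Y := by positivity
      have h3 : (x : ℝ) ≤ Y ^ 3 := by
        have h4 : (q : ℝ) ≤ Y := le_trans (by exact_mod_cast hqP) hPx
        have h5 : (M : ℝ) ≤ Y := le_trans (by exact_mod_cast hMq) h4
        calc (x : ℝ) = Y * (q * M) := by rw [hY]; field_simp
          _ ≤ Y * (Y * Y) := by gcongr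
          _ = Y ^ 3 := by ring
      have hc : s ^ 2 / 3 ≤ Real.log Y := by
        have h4 := Real.log_le_log hx0' h3
        rw [Real.log_pow, hlx] at h4
        push_cast at h4
        linarith
      unfold W
      rw [if_pos hc, mem_image]
      refine ⟨P, ?_, hnd.symm⟩
      rw [mem_filter, mem_Icc]
      refine ⟨⟨hP.pos, ?_⟩, hP⟩
      rw [Nat.le_div_iff_mul_le (Nat.mul_pos hq.pos hM1), ← hnd]
      exact hnx
  have hcard : (#{n ∈ Icc 2 x | ¬ n.Prime ∧ Rule n ∧
      Real.exp (K * s) < ((n / ESGcd.maxPrime n : ℕ) : ℝ) ∧ cofac n ≤ secPrime n} : ℝ) ≤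
      ∑ q ∈ Q, ∑ M ∈ Icc 1 ⌊Real.exp (s ^ 2 / Real.log q)⌋₊, (#(W x s q M) : ℝ) := by
    have h1 := (card_le_card hsub).trans (card_biUnion_le.trans
      (sum_le_sum fun q _ => card_biUnion_le))
    exact_mod_cast h1
  refine hcard.trans ?_
  have hQm : ∀ q ∈ Q, q.Prime ∧ (q : ℝ) ≤ x ∧ z < q := by
    intro q hq
    rw [hQ, mem_filter, mem_pr] at hq
    exact ⟨hq.1.1, hq.1.2, hq.2⟩
  have h1 : ∀ q ∈ Q, ∑ M ∈ Icc 1 ⌊Real.exp (s ^ 2 / Real.log q)⌋₊, (#(W x s q M) : ℝ) ≤
      10 * (x / s ^ 2) * (1 / q + s ^ 2 * (1 / (q * Real.log q))) := by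
    intro q hq
    obtain ⟨hqp, -, hqz⟩ := hQm q hq
    have hlq : 0 < Real.log q := Real.log_pos (by exact_mod_cast hqp.one_lt)
    have hq0 : (0 : ℝ) < q := by exact_mod_cast hqp.pos
    calc ∑ M ∈ Icc 1 ⌊Real.exp (s ^ 2 / Real.log q)⌋₊, (#(W x s q M) : ℝ)
        ≤ ∑ M ∈ Icc 1 ⌊Real.exp (s ^ 2 / Real.log q)⌋₊, 10 * (x / s ^ 2) * (1 / q * (1 / M)) := by
          refine sum_le_sum fun M hM => ?_
          rw [mem_Icc] at hM
          exact card_W x s q M hs9 hx0 hqp.pos hM.1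
      _ = 10 * (x / s ^ 2) * (1 / q * ∑ M ∈ Icc 1 ⌊Real.exp (s ^ 2 / Real.log q)⌋₊, (1 : ℝ) / M) := by
          rw [mul_sum, mul_sum]
      _ ≤ 10 * (x / s ^ 2) * (1 / q * (1 + s ^ 2 / Real.log q)) := by
          have := harm (s ^ 2 / Real.log q) (by positivity)
          gcongr
      _ = 10 * (x / s ^ 2) * (1 / q + s ^ 2 * (1 / (q * Real.log q))) := by
          field_simp
  refine (sum_le_sum h1).trans ?_
  rw [← mul_sum, sum_add_distrib, ← mul_sum]
  have h2 : ∑ q ∈ Q, 1 / ((q : ℝ) * Real.log q) ≤ C2 / (K * s / 2) := by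
    have := hql z Q hz2 (fun q hq => ⟨(hQm q hq).1, (hQm q hq).2.2⟩)
    rwa [hlz] at this
  have h3 : ∑ q ∈ Q, (1 : ℝ) / q ≤ Real.log (2 * s) + C1 / (K * s / 2) := by
    rcases le_or_gt z x with hzx | hzx
    · have h4 := hmer z x hz2 hzx
      rw [hlz, hlx] at h4
      have h5 : Real.log (s ^ 2 / (K * s / 2)) ≤ Real.log (2 * s) := by
        apply Real.log_le_log (by positivity)
        rw [div_le_iff₀ (by positivity)]
        nlinarith [mul_pos hs0 hs0]
      linarith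
    · have h4 : Q = ∅ := by
        rw [eq_empty_iff_forall_notMem]
        intro q hq
        have := hQm q hq
        linarith
      rw [h4, sum_empty]
      have : 0 ≤ Real.log (2 * s) := Real.log_nonneg (by linarith)
      positivity
  calc 10 * ((x : ℝ) / s ^ 2) * (∑ q ∈ Q, (1 : ℝ) / q + s ^ 2 * ∑ q ∈ Q, 1 / ((q : ℝ) * Real.log q))
      ≤ 10 * ((x : ℝ) / s ^ 2) * ((Real.log (2 * s) + C1 / (K * s / 2)) +
          s ^ 2 * (C2 / (K * s / 2))) := by gcongr
    _ = 10 * (x / (K * s)) * (K * Real.log (2 * s) / s + 2 * C1 / s ^ 2 + 2 * C2) := by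
        field_simp
    _ ≤ 10 * (x / (K * s)) * (1 + 2 * C1 + 2 * C2) := by
        have h5 : K * Real.log (2 * s) / s ≤ 1 := (div_le_one hs0).2 hsK
        have h6 : 2 * C1 / s ^ 2 ≤ 2 * C1 := by
          apply div_le_self (by positivity)
          nlinarith
        gcongr
    _ = 10 * (1 + 2 * C1 + 2 * C2) * (x / (K * s)) := by ring

end ESAs
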