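import Pool.Agent.ESAs.Stmts
import Pool.Agent.ESGcd.Order
import Pool.Agent.ESGcd.Typical2
import Pool.Agent.CoprimeSieve.Mertens

open Finset

namespace ESAs

namespace TLb

/-- the decomposition of a composite integer -/
lemma decomp {n : ℕ} (h2 : 2 ≤ n) (hp : ¬ n.Prime) :
    (ESGcd.maxPrime n).Prime ∧ (secPrime n).Prime ∧ 1 ≤ cofac n ∧ secPrime n ≤ ESGcd.maxPrime n ∧
      n = ESGcd.maxPrime n * (secPrime n * cofac n) ∧
      n / ESGcd.maxPrime n = secPrime n * cofac n ∧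
      ∀ p, p.Prime → p ∣ cofac n → p ≤ secPrime n := by
  obtain ⟨hP, hPn⟩ := ESGcd.maxPrime_spec h2
  set P := ESGcd.maxPrime n with hPd
  have hn : n = P * (n / P) := (Nat.mul_div_cancel' hPn).symm
  set m := n / P with hm
  have hm2 : 2 ≤ m := by
    rcases Nat.lt_or_ge m 2 with h | h
    · exfalso
      interval_cases m
      · omega
      · rw [mul_one] at hn
        rw [hn] at hp
        exact hp hP
    · exact h
  obtain ⟨hq, hqm⟩ := ESGcd.maxPrime_spec hm2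
  have hqd : secPrime n = ESGcd.maxPrime m := rfl
  have hcd : cofac n = m / ESGcd.maxPrime m := rfl
  rw [hqd, hcd]
  set q := ESGcd.maxPrime m with hq'
  have hmq : m = q * (m / q) := (Nat.mul_div_cancel' hqm).symm
  have hM1 : 1 ≤ m / q := Nat.div_pos (Nat.le_of_dvd (by omega) hqm) hq.pos
  refine ⟨hP, hq, hM1, ?_, ?_, hmq, ?_⟩
  · exact ESGcd.le_maxPrime (by omega) hq (hqm.trans (Nat.div_dvd_of_dvd hPn))
  · rw [← hmq]
    exact hn
  · intro p hpp hpd
    exact ESGcd.le_maxPrime (by omega) hpp (hpd.trans (Nat.div_dvd_of_dvd hqm))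

/-- `exp (-t) ≤ 2 / t^2` -/
lemma exp_neg_le {t : ℝ} (ht : 0 < t) : Real.exp (-t) ≤ 2 / t ^ 2 := by
  have h1 := Real.quadratic_le_exp_of_nonneg ht.le
  rw [Real.exp_neg, inv_eq_one_div, div_le_div_iff₀ (Real.exp_pos _) (by positivity)]
  linarith

end TLb

open TLb Pool.Agent.CoprimeSieve in
theorem tTLb (hrank : St_rank) : St_TLb := by
  classical
  obtain ⟨C, c, hC, hc, hrk⟩ := hrank
  obtain ⟨C1, hC1, hmer⟩ := mertens_first
  refine ⟨7 * (C * Real.exp c * (2 / c ^ 2) * (1 + C1)), by positivity, ?_⟩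
  intro K hK
  refine ⟨max (2 * K) 100, ?_⟩
  intro x s hs hlx
  have hs100 : 100 ≤ s := (le_max_right _ _).trans hs
  have hs0 : 0 < s := by linarith
  have hx0 : 0 < x := by
    rcases Nat.eq_zero_or_pos x with rfl | h
    · simp at hlx
      nlinarith
    · exact h
  have hx0' : (0 : ℝ) < x := by exact_mod_cast hx0
  have hxe : (x : ℝ) = Real.exp (s ^ 2) := by rw [← hlx, Real.exp_log hx0']
  have hx16 : 16 ≤ x := by
    have h1 := Real.add_one_le_exp (s ^ 2)
    rw [← hxe] at h1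
    have h2 : (16 : ℝ) ≤ x := by nlinarith
    exact_mod_cast h2
  have hxl : Real.log x ≤ √(√(x : ℝ)) := by
    have h1 : √(√(x : ℝ)) = Real.exp (s ^ 2 / 4) := by
      rw [hxe, Real.sqrt_eq_rpow, Real.sqrt_eq_rpow, ← Real.exp_mul, ← Real.exp_mul]
      congr 1
      ring
    rw [h1, hlx]
    have h2 := Real.quadratic_le_exp_of_nonneg (show 0 ≤ s ^ 2 / 4 by positivity)
    have h3 : 2500 ≤ s ^ 2 / 4 := by nlinarith
    have h4 : 4 * (s ^ 2 / 4) ≤ (s ^ 2 / 4) ^ 2 / 2 := by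
      generalize s ^ 2 / 4 = t at h3
      nlinarith
    linarith
  -- the sets
  set Qs : Finset ℕ := pr (Real.exp s) with hQs
  set Ts : ℕ → Finset ℕ := fun q => {M ∈ Icc 1 x | Real.exp (K * s) / q ≤ M ∧
    ∀ p, p.Prime → p ∣ M → (p : ℝ) ≤ q} with hTs
  set Ms : Finset ℕ := {m ∈ Icc 1 x | m ^ 2 ≤ x ∧ ∃ q ∈ Qs, ∃ M ∈ Ts q, m = q * M} with hMs
  have hcard := ESGcd.card_prod_prime x hx16 hxl Ms ({n ∈ Icc 2 x | ¬ n.Prime ∧ Rule n ∧
      Real.exp (K * s) < ((n / ESGcd.maxPrime n : ℕ) : ℝ) ∧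
      secPrime n < cofac n ∧ (n / ESGcd.maxPrime n) ^ 2 ≤ x} : Finset ℕ) (by
    intro m hm
    rw [hMs, mem_filter, mem_Icc] at hm
    exact ⟨hm.1.1, hm.2.1⟩) (by
    intro n hn
    rw [mem_filter, mem_Icc] at hn
    obtain ⟨⟨hn2, hnx⟩, hnp, hR, hm, hqM, hmx⟩ := hn
    obtain ⟨hP, hq, hM1, hqP, hnd, hmd, hsmo⟩ := decomp hn2 hnp
    unfold Rule at hR
    refine ⟨hnx, ESGcd.maxPrime n, n / ESGcd.maxPrime n, hP, ?_, ?_⟩
    · rw [hmd]; exact hnd
    rw [hmd] at hm hmx ⊢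
    set P := ESGcd.maxPrime n
    set q := secPrime n
    set M := cofac n
    have hq0 : (0 : ℝ) < q := by exact_mod_cast hq.pos
    have hM0 : (0 : ℝ) < M := by exact_mod_cast hM1
    have hlq : 0 < Real.log q := Real.log_pos (by exact_mod_cast hq.one_lt)
    have hln : Real.log n ≤ s ^ 2 := by
      rw [← hlx]
      exact Real.log_le_log (by exact_mod_cast (by omega : 0 < n)) (by exact_mod_cast hnx)
    have hlqM : Real.log q ≤ Real.log M :=
      Real.log_le_log hq0 (by exact_mod_cast hqM.le)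
    have hlqs : Real.log q ≤ s := by
      nlinarith
    have hqs : (q : ℝ) ≤ Real.exp s := by
      rw [← Real.exp_log hq0]
      exact Real.exp_le_exp.2 hlqs
    have hm0 : 0 < q * M := Nat.mul_pos hq.pos hM1
    have hPm : P * (q * M) ≤ x := by rw [← hnd]; exact hnx
    have hmx' : q * M ≤ x := (Nat.le_mul_of_pos_left _ hP.pos).trans hPm
    rw [hMs, mem_filter, mem_Icc]
    refine ⟨⟨hm0, hmx'⟩, hmx, q, ?_, M, ?_, rfl⟩
    · rw [hQs, mem_pr]
      exact ⟨hq, hqs⟩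
    · rw [hTs]
      simp only
      rw [mem_filter, mem_Icc]
      refine ⟨⟨hM1, (Nat.le_mul_of_pos_left _ hq.pos).trans hmx'⟩, ?_, ?_⟩
      · rw [div_le_iff₀ hq0]
        push_cast at hm
        linarith
      · intro p hp hpd
        exact_mod_cast hsmo p hp hpd)
  refine hcard.trans ?_
  rw [hlx]
  -- the sum over `m`
  have hsum1 : ∑ m ∈ Ms, ((m : ℕ) : ℝ)⁻¹ ≤ ∑ q ∈ Qs, ∑ M ∈ Ts q, (1 : ℝ) / q * (1 / M) := by
    have h1 : Ms ⊆ (Qs.sigma Ts).image fun p => p.1 * p.2 := by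
      intro m hm
      rw [hMs, mem_filter] at hm
      obtain ⟨-, -, q, hq, M, hM, rfl⟩ := hm
      rw [mem_image]
      exact ⟨⟨q, M⟩, mem_sigma.2 ⟨hq, hM⟩, rfl⟩
    calc ∑ m ∈ Ms, ((m : ℕ) : ℝ)⁻¹ ≤ ∑ m ∈ (Qs.sigma Ts).image fun p => p.1 * p.2, ((m : ℕ) : ℝ)⁻¹ :=
          sum_le_sum_of_subset_of_nonneg h1 fun _ _ _ => by positivity
      _ ≤ ∑ p ∈ Qs.sigma Ts, (((p.1 * p.2 : ℕ)) : ℝ)⁻¹ := by
          apply sum_image_le_of_nonneg
          intro m _
          positivity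
      _ = ∑ q ∈ Qs, ∑ M ∈ Ts q, (1 : ℝ) / q * (1 / M) := by
          rw [sum_sigma]
          refine sum_congr rfl fun q _ => sum_congr rfl fun M _ => ?_
          push_cast
          rw [mul_inv, one_div, one_div]
  have hq_bound : ∀ q ∈ Qs, ∑ M ∈ Ts q, (1 : ℝ) / q * (1 / M) ≤
      C * Real.exp c * (2 / c ^ 2) / K ^ 2 * (Real.log q / q) := by
    intro q hq
    rw [hQs, mem_pr] at hq
    obtain ⟨hqp, hqs⟩ := hq
    have hq0 : (0 : ℝ) < q := by exact_mod_cast hqp.pos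
    have hq2 : (2 : ℝ) ≤ q := by exact_mod_cast hqp.two_le
    have hlq : 0 < Real.log q := Real.log_pos (by linarith)
    have hlqs : Real.log q ≤ s := by
      rw [Real.log_le_iff_le_exp hq0]
      exact hqs
    have hZ : 1 ≤ Real.exp (K * s) / q := by
      rw [le_div_iff₀ hq0, one_mul]
      refine hqs.trans (Real.exp_le_exp.2 ?_)
      nlinarith
    have h1 := hrk q (Real.exp (K * s) / q) (Ts q) hq2 hZ (by
      intro M hM
      rw [hTs] at hM
      simp only at hM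
      rw [mem_filter, mem_Icc] at hM
      exact ⟨hM.1.1, hM.2.1, hM.2.2⟩)
    have hlZ : Real.log (Real.exp (K * s) / q) = K * s - Real.log q := by
      rw [Real.log_div (Real.exp_pos _).ne' hq0.ne', Real.log_exp]
    rw [hlZ] at h1
    have h2 : Real.exp (-(c * (K * s - Real.log q) / Real.log q)) =
        Real.exp c * Real.exp (-(c * K * s / Real.log q)) := by
      rw [← Real.exp_add]
      congr 1
      field_simp
      ring
    have h3 : Real.exp (-(c * K * s / Real.log q)) ≤ 2 / (c * K * s / Real.log q) ^ 2 :=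
      exp_neg_le (by positivity)
    rw [← mul_sum]
    calc (1 : ℝ) / q * ∑ M ∈ Ts q, (1 : ℝ) / M
        ≤ 1 / q * (C * Real.log q * (Real.exp c * (2 / (c * K * s / Real.log q) ^ 2))) := by
          rw [h2] at h1
          gcongr
          exact h1.trans (by gcongr)
      _ = C * Real.exp c * (2 / c ^ 2) / K ^ 2 * (Real.log q / q) * (Real.log q / s) ^ 2 := by
          field_simp
      _ ≤ C * Real.exp c * (2 / c ^ 2) / K ^ 2 * (Real.log q / q) * 1 := by
          have h4 : (Real.log q / s) ^ 2 ≤ 1 := by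
            apply pow_le_one₀ (by positivity)
            rw [div_le_one hs0]
            exact hlqs
          gcongr
      _ = _ := mul_one _
  have hmE : ∑ q ∈ Qs, Real.log q / q ≤ (1 + C1) * s := by
    have h1 := hmer (Real.exp s) (Real.one_le_exp hs0.le)
    rw [Real.log_exp] at h1
    have h2 := (abs_le.1 h1).2
    have h3 : mE (Real.exp s) = ∑ q ∈ Qs, Real.log q / q := rfl
    rw [h3] at h2
    nlinarith
  have htot : ∑ m ∈ Ms, ((m : ℕ) : ℝ)⁻¹ ≤ C * Real.exp c * (2 / c ^ 2) / K ^ 2 * ((1 + C1) * s) := by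
    refine hsum1.trans ((sum_le_sum hq_bound).trans ?_)
    rw [← mul_sum]
    gcongr
  calc 7 * (x : ℝ) / s ^ 2 * ∑ m ∈ Ms, ((m : ℕ) : ℝ)⁻¹
      ≤ 7 * (x : ℝ) / s ^ 2 * (C * Real.exp c * (2 / c ^ 2) / K ^ 2 * ((1 + C1) * s)) := by gcongr
    _ = 7 * (C * Real.exp c * (2 / c ^ 2) * (1 + C1)) * (x / (K * s)) * (1 / K) := by
        field_simp
    _ ≤ 7 * (C * Real.exp c * (2 / c ^ 2) * (1 + C1)) * (x / (K * s)) * 1 := by
        have : 1 / K ≤ 1 := (div_le_one (by linarith)).2 hK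
        gcongr
    _ = _ := mul_one _

end ESAs
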