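import Pool.Agent.ESAs.Stmts
import Pool.Agent.ESGcd.Typical2

open Finset

namespace ESAs

namespace TLc

/-- the decomposition of a composite integer -/
lemma decomp {n : ℕ} (h2 : 2 ≤ n) (hp : ¬ n.Prime) :
    (ESGcd.maxPrime n).Prime ∧ (secPrime n).Prime ∧ 1 ≤ cofac n ∧ secPrime n ≤ ESGcd.maxPrime n ∧
      n = ESGcd.maxPrime n * (secPrime n * cofac n) ∧
      n / ESGcd.maxPrime n = secPrime n * cofac n ∧
      ∀ p, p.Prime → p ∣ cofac n → p ≤ secPrime n := by
  obtain ⟨hP, hPn⟩ := ESGcd.maxPrime_spec h2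
  set P := ESGcd.maxPrime n with hPd
  have hn : n = P * (n / P) := (Nat.mul_div_cancel' hPn).symm
  set m := n / P with hm
  have hm2 : 2 ≤ m := by
    rcases Nat.lt_or_ge m 2 with h | h
    · exfalso
      interval_cases m
      · omega
      · rw [mul_one] at hn
        rw [hn] at hp
        exact hp hP
    · exact h
  obtain ⟨hq, hqm⟩ := ESGcd.maxPrime_spec hm2
  have hqd : secPrime n = ESGcd.maxPrime m := rfl
  have hcd : cofac n = m / ESGcd.maxPrime m := rfl
  rw [hqd, hcd]
  set q := ESGcd.maxPrime m with hq'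
  have hmq : m = q * (m / q) := (Nat.mul_div_cancel' hqm).symm
  have hM1 : 1 ≤ m / q := Nat.div_pos (Nat.le_of_dvd (by omega) hqm) hq.pos
  refine ⟨hP, hq, hM1, ?_, ?_, hmq, ?_⟩
  · exact ESGcd.le_maxPrime (by omega) hq (hqm.trans (Nat.div_dvd_of_dvd hPn))
  · rw [← hmq]
    exact hn
  · intro p hpp hpd
    exact ESGcd.le_maxPrime (by omega) hpp (hpd.trans (Nat.div_dvd_of_dvd hqm))

end TLc

open TLc in
theorem tTLc (hrank : St_rank) : St_TLc := by
  classical
  obtain ⟨C, c, hC, hc, hrk⟩ := hrank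
  refine ⟨1, one_pos, ?_⟩
  intro K hK
  have hl7 : 0 < Real.log 7 := Real.log_pos (by norm_num)
  -- the exponential is small
  have hev : ∀ᶠ s : ℝ in Filter.atTop,
      C * Real.log 7 * Real.exp (-(c * (s ^ 2 / 2) / Real.log 7)) ≤ 1 / (K * s) := by
    have hd : 0 < c / 2 / Real.log 7 := by positivity
    filter_upwards [Filter.eventually_ge_atTop 1,
      Filter.eventually_ge_atTop (C * Real.log 7 * K / (c / 2 / Real.log 7))] with s hs1 hs2
    have hs0 : 0 < s := by linarith
    have h1 := Real.add_one_le_exp (c / 2 / Real.log 7 * s ^ 2)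
    have h2 : C * Real.log 7 * K * s ≤ Real.exp (c / 2 / Real.log 7 * s ^ 2) := by
      have h3 : C * Real.log 7 * K ≤ c / 2 / Real.log 7 * s := by
        rw [div_le_iff₀ hd] at hs2
        linarith
      calc C * Real.log 7 * K * s ≤ c / 2 / Real.log 7 * s * s := by gcongr
        _ = c / 2 / Real.log 7 * s ^ 2 := by ring
        _ ≤ _ := by linarith
    have h4 : -(c * (s ^ 2 / 2) / Real.log 7) = -(c / 2 / Real.log 7 * s ^ 2) := by
      field_simp
    rw [h4, Real.exp_neg, le_div_iff₀ (by positivity), ← div_eq_mul_inv, div_mul_eq_mul_div,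
      div_le_one (Real.exp_pos _)]
    linarith
  obtain ⟨s1, hs1⟩ := Filter.eventually_atTop.1 hev
  refine ⟨max s1 100, ?_⟩
  intro x s hs hlx
  have hs100 : 100 ≤ s := (le_max_right _ _).trans hs
  have hsm := hs1 s ((le_max_left _ _).trans hs)
  have hs0 : 0 < s := by linarith
  have hx0 : 0 < x := by
    rcases Nat.eq_zero_or_pos x with rfl | h
    · simp at hlx
      nlinarith
    · exact h
  have hx0' : (0 : ℝ) < x := by exact_mod_cast hx0
  have hxe : (x : ℝ) = Real.exp (s ^ 2) := by rw [← hlx, Real.exp_log hx0']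
  set Z : ℝ := Real.exp (s ^ 2 / 2) with hZ
  have hZ2 : Z ^ 2 = x := by
    rw [hxe, hZ, ← Real.exp_nat_mul]
    congr 1
    push_cast
    ring
  have hZ1 : 1 ≤ Z := Real.one_le_exp (by positivity)
  set T : Finset ℕ := {m ∈ Icc 1 x | Z ≤ m ∧ ∀ p, p.Prime → p ∣ m → (p : ℝ) ≤ 7} with hT
  have hTr := hrk 7 Z T (by norm_num) hZ1 (by
    intro m hm
    rw [hT, mem_filter, mem_Icc] at hm
    exact ⟨hm.1.1, hm.2.1, hm.2.2⟩)
  have hsub : ({n ∈ Icc 2 x | ¬ n.Prime ∧ Rule n ∧ secPrime n < cofac n ∧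
      x < (n / ESGcd.maxPrime n) ^ 2} : Finset ℕ) ⊆
      T.biUnion fun m => (Icc 1 (x / m)).image fun P => P * m := by
    intro n hn
    rw [mem_filter, mem_Icc] at hn
    obtain ⟨⟨hn2, hnx⟩, hnp, hR, hqM, hm⟩ := hn
    obtain ⟨hP, hq, hM1, hqP, hnd, hmd, hsmo⟩ := decomp hn2 hnp
    unfold Rule at hR
    set P := ESGcd.maxPrime n
    set q := secPrime n
    set M := cofac n
    rw [hmd] at hm
    have hq0 : (0 : ℝ) < q := by exact_mod_cast hq.pos
    have hM0 : (0 : ℝ) < M := by exact_mod_cast hM1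
    have hlq : 0 < Real.log q := Real.log_pos (by exact_mod_cast hq.one_lt)
    have hln : Real.log n ≤ s ^ 2 := by
      rw [← hlx]
      exact Real.log_le_log (by exact_mod_cast (by omega : 0 < n)) (by exact_mod_cast hnx)
    have hlqM : Real.log q ≤ Real.log M :=
      Real.log_le_log hq0 (by exact_mod_cast hqM.le)
    have hlqs : Real.log q ≤ s := by
      nlinarith
    -- `log (q M) > s^2/2`
    have hlm : s ^ 2 / 2 < Real.log q + Real.log M := by
      have h1 : Real.log x < Real.log (((q * M : ℕ) : ℝ) ^ 2) := by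
        apply Real.log_lt_log hx0'
        exact_mod_cast hm
      rw [Real.log_pow, hlx] at h1
      push_cast at h1
      rw [Real.log_mul hq0.ne' hM0.ne'] at h1
      linarith
    have hlq2 : Real.log q * (s ^ 2 / 2 - s) ≤ s ^ 2 := by
      have h1 : s ^ 2 / 2 - s ≤ Real.log M := by linarith
      have h2 : Real.log q * (s ^ 2 / 2 - s) ≤ Real.log q * Real.log M := by gcongr
      linarith
    have hq8 : q < 8 := by
      by_contra hcon
      push Not at hcon
      have h1 : Real.log 8 ≤ Real.log q := by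
        apply Real.log_le_log (by norm_num)
        exact_mod_cast hcon
      have h2 : 2.07 ≤ Real.log 8 := by
        rw [show (8 : ℝ) = 2 ^ 3 by norm_num, Real.log_pow]
        have := Real.log_two_gt_d9
        push_cast
        linarith
      have h3 : 0 ≤ s ^ 2 / 2 - s := by nlinarith
      have h4 : 2.07 * (s ^ 2 / 2 - s) ≤ Real.log q * (s ^ 2 / 2 - s) :=
        mul_le_mul_of_nonneg_right (by linarith) h3
      nlinarith
    rw [mem_biUnion]
    have hm0 : 0 < q * M := Nat.mul_pos hq.pos hM1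
    have hPm : P * (q * M) ≤ x := by rw [← hnd]; exact hnx
    refine ⟨q * M, ?_, ?_⟩
    · rw [hT, mem_filter, mem_Icc]
      refine ⟨⟨hm0, ?_⟩, ?_, ?_⟩
      · exact (Nat.le_mul_of_pos_left _ hP.pos).trans hPm
      · have h1 : Z ^ 2 ≤ (((q * M : ℕ) : ℝ)) ^ 2 := by
          rw [hZ2]
          exact_mod_cast hm.le
        exact le_of_sq_le_sq h1 (by positivity)
      · intro p hp hpd
        have h1 : p ≤ 7 := by
          rcases hp.dvd_mul.1 hpd with h | h
          · have := (Nat.prime_dvd_prime_iff_eq hp hq).1 h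
            omega
          · have := hsmo p hp h
            omega
        exact_mod_cast h1
    · rw [mem_image]
      refine ⟨P, ?_, hnd.symm⟩
      rw [mem_Icc]
      exact ⟨hP.pos, (Nat.le_div_iff_mul_le hm0).2 hPm⟩
  have hcard : (#{n ∈ Icc 2 x | ¬ n.Prime ∧ Rule n ∧ secPrime n < cofac n ∧
      x < (n / ESGcd.maxPrime n) ^ 2} : ℝ) ≤ ∑ m ∈ T, (x : ℝ) * (1 / m) := by
    have h1 := (card_le_card hsub).trans (card_biUnion_le.trans
      (sum_le_sum fun m _ => card_image_le))
    have h2 : (#{n ∈ Icc 2 x | ¬ n.Prime ∧ Rule n ∧ secPrime n < cofac n ∧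
      x < (n / ESGcd.maxPrime n) ^ 2} : ℝ) ≤ ∑ m ∈ T, (#(Icc 1 (x / m)) : ℝ) := by
      exact_mod_cast h1
    refine h2.trans (sum_le_sum fun m hm => ?_)
    rw [Nat.card_Icc, Nat.add_sub_cancel]
    rw [mul_one_div]
    exact Nat.cast_div_le
  refine hcard.trans ?_
  rw [← mul_sum]
  have hlZ : Real.log Z = s ^ 2 / 2 := Real.log_exp _
  rw [hlZ] at hTr
  calc (x : ℝ) * ∑ m ∈ T, (1 : ℝ) / m
      ≤ x * (C * Real.log 7 * Real.exp (-(c * (s ^ 2 / 2) / Real.log 7))) := by gcongr
    _ ≤ x * (1 / (K * s)) := by gcongr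
    _ = 1 * (x / (K * s)) := by ring

end ESAs
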