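import Pool.Agent.ESAs.Stmts

open Finset

namespace ESAs

namespace Top

lemma prod_ec {ι : Type*} (s : Finset ι) (f : ι → ℝ) :
    ∏ i ∈ s, ec (f i) = ec (∑ i ∈ s, f i) := by
  classical
  induction s using Finset.induction_on with
  | empty => simp [ec_zero]
  | insert a s ha ih => rw [prod_insert ha, sum_insert ha, ih, ec_add]

/-- extension of a word by zero -/
noncomputable def ext {k Rr : ℕ} (v : Fin Rr → Fin k → ℤ) (t : ℕ) : Fin k → ℤ :=
  if h : t < Rr then v ⟨t, h⟩ else 0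

lemma ext_fin {k Rr : ℕ} (v : Fin Rr → Fin k → ℤ) (t : Fin Rr) : ext v t = v t := by
  unfold ext
  rw [dif_pos t.2]

lemma tp_top {k : ℕ} (q H : ℕ) (hq : 0 < q) (c : (Fin k → ℤ) → ℂ) (J : Fin k → ℕ)
    (L t n0 h : ℕ) : tp H c (pt q J (L + t) (n0 + q ^ L * h)) =
      ∑ a ∈ box k H, (c a * ec ((ip a J : ℝ) * n0 / (q : ℝ) ^ (L + t + 1))) *
        ec ((ip a J : ℝ) / (q : ℝ) ^ (t + 1) * h) := by
  rw [tp_pt]
  refine sum_congr rfl fun a _ => ?_
  rw [mul_assoc, ← ec_add]
  congr 2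
  have hq0 : (q : ℝ) ≠ 0 := by exact_mod_cast hq.ne'
  push_cast
  field_simp
  ring

lemma expand {k : ℕ} (q H : ℕ) (hq : 0 < q) (c : ℕ → (Fin k → ℤ) → ℂ) (J : Fin k → ℕ)
    (L Rr N n0 : ℕ) :
    ∑ h ∈ range N, ∏ t ∈ range Rr, tp H (c (L + t)) (pt q J (L + t) (n0 + q ^ L * h)) =
      ∑ v ∈ Fintype.piFinset (fun _ : Fin Rr => box k H),
        (∏ t : Fin Rr, (c (L + t) (v t) *
          ec ((ip (v t) J : ℝ) * n0 / (q : ℝ) ^ (L + t + 1)))) *
        ∑ h ∈ range N, ec (tfr q Rr J (ext v) * h) := by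
  have h1 : ∀ h : ℕ, ∏ t ∈ range Rr, tp H (c (L + t)) (pt q J (L + t) (n0 + q ^ L * h)) =
      ∑ v ∈ Fintype.piFinset (fun _ : Fin Rr => box k H),
        (∏ t : Fin Rr, (c (L + t) (v t) *
          ec ((ip (v t) J : ℝ) * n0 / (q : ℝ) ^ (L + t + 1)))) *
        ec (tfr q Rr J (ext v) * h) := by
    intro h
    rw [prod_range]
    simp_rw [tp_top q H hq]
    rw [prod_univ_sum]
    refine sum_congr rfl fun v _ => ?_
    rw [prod_mul_distrib]
    congr 1
    rw [prod_ec]
    congr 1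
    unfold tfr
    rw [← sum_mul, sum_range]
    congr 1
    refine sum_congr rfl fun t _ => ?_
    rw [ext_fin]
  simp_rw [h1]
  rw [sum_comm]
  refine sum_congr rfl fun v _ => ?_
  rw [mul_sum]

end Top

theorem tTop (hgeo : St_geo) : St_top := by
  classical
  intro k q H J c L Rr N n0 ξ A hq hξ hA hc hgen
  rw [Top.expand q H hq]
  set T : (Fin Rr → Fin k → ℤ) → ℂ := fun v =>
    (∏ t : Fin Rr, (c (L + t) (v t) *
          ec ((ip (v t) J : ℝ) * n0 / (q : ℝ) ^ (L + t + 1)))) *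
        ∑ h ∈ range N, ec (tfr q Rr J (Top.ext v) * h) with hT
  have h0mem : (0 : Fin Rr → Fin k → ℤ) ∈ Fintype.piFinset (fun _ : Fin Rr => box k H) := by
    rw [Fintype.mem_piFinset]
    intro t
    exact zero_mem_box k H
  have hext0 : ∀ t, Top.ext (0 : Fin Rr → Fin k → ℤ) t = 0 := by
    intro t
    unfold Top.ext
    split_ifs <;> rfl
  have h0 : T 0 = N * ∏ t ∈ range Rr, c (L + t) 0 := by
    simp only [hT]
    have e1 : tfr q Rr J (Top.ext (0 : Fin Rr → Fin k → ℤ)) = 0 := by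
      unfold tfr
      refine sum_eq_zero fun t _ => ?_
      rw [hext0, ip_zero]; simp
    rw [e1]
    simp only [zero_mul, ec_zero, sum_const, card_range, nsmul_eq_mul, mul_one, Pi.zero_apply]
    rw [mul_comm, prod_range]
    congr 1
    refine prod_congr rfl fun t _ => ?_
    rw [ip_zero]; simp [ec_zero]
  have hsplit := Finset.add_sum_erase _ T h0mem
  rw [← hsplit, h0, add_sub_cancel_left]
  have hbd : ∀ v ∈ (Fintype.piFinset (fun _ : Fin Rr => box k H)).erase 0,
      ‖T v‖ ≤ A ^ Rr * (1 / (2 * ξ)) := by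
    intro v hv
    rw [mem_erase, Fintype.mem_piFinset] at hv
    obtain ⟨hv0, hv1⟩ := hv
    simp only [hT]
    rw [norm_mul, norm_prod]
    have hge : ξ ≤ dn (tfr q Rr J (Top.ext v)) := by
      apply hgen
      · intro t
        unfold Top.ext
        split_ifs with ht
        · exact hv1 _
        · exact zero_mem_box k H
      · by_contra hcon
        apply hv0
        funext t
        by_contra hne
        apply hcon
        exact ⟨t, t.2, by rw [Top.ext_fin]; exact hne⟩
    apply mul_le_mul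
    · calc ∏ t : Fin Rr, ‖c (L + t) (v t) *
            ec ((ip (v t) J : ℝ) * n0 / (q : ℝ) ^ (L + t + 1))‖ ≤ ∏ _t : Fin Rr, A := by
            refine prod_le_prod (fun _ _ => norm_nonneg _) fun t _ => ?_
            rw [norm_mul, norm_ec, mul_one]
            exact hc _ _
        _ = A ^ Rr := by simp
    · refine (hgeo _ N (lt_of_lt_of_le hξ hge)).trans ?_
      apply one_div_le_one_div_of_le
      · positivity
      · linarith
    · exact norm_nonneg _
    · positivity
  refine (norm_sum_le _ _).trans ((sum_le_sum hbd).trans ?_)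
  rw [sum_const, nsmul_eq_mul]
  have hcard : ((Fintype.piFinset (fun _ : Fin Rr => box k H)).erase 0).card ≤
      ((2 * H + 1) ^ k) ^ Rr := by
    refine (card_erase_le).trans ?_
    rw [Fintype.card_piFinset]
    simp [card_box]
  have hcard' : ((((Fintype.piFinset (fun _ : Fin Rr => box k H)).erase 0).card : ℕ) : ℝ) ≤
      ((((2 * H + 1) ^ k : ℕ) : ℝ)) ^ Rr := by
    exact_mod_cast hcard
  have hpos : 0 ≤ A ^ Rr * (1 / (2 * ξ)) := by positivity
  calc _ ≤ ((((2 * H + 1) ^ k : ℕ) : ℝ)) ^ Rr * (A ^ Rr * (1 / (2 * ξ))) :=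
        mul_le_mul_of_nonneg_right hcard' hpos
    _ = _ := by rw [mul_pow]; ring

end ESAs
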