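import Pool.Agent.ESAs.Stmts
import Pool.Agent.ESGcd.Cost

open Finset

namespace ESAs

namespace Typ

lemma sum_rpow (l : ℝ) (hl : 0 < l) (n : ℕ) :
    ∑ d ∈ range n, (d : ℝ) ^ l ≤ (n : ℝ) ^ (1 + l) / (1 + l) := by
  induction n with
  | zero =>
    simp only [range_zero, sum_empty, Nat.cast_zero]
    exact div_nonneg (Real.rpow_nonneg le_rfl _) (by linarith)
  | succ n ih =>
    rw [sum_range_succ]
    have h1l : 0 < 1 + l := by linarith
    rcases Nat.eq_zero_or_pos n with rfl | hn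
    · simp only [range_zero, sum_empty, Nat.cast_zero, Real.zero_rpow hl.ne', add_zero]
      positivity
    · have hn' : (0 : ℝ) < n := by exact_mod_cast hn
      have h1 : 1 + (1 + l) * (1 / (n : ℝ)) ≤ (1 + 1 / (n : ℝ)) ^ (1 + l) := by
        apply one_add_mul_self_le_rpow_one_add
        · have : (0 : ℝ) ≤ 1 / n := by positivity
          linarith
        · linarith
      have h2 : ((n + 1 : ℕ) : ℝ) ^ (1 + l) = (n : ℝ) ^ (1 + l) * (1 + 1 / (n : ℝ)) ^ (1 + l) := by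
        rw [← Real.mul_rpow hn'.le (by positivity)]
        congr 1
        push_cast
        field_simp
      have h3 : (n : ℝ) ^ (1 + l) = n * (n : ℝ) ^ l := by
        rw [Real.rpow_add hn', Real.rpow_one]
      have h4 : (n : ℝ) ^ (1 + l) * (1 + (1 + l) * (1 / (n : ℝ))) =
          (n : ℝ) ^ (1 + l) + (1 + l) * (n : ℝ) ^ l := by
        rw [h3]
        field_simp
      have h5 : (n : ℝ) ^ (1 + l) + (1 + l) * (n : ℝ) ^ l ≤ ((n + 1 : ℕ) : ℝ) ^ (1 + l) := by
        rw [h2, ← h4]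
        exact mul_le_mul_of_nonneg_left h1 (by positivity)
      calc ∑ d ∈ range n, (d : ℝ) ^ l + (n : ℝ) ^ l
          ≤ (n : ℝ) ^ (1 + l) / (1 + l) + (n : ℝ) ^ l := by linarith
        _ = ((n : ℝ) ^ (1 + l) + (1 + l) * (n : ℝ) ^ l) / (1 + l) := by field_simp
        _ ≤ ((n + 1 : ℕ) : ℝ) ^ (1 + l) / (1 + l) := by gcongr

lemma sum_phi (q : ℕ) (κ l : ℝ) (hq : 0 < q) (hκ : 0 ≤ κ) (hκ1 : κ ≤ 1) (hl : 0 < l) :
    ∑ d ∈ range q, (max (((d : ℝ) + 1) / q) κ) ^ l ≤ q * (1 / (1 + l) + (κ + 1 / q)) := by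
  have hq0 : (0 : ℝ) < q := by exact_mod_cast hq
  have h1l : 0 < 1 + l := by linarith
  have h1 : ∀ d ∈ range q, (max (((d : ℝ) + 1) / q) κ) ^ l ≤
      (((d : ℝ) + 1) / q) ^ l + (if (d : ℝ) + 1 < κ * q then 1 else 0) := by
    intro d _
    rcases le_or_gt κ (((d : ℝ) + 1) / q) with h | h
    · rw [max_eq_left h]
      have : (0 : ℝ) ≤ (if (d : ℝ) + 1 < κ * q then 1 else 0) := by split_ifs <;> norm_num
      linarith
    · rw [max_eq_right h.le]
      have h2 : (d : ℝ) + 1 < κ * q := by rwa [div_lt_iff₀ hq0] at h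
      rw [if_pos h2]
      have h3 : κ ^ l ≤ 1 := Real.rpow_le_one hκ hκ1 hl.le
      have h4 : (0 : ℝ) ≤ (((d : ℝ) + 1) / q) ^ l := by positivity
      linarith
  refine (sum_le_sum h1).trans ?_
  rw [sum_add_distrib]
  have h2 : ∑ d ∈ range q, (if (d : ℝ) + 1 < κ * q then (1 : ℝ) else 0) ≤ κ * q := by
    rw [← sum_filter, sum_const, nsmul_eq_mul, mul_one]
    have h3 : (range q).filter (fun d : ℕ => (d : ℝ) + 1 < κ * q) ⊆ range ⌊κ * q⌋₊ := by
      intro d hd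
      rw [mem_filter] at hd
      rw [mem_range]
      have h4 : d + 1 ≤ ⌊κ * q⌋₊ := by
        apply Nat.le_floor
        push_cast
        exact hd.2.le
      omega
    have h4 := card_le_card h3
    rw [card_range] at h4
    calc ((((range q).filter (fun d : ℕ => (d : ℝ) + 1 < κ * q)).card : ℕ) : ℝ)
        ≤ (⌊κ * q⌋₊ : ℝ) := by exact_mod_cast h4
      _ ≤ κ * q := Nat.floor_le (by positivity)
  have h3 : ∑ d ∈ range q, (((d : ℝ) + 1) / q) ^ l ≤ q / (1 + l) + 1 := by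
    have h4 : ∀ d ∈ range q, (((d : ℝ) + 1) / q) ^ l = ((d + 1 : ℕ) : ℝ) ^ l / (q : ℝ) ^ l := by
      intro d _
      rw [Real.div_rpow (by positivity) hq0.le]
      push_cast
      rfl
    rw [sum_congr rfl h4, ← sum_div]
    have h5 := sum_range_succ' (fun d : ℕ => (d : ℝ) ^ l) q
    have h6 := sum_range_succ (fun d : ℕ => (d : ℝ) ^ l) q
    have h7 := sum_rpow l hl q
    simp only [Nat.cast_zero, Real.zero_rpow hl.ne', add_zero] at h5
    have h8 : ∑ d ∈ range q, ((d + 1 : ℕ) : ℝ) ^ l ≤ (q : ℝ) ^ (1 + l) / (1 + l) + (q : ℝ) ^ l := by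
      linarith
    have hql : 0 < (q : ℝ) ^ l := Real.rpow_pos_of_pos hq0 l
    rw [div_le_iff₀ hql]
    have h9 : (q : ℝ) ^ (1 + l) = q * (q : ℝ) ^ l := by
      rw [Real.rpow_add hq0, Real.rpow_one]
    rw [h9] at h8
    calc ∑ d ∈ range q, ((d + 1 : ℕ) : ℝ) ^ l ≤ q * (q : ℝ) ^ l / (1 + l) + (q : ℝ) ^ l := h8
      _ = (q / (1 + l) + 1) * (q : ℝ) ^ l := by ring
  have h4 : (q : ℝ) * (1 / (1 + l) + (κ + 1 / q)) = q / (1 + l) + 1 + κ * q := by
    field_simp
    ring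
  rw [h4]
  linarith

lemma key (η δ : ℝ) (hη : 0 < η) (hη1 : η ≤ 1) (hδ0 : 0 ≤ δ) (hδ : δ ≤ η ^ 2 / 8) :
    Real.exp (η * (1 - η)) * (1 / (1 + η) + δ) ≤ Real.exp (-(η ^ 2 / 4)) := by
  have h1 : Real.exp (η - η ^ 2 / 2) ≤ 1 + η := by
    have h2 := Real.le_log_one_add_of_nonneg hη.le
    have h3 : η - η ^ 2 / 2 ≤ 2 * η / (η + 2) := by
      rw [le_div_iff₀ (by linarith)]
      nlinarith [pow_pos hη 3]
    calc Real.exp (η - η ^ 2 / 2) ≤ Real.exp (Real.log (1 + η)) := Real.exp_le_exp.2 (by linarith)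
      _ = 1 + η := Real.exp_log (by linarith)
  have h2 : 1 / (1 + η) ≤ Real.exp (-(η - η ^ 2 / 2)) := by
    rw [Real.exp_neg, one_div]
    exact inv_anti₀ (Real.exp_pos _) h1
  have h3 : 1 / (1 + η) + δ = 1 / (1 + η) * (1 + (1 + η) * δ) := by
    field_simp
  have h4 : 1 + (1 + η) * δ ≤ Real.exp (η ^ 2 / 4) := by
    have h5 : (1 + η) * δ ≤ η ^ 2 / 4 := by
      have : (1 + η) * δ ≤ 2 * δ := mul_le_mul_of_nonneg_right (by linarith) hδ0
      linarith
    have h6 := Real.add_one_le_exp (η ^ 2 / 4)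
    linarith
  rw [h3]
  calc Real.exp (η * (1 - η)) * (1 / (1 + η) * (1 + (1 + η) * δ))
      ≤ Real.exp (η * (1 - η)) * (Real.exp (-(η - η ^ 2 / 2)) * Real.exp (η ^ 2 / 4)) := by
        gcongr
    _ = Real.exp (-(η ^ 2 / 4)) := by
        rw [← Real.exp_add, ← Real.exp_add]
        congr 1
        ring

lemma digit_le (q i u : ℕ) (hq : 0 < q) :
    ((u % q ^ (i + 1) : ℕ) : ℝ) / (q : ℝ) ^ (i + 1) ≤ (((u / q ^ i) % q : ℕ) + 1 : ℝ) / q := by
  have hq0 : (0 : ℝ) < q := by exact_mod_cast hq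
  have h1 : u % q ^ (i + 1) ≤ q ^ i * ((u / q ^ i) % q + 1) := by
    rw [Nat.mod_pow_succ]
    have := Nat.mod_lt u (pow_pos hq i)
    rw [mul_add, mul_one]
    omega
  have h2 : ((u % q ^ (i + 1) : ℕ) : ℝ) ≤ (q : ℝ) ^ i * (((u / q ^ i) % q : ℕ) + 1 : ℝ) := by
    exact_mod_cast h1
  rw [div_le_div_iff₀ (by positivity) hq0]
  calc ((u % q ^ (i + 1) : ℕ) : ℝ) * q ≤ ((q : ℝ) ^ i * (((u / q ^ i) % q : ℕ) + 1 : ℝ)) * q := by
        gcongr
    _ = (((u / q ^ i) % q : ℕ) + 1 : ℝ) * (q : ℝ) ^ (i + 1) := by ring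

end Typ

open Typ in
theorem tTyp (hunif : St_unif) : St_typ := by
  intro q M L κ η hq hco hη hη1 hκ hκq
  have hq0 : 0 < q := by omega
  have hq0' : (0 : ℝ) < q := by exact_mod_cast hq0
  have hκ1 : κ ≤ 1 := by
    have : (0 : ℝ) ≤ 1 / q := by positivity
    nlinarith
  set F : ℕ → Prop := fun u => Real.exp (-((1 - η) * L)) <
      ∏ i ∈ range L, max (((u % q ^ (i + 1) : ℕ) : ℝ) / (q : ℝ) ^ (i + 1)) κ with hF
  have hcard : #{n ∈ range (q ^ L) | Real.exp (-((1 - η) * L)) <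
      ∏ i ∈ range L, max (((M * n % q ^ (i + 1) : ℕ) : ℝ) / (q : ℝ) ^ (i + 1)) κ} ≤
      #{u ∈ range (q ^ L) | F u} := by
    apply card_le_card_of_injOn (fun n => M * n % q ^ L)
    · intro n hn
      simp only [coe_filter, mem_range, Set.mem_ofPred_eq] at hn ⊢
      refine ⟨Nat.mod_lt _ (by positivity), ?_⟩
      rw [hF]
      refine lt_of_lt_of_eq hn.2 ?_
      refine prod_congr rfl fun i hi => ?_
      rw [mem_range] at hi
      rw [Nat.mod_mod_of_dvd _ (pow_dvd_pow q (by omega))]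
    · intro n hn n' hn' he
      simp only [coe_filter, mem_range, Set.mem_ofPred_eq] at hn hn'
      simp only at he
      have h1 : n ≡ n' [MOD q ^ L] :=
        Nat.ModEq.cancel_left_of_coprime (c := M) (Nat.Coprime.pow_left L hco) he
      exact Nat.ModEq.eq_of_lt_of_lt h1 hn.1 hn'.1
  have hmark : (#{u ∈ range (q ^ L) | F u} : ℝ) ≤
      ∑ u ∈ range (q ^ L), Real.exp (η * ((1 - η) * L)) *
        ∏ i ∈ range L, (max (((((u / q ^ i) % q : ℕ) : ℝ) + 1) / q) κ) ^ η := by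
    rw [card_filter]
    push_cast
    refine sum_le_sum fun u _ => ?_
    have hnn : ∀ i ∈ range L, 0 ≤ max (((u % q ^ (i + 1) : ℕ) : ℝ) / (q : ℝ) ^ (i + 1)) κ :=
      fun i _ => le_max_of_le_right hκ
    have hR : 0 ≤ Real.exp (η * ((1 - η) * L)) *
        ∏ i ∈ range L, (max (((((u / q ^ i) % q : ℕ) : ℝ) + 1) / q) κ) ^ η := by
      apply mul_nonneg (Real.exp_pos _).le
      apply prod_nonneg
      intro i _
      apply Real.rpow_nonneg
      exact le_max_of_le_right hκ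
    split_ifs with h
    · have h1 : (Real.exp (-((1 - η) * L))) ^ η ≤
          (∏ i ∈ range L, max (((u % q ^ (i + 1) : ℕ) : ℝ) / (q : ℝ) ^ (i + 1)) κ) ^ η :=
        Real.rpow_le_rpow (Real.exp_pos _).le h.le hη.le
      rw [← Real.finsetProd_rpow _ _ hnn, ← Real.exp_mul] at h1
      have h2 : ∏ i ∈ range L, (max (((u % q ^ (i + 1) : ℕ) : ℝ) / (q : ℝ) ^ (i + 1)) κ) ^ η ≤
          ∏ i ∈ range L, (max (((((u / q ^ i) % q : ℕ) : ℝ) + 1) / q) κ) ^ η := by
        apply prod_le_prod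
        · intro i hi
          exact Real.rpow_nonneg (hnn i hi) _
        · intro i hi
          apply Real.rpow_le_rpow (hnn i hi) _ hη.le
          exact max_le_max (digit_le q i u hq0) le_rfl
      calc (1 : ℝ) = Real.exp (η * ((1 - η) * L)) * Real.exp (-((1 - η) * L) * η) := by
            rw [← Real.exp_add, ← Real.exp_zero]
            congr 1
            ring
        _ ≤ _ := by
            apply mul_le_mul_of_nonneg_left _ (Real.exp_pos _).le
            exact h1.trans h2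
    · exact hR
  rw [← mul_sum, ESGcd.sum_prod_digits q (fun g => (max (((g : ℝ) + 1) / q) κ) ^ η) L] at hmark
  have h3 := sum_phi q κ η hq0 hκ hκ1 hη
  have h4 : 0 ≤ ∑ d ∈ range q, (max (((d : ℝ) + 1) / q) κ) ^ η := by
    apply sum_nonneg
    intro d _
    apply Real.rpow_nonneg
    exact le_max_of_le_right hκ
  have hk := key η (κ + 1 / q) hη hη1 (by positivity) hκq
  calc (#{n ∈ range (q ^ L) | Real.exp (-((1 - η) * L)) <
      ∏ i ∈ range L, max (((M * n % q ^ (i + 1) : ℕ) : ℝ) / (q : ℝ) ^ (i + 1)) κ} : ℝ)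
      ≤ (#{u ∈ range (q ^ L) | F u} : ℝ) := by exact_mod_cast hcard
    _ ≤ Real.exp (η * ((1 - η) * L)) *
        (∑ d ∈ range q, (max (((d : ℝ) + 1) / q) κ) ^ η) ^ L := hmark
    _ ≤ Real.exp (η * ((1 - η) * L)) * (q * (1 / (1 + η) + (κ + 1 / q))) ^ L := by
        gcongr
    _ = (q : ℝ) ^ L * (Real.exp (η * (1 - η)) * (1 / (1 + η) + (κ + 1 / q))) ^ L := by
        rw [mul_pow, mul_pow, ← Real.exp_nat_mul]
        have : Real.exp (η * ((1 - η) * L)) = Real.exp (L * (η * (1 - η))) := by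
          congr 1; ring
        rw [this]
        ring
    _ ≤ (q : ℝ) ^ L * (Real.exp (-(η ^ 2 / 4))) ^ L := by
        gcongr
    _ = (q : ℝ) ^ L * Real.exp (-(η ^ 2 / 4 * L)) := by
        rw [← Real.exp_nat_mul]
        congr 2
        ring

end ESAs
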