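import Pool.Agent.ESAs.Stmts

open Finset

namespace ESAs

namespace Unif

lemma sum_blocks (Q D : ℕ) (f : ℕ → ℕ) :
    ∑ n ∈ range (Q * D), f n = ∑ d ∈ range D, ∑ u ∈ range Q, f (Q * d + u) := by
  induction D with
  | zero => simp
  | succ D ih => rw [Nat.mul_succ, sum_range_add, ih, sum_range_succ]

lemma sum_mul_mod (Q j : ℕ) (hQ : 0 < Q) (hj : Nat.Coprime j Q) (f : ℕ → ℕ) :
    ∑ u ∈ range Q, f ((j * u) % Q) = ∑ u ∈ range Q, f u := by
  have hinj : Set.InjOn (fun u => (j * u) % Q) (range Q : Finset ℕ) := by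
    intro a ha b hb hab
    simp only [coe_range, Set.mem_Iio] at ha hb
    have h1 : j * a ≡ j * b [MOD Q] := hab
    have h2 : a ≡ b [MOD Q] := Nat.ModEq.cancel_left_of_coprime (by
      rw [Nat.gcd_comm]; exact hj) h1
    exact Nat.ModEq.eq_of_lt_of_lt h2 ha hb
  have himg : (range Q).image (fun u => (j * u) % Q) = range Q := by
    apply eq_of_subset_of_card_le
    · intro x hx
      rw [mem_image] at hx
      obtain ⟨u, _, rfl⟩ := hx
      rw [mem_range]; exact Nat.mod_lt _ hQ
    · rw [card_image_of_injOn hinj]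
  conv_rhs => rw [← himg]
  rw [sum_image hinj]

end Unif

theorem tUnif : St_unif := by
  intro q L v j F hq hj hv
  classical
  have hQ : 0 < q ^ (L - v) := pow_pos hq.pos _
  have hL : q ^ L = q ^ (L - v) * q ^ v := by rw [← pow_add]; congr 1; omega
  have hc : Nat.Coprime j (q ^ (L - v)) :=
    Nat.Coprime.pow_right _ ((Nat.Prime.coprime_iff_not_dvd hq).2 hj).symm
  rw [card_filter, card_filter, hL, Unif.sum_blocks]
  have h1 : ∀ d ∈ range (q ^ v), ∑ u ∈ range (q ^ (L - v)),
      (if F ((j * (q ^ (L - v) * d + u)) % q ^ (L - v)) then 1 else 0) =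
      ∑ u ∈ range (q ^ (L - v)), if F u then 1 else 0 := by
    intro d _
    rw [← Unif.sum_mul_mod (q ^ (L - v)) j hQ hc (fun u => if F u then 1 else 0)]
    refine sum_congr rfl fun u _ => ?_
    have h2 : (j * (q ^ (L - v) * d + u)) % q ^ (L - v) = (j * u) % q ^ (L - v) := by
      have h3 : j * (q ^ (L - v) * d + u) = j * u + q ^ (L - v) * (j * d) := by ring
      rw [h3, Nat.add_mul_mod_self_left]
    rw [h2]
  rw [sum_congr rfl h1, sum_const, card_range, smul_eq_mul]

end ESAs
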