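import Pool.Agent.ESAs.Stmts

open Finset

namespace ESAs

namespace UpLow

lemma sum_range_mul' (f : ℕ → ℝ) (Q N : ℕ) :
    ∑ n ∈ range (Q * N), f n = ∑ h ∈ range N, ∑ n ∈ range Q, f (n + Q * h) := by
  induction N with
  | zero => simp
  | succ N ih =>
    rw [Nat.mul_succ, sum_range_add, ih, sum_range_succ]
    congr 1
    refine sum_congr rfl fun n _ => ?_
    rw [add_comm]

end UpLow

theorem tUpLow (hlowUp : St_lowUp) : St_upLow := by
  intro k q H J g c μ L Rr N A hq hRL hA hM hg hdeep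
  rw [UpLow.sum_range_mul']
  have h2 := (hlowUp k q H Rr J L g c μ A hq hRL hdeep hM hg).2
  have h0 : ∀ i t, 0 ≤ (tp H (c i) t).re := fun i t => (hM i).re_nonneg (hg i) t
  have hA' : ∀ i t, (tp H (c i) t).re ≤ A := fun i t => (hM i).val t
  have key : ∀ h ∈ range N, ∑ n ∈ range (q ^ L),
      ∏ i ∈ range (L + Rr), (tp H (c i) (pt q J i (n + q ^ L * h))).re ≤
      (∏ i ∈ Ico Rr L, μ i) * (q : ℝ) ^ L * A ^ Rr * A ^ Rr := by
    intro h _
    have h3 : ∑ n ∈ range (q ^ L),
        ∏ i ∈ range (L + Rr), (tp H (c i) (pt q J i (n + q ^ L * h))).re ≤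
        ∑ n ∈ range (q ^ L), (∏ i ∈ range L, (tp H (c i) (pt q J i n)).re) * A ^ Rr := by
      refine sum_le_sum fun n _ => ?_
      rw [prod_range_add]
      have e1 : ∏ i ∈ range L, (tp H (c i) (pt q J i (n + q ^ L * h))).re
          = ∏ i ∈ range L, (tp H (c i) (pt q J i n)).re := by
        refine prod_congr rfl fun i hi => ?_
        have hi' := mem_range.mp hi
        have e2 : q ^ L * h = q ^ (i + 1) * (q ^ (L - (i + 1)) * h) := by
          rw [← mul_assoc, ← pow_add]
          congr 2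
          omega
        rw [e2, tp_pt_add q H hq]
      rw [e1]
      refine mul_le_mul_of_nonneg_left ?_ (prod_nonneg fun i _ => h0 _ _)
      calc ∏ i ∈ range Rr, (tp H (c (L + i)) (pt q J (L + i) (n + q ^ L * h))).re
          ≤ ∏ _i ∈ range Rr, A := prod_le_prod (fun i _ => h0 _ _) (fun i _ => hA' _ _)
        _ = A ^ Rr := by simp
    refine h3.trans ?_
    rw [← sum_mul]
    exact mul_le_mul_of_nonneg_right h2 (by positivity)
  refine (sum_le_sum key).trans ?_
  rw [sum_const, card_range, nsmul_eq_mul]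
  apply le_of_eq
  ring

end ESAs
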