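import Pool.Agent.ESAs.Stmts

open Finset

namespace ESAs

namespace Vb

/-- the integer `q^R ∑ a_t / q^(t+1)` -/
def NN (q : ℕ) (a : ℕ → ℤ) : ℕ → ℤ
  | 0 => 0
  | R + 1 => q * NN q a R + a R

lemma NN_eq (q : ℕ) (hq : 0 < q) (a : ℕ → ℤ) (R : ℕ) :
    ∑ t ∈ range R, (a t : ℝ) / (q : ℝ) ^ (t + 1) = (NN q a R : ℝ) / (q : ℝ) ^ R := by
  have hq0 : (q : ℝ) ≠ 0 := by exact_mod_cast hq.ne'
  induction R with
  | zero => simp [NN]
  | succ R ih =>
    rw [sum_range_succ, ih, NN]
    push_cast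
    field_simp
    ring

lemma NN_zero (q : ℕ) (a : ℕ → ℤ) (R : ℕ) (h : ∀ t < R, a t = 0) : NN q a R = 0 := by
  induction R with
  | zero => rfl
  | succ R ih =>
    rw [NN, ih fun t ht => h t (by omega), h R (by omega)]
    simp

lemma NN_ne (q H : ℕ) (hq : H < q) (a : ℕ → ℤ) (ha : ∀ t, |a t| ≤ (H : ℤ)) (R : ℕ)
    (h : ∃ t < R, a t ≠ 0) : NN q a R ≠ 0 := by
  induction R with
  | zero => obtain ⟨t, ht, _⟩ := h; omega
  | succ R ih =>
    by_cases h1 : ∃ t < R, a t ≠ 0
    · have h2 := ih h1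
      rw [NN]
      intro h3
      have h4 : (1 : ℤ) ≤ |NN q a R| := Int.one_le_abs h2
      have h5 : (q : ℤ) * |NN q a R| = |a R| := by
        have h6 : a R = -((q : ℤ) * NN q a R) := by linarith
        rw [h6, abs_neg, abs_mul, Nat.abs_cast]
      have h6 : (q : ℤ) * 1 ≤ q * |NN q a R| := by
        apply mul_le_mul_of_nonneg_left h4; positivity
      have h7 := ha R
      have h8 : (H : ℤ) < q := by exact_mod_cast hq
      linarith
    · push Not at h1
      obtain ⟨t, ht, h2⟩ := h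
      have h3 : t = R := by
        by_contra hne
        exact h2 (h1 t (by omega))
      subst h3
      rw [NN, NN_zero q a t h1]
      simpa using h2

end Vb

open Vb in
theorem tVb : St_vb := by
  intro q H R a hq ha h
  have hq0 : 0 < q := by omega
  have hqr : (0 : ℝ) < q := by exact_mod_cast hq0
  have hq2 : (2 : ℝ) ≤ q := by
    have : 2 ≤ q := by omega
    exact_mod_cast this
  constructor
  · rw [NN_eq q hq0, abs_div, abs_of_pos (show (0 : ℝ) < (q : ℝ) ^ R by positivity)]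
    have h1 : (1 : ℝ) ≤ |(NN q a R : ℝ)| := by
      have := Int.one_le_abs (NN_ne q H (by omega) a ha R h)
      exact_mod_cast this
    rw [div_le_div_iff₀ (by positivity) (by positivity)]
    have : (0 : ℝ) < (q : ℝ) ^ R := by positivity
    nlinarith
  · refine (abs_sum_le_sum_abs _ _).trans ?_
    have h1 : ∀ t ∈ range R, |(a t : ℝ) / (q : ℝ) ^ (t + 1)| ≤ (H : ℝ) / q * (1 / 2) ^ t := by
      intro t _
      rw [abs_div, abs_of_pos (show (0 : ℝ) < (q : ℝ) ^ (t + 1) by positivity)]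
      have h2 : |(a t : ℝ)| ≤ H := by
        have := ha t
        exact_mod_cast this
      have h3 : (1 : ℝ) / (q : ℝ) ^ (t + 1) ≤ 1 / q * (1 / 2) ^ t := by
        have h4 : (1 : ℝ) / (q : ℝ) ^ (t + 1) = 1 / q * (1 / q) ^ t := by
          rw [one_div_pow, pow_succ]; field_simp
        rw [h4]
        have h5 : (1 : ℝ) / q ≤ 1 / 2 := one_div_le_one_div_of_le (by norm_num) hq2
        gcongr
      calc |(a t : ℝ)| / (q : ℝ) ^ (t + 1) ≤ (H : ℝ) / (q : ℝ) ^ (t + 1) := by gcongr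
        _ = H * (1 / (q : ℝ) ^ (t + 1)) := by ring
        _ ≤ H * (1 / q * (1 / 2) ^ t) := by gcongr
        _ = _ := by ring
    refine (sum_le_sum h1).trans ?_
    rw [← mul_sum]
    have h2 := sum_geometric_two_le R
    calc (H : ℝ) / q * ∑ i ∈ range R, (1 / (2 : ℝ)) ^ i ≤ (H : ℝ) / q * 2 := by gcongr
      _ = _ := by ring

end ESAs
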