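import Pool.Agent.ESAs.Stmts

open Finset

namespace ESAs

theorem tWord (hrec : St_rec) : St_word := by
  intro k q H J c L
  induction L with
  | zero =>
    intro κ hq _
    exact ⟨fun _ => 0, fun _ => zero_mem_box k H, by simp⟩
  | succ L ih =>
    intro κ hq h
    rw [hrec k q H J c L κ hq] at h
    obtain ⟨a, ha, hne⟩ := Finset.exists_ne_zero_of_sum_ne_zero h
    split_ifs at hne with hd
    · have hL : lowS q H J c L ((ip a J + κ) / q) ≠ 0 := right_ne_zero_of_mul hne
      obtain ⟨w, hw, hdw⟩ := ih _ hq hL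
      refine ⟨fun t => Nat.casesOn t a w, ?_, ?_⟩
      · intro t
        cases t with
        | zero => exact ha
        | succ t => exact hw t
      · rw [sum_range_succ']
        obtain ⟨m, hm⟩ := hd
        have hq0 : (q : ℤ) ≠ 0 := by exact_mod_cast hq.ne'
        rw [hm, Int.mul_ediv_cancel_left _ hq0] at hdw
        have e : κ + (∑ t ∈ range L, ip (w t) J * (q : ℤ) ^ (t + 1) + ip a J * (q : ℤ) ^ 0)
            = (q : ℤ) * (m + ∑ t ∈ range L, ip (w t) J * (q : ℤ) ^ t) := by
          rw [mul_add, mul_sum, ← hm]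
          have : ∀ t ∈ range L, ip (w t) J * (q : ℤ) ^ (t + 1)
              = (q : ℤ) * (ip (w t) J * (q : ℤ) ^ t) := by
            intro t _; ring
          rw [sum_congr rfl this]
          ring
        change (q : ℤ) ^ (L + 1) ∣ κ + (∑ t ∈ range L, ip (w t) J * (q : ℤ) ^ (t + 1)
          + ip a J * (q : ℤ) ^ 0)
        rw [e, pow_succ']
        exact mul_dvd_mul_left _ hdw
    · exact absurd rfl hne

end ESAs
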