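import Pool.Agent.ESAs.Stmts
import Pool.Agent.ESAs.Geo
import Pool.Agent.ESAs.Rec
import Pool.Agent.ESAs.Word
import Pool.Agent.ESAs.Dep
import Pool.Agent.ESAs.LowUp
import Pool.Agent.ESAs.Fej
import Pool.Agent.ESAs.Prd
import Pool.Agent.ESAs.Gmaj
import Pool.Agent.ESAs.Bmaj
import Pool.Agent.ESAs.Smaj
import Pool.Agent.ESAs.Lmaj
import Pool.Agent.ESAs.Hoef
import Pool.Agent.ESAs.Digf
import Pool.Agent.ESAs.Unif
import Pool.Agent.ESAs.Crude
import Pool.Agent.ESAs.Typ
import Pool.Agent.ESAs.DeepC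
import Pool.Agent.ESAs.SG
import Pool.Agent.ESAs.SolG
import Pool.Agent.ESAs.Per
import Pool.Agent.ESAs.GHs
import Pool.Agent.ESAs.GHl
import Pool.Agent.ESAs.GH
import Pool.Agent.ESAs.Top
import Pool.Agent.ESAs.Comb
import Pool.Agent.ESAs.UpLow
import Pool.Agent.ESAs.ParF
import Pool.Agent.ESAs.FM
import Pool.Agent.ESAs.LM
import Pool.Agent.ESAs.SM
import Pool.Agent.ESAs.SM2
import Pool.Agent.ESAs.Cnt
import Pool.Agent.ESAs.Vb
import Pool.Agent.ESAs.CntJ
import Pool.Agent.ESAs.CntP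
import Pool.Agent.ESAs.CntD
import Pool.Agent.ESAs.BCbox
import Pool.Agent.ESAs.BC
import Pool.Agent.ESAs.Sel
import Pool.Agent.ESAs.ExcTop
import Pool.Agent.ESAs.ExcSum
import Pool.Agent.ESAs.SolB
import Pool.Agent.ESAs.BH
import Pool.Agent.ESAs.Qlq
import Pool.Agent.ESAs.Rank
import Pool.Agent.ESAs.TLa
import Pool.Agent.ESAs.TLb
import Pool.Agent.ESAs.TLc
import Pool.Agent.ESAs.Pair
import Pool.Agent.ESAs.Smo
import Pool.Agent.ESAs.Sq
import Pool.Agent.ESAs.Bdr
import Pool.Agent.ESAs.Good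
import Pool.Agent.ESAs.Bad
import Pool.Agent.ESAs.Fin

namespace ESAs

theorem zGeo : St_geo := tGeo
theorem zRec : St_rec := tRec
theorem zWord : St_word := tWord zRec
theorem zDep : St_dep := tDep zRec zWord
theorem zLowUp : St_lowUp := tLowUp zDep
theorem zFej : St_fej := tFej
theorem zPrd : St_prd := tPrd
theorem zGmaj : St_gmaj := tGmaj zFej zPrd
theorem zBmaj : St_bmaj := tBmaj zFej zPrd
theorem zSmaj : St_smaj := tSmaj zFej zPrd
theorem zLmaj : St_lmaj := tLmaj zFej zPrd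
theorem zHoef : St_hoef := tHoef
theorem zDigf : St_digf := tDigf
theorem zUnif : St_unif := tUnif
theorem zCrude : St_crude := tCrude zHoef zDigf zUnif
theorem zTyp : St_typ := tTyp zUnif
theorem zDeepC : St_deep2 := tDeepC
theorem zSG : St_SG := tSG zLowUp zGmaj zCrude zTyp zDeepC
theorem zSolG : St_solG := tSolG
theorem zPer : St_per := tPer
theorem zGHs : St_GHs := tGHs zCrude zPer
theorem zGHl : St_GHl := tGHl zSG zPer
theorem zGH : St_GH := tGH zSolG zGHs zGHl
theorem zTop : St_top := tTop zGeo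
theorem zComb : St_comb := tComb zDep zTop
theorem zUpLow : St_upLow := tUpLow zLowUp
theorem zParF : St_parF := tParF
theorem zFM : St_FM := tFM zBmaj zComb zParF
theorem zLM : St_LM := tLM zLmaj zComb zParF
theorem zSM : St_SM := tSM zSmaj zComb zParF
theorem zSM2 : St_SM2 := tSM2 zSmaj zUpLow zParF
theorem zCnt : St_cnt := tCnt
theorem zVb : St_vb := tVb
theorem zCntJ : St_cntJ := tCntJ zCnt zVb zParF
theorem zCntP : St_cntP := tCntP zCnt zVb zParF
theorem zCntD : St_cntD := tCntD zParF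
theorem zBCbox : St_BCbox := tBCbox zParF zFM zLM zSM zSM2 zCntJ zCntP zCntD
theorem zBC : St_BC := tBC zParF zBCbox
theorem zSel : St_Sel := tSel
theorem zExcTop : St_ExcTop := tExcTop
theorem zExcSum : St_ExcSum := tExcSum zCnt zVb
theorem zSolB : St_solB := tSolB
theorem zBH : St_BH := tBH zBC zSel zExcTop zExcSum zSolB
theorem zQlq : St_qlq := tQlq
theorem zRank : St_rank := tRank
theorem zTLa : St_TLa := tTLa zQlq
theorem zTLb : St_TLb := tTLb zRank
theorem zTLc : St_TLc := tTLc zRank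
theorem zPair : St_pair := tPair
theorem zSmo : St_smo := tSmo
theorem zSq : St_sq := tSq
theorem zBdr : St_bdr := tBdr
theorem zGood : St_good := tGood zGH
theorem zBad : St_bad := tBad zBH zPair
theorem zFin : St_Fin := tFin zTLa zTLb zTLc zPair zSmo zSq zBdr zGood zBad

end ESAs
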