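import Pool.Agent.ESAs.Stmts

open Finset

namespace ESAs

namespace Good

lemma sum_inv_le (Y : ℕ) (hY : 1 ≤ Y) : ∑ m ∈ Icc 1 Y, (1 : ℝ) / m ≤ 1 + Real.log Y := by
  have h := harmonic_le_one_add_log Y
  rw [harmonic_eq_sum_Icc] at h
  push_cast at h
  simpa [one_div] using h

/-- `(K s + 1) e^{-c s / 2} ≤ 1` for large `s` -/
lemma ev (K c : ℝ) (hK : 1 ≤ K) (hc : 0 < c) : ∃ s1 : ℝ, 0 < s1 ∧ ∀ s, s1 ≤ s →
    (K * s + 1) * Real.exp (-(c * s)) ≤ Real.exp (-(c / 2 * s)) := by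
  -- `exp (c s / 2) ≥ 1 + c s/2 + (c s/2)^2/2`
  refine ⟨max 1 (8 * (K + 1) / c ^ 2), lt_max_of_lt_left one_pos, fun s hs => ?_⟩
  have hs1 : 1 ≤ s := (le_max_left _ _).trans hs
  have hs2 : 8 * (K + 1) / c ^ 2 ≤ s := (le_max_right _ _).trans hs
  have h1 : K * s + 1 ≤ (K + 1) * s := by nlinarith
  have h2 : (c / 2 * s) ^ 2 / 2 ≤ Real.exp (c / 2 * s) := by
    have := Real.quadratic_le_exp_of_nonneg (x := c / 2 * s) (by positivity)
    have h3 : 0 ≤ c / 2 * s := by positivity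
    linarith
  have h3 : (K + 1) * s ≤ (c / 2 * s) ^ 2 / 2 := by
    rw [div_le_iff₀ (by positivity)] at hs2
    have : 8 * (K + 1) * s ≤ s * c ^ 2 * s := by
      apply mul_le_mul_of_nonneg_right hs2 (by linarith)
    nlinarith
  have h4 : K * s + 1 ≤ Real.exp (c / 2 * s) := by linarith
  have h5 : Real.exp (-(c * s)) = Real.exp (-(c / 2 * s)) * Real.exp (-(c / 2 * s)) := by
    rw [← Real.exp_add]; congr 1; ring
  rw [h5, ← mul_assoc]
  have h6 : (K * s + 1) * Real.exp (-(c / 2 * s)) ≤ 1 := by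
    calc (K * s + 1) * Real.exp (-(c / 2 * s)) ≤
          Real.exp (c / 2 * s) * Real.exp (-(c / 2 * s)) := by gcongr
      _ = 1 := by rw [← Real.exp_add]; simp
  calc (K * s + 1) * Real.exp (-(c / 2 * s)) * Real.exp (-(c / 2 * s)) ≤
        1 * Real.exp (-(c / 2 * s)) := by gcongr
    _ = _ := one_mul _

end Good

open Good in
theorem tGood (hGH : St_GH) : St_good := by
  classical
  intro K δ ε hK hδ hKδ hε hε2
  obtain ⟨c, s0, hc, hs0, hmain⟩ := hGH K δ ε hK hδ hKδ hε hε2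
  obtain ⟨s1, hs1, hev⟩ := ev K c hK hc
  refine ⟨c / 2, max s0 s1, by positivity, lt_max_of_lt_left hs0, ?_⟩
  intro x s hs hxs
  have hs0' : s0 ≤ s := (le_max_left _ _).trans hs
  have hs1' : s1 ≤ s := (le_max_right _ _).trans hs
  have hspos : 0 < s := lt_of_lt_of_le hs0 hs0'
  set Y : ℕ := ⌊Real.exp (K * s)⌋₊ with hY
  have hY1 : 1 ≤ Y := by
    rw [hY, Nat.one_le_floor_iff]
    exact Real.one_le_exp (by positivity)
  set Mg : ℕ → Prop := fun m => 2 ≤ m ∧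
    (∀ r : ℕ, r.Prime → r ^ 2 ∣ m → (r : ℝ) ≤ Real.exp (δ * s)) ∧
    Real.log (ESGcd.maxPrime m) * Real.log ((m / ESGcd.maxPrime m : ℕ) : ℝ) ≤ (1 - ε) * s ^ 2
    with hMg
  set B : ℕ → Finset ℕ := fun m =>
    {P ∈ Icc 1 (x / m) | P.Prime ∧ m < P ∧ ¬ ESGcd.IsSolution (m * P)} with hB
  have hsub : {n ∈ Icc 2 x | 2 ≤ n / ESGcd.maxPrime n ∧
      ((n / ESGcd.maxPrime n : ℕ) : ℝ) ≤ Real.exp (K * s) ∧
      n / ESGcd.maxPrime n < ESGcd.maxPrime n ∧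
      (∀ r : ℕ, r.Prime → r ^ 2 ∣ n / ESGcd.maxPrime n → (r : ℝ) ≤ Real.exp (δ * s)) ∧
      Real.log (secPrime n) * Real.log (cofac n) ≤ (1 - ε) * s ^ 2 ∧
      ¬ ESGcd.IsSolution n} ⊆
      ({m ∈ Icc 1 Y | Mg m}).biUnion (fun m => (B m).image (fun P => m * P)) := by
    intro n hn
    rw [mem_filter, mem_Icc] at hn
    obtain ⟨⟨hn2, hnx⟩, h1, h2, h3, h4, h5, h6⟩ := hn
    obtain ⟨hPp, hPd⟩ := ESGcd.maxPrime_spec hn2
    have hmul : n / ESGcd.maxPrime n * ESGcd.maxPrime n = n := Nat.div_mul_cancel hPd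
    rw [mem_biUnion]
    refine ⟨n / ESGcd.maxPrime n, ?_, ?_⟩
    · rw [mem_filter, mem_Icc]
      refine ⟨⟨by omega, ?_⟩, h1, h4, h5⟩
      rw [hY]; exact Nat.le_floor h2
    · rw [mem_image]
      refine ⟨ESGcd.maxPrime n, ?_, hmul⟩
      rw [hB, mem_filter, mem_Icc]
      refine ⟨⟨hPp.one_lt.le, ?_⟩, hPp, h3, ?_⟩
      · rw [Nat.le_div_iff_mul_le (by omega), mul_comm, hmul]; exact hnx
      · rw [hmul]; exact h6
  have hcard : (#({n ∈ Icc 2 x | 2 ≤ n / ESGcd.maxPrime n ∧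
      ((n / ESGcd.maxPrime n : ℕ) : ℝ) ≤ Real.exp (K * s) ∧
      n / ESGcd.maxPrime n < ESGcd.maxPrime n ∧
      (∀ r : ℕ, r.Prime → r ^ 2 ∣ n / ESGcd.maxPrime n → (r : ℝ) ≤ Real.exp (δ * s)) ∧
      Real.log (secPrime n) * Real.log (cofac n) ≤ (1 - ε) * s ^ 2 ∧
      ¬ ESGcd.IsSolution n}) : ℝ) ≤ ∑ m ∈ {m ∈ Icc 1 Y | Mg m}, (#(B m) : ℝ) := by
    have h1 := (card_le_card hsub).trans card_biUnion_le
    have h2 : ∑ m ∈ {m ∈ Icc 1 Y | Mg m}, #((B m).image (fun P => m * P)) ≤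
        ∑ m ∈ {m ∈ Icc 1 Y | Mg m}, #(B m) := sum_le_sum fun m _ => card_image_le
    exact_mod_cast h1.trans h2
  refine hcard.trans ?_
  have hB1 : ∀ m ∈ {m ∈ Icc 1 Y | Mg m},
      (#(B m) : ℝ) ≤ Real.exp (-(c * s)) * x * ((1 : ℝ) / m) := by
    intro m hm
    rw [mem_filter, mem_Icc] at hm
    obtain ⟨⟨_, hmY⟩, hm2, hmr, hml⟩ := hm
    have h1 : (m : ℝ) ≤ Real.exp (K * s) := by
      have := Nat.floor_le (Real.exp_pos (K * s)).le
      have h2 : (m : ℝ) ≤ Y := by exact_mod_cast hmY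
      exact h2.trans this
    have := hmain x m s hs0' hxs hm2 h1 hmr hml
    calc (#(B m) : ℝ) ≤ Real.exp (-(c * s)) * ((x : ℝ) / m) := this
      _ = _ := by ring
  refine (sum_le_sum hB1).trans ?_
  rw [← mul_sum]
  have hS : ∑ m ∈ {m ∈ Icc 1 Y | Mg m}, (1 : ℝ) / m ≤ K * s + 1 := by
    have h1 : ∑ m ∈ {m ∈ Icc 1 Y | Mg m}, (1 : ℝ) / m ≤ ∑ m ∈ Icc 1 Y, (1 : ℝ) / m :=
      sum_le_sum_of_subset_of_nonneg (filter_subset _ _) fun _ _ _ => by positivity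
    have h2 := sum_inv_le Y hY1
    have h3 : Real.log Y ≤ K * s := by
      have h4 : (Y : ℝ) ≤ Real.exp (K * s) := Nat.floor_le (Real.exp_pos _).le
      have h5 : (0 : ℝ) < Y := by exact_mod_cast hY1
      calc Real.log Y ≤ Real.log (Real.exp (K * s)) := Real.log_le_log h5 h4
        _ = K * s := Real.log_exp _
    linarith
  calc Real.exp (-(c * s)) * x * ∑ m ∈ {m ∈ Icc 1 Y | Mg m}, (1 : ℝ) / m ≤
        Real.exp (-(c * s)) * x * (K * s + 1) := by gcongr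
    _ = (K * s + 1) * Real.exp (-(c * s)) * x := by ring
    _ ≤ Real.exp (-(c / 2 * s)) * x := by
        have := hev s hs1'
        gcongr

end ESAs
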