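import Pool.Agent.ESAs.Basic
import Pool.Agent.ESGcd.Loc
import Pool.Agent.ESGcd.Main

/-!
# Statements of the modules
-/

namespace ESAs

open Finset
open scoped Classical

/-! ### I. Trigonometric sums -/

/-- geometric sum -/
def St_geo : Prop := ∀ (β : ℝ) (N : ℕ), 0 < dn β →
  ‖∑ h ∈ range N, ec (β * h)‖ ≤ 1 / (2 * dn β)

def St_rec : Prop := ∀ (k q H : ℕ) (J : Fin k → ℕ) (c : ℕ → (Fin k → ℤ) → ℂ) (L : ℕ) (κ : ℤ),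
  0 < q → lowS q H J c (L + 1) κ = ∑ a ∈ box k H,
    if (q : ℤ) ∣ ip a J + κ then c L a * q * lowS q H J c L ((ip a J + κ) / q) else 0

def St_word : Prop := ∀ (k q H : ℕ) (J : Fin k → ℕ) (c : ℕ → (Fin k → ℤ) → ℂ) (L : ℕ) (κ : ℤ),
  0 < q → lowS q H J c L κ ≠ 0 → ∃ w : ℕ → Fin k → ℤ, (∀ t, w t ∈ box k H) ∧
    (q : ℤ) ^ L ∣ κ + ∑ t ∈ range L, ip (w t) J * (q : ℤ) ^ t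

def St_dep : Prop := ∀ (k q H R : ℕ) (J : Fin k → ℕ) (c : ℕ → (Fin k → ℤ) → ℂ) (L : ℕ),
  0 < q → R ≤ L → ¬ Deep q H R J →
    lowS q H J c L 0 = (∏ i ∈ Ico R L, c i 0) * (q : ℂ) ^ (L - R) * lowS q H J c R 0

def St_lowUp : Prop := ∀ (k q H R : ℕ) (J : Fin k → ℕ) (L : ℕ) (g : ℕ → (Fin k → ℝ) → ℝ)
  (c : ℕ → (Fin k → ℤ) → ℂ) (μ : ℕ → ℝ) (A : ℝ), 0 < q → R ≤ L → ¬ Deep q H R J →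
  (∀ i, Maj k H (g i) (c i) (μ i) A) → (∀ i t, 0 ≤ g i t) →
  ∑ n ∈ range (q ^ L), ∏ i ∈ range L, g i (pt q J i n) ≤
      ∑ n ∈ range (q ^ L), ∏ i ∈ range L, (tp H (c i) (pt q J i n)).re ∧
    ∑ n ∈ range (q ^ L), ∏ i ∈ range L, (tp H (c i) (pt q J i n)).re ≤
      (∏ i ∈ Ico R L, μ i) * (q : ℝ) ^ L * A ^ R

/-! ### II. Majorants -/

def St_fej : Prop := ∃ C : ℝ, 0 < C ∧ ∀ (H : ℕ) (α β : ℝ), 1 ≤ H → 0 ≤ α → α ≤ β → β ≤ 1 →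
  ∃ (c c' : ℤ → ℂ) (μ μ' : ℝ),
    (∀ x, (t1 H c x).im = 0 ∧ 0 ≤ (t1 H c x).re ∧ (t1 H c x).re ≤ 2 ∧
      (α ≤ Int.fract x → Int.fract x ≤ β → 1 ≤ (t1 H c x).re)) ∧
    c 0 = (μ : ℂ) ∧ β - α ≤ μ ∧ μ ≤ β - α + C / √H ∧ (∀ k, ‖c k‖ ≤ 2) ∧
    (∀ x, (t1 H c' x).im = 0 ∧ 0 ≤ (t1 H c' x).re ∧ (t1 H c' x).re ≤ 20 ∧
      (t1 H c x).re ≤ (t1 H c' x).re + (if α ≤ Int.fract x ∧ Int.fract x < β then 1 else 0)) ∧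
    c' 0 = (μ' : ℂ) ∧ 0 ≤ μ' ∧ μ' ≤ C / √H ∧ (∀ k, ‖c' k‖ ≤ 20)

def St_prd : Prop := ∀ (k H : ℕ) (c : Fin k → ℤ → ℂ) (t : Fin k → ℝ),
  tp H (fun a => ∏ j, c j (a j)) t = ∏ j, t1 H (c j) (t j)

def St_gmaj : Prop := ∃ C0 : ℝ, 0 < C0 ∧ ∀ b : ℕ, 2 ≤ b → ∃ (c : (Fin 2 → ℤ) → ℂ) (μ : ℝ),
  Maj 2 (HH b) (gG (1 / b)) c μ ((b : ℝ) ^ 20) ∧ μ ≤ 1 + C0 / b

def St_bmaj : Prop := ∃ C0 : ℝ, 0 < C0 ∧ ∀ b : ℕ, 2 ≤ b →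
  ∃ (c c' : (Fin 2 → ℤ) → ℂ) (μ μ' : ℝ),
    Maj 2 (HH b) (gF (1 / b)) c μ ((b : ℝ) ^ 20) ∧ 1 - C0 / b ≤ μ ∧ μ ≤ 1 + C0 / b ∧
    Maj 2 (HH b) (fun t => (tp (HH b) c t).re - gF (1 / b) t) c' μ' ((b : ℝ) ^ 20) ∧
    μ' ≤ C0 / b

def St_smaj : Prop := ∃ C0 : ℝ, 0 < C0 ∧ ∀ b : ℕ, 2 ≤ b → ∃ (c : (Fin 3 → ℤ) → ℂ) (μ : ℝ),
  Maj 3 (HH b) (gS (1 / b)) c μ ((b : ℝ) ^ 20) ∧ μ ≤ 1 + C0 / b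

def St_lmaj : Prop := ∃ C0 : ℝ, 0 < C0 ∧ ∀ (b : ℕ) (l : ℝ), 2 ≤ b → 0 ≤ l → l ≤ 1 / 2 →
  ∃ (c : (Fin 2 → ℤ) → ℂ) (μ : ℝ),
    Maj 2 (HH b) (gL (1 / b) l) c μ ((b : ℝ) ^ 20) ∧ μ ≤ 1 / (1 - l) + C0 / b

/-! ### III. The good half -/

def St_hoef : Prop := ∀ (q L : ℕ) (α : ℝ), 2 ≤ q → 0 ≤ α →
  (#{u ∈ range (q ^ L) | ((q : ℝ) - 1) * ((1 / 2 + α) * L) ≤ dsum q L u} : ℝ) ≤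
      (q : ℝ) ^ L * Real.exp (-(2 * α ^ 2 * L)) ∧
  (#{u ∈ range (q ^ L) | (dsum q L u : ℝ) ≤ ((q : ℝ) - 1) * ((1 / 2 - α) * L)} : ℝ) ≤
      (q : ℝ) ^ L * Real.exp (-(2 * α ^ 2 * L))

def St_digf : Prop := ∀ (q L u : ℕ), 2 ≤ q →
  ∑ i ∈ range L, ((u % q ^ (i + 1) : ℕ) : ℝ) / (q : ℝ) ^ (i + 1) =
    ((dsum q L u : ℝ) - ((u % q ^ L : ℕ) : ℝ) / (q : ℝ) ^ L) / ((q : ℝ) - 1)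

def St_unif : Prop := ∀ (q L v j : ℕ) (F : ℕ → Prop), q.Prime → ¬ q ∣ j → v ≤ L →
  #{n ∈ range (q ^ L) | F ((j * n) % q ^ (L - v))} = q ^ v * #{u ∈ range (q ^ (L - v)) | F u}

def St_crude : Prop := ∀ (q m j L a σ : ℕ), q.Prime → 0 < j → j < m → ¬ q ^ (σ + 1) ∣ j →
  ¬ q ^ (σ + 1) ∣ (m - j) → ¬ q ^ (σ + 1) ∣ m → 20 * (σ + a + 1) ≤ L → 400 ≤ L →
  (#{n ∈ range (q ^ L) | carr q m j L n ≤ a} : ℝ) ≤ 3 * (q : ℝ) ^ L * Real.exp (-((L : ℝ) / 100))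

def St_typ : Prop := ∀ (q M L : ℕ) (κ η : ℝ), 2 ≤ q → Nat.Coprime q M → 0 < η → η ≤ 1 → 0 ≤ κ →
  κ + 1 / q ≤ η ^ 2 / 8 →
  (#{n ∈ range (q ^ L) | Real.exp (-((1 - η) * L)) <
      ∏ i ∈ range L, max (((M * n % q ^ (i + 1) : ℕ) : ℝ) / (q : ℝ) ^ (i + 1)) κ} : ℝ) ≤
    (q : ℝ) ^ L * Real.exp (-(η ^ 2 / 4 * L))

def St_deep2 : Prop := ∀ (q H R M : ℕ), q.Prime → H < q → ¬ q ∣ M → M ≤ q ^ (R + 1) →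
  #{J ∈ range M | Deep q H R ![J, M]} ≤ (2 * H + 1) ^ (2 * (R + 1))

def St_SG : Prop := ∀ (η : ℝ) (R : ℕ), 0 < η → η ≤ 1 / 8 → ∃ (q0 L0 : ℕ) (C c : ℝ),
  0 < C ∧ 0 < c ∧ ∀ q M L : ℕ, q.Prime → q0 ≤ q → L0 ≤ L → ¬ q ∣ M → 1 ≤ M → M ≤ q ^ (R + 1) →
    Real.log M ≤ (1 - 4 * η) * L →
    (#{n ∈ range (q ^ L) | ∃ J, 0 < J ∧ J < M ∧ Dom q J M L n} : ℝ) ≤
      C * (q : ℝ) ^ L * Real.exp (-(c * L))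

def St_solG : Prop := ∀ m P : ℕ, 2 ≤ m → P.Prime → m < P → ¬ ESGcd.IsSolution (m * P) →
  ∃ r, r.Prime ∧ r ∣ m ∧ ∃ j, 0 < j ∧ j < m ∧ (∀ L, carr r m j L P < m.factorization r) ∧
    (m.factorization r = 1 → ∃ J, 0 < J ∧ J < m / r ∧ ∀ L, Dom r J (m / r) L P)

/-- counting in residue classes -/
def St_per : Prop := ∀ (Q X : ℕ) (F : ℕ → Prop), 0 < Q → Q ≤ X → (∀ n, F (n % Q) ↔ F n) →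
  (#{n ∈ Icc 1 X | F n} : ℝ) ≤ 2 * ((X : ℝ) / Q) * #{n ∈ range Q | F n}

/-- small primes in the good half -/
def St_GHs : Prop := ∀ (K δ : ℝ), 1 ≤ K → 0 < δ → 200 * (K + 2) * δ ≤ 1 →
  ∃ s0 : ℝ, 0 < s0 ∧ ∀ (X m r : ℕ) (s : ℝ), s0 ≤ s → s ^ 2 - K * s ≤ Real.log X + 1 → 2 ≤ m →
    (m : ℝ) ≤ Real.exp (K * s) → r.Prime → r ∣ m → (r : ℝ) ≤ Real.exp (δ * s) →
    (#{P ∈ Icc 1 X | ∃ j, 0 < j ∧ j < m ∧ ∀ L, carr r m j L P < m.factorization r} : ℝ) ≤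
      Real.exp (-s) * X

/-- large primes in the good half -/
def St_GHl : Prop := ∀ (K δ ε : ℝ), 1 ≤ K → 0 < δ → 0 < ε → ε ≤ 1 / 2 →
  ∃ c s0 : ℝ, 0 < c ∧ 0 < s0 ∧ ∀ (X m r : ℕ) (s : ℝ), s0 ≤ s →
    s ^ 2 - K * s ≤ Real.log X + 1 → 2 ≤ m →
    (m : ℝ) ≤ Real.exp (K * s) → r.Prime → r ∣ m → ¬ r ^ 2 ∣ m → Real.exp (δ * s) < r →
    Real.log (ESGcd.maxPrime m) * Real.log ((m / ESGcd.maxPrime m : ℕ) : ℝ) ≤ (1 - ε) * s ^ 2 →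
    (#{P ∈ Icc 1 X | ∃ J, 0 < J ∧ J < m / r ∧ ∀ L, Dom r J (m / r) L P} : ℝ) ≤
      Real.exp (-(c * s)) * X

def St_GH : Prop := ∀ (K δ ε : ℝ), 1 ≤ K → 0 < δ → 200 * (K + 2) * δ ≤ 1 → 0 < ε → ε ≤ 1 / 2 →
  ∃ c s0 : ℝ, 0 < c ∧ 0 < s0 ∧ ∀ (x m : ℕ) (s : ℝ), s0 ≤ s → Real.log x = s ^ 2 → 2 ≤ m →
    (m : ℝ) ≤ Real.exp (K * s) → (∀ r : ℕ, r.Prime → r ^ 2 ∣ m → (r : ℝ) ≤ Real.exp (δ * s)) →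
    Real.log (ESGcd.maxPrime m) * Real.log ((m / ESGcd.maxPrime m : ℕ) : ℝ) ≤ (1 - ε) * s ^ 2 →
    (#{P ∈ Icc 1 (x / m) | P.Prime ∧ m < P ∧ ¬ ESGcd.IsSolution (m * P)} : ℝ) ≤
      Real.exp (-(c * s)) * ((x : ℝ) / m)

/-! ### IV. The bad half -/

def St_top : Prop := ∀ (k q H : ℕ) (J : Fin k → ℕ) (c : ℕ → (Fin k → ℤ) → ℂ)
  (L Rr N n0 : ℕ) (ξ A : ℝ), 0 < q → 0 < ξ → 0 ≤ A → (∀ i a, ‖c i a‖ ≤ A) →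
  TopGen q H Rr ξ J →
  ‖∑ h ∈ range N, ∏ t ∈ range Rr, tp H (c (L + t)) (pt q J (L + t) (n0 + q ^ L * h)) -
      N * ∏ t ∈ range Rr, c (L + t) 0‖ ≤ ((((2 * H + 1) ^ k : ℕ) : ℝ) * A) ^ Rr / (2 * ξ)

def St_comb : Prop := ∀ (k q H : ℕ) (J : Fin k → ℕ) (g : ℕ → (Fin k → ℝ) → ℝ)
  (c : ℕ → (Fin k → ℤ) → ℂ) (μ : ℕ → ℝ) (L Rr N : ℕ) (ξ A : ℝ), 0 < q → 0 < ξ → 0 ≤ A →
  (∀ i, Maj k H (g i) (c i) (μ i) A) → (∀ i t, 0 ≤ g i t) →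
  ¬ Deep q H 0 J → TopGen q H Rr ξ J →
  |∑ n ∈ range (q ^ L * N), ∏ i ∈ range (L + Rr), (tp H (c i) (pt q J i n)).re -
      (q : ℝ) ^ L * N * ∏ i ∈ range (L + Rr), μ i| ≤
    (q : ℝ) ^ L * (∏ i ∈ range L, μ i) * (((((2 * H + 1) ^ k : ℕ) : ℝ) * A) ^ Rr / (2 * ξ))

def St_upLow : Prop := ∀ (k q H : ℕ) (J : Fin k → ℕ) (g : ℕ → (Fin k → ℝ) → ℝ)
  (c : ℕ → (Fin k → ℤ) → ℂ) (μ : ℕ → ℝ) (L Rr N : ℕ) (A : ℝ), 0 < q → Rr ≤ L → 0 ≤ A →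
  (∀ i, Maj k H (g i) (c i) (μ i) A) → (∀ i t, 0 ≤ g i t) → ¬ Deep q H Rr J →
  ∑ n ∈ range (q ^ L * N), ∏ i ∈ range (L + Rr), (tp H (c i) (pt q J i n)).re ≤
    (q : ℝ) ^ L * N * (∏ i ∈ Ico Rr L, μ i) * A ^ (2 * Rr)

/-- consequences of the choice of the parameters -/
def St_parF : Prop := ∀ (b q M N X L Rr : ℕ) (η : ℝ), Par b q M N X L Rr η →
  2 * HH b + 1 ≤ b ^ 16 ∧ 2 * HH b + 2 ≤ q ∧ uu b Rr ≤ N ∧ 1 ≤ M ∧ N * q ≤ q ^ Rr ∧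
  q * uu b Rr ≤ X / q ^ L ∧ q ^ L * (X / q ^ L) ≤ X ∧ X ≤ 2 * (q ^ L * (X / q ^ L)) ∧
  0 < xi b q X L Rr ∧
  xi b q X L Rr * ((q : ℝ) * uu b Rr) ≤ (b : ℝ) ^ (100 * (Rr + 1)) ∧
  xi b q X L Rr * (q : ℝ) ^ Rr * uu b Rr ≤ 2 * (b : ℝ) ^ (100 * (Rr + 1)) * N ∧
  (∀ k ≤ 3, ((((2 * HH b + 1) ^ k : ℕ) : ℝ) * (b : ℝ) ^ 20) ^ Rr / (2 * xi b q X L Rr) ≤
    ((X / q ^ L : ℕ) : ℝ) / (b : ℝ) ^ 50) ∧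
  L + Rr ≤ b

/-- first moment -/
def St_FM : Prop := ∃ C : ℝ, 0 < C ∧ ∀ (b q M N X L Rr : ℕ) (η : ℝ), Par b q M N X L Rr η →
  ∀ J, ¬ Deep q (HH b) 0 ![J, M] → TopGen q (HH b) Rr (xi b q X L Rr) ![J, M] →
  (q : ℝ) ^ L * ((X / q ^ L : ℕ) : ℝ) * (1 - C * ((L : ℝ) + Rr) / b) ≤
      ∑ n ∈ range (q ^ L * (X / q ^ L)), ∏ i ∈ range (L + Rr), gF (1 / b) (pt q ![J, M] i n) ∧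
    ∑ n ∈ range (q ^ L * (X / q ^ L)), ∏ i ∈ range (L + Rr), gF (1 / b) (pt q ![J, M] i n) ≤
      (q : ℝ) ^ L * ((X / q ^ L : ℕ) : ℝ) * (1 + C * ((L : ℝ) + Rr) / b)

/-- the first moment over the atypical integers -/
def St_LM : Prop := ∃ C : ℝ, 0 < C ∧ ∀ (b q M N X L Rr : ℕ) (η : ℝ), Par b q M N X L Rr η →
  ∀ J, ¬ Deep q (HH b) 0 ![J, M] → TopGen q (HH b) Rr (xi b q X L Rr) ![J, M] →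
  ∑ n ∈ range (q ^ L * (X / q ^ L)) with
      ∏ i ∈ range (L + Rr), max (((M * n % q ^ (i + 1) : ℕ) : ℝ) / (q : ℝ) ^ (i + 1)) (1 / b) <
        Real.exp (-((1 + η) * ((L : ℝ) + Rr))),
      ∏ i ∈ range (L + Rr), gF (1 / b) (pt q ![J, M] i n) ≤
    (q : ℝ) ^ L * ((X / q ^ L : ℕ) : ℝ) * (C * Real.exp (-(η ^ 2 / 4 * ((L : ℝ) + Rr))))

/-- second moment, generic pairs -/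
def St_SM : Prop := ∃ C : ℝ, 0 < C ∧ ∀ (b q M N X L Rr : ℕ) (η : ℝ), Par b q M N X L Rr η →
  ∀ J J', ¬ Deep q (HH b) 0 ![J, J', M] → TopGen q (HH b) Rr (xi b q X L Rr) ![J, J', M] →
  ∑ n ∈ range (q ^ L * (X / q ^ L)), ∏ i ∈ range (L + Rr), gS (1 / b) (pt q ![J, J', M] i n) ≤
    (q : ℝ) ^ L * ((X / q ^ L : ℕ) : ℝ) * (1 + C * ((L : ℝ) + Rr) / b)

/-- second moment, pairs which are not deep -/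
def St_SM2 : Prop := ∃ C : ℝ, 0 < C ∧ ∀ (b q M N X L Rr : ℕ) (η : ℝ), Par b q M N X L Rr η →
  ∀ J J', ¬ Deep q (HH b) Rr ![J, J', M] →
  ∑ n ∈ range (q ^ L * (X / q ^ L)), ∏ i ∈ range (L + Rr), gS (1 / b) (pt q ![J, J', M] i n) ≤
    (q : ℝ) ^ L * ((X / q ^ L : ℕ) : ℝ) * (C * (b : ℝ) ^ (40 * Rr))

def St_cnt : Prop := ∀ (v c ξ : ℝ) (Y0 Y : ℕ), 0 < v → 0 < ξ →
  (#{M ∈ Ico Y0 (Y0 + Y) | dn (((M : ℕ) : ℝ) * v + c) < ξ} : ℝ) ≤ (v * Y + 2) * (2 * ξ / v + 1)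

def St_vb : Prop := ∀ (q H R : ℕ) (a : ℕ → ℤ), 2 * H + 2 ≤ q → (∀ t, |a t| ≤ (H : ℤ)) →
  (∃ t < R, a t ≠ 0) →
  1 / (2 * (q : ℝ) ^ R) ≤ |∑ t ∈ range R, (a t : ℝ) / (q : ℝ) ^ (t + 1)| ∧
    |∑ t ∈ range R, (a t : ℝ) / (q : ℝ) ^ (t + 1)| ≤ 2 * H / q

def St_cntJ : Prop := ∀ (b q M N X L Rr : ℕ) (η : ℝ), Par b q M N X L Rr η →
  (#{J ∈ Icc 1 N | Deep q (HH b) 0 ![J, M] ∨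
      ¬ TopGen q (HH b) Rr (xi b q X L Rr) ![J, M]} : ℝ) ≤ N / (b : ℝ) ^ (100 * (Rr + 1))

def St_cntP : Prop := ∀ (b q M N X L Rr : ℕ) (η : ℝ), Par b q M N X L Rr η →
  (#{p ∈ Icc 1 N ×ˢ Icc 1 N | Deep q (HH b) 0 ![p.1, p.2, M] ∨
      ¬ TopGen q (HH b) Rr (xi b q X L Rr) ![p.1, p.2, M]} : ℝ) ≤
    (N : ℝ) ^ 2 / (b : ℝ) ^ (100 * (Rr + 1))

def St_cntD : Prop := ∀ (b q M N X L Rr : ℕ) (η : ℝ), Par b q M N X L Rr η →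
  (#{p ∈ Icc 1 N ×ˢ Icc 1 N | Deep q (HH b) Rr ![p.1, p.2, M]} : ℝ) ≤
    N * (b : ℝ) ^ (50 * (Rr + 1))

/-- second moment method on the box -/
def St_BCbox : Prop := ∃ C : ℝ, 0 < C ∧ ∀ (b q M N X L Rr : ℕ) (η : ℝ),
  Par b q M N X L Rr η →
  (#{n ∈ range (q ^ L * (X / q ^ L)) |
      ∀ J, 0 < J → J ≤ N → J < M → ¬ Dom q J M (L + Rr) n} : ℝ) ≤
    C * X * (((L : ℝ) + Rr) / b + Real.exp (-(η ^ 2 / 4 * ((L : ℝ) + Rr))))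

/-- all levels -/
def St_BC : Prop := ∃ C : ℝ, 0 < C ∧ ∀ (b q M N X L Rr : ℕ) (η : ℝ), Par b q M N X L Rr η →
  (#{n ∈ Icc 1 X | ∀ J, 0 < J → J < M →
      ∃ i, (M * n) % q ^ (i + 1) < (J * n) % q ^ (i + 1)} : ℝ) ≤
    C * X * (((L : ℝ) + Rr) / b + Real.exp (-(η ^ 2 / 4 * ((L : ℝ) + Rr))))

def St_Sel : Prop := ∀ (b q M X Rr : ℕ) (η : ℝ), q.Prime → 2 ≤ b → 0 < η → η ≤ 1 → 1 ≤ Rr →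
  2 * uu b Rr ^ 4 ≤ q → q * M ≤ q ^ Rr → ¬ q ∣ M → q ^ (2 * Rr + 2) ≤ X →
  (Real.log (M * X) / Real.log q) ^ 2 ≤ b →
  2 * (uu b Rr : ℝ) ^ 3 * Real.exp ((1 + η) * (Real.log (M * X) / Real.log q)) ≤ M →
  (∀ L, q ^ (L + Rr) * uu b Rr ≤ M * X → TopGen q (HH b) Rr (xi b q X L Rr) ![M]) →
  ∃ N L, Par b q M N X L Rr η

/-- exceptional cofactors -/
def Exc (q b Rr M : ℕ) : Prop := ∃ w : ℕ → Fin 1 → ℤ, (∀ t, w t ∈ box 1 (HH b)) ∧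
  (∃ t < Rr, w t ≠ 0) ∧
  dn (tfr q Rr ![M] w) < 4 * M * (b : ℝ) ^ (100 * (Rr + 1)) / (uu b Rr * (q : ℝ) ^ Rr)

def St_ExcTop : Prop := ∀ (b q M X Rr : ℕ), 2 ≤ b → 2 ≤ q → 1 ≤ Rr → 1 ≤ M →
  q * M ≤ q ^ Rr → ¬ Exc q b Rr M →
  ∀ L, q ^ (L + Rr) * uu b Rr ≤ M * X → TopGen q (HH b) Rr (xi b q X L Rr) ![M]

def St_ExcSum : Prop := ∀ (q b Rr Y0 Y1 : ℕ), 2 ≤ b → 1 ≤ Rr → 2 * uu b Rr ^ 4 ≤ q → 1 ≤ Y0 →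
  Y0 ≤ Y1 → Y1 ≤ q ^ Rr →
  ∑ M ∈ Icc Y0 Y1 with Exc q b Rr M, (1 : ℝ) / M ≤
    ((Nat.log 2 Y1 : ℝ) + 1) * (b : ℝ) ^ (20 * Rr) *
      (1 / (b : ℝ) ^ (100 * (Rr + 1)) + 2 / Y0)

def St_solB : Prop := ∀ q M P : ℕ, q.Prime → P.Prime → ¬ q ∣ M → q * M < P →
  ESGcd.IsSolution (q * M * P) → ∀ J, 0 < J → J < M →
    ∃ i, (M * P) % q ^ (i + 1) < (J * P) % q ^ (i + 1)

def St_BH : Prop := ∀ (K δ ε : ℝ), 1 ≤ K → 0 < δ → δ ≤ 1 → 0 < ε → ε ≤ 1 →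
  ∃ (c s0 : ℝ) (E : ℕ → ℕ → ℕ → Prop), 0 < c ∧ 0 < s0 ∧
    ∀ (x : ℕ) (s : ℝ), s0 ≤ s → Real.log x = s ^ 2 → ∀ q : ℕ, q.Prime →
      Real.exp (δ * s) < q → (q : ℝ) ≤ Real.exp (K * s) →
      (∀ M : ℕ, ¬ q ∣ M → (q : ℝ) * M ≤ Real.exp (K * s) →
        (1 + ε) * s ^ 2 ≤ Real.log q * Real.log M → ¬ E x q M →
        (#{P ∈ Icc 1 (x / (q * M)) | P.Prime ∧ q * M < P ∧
          ESGcd.IsSolution (q * M * P)} : ℝ) ≤ Real.exp (-(c * s)) * ((x : ℝ) / (q * M))) ∧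
      ∑ M ∈ Icc 1 ⌊Real.exp (K * s)⌋₊ with Real.exp (s / K) ≤ ((M : ℕ) : ℝ) ∧ E x q M, (1 : ℝ) / M ≤
        Real.exp (-(c * s))

/-! ### V. Counting -/

/-- `∑ 1/(q log q)` over primes `> z` -/
def St_qlq : Prop := ∃ C : ℝ, 0 < C ∧ ∀ (z : ℝ) (T : Finset ℕ), 2 ≤ z →
  (∀ q ∈ T, q.Prime ∧ z < q) → ∑ q ∈ T, 1 / ((q : ℝ) * Real.log q) ≤ C / Real.log z

/-- Rankin -/
def St_rank : Prop := ∃ C c : ℝ, 0 < C ∧ 0 < c ∧ ∀ (y Z : ℝ) (T : Finset ℕ), 2 ≤ y → 1 ≤ Z →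
  (∀ M ∈ T, 1 ≤ M ∧ Z ≤ M ∧ ∀ p, p.Prime → p ∣ M → (p : ℝ) ≤ y) →
  ∑ M ∈ T, 1 / (M : ℝ) ≤ C * Real.log y * Real.exp (-(c * Real.log Z / Real.log y))

def St_TLa : Prop := ∃ C : ℝ, 0 < C ∧ ∀ K : ℝ, 1 ≤ K → ∃ s0 : ℝ, ∀ (x : ℕ) (s : ℝ), s0 ≤ s →
  Real.log x = s ^ 2 →
  (#{n ∈ Icc 2 x | ¬ n.Prime ∧ Rule n ∧ Real.exp (K * s) < ((n / ESGcd.maxPrime n : ℕ) : ℝ) ∧
      cofac n ≤ secPrime n} : ℝ) ≤ C * (x / (K * s))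

def St_TLb : Prop := ∃ C : ℝ, 0 < C ∧ ∀ K : ℝ, 1 ≤ K → ∃ s0 : ℝ, ∀ (x : ℕ) (s : ℝ), s0 ≤ s →
  Real.log x = s ^ 2 →
  (#{n ∈ Icc 2 x | ¬ n.Prime ∧ Rule n ∧ Real.exp (K * s) < ((n / ESGcd.maxPrime n : ℕ) : ℝ) ∧
      secPrime n < cofac n ∧ (n / ESGcd.maxPrime n) ^ 2 ≤ x} : ℝ) ≤ C * (x / (K * s))

def St_TLc : Prop := ∃ C : ℝ, 0 < C ∧ ∀ K : ℝ, 1 ≤ K → ∃ s0 : ℝ, ∀ (x : ℕ) (s : ℝ), s0 ≤ s →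
  Real.log x = s ^ 2 →
  (#{n ∈ Icc 2 x | ¬ n.Prime ∧ Rule n ∧ secPrime n < cofac n ∧
      x < (n / ESGcd.maxPrime n) ^ 2} : ℝ) ≤ C * (x / (K * s))

def St_pair : Prop := ∃ C : ℝ, 0 < C ∧ ∀ K : ℝ, 1 ≤ K → ∃ s0 : ℝ, ∀ (x : ℕ) (s : ℝ), s0 ≤ s →
  Real.log x = s ^ 2 → ∀ S : Finset ℕ, (∀ m ∈ S, 1 ≤ m ∧ (m : ℝ) ≤ Real.exp (K * s)) →
  (#{n ∈ Icc 2 x | n / ESGcd.maxPrime n ∈ S} : ℝ) ≤ C * (x / s ^ 2) * ∑ m ∈ S, (1 : ℝ) / m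

def St_smo : Prop := ∃ C : ℝ, 0 < C ∧ ∀ (y : ℝ) (T : Finset ℕ), 2 ≤ y →
  (∀ m ∈ T, 1 ≤ m ∧ ∀ p, p.Prime → p ∣ m → (p : ℝ) ≤ y) →
  ∑ m ∈ T, (1 : ℝ) / m ≤ C * Real.log y

def St_sq : Prop := ∀ (z : ℝ) (Y : ℕ), 1 ≤ z → 1 ≤ Y →
  ∑ m ∈ Icc 1 Y with ∃ r : ℕ, r.Prime ∧ z < r ∧ r ^ 2 ∣ m, (1 : ℝ) / m ≤
    (Real.log Y + 1) * (2 / z)

def St_bdr : Prop := ∀ K δ ε : ℝ, 1 ≤ K → 0 < δ → 0 < ε → ε ≤ 1 / 4 → ∃ s0 : ℝ, ∀ s : ℝ,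
  s0 ≤ s → ∑ m ∈ Icc 1 ⌊Real.exp (K * s)⌋₊ with Real.exp (δ * s) < ESGcd.maxPrime m ∧
      (1 - ε) * s ^ 2 < Real.log (ESGcd.maxPrime m) *
        Real.log ((m / ESGcd.maxPrime m : ℕ) : ℝ) ∧
      Real.log (ESGcd.maxPrime m) * Real.log ((m / ESGcd.maxPrime m : ℕ) : ℝ) <
        (1 + ε) * s ^ 2, (1 : ℝ) / m ≤ 8 * ε * K * s

/-- failures in the good half -/
def St_good : Prop := ∀ (K δ ε : ℝ), 1 ≤ K → 0 < δ → 200 * (K + 2) * δ ≤ 1 → 0 < ε → ε ≤ 1 / 2 →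
  ∃ c s0 : ℝ, 0 < c ∧ 0 < s0 ∧ ∀ (x : ℕ) (s : ℝ), s0 ≤ s → Real.log x = s ^ 2 →
    (#{n ∈ Icc 2 x | 2 ≤ n / ESGcd.maxPrime n ∧
      ((n / ESGcd.maxPrime n : ℕ) : ℝ) ≤ Real.exp (K * s) ∧
      n / ESGcd.maxPrime n < ESGcd.maxPrime n ∧
      (∀ r : ℕ, r.Prime → r ^ 2 ∣ n / ESGcd.maxPrime n → (r : ℝ) ≤ Real.exp (δ * s)) ∧
      Real.log (secPrime n) * Real.log (cofac n) ≤ (1 - ε) * s ^ 2 ∧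
      ¬ ESGcd.IsSolution n} : ℝ) ≤ Real.exp (-(c * s)) * x

/-- failures in the bad half -/
def St_bad : Prop := ∀ (K δ ε : ℝ), 1 ≤ K → 0 < δ → δ ≤ 1 → 0 < ε → ε ≤ 1 →
  ∃ c s0 : ℝ, 0 < c ∧ 0 < s0 ∧ ∀ (x : ℕ) (s : ℝ), s0 ≤ s → Real.log x = s ^ 2 →
    (#{n ∈ Icc 2 x | 2 ≤ n / ESGcd.maxPrime n ∧
      ((n / ESGcd.maxPrime n : ℕ) : ℝ) ≤ Real.exp (K * s) ∧
      n / ESGcd.maxPrime n < ESGcd.maxPrime n ∧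
      (∀ r : ℕ, r.Prime → r ^ 2 ∣ n / ESGcd.maxPrime n → (r : ℝ) ≤ Real.exp (δ * s)) ∧
      Real.exp (δ * s) < secPrime n ∧
      (1 + ε) * s ^ 2 ≤ Real.log (secPrime n) * Real.log (cofac n) ∧
      ESGcd.IsSolution n} : ℝ) ≤ Real.exp (-(c * s)) * x

/-- **Main theorem.** -/
def St_Fin : Prop := ∀ ε : ℝ, 0 < ε → ∀ᶠ x : ℕ in Filter.atTop,
  ({n : ℕ | n ≤ x ∧ 1 < n ∧ ¬ n.Prime ∧ ¬ (ESGcd.IsSolution n ↔ Rule n)}.ncard : ℝ) ≤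
    ε * ({n : ℕ | n ≤ x ∧ ESGcd.IsSolution n}.ncard : ℝ)

end ESAs
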